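import Mathlib

set_option autoImplicit false

/-!
# Cycles through prescribed edges: the common neighbour closure

`HasCyc G E`: some cycle of `G` passes through all edges of `E`.
-/

namespace Pool.Agent.LWC

open SimpleGraph

universe w

variable {V : Type w}

/-- Some cycle of `G` contains every edge of `E`. -/
def HasCyc (G : SimpleGraph V) (E : Finset (Sym2 V)) : Prop :=
  ∃ (u : V) (p : G.Walk u u), p.IsCycle ∧ ∀ e ∈ E, e ∈ p.edges

theorem HasCyc.mono {G H : SimpleGraph V} {E : Finset (Sym2 V)} (hGH : G ≤ H)
    (h : HasCyc G E) : HasCyc H E := by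
  obtain ⟨u, p, hp, hE⟩ := h
  refine ⟨u, p.map (Hom.ofLE hGH), ?_, ?_⟩
  · exact (Walk.isCycle_map_iff_of_injective (f := Hom.ofLE hGH) (fun a b h => h)).2 hp
  · intro e he
    rw [Walk.edges_map]
    simpa using hE e he

/-- closing a path of length at least two by an edge -/
theorem close {G : SimpleGraph V} {v w : V} (d : G.Walk w v) (hd : d.IsPath) (h : G.Adj v w)
    (hl : 2 ≤ d.length) : (Walk.cons h d).IsCycle := by
  rw [Walk.cons_isCycle_iff]
  refine ⟨hd, fun he => ?_⟩
  have := hd.length_eq_one_of_mem_edges (by rwa [Sym2.eq_swap])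
  omega

/-- a path with at least two prescribed edges has length at least two -/
theorem two_le {G : SimpleGraph V} {v w : V} (d : G.Walk w v) {E : Finset (Sym2 V)}
    (hk : 2 ≤ E.card) (hE : ∀ e ∈ E, e ∈ d.edges) : 2 ≤ d.length := by
  classical
  have h1 : E ⊆ d.edges.toFinset := fun e he => List.mem_toFinset.2 (hE e he)
  have h2 := Finset.card_le_card h1
  have h3 := d.edges.toFinset_card_le
  rw [Walk.length_edges] at h3
  omega

theorem hasCyc_of_close {G : SimpleGraph V} {v w : V} (d : G.Walk w v) (hd : d.IsPath)
    (h : G.Adj v w) {E : Finset (Sym2 V)} (hk : 2 ≤ E.card) (hE : ∀ e ∈ E, e ∈ d.edges) :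
    HasCyc G E :=
  ⟨v, _, close d hd h (two_le d hk hE), fun e he => by
    rw [Walk.edges_cons]; exact List.mem_cons_of_mem _ (hE e he)⟩

/-- the crossing argument -/
theorem cross {G : SimpleGraph V} {u v x y : V} (a : G.Walk u x) (r : G.Walk x y) (s : G.Walk y v)
    (hp : (a.append (r.append s)).IsPath) (hxy : x ≠ y) (hvx : G.Adj v x) (huy : G.Adj u y)
    {E : Finset (Sym2 V)} (hk : 2 ≤ E.card) (hE : ∀ e ∈ E, e ∈ a.edges ∨ e ∈ s.edges) :
    HasCyc G E := by
  have hrs := hp.of_append_right
  have ha := hp.of_append_left
  have hs := hrs.of_append_right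
  have hp2 : ((a.append r).append s).IsPath := by rwa [Walk.append_assoc] at hp
  have hdis : ∀ z ∈ s.support, z ∉ a.support := by
    intro z hz hza
    by_cases hzy : z = y
    · subst hzy
      exact hp.ne_of_mem_support_of_append (y := z) hxy.symm hza
        ((Walk.mem_support_append_iff _ _).2 (Or.inr hz)) rfl
    · exact hp2.ne_of_mem_support_of_append (y := z) hzy
        ((Walk.mem_support_append_iff _ _).2 (Or.inl hza)) hz rfl
  have hq : (s.append (Walk.cons hvx a.reverse)).IsPath := by
    rw [Walk.isPath_def, Walk.support_append, Walk.support_cons, List.tail_cons,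
      Walk.support_reverse]
    rw [List.nodup_append']
    refine ⟨hs.support_nodup, ?_, ?_⟩
    · exact List.nodup_reverse.2 ha.support_nodup
    · intro z hz hz'
      exact hdis z hz (List.mem_reverse.1 hz')
  refine hasCyc_of_close _ hq huy hk ?_
  intro e he
  rw [Walk.edges_append, Walk.edges_cons, Walk.edges_reverse]
  rcases hE e he with h | h
  · simp [h]
  · simp [h]

theorem takeUntil_total [DecidableEq V] {G : SimpleGraph V} {u v : V} (p : G.Walk u v) :
    ∀ (x y : V) (hx : x ∈ p.support) (hy : y ∈ p.support),
      x ∈ (p.takeUntil y hy).support ∨ y ∈ (p.takeUntil x hx).support := by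
  induction p with
  | nil =>
    intro x y hx hy
    left
    simp only [Walk.support_nil, List.mem_singleton] at hx hy
    subst hx
    subst hy
    simp
  | @cons a b c h q ih =>
    intro x y hx hy
    by_cases hxa : x = a
    · subst hxa; left; simp
    by_cases hya : y = a
    · subst hya; right; simp
    have hx' : x ∈ q.support := by
      rw [Walk.support_cons] at hx
      exact (List.mem_cons.1 hx).resolve_left hxa
    have hy' : y ∈ q.support := by
      rw [Walk.support_cons] at hy
      exact (List.mem_cons.1 hy).resolve_left hya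
    rcases ih x y hx' hy' with h1 | h1
    · left
      rw [Walk.takeUntil_cons hy' (Ne.symm hya), Walk.support_cons]
      exact List.mem_cons_of_mem _ h1
    · right
      rw [Walk.takeUntil_cons hx' (Ne.symm hxa), Walk.support_cons]
      exact List.mem_cons_of_mem _ h1

/-- If a path from `u` to `v` contains the `k ≥ 2` edges of `E`, and `u`, `v` have at least `k`
common neighbours, then some cycle contains `E`. -/
theorem count {G : SimpleGraph V} {u v : V} (P : G.Walk u v) (hP : P.IsPath)
    {E : Finset (Sym2 V)} (hk : 2 ≤ E.card) (hE : ∀ e ∈ E, e ∈ P.edges)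
    (C : Finset V) (hC : ∀ x ∈ C, G.Adj u x ∧ G.Adj v x) (hcard : E.card ≤ C.card) :
    HasCyc G E := by
  classical
  by_contra hno
  have hmem : ∀ x ∈ C, x ∈ P.support := by
    intro x hx
    by_contra hxP
    apply hno
    have hd : (Walk.cons (hC x hx).1.symm P).IsPath := hP.cons hxP
    refine hasCyc_of_close _ hd (hC x hx).2 hk ?_
    intro e he
    rw [Walk.edges_cons]
    exact List.mem_cons_of_mem _ (hE e he)
  let A : V → Finset (Sym2 V) := fun x =>
    if h : x ∈ P.support then E.filter (fun e => e ∈ (P.takeUntil x h).edges) else ∅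
  have hA : ∀ x (h : x ∈ P.support), A x = E.filter (fun e => e ∈ (P.takeUntil x h).edges) := by
    intro x h
    simp only [A, h, dif_pos]
  have hsplit : ∀ x (h : x ∈ P.support) (e : Sym2 V), e ∈ P.edges →
      e ∈ (P.takeUntil x h).edges ∨ e ∈ (P.dropUntil x h).edges := by
    intro x h e he
    have h1 := P.take_spec h
    rw [← h1, Walk.edges_append] at he
    simpa using he
  -- the number of prescribed edges before a common neighbour
  have hlo : ∀ x ∈ C, 1 ≤ (A x).card := by
    intro x hx
    by_contra hlt
    have h0 : A x = ∅ := by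
      rw [← Finset.card_eq_zero]; omega
    rw [hA x (hmem x hx)] at h0
    apply hno
    refine hasCyc_of_close (P.dropUntil x (hmem x hx)) (hP.dropUntil _) (hC x hx).2 hk ?_
    intro e he
    rcases hsplit x (hmem x hx) e (hE e he) with h | h
    · exfalso
      have : e ∈ (∅ : Finset (Sym2 V)) := by
        rw [← h0]; exact Finset.mem_filter.2 ⟨he, h⟩
      simp at this
    · exact h
  have hhi : ∀ x ∈ C, (A x).card ≤ E.card - 1 := by
    intro x hx
    by_contra hlt
    have hsub : A x ⊆ E := by
      rw [hA x (hmem x hx)]; exact Finset.filter_subset _ _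
    have heq : A x = E := Finset.eq_of_subset_of_card_le hsub (by omega)
    apply hno
    refine hasCyc_of_close (P.takeUntil x (hmem x hx)).reverse (hP.takeUntil _).reverse
      (hC x hx).1 hk ?_
    intro e he
    rw [Walk.edges_reverse, List.mem_reverse]
    have : e ∈ A x := by rw [heq]; exact he
    rw [hA x (hmem x hx)] at this
    exact (Finset.mem_filter.1 this).2
  have hkey : ∀ x ∈ C, ∀ y ∈ C, x ≠ y → ∀ (hy : y ∈ P.support),
      x ∈ (P.takeUntil y hy).support → (A x).card < (A y).card := by
    intro x hx y hy hxy hyP hxt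
    have htt := P.takeUntil_takeUntil hyP hxt
    have hsub : A x ⊆ A y := by
      intro e he
      rw [hA x (hmem x hx)] at he
      rw [hA y hyP]
      have h1 := Finset.mem_filter.1 he
      refine Finset.mem_filter.2 ⟨h1.1, ?_⟩
      have h2 := h1.2
      rw [← htt] at h2
      exact Walk.edges_takeUntil_subset_edges _ hxt h2
    by_contra hlt
    have heq : A x = A y := Finset.eq_of_subset_of_card_le hsub (by omega)
    apply hno
    have hdec : ((P.takeUntil y hyP).takeUntil x hxt).append
        (((P.takeUntil y hyP).dropUntil x hxt).append (P.dropUntil y hyP)) = P := by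
      rw [Walk.append_assoc, Walk.take_spec, Walk.take_spec]
    have hpath : (((P.takeUntil y hyP).takeUntil x hxt).append
        (((P.takeUntil y hyP).dropUntil x hxt).append (P.dropUntil y hyP))).IsPath := by
      rw [hdec]; exact hP
    refine cross _ _ _ hpath hxy (hC x hx).2 (hC y hy).1 hk ?_
    intro e he
    rcases hsplit y hyP e (hE e he) with h | h
    · left
      have h1 : e ∈ A x := by
        rw [heq, hA y hyP]
        exact Finset.mem_filter.2 ⟨he, h⟩
      rw [hA x (hmem x hx)] at h1
      have h2 := (Finset.mem_filter.1 h1).2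
      rw [← htt] at h2
      exact h2
    · right; exact h
  have hinj : Set.InjOn (fun x => (A x).card) (C : Set V) := by
    intro x hx y hy hxy
    by_contra hne
    have hxC : x ∈ C := hx
    have hyC : y ∈ C := hy
    rcases takeUntil_total P x y (hmem x hxC) (hmem y hyC) with h | h
    · have := hkey x hxC y hyC hne (hmem y hyC) h
      simp only at hxy
      omega
    · have := hkey y hyC x hxC (Ne.symm hne) (hmem x hxC) h
      simp only at hxy
      omega
  have hmaps : ∀ x ∈ C, (fun x => (A x).card) x ∈ Finset.Icc 1 (E.card - 1) := by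
    intro x hx
    rw [Finset.mem_Icc]
    exact ⟨hlo x hx, hhi x hx⟩
  have hle := Finset.card_le_card_of_injOn _ hmaps hinj
  rw [Nat.card_Icc] at hle
  omega

/-- Stability of `HasCyc` under joining two vertices with at least `|E|` common neighbours. -/
theorem step {G : SimpleGraph V} {u v : V} (C : Finset V)
    (hC : ∀ x ∈ C, G.Adj u x ∧ G.Adj v x) {E : Finset (Sym2 V)} (hk : 2 ≤ E.card)
    (hEG : ∀ e ∈ E, e ∈ G.edgeSet) (hcard : E.card ≤ C.card)
    (h : HasCyc (G ⊔ edge u v) E) : HasCyc G E := by
  classical
  by_cases huv : u = v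
  · subst huv
    simpa [edge_self_eq_bot] using h
  by_cases hadj : G.Adj u v
  · have : G ⊔ edge u v = G := by
      rw [sup_eq_left]
      exact (edge_le_iff G).2 (Or.inr hadj)
    rwa [this] at h
  obtain ⟨a, c, hc, hcE⟩ := h
  -- edges of `G ⊔ edge u v` other than `s(u,v)` are edges of `G`
  have hedge : ∀ e ∈ (G ⊔ edge u v).edgeSet, e ≠ s(u, v) → e ∈ G.edgeSet := by
    intro e he hne
    rw [edgeSet_sup] at he
    rcases he with h | h
    · exact h
    · exfalso
      rw [edgeSet_edge_of_ne huv] at h
      exact hne h
  have huvE : s(u, v) ∉ E := fun h => hadj (hEG _ h)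
  by_cases hcuv : s(u, v) ∈ c.edges
  · -- rotate
    have hu : u ∈ c.support := Walk.fst_mem_support_of_mem_edges _ hcuv
    have hc1 : (c.rotate u hu).IsCycle := hc.rotate hu
    have hedges : ∀ e, e ∈ (c.rotate u hu).edges ↔ e ∈ c.edges :=
      fun e => (c.rotate_edges u hu).mem_iff
    generalize hc' : c.rotate u hu = c' at hc1 hedges
    have huv' : s(u, v) ∈ c'.edges := (hedges _).2 hcuv
    have hv : v ∈ c'.support := Walk.snd_mem_support_of_mem_edges _ huv'
    have hsp := c'.take_spec hv
    have hn1 : ¬ (c'.takeUntil v hv).Nil := by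
      rw [Walk.nil_takeUntil]; exact huv
    have hn2 : ¬ (c'.dropUntil v hv).Nil := by
      intro hn
      exact huv hn.eq.symm
    have hcyc : ((c'.takeUntil v hv).append (c'.dropUntil v hv)).IsCycle := by
      rw [hsp]; exact hc1
    have hp1 := hcyc.isPath_of_append_left hn2
    have hp2 := hcyc.isPath_of_append_right hn1
    have hE' : ∀ e ∈ E, e ∈ (c'.takeUntil v hv).edges ∨ e ∈ (c'.dropUntil v hv).edges := by
      intro e he
      have h1 := (hedges e).2 (hcE e he)
      rw [← hsp, Walk.edges_append] at h1
      simpa using h1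
    have huv2 : s(u, v) ∈ (c'.takeUntil v hv).edges ∨ s(u, v) ∈ (c'.dropUntil v hv).edges := by
      rw [← hsp, Walk.edges_append] at huv'
      simpa using huv'
    have hnd := hcyc.isTrail.edges_nodup
    rw [Walk.edges_append, List.nodup_append'] at hnd
    rcases huv2 with h1 | h1
    · -- the first part is the single edge
      have hlen := hp1.length_eq_one_of_mem_edges h1
      have hnot : s(u, v) ∉ (c'.dropUntil v hv).edges := fun h2 => hnd.2.2 h1 h2
      have hall : ∀ e ∈ E, e ∈ (c'.dropUntil v hv).edges := by
        intro e he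
        rcases hE' e he with h | h
        · exfalso
          obtain ⟨x, hx⟩ := List.length_eq_one_iff.1
            ((c'.takeUntil v hv).length_edges.trans hlen)
          rw [hx] at h h1
          simp only [List.mem_singleton] at h h1
          exact huvE (by rw [h1, ← h]; exact he)
        · exact h
      have htr : ∀ e ∈ (c'.dropUntil v hv).edges, e ∈ G.edgeSet := by
        intro e he
        exact hedge e (Walk.edges_subset_edgeSet _ he) (fun h => hnot (h ▸ he))
      refine count ((c'.dropUntil v hv).transfer G htr) (hp2.transfer htr) hk ?_ C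
        (fun x hx => ⟨(hC x hx).2, (hC x hx).1⟩) hcard
      intro e he
      rw [Walk.edges_transfer]
      exact hall e he
    · have hlen := hp2.length_eq_one_of_mem_edges (by rwa [Sym2.eq_swap])
      have hnot : s(u, v) ∉ (c'.takeUntil v hv).edges := fun h2 => hnd.2.2 h2 h1
      have hall : ∀ e ∈ E, e ∈ (c'.takeUntil v hv).edges := by
        intro e he
        rcases hE' e he with h | h
        · exact h
        · exfalso
          obtain ⟨x, hx⟩ := List.length_eq_one_iff.1
            ((c'.dropUntil v hv).length_edges.trans hlen)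
          rw [hx] at h h1
          simp only [List.mem_singleton] at h h1
          exact huvE (by rw [h1, ← h]; exact he)
      have htr : ∀ e ∈ (c'.takeUntil v hv).edges, e ∈ G.edgeSet := by
        intro e he
        exact hedge e (Walk.edges_subset_edgeSet _ he) (fun h => hnot (h ▸ he))
      refine count ((c'.takeUntil v hv).transfer G htr) (hp1.transfer htr) hk ?_ C hC hcard
      intro e he
      rw [Walk.edges_transfer]
      exact hall e he
  · have htr : ∀ e ∈ c.edges, e ∈ G.edgeSet := by
      intro e he
      exact hedge e (Walk.edges_subset_edgeSet _ he) (fun h => hcuv (h ▸ he))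
    refine ⟨a, c.transfer G htr, hc.transfer htr, ?_⟩
    intro e he
    rw [Walk.edges_transfer]
    exact hcE e he

end Pool.Agent.LWC
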