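import Pool.Agent.LWC.A

set_option autoImplicit false

/-!
# Assembling cycles from paths in a graph whose vertex set is the union of two cliques
-/

namespace Pool.Agent.LWC

open SimpleGraph

universe w

variable {V : Type w}

/-- a path from `a` to `b` inside `X` containing the edges of `F` -/
def PT (G : SimpleGraph V) (a b : V) (X : Set V) (F : Set (Sym2 V)) : Prop :=
  ∃ p : G.Walk a b, p.IsPath ∧ (∀ z ∈ p.support, z ∈ X) ∧ ∀ e ∈ F, e ∈ p.edges

theorem PT.left {G : SimpleGraph V} {a b : V} {X : Set V} {F : Set (Sym2 V)}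
    (h : PT G a b X F) : a ∈ X := by
  obtain ⟨p, -, h2, -⟩ := h
  exact h2 _ p.start_mem_support

theorem PT.right {G : SimpleGraph V} {a b : V} {X : Set V} {F : Set (Sym2 V)}
    (h : PT G a b X F) : b ∈ X := by
  obtain ⟨p, -, h2, -⟩ := h
  exact h2 _ p.end_mem_support

theorem PT.edge {G : SimpleGraph V} {a b : V} (h : G.Adj a b) : PT G a b {a, b} {s(a, b)} := by
  refine ⟨Walk.cons h Walk.nil, ?_, ?_, ?_⟩
  · exact Walk.IsPath.nil.cons (by simpa using h.ne)
  · intro z hz
    simpa using hz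
  · intro e he
    simpa using he

theorem PT.symm {G : SimpleGraph V} {a b : V} {X : Set V} {F : Set (Sym2 V)}
    (h : PT G a b X F) : PT G b a X F := by
  obtain ⟨p, h1, h2, h3⟩ := h
  refine ⟨p.reverse, h1.reverse, ?_, ?_⟩
  · intro z hz
    rw [Walk.support_reverse, List.mem_reverse] at hz
    exact h2 z hz
  · intro e he
    rw [Walk.edges_reverse, List.mem_reverse]
    exact h3 e he

theorem PT.mono {G : SimpleGraph V} {a b : V} {X Y : Set V} {F F' : Set (Sym2 V)}
    (h : PT G a b X F) (hX : X ⊆ Y) (hF : F' ⊆ F) : PT G a b Y F' := by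
  obtain ⟨p, h1, h2, h3⟩ := h
  exact ⟨p, h1, fun z hz => hX (h2 z hz), fun e he => h3 e (hF he)⟩

theorem PT.join {G : SimpleGraph V} {a b c d : V} {X Y : Set V} {F F' : Set (Sym2 V)}
    (h : PT G a b X F) (hbc : G.Adj b c) (h' : PT G c d Y F') (hd : ∀ z ∈ X, z ∉ Y) :
    PT G a d (X ∪ Y) (F ∪ F') := by
  obtain ⟨p, h1, h2, h3⟩ := h
  obtain ⟨q, g1, g2, g3⟩ := h'
  refine ⟨p.append (Walk.cons hbc q), ?_, ?_, ?_⟩
  · rw [Walk.isPath_def, Walk.support_append, Walk.support_cons, List.tail_cons,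
      List.nodup_append']
    refine ⟨h1.support_nodup, g1.support_nodup, ?_⟩
    intro z hz hz'
    exact hd z (h2 z hz) (g2 z hz')
  · intro z hz
    rw [Walk.support_append, Walk.support_cons, List.tail_cons, List.mem_append] at hz
    rcases hz with hz | hz
    · exact Or.inl (h2 z hz)
    · exact Or.inr (g2 z hz)
  · intro e he
    rw [Walk.edges_append, Walk.edges_cons, List.mem_append]
    rcases he with he | he
    · exact Or.inl (h3 e he)
    · exact Or.inr (List.mem_cons_of_mem _ (g3 e he))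

theorem PT.attach {G : SimpleGraph V} {a b c : V} {X : Set V} {F : Set (Sym2 V)}
    (h : PT G a b X F) (hbc : G.Adj b c) (hc : c ∉ X) :
    PT G a c (insert c X) (insert s(b, c) F) := by
  obtain ⟨p, h1, h2, h3⟩ := h
  refine ⟨p.concat hbc, ?_, ?_, ?_⟩
  · exact h1.concat (fun h => hc (h2 _ h)) hbc
  · intro z hz
    rw [Walk.support_concat, List.mem_append] at hz
    rcases hz with hz | hz
    · exact Or.inr (h2 z hz)
    · left
      simpa using hz
  · intro e he
    rw [Walk.edges_concat, List.concat_eq_append, List.mem_append]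
    rcases he with he | he
    · right
      simp [he]
    · exact Or.inl (h3 e he)

theorem PT.ne {G : SimpleGraph V} {a b : V} {X : Set V} {F : Set (Sym2 V)}
    (h : PT G a b X F) {E : Finset (Sym2 V)} (hk : 2 ≤ E.card) (hE : ∀ e ∈ E, e ∈ F) : a ≠ b := by
  obtain ⟨p, h1, h2, h3⟩ := h
  intro hab
  subst hab
  have hl := two_le p hk (fun e he => h3 e (hE e he))
  rw [Walk.isPath_iff_nil] at h1
  rw [h1.eq_nil] at hl
  simp at hl

theorem PT.close {G : SimpleGraph V} {a b : V} {X : Set V} {F : Set (Sym2 V)}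
    (h : PT G a b X F) {E : Finset (Sym2 V)} (hk : 2 ≤ E.card) (hE : ∀ e ∈ E, e ∈ F)
    (hab : G.Adj b a) : HasCyc G E := by
  obtain ⟨p, h1, h2, h3⟩ := h
  exact hasCyc_of_close p h1 hab hk (fun e he => h3 e (hE e he))

/-- independence of a set of edges -/
def Ind (E : Finset (Sym2 V)) : Prop :=
  ∀ e ∈ E, ∀ f ∈ E, e ≠ f → ∀ v : V, v ∈ e → v ∉ f

theorem Ind.subset {E E' : Finset (Sym2 V)} (h : Ind E) (hs : E' ⊆ E) : Ind E' :=
  fun e he f hf => h e (hs he) f (hs hf)

/-- the edge joins the two sides -/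
def Crs (σ : V → Bool) (e : Sym2 V) : Prop := ∃ a b, e = s(a, b) ∧ σ a ≠ σ b

/-- the edge lies in side `i` -/
def Inn (σ : V → Bool) (i : Bool) (e : Sym2 V) : Prop := ∀ v ∈ e, σ v = i

theorem crs_mk {σ : V → Bool} {a b : V} : Crs σ s(a, b) ↔ σ a ≠ σ b := by
  constructor
  · rintro ⟨c, d, h, hne⟩
    rcases Sym2.eq_iff.1 h with ⟨rfl, rfl⟩ | ⟨rfl, rfl⟩
    · exact hne
    · exact hne.symm
  · intro h
    exact ⟨a, b, rfl, h⟩

theorem inn_mk {σ : V → Bool} {i : Bool} {a b : V} : Inn σ i s(a, b) ↔ σ a = i ∧ σ b = i := by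
  constructor
  · intro h
    exact ⟨h a (Sym2.mem_mk_left a b), h b (Sym2.mem_mk_right a b)⟩
  · rintro ⟨h1, h2⟩ v hv
    rcases Sym2.mem_iff.1 hv with rfl | rfl
    · exact h1
    · exact h2

theorem crs_or_inn (σ : V → Bool) (e : Sym2 V) : Crs σ e ∨ Inn σ true e ∨ Inn σ false e := by
  induction e using Sym2.ind with
  | _ a b =>
    rw [crs_mk, inn_mk, inn_mk]
    cases σ a <;> cases σ b <;> simp

theorem not_crs_of_inn {σ : V → Bool} {i : Bool} {e : Sym2 V} (h : Inn σ i e) : ¬ Crs σ e := by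
  induction e using Sym2.ind with
  | _ a b =>
    rw [crs_mk]
    rw [inn_mk] at h
    rw [h.1, h.2]
    simp

/-- two cliques -/
def Two (G : SimpleGraph V) (σ : V → Bool) : Prop := ∀ a b, a ≠ b → σ a = σ b → G.Adj a b

/-- vertices of a set of edges -/
def VS (E : Finset (Sym2 V)) : Set V := {v | ∃ e ∈ E, v ∈ e}

theorem absorbInn {G : SimpleGraph V} {σ : V → Bool} (hG : Two G σ) (i : Bool)
    {a b : V} {X : Set V} {F : Set (Sym2 V)} (h : PT G a b X F) (hb : σ b = i)
    (E : Finset (Sym2 V)) : (∀ e ∈ E, e ∈ G.edgeSet) → Ind E → (∀ e ∈ E, Inn σ i e) →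
    (∀ e ∈ E, ∀ v ∈ e, v ∉ X) → ∃ b', σ b' = i ∧ PT G a b' (X ∪ VS E) (F ∪ (E : Set (Sym2 V))) := by
  classical
  induction E using Finset.induction_on with
  | empty =>
    intro _ _ _ _
    refine ⟨b, hb, h.mono ?_ ?_⟩
    · exact Set.subset_union_left
    · simp
  | @insert e E heE ih =>
    intro h1 h2 h3 h4
    obtain ⟨b', hb', hP⟩ := ih (fun f hf => h1 f (Finset.mem_insert_of_mem hf))
      (h2.subset (Finset.subset_insert _ _)) (fun f hf => h3 f (Finset.mem_insert_of_mem hf))
      (fun f hf => h4 f (Finset.mem_insert_of_mem hf))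
    have he1 := h1 e (Finset.mem_insert_self _ _)
    have he3 := h3 e (Finset.mem_insert_self _ _)
    have he4 := h4 e (Finset.mem_insert_self _ _)
    have hoff : ∀ v ∈ e, v ∉ X ∪ VS E := by
      intro v hv hv'
      rcases hv' with hv' | ⟨f, hf, hvf⟩
      · exact he4 v hv hv'
      · exact h2 e (Finset.mem_insert_self _ _) f (Finset.mem_insert_of_mem hf)
          (fun hef => heE (hef ▸ hf)) v hv hvf
    induction e using Sym2.ind with
    | _ p q =>
      rw [mem_edgeSet] at he1
      rw [inn_mk] at he3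
      have hp := hoff p (Sym2.mem_mk_left p q)
      have hq := hoff q (Sym2.mem_mk_right p q)
      have hbp : G.Adj b' p := hG _ _ (fun hh => hp (hh ▸ hP.right)) (by rw [hb', he3.1])
      refine ⟨q, he3.2, (hP.join hbp (PT.edge he1) ?_).mono ?_ ?_⟩
      · intro z hz hz'
        rcases hz' with rfl | hz'
        · exact hp hz
        · have : z = q := by simpa using hz'
          subst this
          exact hq hz
      · intro z hz
        rcases hz with (hz | ⟨f, hf, hzf⟩) | hz
        · exact Or.inl hz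
        · exact Or.inr ⟨f, Finset.mem_insert_of_mem hf, hzf⟩
        · right
          refine ⟨s(p, q), Finset.mem_insert_self _ _, ?_⟩
          rw [Sym2.mem_iff]
          simpa using hz
      · intro f hf
        rw [Finset.coe_insert] at hf
        rcases hf with hf | hf | hf
        · exact Or.inl (Or.inl hf)
        · exact Or.inr hf
        · exact Or.inl (Or.inr hf)

theorem absorbCrs {G : SimpleGraph V} {σ : V → Bool} (hG : Two G σ)
    {a b : V} {X : Set V} {F : Set (Sym2 V)} (h : PT G a b X F)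
    (E : Finset (Sym2 V)) : (∀ e ∈ E, e ∈ G.edgeSet) → Ind E → (∀ e ∈ E, Crs σ e) →
    (∀ e ∈ E, ∀ v ∈ e, v ∉ X) →
    ∃ b', (σ b' = σ b ↔ Even E.card) ∧ PT G a b' (X ∪ VS E) (F ∪ (E : Set (Sym2 V))) := by
  classical
  induction E using Finset.induction_on with
  | empty =>
    intro _ _ _ _
    refine ⟨b, by simp, h.mono ?_ ?_⟩
    · exact Set.subset_union_left
    · simp
  | @insert e E heE ih =>
    intro h1 h2 h3 h4
    obtain ⟨b', hb', hP⟩ := ih (fun f hf => h1 f (Finset.mem_insert_of_mem hf))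
      (h2.subset (Finset.subset_insert _ _)) (fun f hf => h3 f (Finset.mem_insert_of_mem hf))
      (fun f hf => h4 f (Finset.mem_insert_of_mem hf))
    have he1 := h1 e (Finset.mem_insert_self _ _)
    have he3 := h3 e (Finset.mem_insert_self _ _)
    have he4 := h4 e (Finset.mem_insert_self _ _)
    have hoff : ∀ v ∈ e, v ∉ X ∪ VS E := by
      intro v hv hv'
      rcases hv' with hv' | ⟨f, hf, hvf⟩
      · exact he4 v hv hv'
      · exact h2 e (Finset.mem_insert_self _ _) f (Finset.mem_insert_of_mem hf)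
          (fun hef => heE (hef ▸ hf)) v hv hvf
    obtain ⟨p0, q0, he, hne⟩ := he3
    -- orient the edge
    obtain ⟨p, q, he, hpb, hqb⟩ : ∃ p q, e = s(p, q) ∧ σ p = σ b' ∧ σ q ≠ σ b' := by
      by_cases hp : σ p0 = σ b'
      · exact ⟨p0, q0, he, hp, fun h => hne (hp.trans h.symm)⟩
      · refine ⟨q0, p0, by rw [he, Sym2.eq_swap], ?_, hp⟩
        revert hp hne
        cases σ p0 <;> cases σ q0 <;> cases σ b' <;> simp
    subst he
    rw [mem_edgeSet] at he1
    have hp := hoff p (Sym2.mem_mk_left p q)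
    have hq := hoff q (Sym2.mem_mk_right p q)
    have hbp : G.Adj b' p := hG _ _ (fun hh => hp (hh ▸ hP.right)) hpb.symm
    refine ⟨q, ?_, (hP.join hbp (PT.edge he1) ?_).mono ?_ ?_⟩
    · rw [Finset.card_insert_of_notMem heE, Nat.even_add_one, ← hb']
      revert hqb
      cases σ q <;> cases σ b' <;> cases σ b <;> simp
    · intro z hz hz'
      rcases hz' with rfl | hz'
      · exact hp hz
      · have : z = q := by simpa using hz'
        subst this
        exact hq hz
    · intro z hz
      rcases hz with (hz | ⟨f, hf, hzf⟩) | hz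
      · exact Or.inl hz
      · exact Or.inr ⟨f, Finset.mem_insert_of_mem hf, hzf⟩
      · right
        refine ⟨s(p, q), Finset.mem_insert_self _ _, ?_⟩
        rw [Sym2.mem_iff]
        simpa using hz
    · intro f hf
      rw [Finset.coe_insert] at hf
      rcases hf with hf | hf | hf
      · exact Or.inl (Or.inl hf)
      · exact Or.inr hf
      · exact Or.inl (Or.inr hf)

end Pool.Agent.LWC
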