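import Pool.Agent.LWC.B

set_option autoImplicit false

/-!
# Assembly of cycles, saturation of a path at its ends
-/

namespace Pool.Agent.LWC

open SimpleGraph

universe w

variable {V : Type w}

open Classical in
/-- the edges joining the two sides -/
noncomputable def crs (σ : V → Bool) (E : Finset (Sym2 V)) : Finset (Sym2 V) := E.filter (Crs σ)

open Classical in
/-- the edges in side `i` -/
noncomputable def inn (σ : V → Bool) (i : Bool) (E : Finset (Sym2 V)) : Finset (Sym2 V) :=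
  E.filter (Inn σ i)

theorem mem_crs {σ : V → Bool} {E : Finset (Sym2 V)} {e : Sym2 V} :
    e ∈ crs σ E ↔ e ∈ E ∧ Crs σ e := by
  classical
  unfold crs
  rw [Finset.mem_filter]

theorem mem_inn {σ : V → Bool} {i : Bool} {E : Finset (Sym2 V)} {e : Sym2 V} :
    e ∈ inn σ i E ↔ e ∈ E ∧ Inn σ i e := by
  classical
  unfold inn
  rw [Finset.mem_filter]

theorem crs_subset {σ : V → Bool} {E : Finset (Sym2 V)} : crs σ E ⊆ E :=
  fun _ h => (mem_crs.1 h).1

theorem inn_subset {σ : V → Bool} {i : Bool} {E : Finset (Sym2 V)} : inn σ i E ⊆ E :=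
  fun _ h => (mem_inn.1 h).1

/-- Assembly with at least one further crossing edge. -/
theorem assemble {G : SimpleGraph V} {σ : V → Bool} (hG : Two G σ) {a b : V} {X : Set V}
    {F : Set (Sym2 V)} (h : PT G a b X F) {E' : Finset (Sym2 V)} (h1 : ∀ e ∈ E', e ∈ G.edgeSet)
    (h2 : Ind E') (h4 : ∀ e ∈ E', ∀ v ∈ e, v ∉ X) {e0 : Sym2 V} (he0 : e0 ∈ E')
    (hc0 : Crs σ e0) (hpar : σ a = σ b ↔ Even (crs σ E').card) {E : Finset (Sym2 V)}
    (hk : 2 ≤ E.card) (hE : ∀ e ∈ E, e ∈ F ∨ e ∈ E') : HasCyc G E := by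
  classical
  -- the four parts of `E'`
  have hdisj : ∀ A B : Finset (Sym2 V), A ⊆ E' → B ⊆ E' → Disjoint A B →
      ∀ e ∈ B, ∀ v ∈ e, v ∉ VS A := by
    intro A B hA hB hAB e he v hv hv'
    obtain ⟨f, hf, hvf⟩ := hv'
    exact h2 f (hA hf) e (hB he) (fun hfe => (Finset.disjoint_left.1 hAB) hf (hfe ▸ he)) v hvf hv
  -- stage 1: the edges in the side of `b`
  obtain ⟨b1, hb1, hP1⟩ := absorbInn hG (σ b) h rfl (inn σ (σ b) E')
    (fun e he => h1 e (inn_subset he)) (h2.subset inn_subset)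
    (fun e he => (mem_inn.1 he).2) (fun e he => h4 e (inn_subset he))
  -- stage 2: the edge `e0`
  have hd1 : Disjoint (inn σ (σ b) E') {e0} := by
    rw [Finset.disjoint_singleton_right]
    intro hh
    exact not_crs_of_inn (mem_inn.1 hh).2 hc0
  have hs0 : ({e0} : Finset (Sym2 V)) ⊆ E' := Finset.singleton_subset_iff.2 he0
  obtain ⟨b2, hb2, hP2⟩ := absorbCrs hG hP1 {e0} (fun e he => h1 e (hs0 he)) (h2.subset hs0)
    (fun e he => by rw [Finset.mem_singleton] at he; rw [he]; exact hc0)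
    (fun e he v hv hv' => by
      rcases hv' with hv' | hv'
      · exact h4 e (hs0 he) v hv hv'
      · exact hdisj _ _ inn_subset hs0 hd1 e he v hv hv')
  have hb2' : σ b2 = !(σ b) := by
    rw [Finset.card_singleton] at hb2
    rw [hb1] at hb2
    have : ¬ Even 1 := by decide
    revert hb2
    cases σ b2 <;> cases σ b <;> simp
  -- stage 3: the edges in the other side
  obtain ⟨b3, hb3, hP3⟩ := absorbInn hG (!(σ b)) hP2 hb2' (inn σ (!(σ b)) E')
    (fun e he => h1 e (inn_subset he)) (h2.subset inn_subset)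
    (fun e he => (mem_inn.1 he).2)
    (fun e he v hv hv' => by
      have hI := (mem_inn.1 he).2 v hv
      rcases hv' with (hv' | ⟨f, hf, hvf⟩) | hv'
      · exact h4 e (inn_subset he) v hv hv'
      · have := (mem_inn.1 hf).2 v hvf
        rw [this] at hI
        simp at hI
      · refine hdisj _ _ hs0 inn_subset ?_ e he v hv hv'
        rw [Finset.disjoint_singleton_left]
        intro hh
        exact not_crs_of_inn (mem_inn.1 hh).2 hc0)
  -- stage 4: the remaining crossing edges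
  obtain ⟨b4, hb4, hP4⟩ := absorbCrs hG hP3 ((crs σ E').erase e0)
    (fun e he => h1 e (crs_subset (Finset.mem_of_mem_erase he)))
    (h2.subset ((Finset.erase_subset _ _).trans crs_subset))
    (fun e he => (mem_crs.1 (Finset.mem_of_mem_erase he)).2)
    (fun e he v hv hv' => by
      have heE := crs_subset (Finset.mem_of_mem_erase he)
      have hec := (mem_crs.1 (Finset.mem_of_mem_erase he)).2
      have hsub : ({e} : Finset (Sym2 V)) ⊆ E' := Finset.singleton_subset_iff.2 heE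
      rcases hv' with ((hv' | hv') | hv') | hv'
      · exact h4 e heE v hv hv'
      · refine hdisj _ {e} inn_subset hsub ?_ e (Finset.mem_singleton_self _) v hv hv'
        rw [Finset.disjoint_singleton_right]
        intro hh
        exact not_crs_of_inn (mem_inn.1 hh).2 hec
      · refine hdisj _ {e} hs0 hsub ?_ e (Finset.mem_singleton_self _) v hv hv'
        rw [Finset.disjoint_singleton_left, Finset.mem_singleton]
        exact (Finset.ne_of_mem_erase he).symm
      · refine hdisj _ {e} inn_subset hsub ?_ e (Finset.mem_singleton_self _) v hv hv'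
        rw [Finset.disjoint_singleton_right]
        intro hh
        exact not_crs_of_inn (mem_inn.1 hh).2 hec)
  -- all of `E` is on the path
  have hall : ∀ e ∈ E, e ∈ (F ∪ (inn σ (σ b) E' : Set (Sym2 V)) ∪ (({e0} : Finset (Sym2 V)) : Set (Sym2 V)) ∪
      (inn σ (!(σ b)) E' : Set (Sym2 V)) ∪ ((crs σ E').erase e0 : Set (Sym2 V))) := by
    intro e he
    rcases hE e he with h | h
    · exact Or.inl (Or.inl (Or.inl (Or.inl h)))
    · rcases crs_or_inn σ e with hh | hh
      · by_cases hee : e = e0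
        · subst hee
          left; left; right
          simp
        · right
          rw [Finset.mem_coe, Finset.mem_erase]
          exact ⟨hee, mem_crs.2 ⟨h, hh⟩⟩
      · have hh2 : Inn σ (σ b) e ∨ Inn σ (!(σ b)) e := by
          cases σ b
          · simpa [or_comm] using hh
          · simpa using hh
        rcases hh2 with hh | hh
        · left; left; left; right
          exact mem_inn.2 ⟨h, hh⟩
        · left; right
          exact mem_inn.2 ⟨h, hh⟩
  have hne := hP4.ne hk hall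
  refine hP4.close hk hall (hG _ _ hne.symm ?_)
  -- parity
  have hcard : ((crs σ E').erase e0).card = (crs σ E').card - 1 :=
    Finset.card_erase_of_mem (mem_crs.2 ⟨he0, hc0⟩)
  have hpos : 1 ≤ (crs σ E').card := Finset.card_pos.2 ⟨e0, mem_crs.2 ⟨he0, hc0⟩⟩
  rw [hcard, hb3] at hb4
  obtain ⟨m, hm⟩ : ∃ m, (crs σ E').card = m + 1 := ⟨(crs σ E').card - 1, by omega⟩
  rw [hm] at hb4 hpar
  rw [Nat.add_sub_cancel] at hb4
  rw [Nat.even_add_one] at hpar
  revert hb4 hpar
  cases σ b4 <;> cases σ b <;> cases σ a <;> simp <;> tauto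

/-- Assembly inside one side. -/
theorem assemble2 {G : SimpleGraph V} {σ : V → Bool} (hG : Two G σ) {a b : V} {X : Set V}
    {F : Set (Sym2 V)} (h : PT G a b X F) {E' : Finset (Sym2 V)} (h1 : ∀ e ∈ E', e ∈ G.edgeSet)
    (h2 : Ind E') (h4 : ∀ e ∈ E', ∀ v ∈ e, v ∉ X) {i : Bool} (ha : σ a = i) (hb : σ b = i)
    (hi : ∀ e ∈ E', Inn σ i e) {E : Finset (Sym2 V)}
    (hk : 2 ≤ E.card) (hE : ∀ e ∈ E, e ∈ F ∨ e ∈ E') : HasCyc G E := by
  obtain ⟨b1, hb1, hP1⟩ := absorbInn hG i h hb E' h1 h2 hi h4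
  have hall : ∀ e ∈ E, e ∈ F ∪ (E' : Set (Sym2 V)) := fun e he => hE e he
  exact hP1.close hk hall (hG _ _ (hP1.ne hk hall).symm (by rw [hb1, ha]))

/-- Saturation of a path at its end `b`. -/
theorem sat1 {G : SimpleGraph V} {σ : V → Bool} {a b : V} {X : Set V} {F : Set (Sym2 V)}
    (h : PT G a b X F) {E' : Finset (Sym2 V)} (h1 : ∀ e ∈ E', e ∈ G.edgeSet) (h2 : Ind E')
    (hoff : ∀ e ∈ E', ∀ v ∈ e, v ∈ X → v = a ∨ v = b) (hab : a ≠ b) (hnot : s(a, b) ∉ E') :
    ∃ (b' : V) (X' : Set V) (F' : Set (Sym2 V)) (E'' : Finset (Sym2 V)),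
      PT G a b' X' F' ∧ a ≠ b' ∧ X ⊆ X' ∧ F ⊆ F' ∧ E'' ⊆ E' ∧ (∀ e ∈ E', e ∈ E'' ∨ e ∈ F') ∧
      (∀ e ∈ E'', ∀ v ∈ e, v ∈ X' → v = a) ∧ (b' = b ∨ s(b, b') ∈ E') ∧
      ((σ a = σ b ↔ Even (crs σ E').card) → (σ a = σ b' ↔ Even (crs σ E'').card)) ∧
      (∀ e ∈ E', e ∉ E'' → b ∈ e) ∧ (∀ z ∈ X', z ∈ X ∨ s(b, z) ∈ E') := by
  classical
  by_cases hb : ∃ e ∈ E', b ∈ e
  · obtain ⟨e, he, hbe⟩ := hb
    obtain ⟨c, hc⟩ := Sym2.mem_iff_exists.1 hbe
    subst hc
    have hadj : G.Adj b c := by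
      have := h1 _ he
      rwa [mem_edgeSet] at this
    have hcX : c ∉ X := by
      intro hcX
      rcases hoff _ he c (Sym2.mem_mk_right _ _) hcX with rfl | rfl
      · exact hnot (by rw [Sym2.eq_swap]; exact he)
      · exact hadj.ne rfl
    have hac : a ≠ c := fun hh => hcX (hh ▸ h.left)
    refine ⟨c, insert c X, insert s(b, c) F, E'.erase s(b, c), h.attach hadj hcX, hac,
      Set.subset_insert _ _, Set.subset_insert _ _, Finset.erase_subset _ _, ?_, ?_,
      Or.inr he, ?_, ?_, ?_⟩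
    · intro e' he'
      by_cases hh : e' = s(b, c)
      · right; left; exact hh
      · left; exact Finset.mem_erase.2 ⟨hh, he'⟩
    · intro e' he' v hv hvX
      have hne : e' ≠ s(b, c) := Finset.ne_of_mem_erase he'
      have heE := Finset.mem_of_mem_erase he'
      rcases hvX with rfl | hvX
      · exact absurd (Sym2.mem_mk_right b v) (h2 e' heE _ he hne v hv)
      · rcases hoff e' heE v hv hvX with rfl | rfl
        · rfl
        · exact absurd (Sym2.mem_mk_left v c) (h2 e' heE _ he hne v hv)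
    · intro hpar
      have hfil : crs σ (E'.erase s(b, c)) = (crs σ E').erase s(b, c) := by
        ext x
        rw [mem_crs, Finset.mem_erase, Finset.mem_erase, mem_crs]
        tauto
      rw [hfil]
      by_cases hbc : σ b = σ c
      · have : s(b, c) ∉ crs σ E' := by
          rw [mem_crs, crs_mk]
          tauto
        rw [Finset.erase_eq_of_notMem this, ← hbc]
        exact hpar
      · have hmem : s(b, c) ∈ crs σ E' := mem_crs.2 ⟨he, crs_mk.2 hbc⟩
        have hcard := Finset.card_erase_of_mem hmem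
        have hpos : 1 ≤ (crs σ E').card := Finset.card_pos.2 ⟨_, hmem⟩
        obtain ⟨m, hm⟩ : ∃ m, (crs σ E').card = m + 1 := ⟨(crs σ E').card - 1, by omega⟩
        rw [hcard, hm, Nat.add_sub_cancel]
        rw [hm, Nat.even_add_one] at hpar
        revert hpar hbc
        cases σ a <;> cases σ b <;> cases σ c <;> simp <;> tauto
    · intro e' he' hne
      have : e' = s(b, c) := by
        by_contra hh
        exact hne (Finset.mem_erase.2 ⟨hh, he'⟩)
      rw [this]
      exact Sym2.mem_mk_left _ _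
    · intro z hz
      rcases hz with rfl | hz
      · exact Or.inr he
      · exact Or.inl hz
  · refine ⟨b, X, F, E', h, hab, subset_rfl, subset_rfl, Finset.Subset.refl _,
      fun e he => Or.inl he, ?_, Or.inl rfl, fun hh => hh, fun e he hne => absurd he hne,
      fun z hz => Or.inl hz⟩
    intro e he v hv hvX
    rcases hoff e he v hv hvX with hh | hh
    · exact hh
    · subst hh
      exact absurd ⟨e, he, hv⟩ hb

/-- Saturation at both ends. -/
theorem sat2 {G : SimpleGraph V} {σ : V → Bool} {x y : V} {X : Set V} {F : Set (Sym2 V)}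
    (h : PT G x y X F) {E : Finset (Sym2 V)} (h1 : ∀ e ∈ E, e ∈ G.edgeSet) (h2 : Ind E)
    (hoff : ∀ e ∈ E, ∀ v ∈ e, v ∈ X → v = x ∨ v = y) (hxy : x ≠ y) (hnot : s(x, y) ∉ E) :
    ∃ (a b : V) (X' : Set V) (F' : Set (Sym2 V)) (E' : Finset (Sym2 V)),
      PT G a b X' F' ∧ X ⊆ X' ∧ F ⊆ F' ∧ E' ⊆ E ∧ (∀ e ∈ E, e ∈ F' ∨ e ∈ E') ∧
      (∀ e ∈ E', ∀ v ∈ e, v ∉ X') ∧ (a = x ∨ s(x, a) ∈ E) ∧ (b = y ∨ s(y, b) ∈ E) ∧
      ((σ x = σ y ↔ Even (crs σ E).card) → (σ a = σ b ↔ Even (crs σ E').card)) ∧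
      (∀ e ∈ E, e ∉ E' → x ∈ e ∨ y ∈ e) ∧
      (∀ z ∈ X', z ∈ X ∨ s(x, z) ∈ E ∨ s(y, z) ∈ E) := by
  obtain ⟨b, X1, F1, E1, hP1, hxb, hX1, hF1, hE1, hc1, ho1, hb1, hp1, ht1, hz1⟩ :=
    sat1 (σ := σ) h h1 h2 hoff hxy hnot
  have hnot' : s(b, x) ∉ E1 := by
    intro hh
    exact hxb (ho1 _ hh b (Sym2.mem_mk_left _ _) hP1.right).symm
  obtain ⟨a, X2, F2, E2, hP2, hba, hX2, hF2, hE2, hc2, ho2, hb2, hp2, ht2, hz2⟩ :=
    sat1 (σ := σ) hP1.symm (fun e he => h1 e (hE1 he)) (h2.subset hE1)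
      (fun e he v hv hvX => Or.inr (ho1 e he v hv hvX)) hxb.symm hnot'
  refine ⟨a, b, X2, F2, E2, hP2.symm, hX1.trans hX2, hF1.trans hF2, hE2.trans hE1, ?_, ?_, ?_,
    hb1, ?_, ?_, ?_⟩
  · intro e he
    rcases hc1 e he with hh | hh
    · rcases hc2 e hh with h' | h'
      · exact Or.inr h'
      · exact Or.inl h'
    · exact Or.inl (hF2 hh)
  · intro e he v hv hvX
    have hvb := ho2 e he v hv hvX
    subst hvb
    exact hxb (ho1 e (hE2 he) v hv hP1.right).symm
  · rcases hb2 with hh | hh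
    · exact Or.inl hh
    · exact Or.inr (hE1 hh)
  · intro hh
    have h' := hp2 (by rw [eq_comm]; exact hp1 hh)
    rw [eq_comm]; exact h'
  · intro e he hne
    by_cases he1 : e ∈ E1
    · exact Or.inl (ht2 e he1 hne)
    · exact Or.inr (ht1 e he he1)
  · intro z hz
    rcases hz2 z hz with hh | hh
    · rcases hz1 z hh with h' | h'
      · exact Or.inl h'
      · exact Or.inr (Or.inr h')
    · exact Or.inr (Or.inl (hE1 hh))

end Pool.Agent.LWC
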