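import Pool.Agent.LWC.C

set_option autoImplicit false

/-!
# The Lovasz-Woodall statement for graphs whose vertex set is the union of two cliques
-/

namespace Pool.Agent.LWC

open SimpleGraph

universe w

variable {V : Type w}

theorem crossExist {H : SimpleGraph V} {σ : V → Bool} {i : Bool} (hc : H.Connected) {u v : V}
    (hu : σ u = i) (hv : σ v ≠ i) : ∃ x y, σ x = i ∧ σ y ≠ i ∧ H.Adj x y := by
  obtain ⟨p⟩ := hc.preconnected u v
  obtain ⟨d, -, hd1, hd2⟩ := p.exists_boundary_dart {x | σ x = i} hu hv
  exact ⟨d.fst, d.snd, hd1, hd2, d.adj⟩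

theorem crossExist' {G : SimpleGraph V} {σ : V → Bool} {i : Bool} {S : Finset V}
    (hc : (G.induce ((S : Set V)ᶜ)).Connected) {u v : V} (hu : σ u = i) (hv : σ v ≠ i)
    (huS : u ∉ S) (hvS : v ∉ S) : ∃ x y, σ x = i ∧ σ y ≠ i ∧ x ∉ S ∧ y ∉ S ∧ G.Adj x y := by
  obtain ⟨x, y, hx, hy, hxy⟩ := crossExist (σ := fun z : ((S : Set V)ᶜ : Set V) => σ z.1) (i := i)
    hc (u := ⟨u, huS⟩) (v := ⟨v, hvS⟩) hu hv
  exact ⟨x.1, y.1, hx, hy, x.2, y.2, hxy⟩

/-- the data of the problem -/
structure Data (G : SimpleGraph V) (σ : V → Bool) (k : ℕ) (E : Finset (Sym2 V)) : Prop where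
  two : Two G σ
  k2 : 2 ≤ k
  conn : ∀ S : Finset V, S.card < k → (G.induce ((S : Set V)ᶜ)).Connected
  sub : ∀ e ∈ E, e ∈ G.edgeSet
  card : E.card = k
  ind : Ind E

/-- an odd number of crossing prescribed edges, one of which is missed by a further crossing
edge -/
theorem oddCase {G : SimpleGraph V} {σ : V → Bool} {k : ℕ} {E : Finset (Sym2 V)}
    (D : Data G σ k E) (hodd : Odd (crs σ E).card) {x y : V} (hxy : G.Adj x y) (hs : σ x ≠ σ y)
    (hnot : s(x, y) ∉ E) {e1 : Sym2 V} (he1 : e1 ∈ crs σ E) (hx : x ∉ e1) (hy : y ∉ e1) :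
    HasCyc G E := by
  obtain ⟨a, b, X, F, E', hP, hX, hF, hE', hc, ho, -, -, hp, ht, -⟩ :=
    sat2 (σ := σ) (PT.edge hxy) D.sub D.ind
      (fun e _ v _ hv => by simpa using hv) hxy.ne hnot
  have he1' : e1 ∈ E' := by
    by_contra hh
    rcases ht e1 (crs_subset he1) hh with h | h
    · exact hx h
    · exact hy h
  refine assemble D.two hP (fun e he => D.sub e (hE' he)) (D.ind.subset hE') ho he1'
    (mem_crs.1 he1).2 (hp ?_) (by rw [D.card]; exact D.k2) hc
  constructor
  · intro h; exact absurd h hs
  · intro h; exact absurd hodd (Nat.not_odd_iff_even.2 h)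

/-- the number of crossing prescribed edges is even and positive -/
theorem evenCase {G : SimpleGraph V} {σ : V → Bool} {k : ℕ} {E : Finset (Sym2 V)}
    (D : Data G σ k E) (heven : Even (crs σ E).card) (hpos : (crs σ E).card ≠ 0) :
    HasCyc G E := by
  classical
  obtain ⟨e0, he0⟩ := Finset.card_pos.1 (Nat.pos_of_ne_zero hpos)
  have hcard : ((crs σ E).erase e0).card = (crs σ E).card - 1 := Finset.card_erase_of_mem he0
  obtain ⟨m, hm⟩ : ∃ m, (crs σ E).card = m + 1 := ⟨(crs σ E).card - 1, by omega⟩
  rw [hm] at heven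
  rw [hm, Nat.add_sub_cancel] at hcard
  rw [Nat.even_add_one] at heven
  have hm0 : m ≠ 0 := fun h => heven (h ▸ Even.zero)
  obtain ⟨e1, he1⟩ := Finset.card_pos.1 (by omega : 0 < ((crs σ E).erase e0).card)
  have hfil : crs σ (E.erase e0) = (crs σ E).erase e0 := by
    ext x
    rw [mem_crs, Finset.mem_erase, Finset.mem_erase, mem_crs]
    tauto
  have he0E := crs_subset he0
  have hoff : ∀ e ∈ E.erase e0, ∀ v ∈ e, v ∉ e0 := by
    intro e he v hv
    exact D.ind e (Finset.mem_of_mem_erase he) e0 he0E (Finset.ne_of_mem_erase he) v hv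
  obtain ⟨a, b, hab, hs⟩ := (mem_crs.1 he0).2
  subst hab
  have hadj := D.sub _ he0E
  rw [mem_edgeSet] at hadj
  refine assemble D.two (PT.edge hadj) (E' := E.erase s(a, b))
    (fun e he => D.sub e (Finset.mem_of_mem_erase he))
    (D.ind.subset (Finset.erase_subset _ _)) ?_ (e0 := e1) ?_ ?_ ?_
    (by rw [D.card]; exact D.k2) ?_
  · intro e he v hv hv'
    apply hoff e he v hv
    rw [Sym2.mem_iff]
    simpa using hv'
  · exact Finset.mem_erase.2 ⟨Finset.ne_of_mem_erase he1, crs_subset (Finset.mem_of_mem_erase he1)⟩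
  · exact (mem_crs.1 (Finset.mem_of_mem_erase he1)).2
  · rw [hfil, hcard]
    constructor
    · intro h; exact absurd h hs
    · intro h; exact absurd h heven
  · intro e he
    by_cases hh : e = s(a, b)
    · left; rw [hh]; exact rfl
    · right; exact Finset.mem_erase.2 ⟨hh, he⟩

/-- all prescribed edges in one side -/
theorem oneSide {G : SimpleGraph V} {σ : V → Bool} {k : ℕ} {E : Finset (Sym2 V)}
    (D : Data G σ k E) {i : Bool} (hi : ∀ e ∈ E, Inn σ i e) : HasCyc G E := by
  classical
  have hpos : 0 < E.card := by have := D.card; have := D.k2; omega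
  obtain ⟨e0, he0⟩ := Finset.card_pos.1 hpos
  have hoff : ∀ e ∈ E.erase e0, ∀ v ∈ e, v ∉ e0 := by
    intro e he v hv
    exact D.ind e (Finset.mem_of_mem_erase he) e0 he0 (Finset.ne_of_mem_erase he) v hv
  have h0 := hi e0 he0
  induction e0 using Sym2.ind with
  | _ a b =>
    have hadj := D.sub _ he0
    rw [mem_edgeSet] at hadj
    rw [inn_mk] at h0
    refine assemble2 D.two (PT.edge hadj) (E' := E.erase s(a, b))
      (fun e he => D.sub e (Finset.mem_of_mem_erase he))
      (D.ind.subset (Finset.erase_subset _ _)) ?_ h0.1 h0.2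
      (fun e he => hi e (Finset.mem_of_mem_erase he))
      (by rw [D.card]; exact D.k2) ?_
    · intro e he v hv hv'
      apply hoff e he v hv
      rw [Sym2.mem_iff]
      simpa using hv'
    · intro e he
      by_cases hh : e = s(a, b)
      · left; rw [hh]; exact rfl
      · right; exact Finset.mem_erase.2 ⟨hh, he⟩

theorem sideEnd {G : SimpleGraph V} {σ : V → Bool} {k : ℕ} {E : Finset (Sym2 V)}
    (_ : Data G σ k E) (h0 : (crs σ E) = ∅) {x z : V} (h : z = x ∨ s(x, z) ∈ E) : σ z = σ x := by
  rcases h with rfl | h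
  · rfl
  · by_contra hne
    have : s(x, z) ∈ crs σ E := mem_crs.2 ⟨h, crs_mk.2 (fun hh => hne hh.symm)⟩
    rw [h0] at this
    simp at this

/-- the bad pairs on one side -/
def Bad (σ : V → Bool) (E : Finset (Sym2 V)) (x x' : V) : Prop :=
  x = x' ∨ (s(x, x') ∈ E ∧ 2 ≤ (inn σ (σ x) E).card)

/-- no crossing prescribed edge, two disjoint crossing edges in good position -/
theorem goodPair {G : SimpleGraph V} {σ : V → Bool} {k : ℕ} {E : Finset (Sym2 V)}
    (D : Data G σ k E) (h0 : crs σ E = ∅) {x y x' y' : V} {i : Bool}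
    (hx : σ x = i) (hy : σ y = !i) (hx' : σ x' = i) (hy' : σ y' = !i)
    (hxy : G.Adj x y) (hxy' : G.Adj x' y') (hbx : ¬ Bad σ E x x') (hby : ¬ Bad σ E y y')
    (hyy : s(y, y') ∉ E) : HasCyc G E := by
  classical
  have hxx : x ≠ x' := fun h => hbx (Or.inl h)
  have hyy' : y ≠ y' := fun h => hby (Or.inl h)
  have hdiff : ∀ u v, σ u = i → σ v = !i → u ≠ v := by
    intro u v hu hv huv
    rw [huv, hv] at hu
    cases i <;> simp at hu
  have hcE : ∀ u v, s(u, v) ∈ E → σ u = σ v := by
    intro u v huv
    exact (sideEnd D h0 (Or.inr huv)).symm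
  have hkE : 2 ≤ E.card := by rw [D.card]; exact D.k2
  have hcrs' : ∀ {E' : Finset (Sym2 V)}, E' ⊆ E → ∀ e ∈ E', ¬ Crs σ e := by
    intro E' hE' e he hce
    have : e ∈ crs σ E := mem_crs.2 ⟨hE' he, hce⟩
    rw [h0] at this
    simp at this
  by_cases hss : s(x, x') ∈ E
  · -- `x x'` is the only prescribed edge in side `i`
    have hcard1 : (inn σ i E).card ≤ 1 := by
      by_contra hh
      exact hbx (Or.inr ⟨hss, by rw [hx]; omega⟩)
    have huniq : ∀ e ∈ E, Inn σ i e → e = s(x, x') := by
      intro e he hi
      exact Finset.card_le_one.1 hcard1 e (mem_inn.2 ⟨he, hi⟩) _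
        (mem_inn.2 ⟨hss, inn_mk.2 ⟨hx, hx'⟩⟩)
    have hadj : G.Adj x x' := by
      have := D.sub _ hss
      rwa [mem_edgeSet] at this
    have hP1 := ((PT.edge hxy.symm).attach hadj (by
      intro h
      have : x' = y ∨ x' = x := by simpa using h
      rcases this with h | h
      · exact hdiff _ _ hx' hy h
      · exact hxx h.symm)).attach hxy' (by
      intro h
      have : y' = x' ∨ y' = y ∨ y' = x := by simpa using h
      rcases this with h | h | h
      · exact hdiff _ _ hx' hy' h.symm
      · exact hyy' h.symm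
      · exact hdiff _ _ hx hy' h.symm)
    obtain ⟨a, b, X, F, E', hP, hX, hF, hE', hc, ho, ha, hb, -, ht, hz⟩ :=
      sat2 (σ := σ) (E := E.erase s(x, x')) hP1 (fun e he => D.sub e (Finset.mem_of_mem_erase he))
        (D.ind.subset (Finset.erase_subset _ _))
        (by
          intro e he v hv hvX
          have hne := Finset.ne_of_mem_erase he
          have heE := Finset.mem_of_mem_erase he
          have hv4 : v = y' ∨ v = x' ∨ v = y ∨ v = x := by simpa using hvX
          rcases hv4 with h | h | h | h
          · exact Or.inr h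
          · subst h
            exact absurd (Sym2.mem_mk_right _ _) (D.ind e heE _ hss hne _ hv)
          · exact Or.inl h
          · subst h
            exact absurd (Sym2.mem_mk_left _ _) (D.ind e heE _ hss hne _ hv))
        hyy' (fun h => hyy (Finset.mem_of_mem_erase h))
    have hE'E : E' ⊆ E := hE'.trans (Finset.erase_subset _ _)
    refine assemble2 D.two hP (fun e he => D.sub e (hE'E he)) (D.ind.subset hE'E) ho (i := !i)
      ?_ ?_ ?_ hkE ?_
    · rcases ha with rfl | ha
      · exact hy
      · rw [← hcE _ _ (Finset.mem_of_mem_erase ha)]; exact hy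
    · rcases hb with rfl | hb
      · exact hy'
      · rw [← hcE _ _ (Finset.mem_of_mem_erase hb)]; exact hy'
    · intro e he
      have hnc := hcrs' hE'E e he
      have hni : ¬ Inn σ i e := by
        intro hi
        exact Finset.ne_of_mem_erase (hE' he) (huniq e (hE'E he) hi)
      rcases crs_or_inn σ e with h | h | h
      · exact absurd h hnc
      · cases i
        · exact h
        · exact absurd h hni
      · cases i
        · exact absurd h hni
        · exact h
    · intro e he
      by_cases hh : e = s(x, x')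
      · left
        rw [hh]
        exact hF (Or.inr (Or.inl rfl))
      · exact hc e (Finset.mem_erase.2 ⟨hh, he⟩)
  · -- two disjoint saturated paths
    have hnE : s(x, y) ∉ E := by
      intro h
      exact hdiff x y hx hy (by
        have := hcE _ _ h
        rw [hx, hy] at this
        cases i <;> simp at this)
    have hnE' : s(x', y') ∉ E := by
      intro h
      have := hcE _ _ h
      rw [hx', hy'] at this
      cases i <;> simp at this
    obtain ⟨a, b, X, F, E1, hP, hX, hF, hE1, hc, ho, ha, hb, -, ht, hz⟩ :=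
      sat2 (σ := σ) (PT.edge hxy) D.sub D.ind
        (fun e _ v _ hv => by simpa using hv) hxy.ne hnE
    obtain ⟨a', b', X', F', E2, hP', hX', hF', hE2, hc', ho', ha', hb', -, ht', hz'⟩ :=
      sat2 (σ := σ) (PT.edge hxy') (fun e he => D.sub e (hE1 he)) (D.ind.subset hE1)
        (fun e _ v _ hv => by simpa using hv) hxy'.ne (fun h => hnE' (hE1 h))
    have hsa : σ a = i := by
      rcases ha with rfl | ha
      · exact hx
      · rw [← hcE _ _ ha]; exact hx
    have hsb : σ b = !i := by
      rcases hb with rfl | hb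
      · exact hy
      · rw [← hcE _ _ hb]; exact hy
    have hsa' : σ a' = i := by
      rcases ha' with rfl | ha'
      · exact hx'
      · rw [← hcE _ _ (hE1 ha')]; exact hx'
    have hsb' : σ b' = !i := by
      rcases hb' with rfl | hb'
      · exact hy'
      · rw [← hcE _ _ (hE1 hb')]; exact hy'
    have hdisj : ∀ z ∈ X, z ∉ X' := by
      intro z hzX hzX'
      have hcase : z = x' ∨ z = y' := by
        rcases hz' z hzX' with h | h | h
        · simpa using h
        · exact absurd hzX (ho _ h z (Sym2.mem_mk_right _ _))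
        · exact absurd hzX (ho _ h z (Sym2.mem_mk_right _ _))
      rcases hcase with rfl | rfl
      · rcases hz z hzX with h | h | h
        · have : z = x ∨ z = y := by simpa using h
          rcases this with h | h
          · exact hxx h.symm
          · exact hdiff _ _ hx' hy h
        · exact hss h
        · have := hcE _ _ h
          rw [hy, hx'] at this
          cases i <;> simp at this
      · rcases hz z hzX with h | h | h
        · have : z = x ∨ z = y := by simpa using h
          rcases this with h | h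
          · exact hdiff _ _ hx hy' h.symm
          · exact hyy' h.symm
        · have := hcE _ _ h
          rw [hx, hy'] at this
          cases i <;> simp at this
        · exact hyy h
    have hE2E : E2 ⊆ E := hE2.trans hE1
    -- absorb the edges of side `!i` at `b`
    obtain ⟨b1, hb1, hQ1⟩ := absorbInn D.two (!i) hP hsb (inn σ (!i) E2)
      (fun e he => D.sub e (hE2E (inn_subset he))) (D.ind.subset (inn_subset.trans hE2E))
      (fun e he => (mem_inn.1 he).2) (fun e he => ho e (hE2 (inn_subset he)))
    have hdis2 : ∀ z ∈ X ∪ VS (inn σ (!i) E2), z ∉ X' := by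
      rintro z (hz1 | ⟨e, he, hze⟩) hz2
      · exact hdisj z hz1 hz2
      · exact ho' e (inn_subset he) z hze hz2
    have hb1b' : G.Adj b1 b' := D.two _ _ (fun h => hdis2 b1 hQ1.right (h ▸ hP'.right))
      (by rw [hb1, hsb'])
    have hQ2 := hQ1.join hb1b' hP'.symm hdis2
    obtain ⟨a1, ha1, hQ3⟩ := absorbInn D.two i hQ2 hsa' (inn σ i E2)
      (fun e he => D.sub e (hE2E (inn_subset he))) (D.ind.subset (inn_subset.trans hE2E))
      (fun e he => (mem_inn.1 he).2)
      (fun e he v hv hv' => by
        rcases hv' with (hv' | ⟨f, hf, hvf⟩) | hv'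
        · exact ho e (hE2 (inn_subset he)) v hv hv'
        · have h1 := (mem_inn.1 he).2 v hv
          have h2 := (mem_inn.1 hf).2 v hvf
          exact hdiff v v h1 h2 rfl
        · exact ho' e (inn_subset he) v hv hv')
    have hall : ∀ e ∈ E, e ∈ (F ∪ (inn σ (!i) E2 : Set (Sym2 V)) ∪ F' ∪
        (inn σ i E2 : Set (Sym2 V))) := by
      intro e he
      rcases hc e he with h | h
      · exact Or.inl (Or.inl (Or.inl h))
      · rcases hc' e h with h | h
        · exact Or.inl (Or.inr h)
        · have hnc := hcrs' hE2E e h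
          have hor : Inn σ i e ∨ Inn σ (!i) e := by
            rcases crs_or_inn σ e with h | h | h
            · exact absurd h hnc
            · cases i
              · exact Or.inr h
              · exact Or.inl h
            · cases i
              · exact Or.inl h
              · exact Or.inr h
          rcases hor with hor | hor
          · exact Or.inr (mem_inn.2 ⟨h, hor⟩)
          · exact Or.inl (Or.inl (Or.inr (mem_inn.2 ⟨h, hor⟩)))
    exact hQ3.close hkE hall (D.two _ _ (hQ3.ne hkE hall).symm (by rw [ha1, hsa]))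

end Pool.Agent.LWC
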