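import Pool.Agent.LWC.D

set_option autoImplicit false

/-!
# The Lovasz-Woodall statement for graphs whose vertex set is the union of two cliques, II
-/

namespace Pool.Agent.LWC

open SimpleGraph

universe w

variable {V : Type w}

theorem not_eq_bool {i j : Bool} (h : j ≠ i) : j = !i := by
  cases i <;> cases j <;> simp at h ⊢

theorem bothCase {G : SimpleGraph V} {σ : V → Bool} {k : ℕ} {E : Finset (Sym2 V)}
    (D : Data G σ k E) (h0 : crs σ E = ∅) {x y x' y' : V} {i : Bool}
    (hx : σ x = i) (hy : σ y = !i) (hx' : σ x' = i) (hy' : σ y' = !i)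
    (hxy : G.Adj x y) (hxy' : G.Adj x' y') (hbx : ¬ Bad σ E x x') (hby : ¬ Bad σ E y y')
    (hss : s(x, x') ∈ E) (hyy : s(y, y') ∈ E) : HasCyc G E := by
  classical
  have hxx : x ≠ x' := fun h => hbx (Or.inl h)
  have hyy' : y ≠ y' := fun h => hby (Or.inl h)
  have hdiff : ∀ u v, σ u = i → σ v = !i → u ≠ v := by
    intro u v hu hv huv
    rw [huv, hv] at hu
    cases i <;> simp at hu
  have hkE : 2 ≤ E.card := by rw [D.card]; exact D.k2
  have hu1 : ∀ e ∈ E, Inn σ i e → e = s(x, x') := by
    intro e he hi
    have hcard1 : (inn σ i E).card ≤ 1 := by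
      by_contra hh
      exact hbx (Or.inr ⟨hss, by rw [hx]; omega⟩)
    exact Finset.card_le_one.1 hcard1 e (mem_inn.2 ⟨he, hi⟩) _
      (mem_inn.2 ⟨hss, inn_mk.2 ⟨hx, hx'⟩⟩)
  have hu2 : ∀ e ∈ E, Inn σ (!i) e → e = s(y, y') := by
    intro e he hi
    have hcard1 : (inn σ (!i) E).card ≤ 1 := by
      by_contra hh
      exact hby (Or.inr ⟨hyy, by rw [hy]; omega⟩)
    exact Finset.card_le_one.1 hcard1 e (mem_inn.2 ⟨he, hi⟩) _
      (mem_inn.2 ⟨hyy, inn_mk.2 ⟨hy, hy'⟩⟩)
  have hadj : G.Adj x x' := by
    have := D.sub _ hss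
    rwa [mem_edgeSet] at this
  have hadj' : G.Adj y y' := by
    have := D.sub _ hyy
    rwa [mem_edgeSet] at this
  have hP := ((PT.edge hadj).attach hxy' (by
    intro h
    have : y' = x ∨ y' = x' := by simpa using h
    rcases this with h | h
    · exact hdiff _ _ hx hy' h.symm
    · exact hdiff _ _ hx' hy' h.symm)).attach hadj'.symm (by
    intro h
    have : y = y' ∨ y = x ∨ y = x' := by simpa using h
    rcases this with h | h | h
    · exact hyy' h
    · exact hdiff _ _ hx hy h.symm
    · exact hdiff _ _ hx' hy h.symm)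
  refine hP.close hkE ?_ hxy.symm
  intro e he
  rcases crs_or_inn σ e with h | h
  · have : e ∈ crs σ E := mem_crs.2 ⟨he, h⟩
    rw [h0] at this
    simp at this
  · have hor : Inn σ i e ∨ Inn σ (!i) e := by
      cases i
      · exact h.symm
      · exact h
    rcases hor with h | h
    · rw [hu1 e he h]
      exact Or.inr (Or.inr rfl)
    · rw [hu2 e he h]
      left
      rw [Sym2.eq_swap]

theorem bad_symm {σ : V → Bool} {E : Finset (Sym2 V)} (h0 : crs σ E = ∅) {x y : V}
    (h : Bad σ E x y) : Bad σ E y x := by
  rcases h with h | ⟨h, hc⟩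
  · exact Or.inl h.symm
  · right
    refine ⟨by rw [Sym2.eq_swap]; exact h, ?_⟩
    have : σ y = σ x := by
      by_contra hne
      have : s(x, y) ∈ crs σ E := mem_crs.2 ⟨h, crs_mk.2 (fun hh => hne hh.symm)⟩
      rw [h0] at this
      simp at this
    rw [this]
    exact hc

theorem bad_trans {σ : V → Bool} {E : Finset (Sym2 V)} (hind : Ind E)
    {x y z : V} (h : Bad σ E x y) (h' : Bad σ E y z) : Bad σ E x z := by
  rcases h with rfl | ⟨h, hc⟩
  · exact h'
  · rcases h' with rfl | ⟨h', hc'⟩
    · exact Or.inr ⟨h, hc⟩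
    · left
      by_contra hne
      have hee : s(x, y) = s(y, z) := by
        by_contra hh
        exact hind _ h _ h' hh y (Sym2.mem_mk_right _ _) (Sym2.mem_mk_left _ _)
      rcases Sym2.eq_iff.1 hee with ⟨h1, h2⟩ | ⟨h1, -⟩
      · exact hne (h1.trans h2)
      · exact hne h1

/-- a crossing edge whose end in side `i` is not bad with `x0` -/
theorem sideExist [Fintype V] {G : SimpleGraph V} {σ : V → Bool} {k : ℕ} {E : Finset (Sym2 V)}
    (D : Data G σ k E) (h0 : crs σ E = ∅) {i : Bool} {x0 : V} (hx0 : σ x0 = i)
    (hi : (inn σ i E).Nonempty) (hi' : (inn σ (!i) E).Nonempty) :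
    ∃ x y, σ x = i ∧ σ y = !i ∧ G.Adj x y ∧ ¬ Bad σ E x0 x := by
  classical
  have hk2 := D.k2
  -- the set of vertices which are bad with `x0`
  let S : Finset V := Finset.univ.filter (fun z => Bad σ E x0 z)
  have hS : ∀ z, z ∈ S ↔ Bad σ E x0 z := by
    intro z
    simp [S]
  have hside : ∀ z ∈ S, σ z = i := by
    intro z hz
    rcases (hS z).1 hz with rfl | ⟨h, -⟩
    · exact hx0
    · rw [← hx0]
      exact sideEnd D h0 (Or.inr h)
  have hfin : ∀ (u : V), σ u = i → u ∉ S → S.card < k →
      ∃ x y, σ x = i ∧ σ y = !i ∧ G.Adj x y ∧ ¬ Bad σ E x0 x := by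
    intro u hu huS hcard
    obtain ⟨e, he⟩ := hi'
    have he2 := (mem_inn.1 he).2
    induction e using Sym2.ind with
    | _ p q =>
      rw [inn_mk] at he2
      have hpi : σ p ≠ i := by
        rw [he2.1]
        cases i <;> simp
      obtain ⟨x, y, h1, h2, h3, h4, h5⟩ := crossExist' (σ := σ) (i := i) (D.conn S hcard)
        (u := u) (v := p) hu hpi huS (fun h => hpi (hside p h))
      exact ⟨x, y, h1, not_eq_bool h2, h5, fun h => h3 ((hS x).2 h)⟩
  have hbad : ∀ z, Bad σ E x0 z → z = x0 ∨ s(x0, z) ∈ E := by
    intro z hz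
    rcases hz with h | ⟨h, -⟩
    · exact Or.inl h.symm
    · exact Or.inr h
  by_cases hc : 2 ≤ (inn σ i E).card
  · -- then `k ≥ 3`
    have hk3 : 3 ≤ k := by
      have hd : Disjoint (inn σ i E) (inn σ (!i) E) := by
        rw [Finset.disjoint_left]
        intro e h1 h2
        have h3 := (mem_inn.1 h1).2
        have h4 := (mem_inn.1 h2).2
        induction e using Sym2.ind with
        | _ p q =>
          rw [inn_mk] at h3 h4
          have := h3.1.symm.trans h4.1
          cases i <;> simp at this
      have h1 : (inn σ i E ∪ inn σ (!i) E).card ≤ E.card :=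
        Finset.card_le_card (Finset.union_subset inn_subset inn_subset)
      rw [Finset.card_union_of_disjoint hd] at h1
      have h2 := Finset.card_pos.2 hi'
      have h3 := D.card
      omega
    have hcS : S.card ≤ 2 := by
      by_cases hp : ∃ z, s(x0, z) ∈ E
      · obtain ⟨z, hz⟩ := hp
        have hsub : S ⊆ {x0, z} := by
          intro t ht
          rcases hbad t ((hS t).1 ht) with h | h
          · simp [h]
          · have hee : s(x0, t) = s(x0, z) := by
              by_contra hh
              exact D.ind _ h _ hz hh x0 (Sym2.mem_mk_left _ _) (Sym2.mem_mk_left _ _)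
            rcases Sym2.eq_iff.1 hee with ⟨-, h2⟩ | ⟨h1, h2⟩
            · simp [h2]
            · simp [h2]
        exact (Finset.card_le_card hsub).trans Finset.card_le_two
      · have hsub : S ⊆ {x0} := by
          intro t ht
          rcases hbad t ((hS t).1 ht) with h | h
          · simp [h]
          · exact absurd ⟨t, h⟩ hp
        have := Finset.card_le_card hsub
        rw [Finset.card_singleton] at this
        omega
    obtain ⟨e1, he1, e2, he2, hne⟩ := Finset.one_lt_card.1 (by omega : 1 < (inn σ i E).card)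
    -- one of the two edges misses `x0`
    have : ∃ e ∈ inn σ i E, x0 ∉ e := by
      by_contra hh
      push Not at hh
      exact D.ind e1 (inn_subset he1) e2 (inn_subset he2) hne x0 (hh e1 he1) (hh e2 he2)
    obtain ⟨e, he, hx0e⟩ := this
    have he' := (mem_inn.1 he).2
    have heE := inn_subset he
    induction e using Sym2.ind with
    | _ p q =>
      rw [inn_mk] at he'
      refine hfin p he'.1 ?_ (by omega)
      intro hpS
      rcases hbad p ((hS p).1 hpS) with h | h
      · exact hx0e (h ▸ Sym2.mem_mk_left _ _)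
      · by_cases hee : s(x0, p) = s(p, q)
        · exact hx0e (hee ▸ Sym2.mem_mk_left _ _)
        · exact D.ind _ h _ heE hee p (Sym2.mem_mk_right _ _) (Sym2.mem_mk_left _ _)
  · have hsub : S ⊆ {x0} := by
      intro t ht
      rcases (hS t).1 ht with h | ⟨h, hcc⟩
      · simp [h.symm]
      · rw [hx0] at hcc
        exact absurd hcc hc
    have hcS : S.card ≤ 1 := by
      have := Finset.card_le_card hsub
      rwa [Finset.card_singleton] at this
    obtain ⟨e, he⟩ := hi
    have he' := (mem_inn.1 he).2
    have heE := inn_subset he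
    induction e using Sym2.ind with
    | _ p q =>
      rw [inn_mk] at he'
      have hpq : p ≠ q := by
        have := D.sub _ heE
        rw [mem_edgeSet] at this
        exact this.ne
      by_cases hp : p = x0
      · refine hfin q he'.2 ?_ (by omega)
        intro hq
        have := hsub hq
        rw [Finset.mem_singleton] at this
        exact hpq (hp.trans this.symm)
      · refine hfin p he'.1 ?_ (by omega)
        intro hq
        have := hsub hq
        rw [Finset.mem_singleton] at this
        exact hp this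

/-- no crossing prescribed edge -/
theorem zeroCase [Fintype V] {G : SimpleGraph V} {σ : V → Bool} {k : ℕ} {E : Finset (Sym2 V)}
    (D : Data G σ k E) (h0 : crs σ E = ∅) : HasCyc G E := by
  classical
  have hnc : ∀ e ∈ E, ¬ Crs σ e := by
    intro e he hc
    have : e ∈ crs σ E := mem_crs.2 ⟨he, hc⟩
    rw [h0] at this
    simp at this
  by_cases ht : (inn σ true E).Nonempty
  swap
  · refine oneSide D (i := false) ?_
    intro e he
    rcases crs_or_inn σ e with h | h | h
    · exact absurd h (hnc e he)
    · exact absurd ⟨e, mem_inn.2 ⟨he, h⟩⟩ ht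
    · exact h
  by_cases hf : (inn σ false E).Nonempty
  swap
  · refine oneSide D (i := true) ?_
    intro e he
    rcases crs_or_inn σ e with h | h | h
    · exact absurd h (hnc e he)
    · exact h
    · exact absurd ⟨e, mem_inn.2 ⟨he, h⟩⟩ hf
  by_contra hno
  -- every two crossing edges are in bad position
  have hbad : ∀ x y x' y', σ x = true → σ y = false → σ x' = true → σ y' = false →
      G.Adj x y → G.Adj x' y' → Bad σ E x x' ∨ Bad σ E y y' := by
    intro x y x' y' hx hy hx' hy' h h'
    by_contra hh
    push Not at hh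
    apply hno
    by_cases hyy : s(y, y') ∈ E
    · by_cases hxx : s(x, x') ∈ E
      · exact bothCase D h0 (i := true) hx hy hx' hy' h h' hh.1 hh.2 hxx hyy
      · exact goodPair D h0 (i := false) hy hx hy' hx' h.symm h'.symm hh.2 hh.1 hxx
    · exact goodPair D h0 (i := true) hx hy hx' hy' h h' hh.1 hh.2 hyy
  -- a crossing edge
  obtain ⟨e, he⟩ := ht
  have ht : (inn σ true E).Nonempty := ⟨e, he⟩
  have he2 := (mem_inn.1 he).2
  induction e using Sym2.ind with
  | _ p q =>
    rw [inn_mk] at he2
    obtain ⟨x0, y0, hx0, hy0, hxy0, -⟩ := sideExist D h0 he2.1 ht hf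
    obtain ⟨x1, y1, hx1, hy1, hxy1, hb1⟩ := sideExist D h0 hx0 ht hf
    obtain ⟨y2, x2, hy2, hx2, hxy2, hb2⟩ := sideExist (i := false) D h0 hy0 hf ht
    have hy0' : σ y0 = false := hy0
    have hy1' : σ y1 = false := hy1
    have hx2' : σ x2 = true := hx2
    have h01 := (hbad x0 y0 x1 y1 hx0 hy0' hx1 hy1' hxy0 hxy1).resolve_left hb1
    have h02 := (hbad x0 y0 x2 y2 hx0 hy0' hx2' hy2 hxy0 hxy2.symm).resolve_right hb2
    rcases hbad x1 y1 x2 y2 hx1 hy1' hx2' hy2 hxy1 hxy2.symm with h | h
    · exact hb1 (bad_trans D.ind h02 (bad_symm h0 h))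
    · exact hb2 (bad_trans D.ind h01 h)

/-- existence of a further crossing edge -/
theorem newCross [Fintype V] {G : SimpleGraph V} {σ : V → Bool} {k : ℕ} {E : Finset (Sym2 V)}
    (D : Data G σ k E) (hpos : (crs σ E).Nonempty)
    (hcon : Odd k → (G.deleteEdges (E : Set (Sym2 V))).Connected) (hodd : Odd (crs σ E).card) :
    ∃ x y, σ x ≠ σ y ∧ G.Adj x y ∧ s(x, y) ∉ E := by
  classical
  by_cases hck : (crs σ E).card = k
  · have hc := hcon (hck ▸ hodd)
    obtain ⟨e, he⟩ := hpos
    obtain ⟨a, b, -, hab⟩ := (mem_crs.1 he).2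
    obtain ⟨x, y, hx, hy, hxy⟩ := crossExist (σ := σ) (i := σ a) hc (u := a) (v := b) rfl hab.symm
    rw [deleteEdges_adj] at hxy
    exact ⟨x, y, fun h => hy (h ▸ hx), hxy.1, fun h => hxy.2 (by exact_mod_cast h)⟩
  · have hle : (crs σ E).card ≤ k := by
      rw [← D.card]; exact Finset.card_le_card crs_subset
    -- a prescribed edge in one side
    have hex : ∃ e ∈ E, e ∉ crs σ E := by
      by_contra hh
      push Not at hh
      have := Finset.card_le_card (fun e he => hh e he : E ⊆ crs σ E)
      rw [D.card] at this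
      omega
    obtain ⟨e, he, hne⟩ := hex
    have hii : ∃ i, Inn σ i e := by
      rcases crs_or_inn σ e with h | h | h
      · exact absurd (mem_crs.2 ⟨he, h⟩) hne
      · exact ⟨_, h⟩
      · exact ⟨_, h⟩
    obtain ⟨i, hi⟩ := hii
    let S : Finset V := Finset.univ.filter (fun v => σ v = i ∧ ∃ f ∈ crs σ E, v ∈ f)
    have hS : ∀ v, v ∈ S ↔ (σ v = i ∧ ∃ f ∈ crs σ E, v ∈ f) := by
      intro v
      simp [S]
    have hScard : S.card ≤ (crs σ E).card := by
      have hch : ∀ v ∈ S, ∃ f ∈ crs σ E, v ∈ f := fun v hv => ((hS v).1 hv).2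
      have : Nonempty (Sym2 V) := ⟨e⟩
      choose! g hg1 hg2 using hch
      refine Finset.card_le_card_of_injOn g (fun v hv => hg1 v hv) ?_
      intro v hv w hw hvw
      have hv' : v ∈ S := hv
      have hw' : w ∈ S := hw
      by_contra hne
      have h1 := hg2 v hv'
      have h2 := hg2 w hw'
      rw [← hvw] at h2
      have h3 := (mem_crs.1 (hg1 v hv')).2
      obtain ⟨a, b, hab, hs⟩ := h3
      rw [hab] at h1 h2
      have h4 := ((hS v).1 hv').1
      have h5 := ((hS w).1 hw').1
      rcases Sym2.mem_iff.1 h1 with rfl | rfl <;> rcases Sym2.mem_iff.1 h2 with rfl | rfl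
      · exact hne rfl
      · exact hs (h4.trans h5.symm)
      · exact hs (h5.trans h4.symm)
      · exact hne rfl
    obtain ⟨f, hf⟩ := hpos
    obtain ⟨a, b, hab, hs⟩ := (mem_crs.1 hf).2
    -- an end of `f` in the other side
    have hother : ∃ v, σ v ≠ i := by
      by_cases hai : σ a = i
      · exact ⟨b, fun h => hs (hai.trans h.symm)⟩
      · exact ⟨a, hai⟩
    obtain ⟨v, hv⟩ := hother
    induction e using Sym2.ind with
    | _ p q =>
      rw [inn_mk] at hi
      have hpS : p ∉ S := by
        intro h
        obtain ⟨-, f', hf', hpf'⟩ := (hS p).1 h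
        refine D.ind _ he f' (crs_subset hf') ?_ p (Sym2.mem_mk_left _ _) hpf'
        intro hh
        exact hne (hh ▸ hf')
      obtain ⟨x, y, hx, hy, hxS, hyS, hxy⟩ := crossExist' (σ := σ) (i := i)
        (D.conn S (by omega)) (u := p) (v := v) hi.1 hv hpS (fun h => hv ((hS v).1 h).1)
      refine ⟨x, y, fun h => hy (h ▸ hx), hxy, ?_⟩
      intro hE
      apply hxS
      rw [hS]
      exact ⟨hx, s(x, y), mem_crs.2 ⟨hE, crs_mk.2 (fun h => hy (h ▸ hx))⟩, Sym2.mem_mk_left _ _⟩

/-- exactly one crossing prescribed edge, all other prescribed edges in side `i` -/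
theorem oneCrossSide [Fintype V] {G : SimpleGraph V} {σ : V → Bool} {k : ℕ}
    {E : Finset (Sym2 V)} (D : Data G σ k E) {x1 y1 : V} {i : Bool} (hx1 : σ x1 = i)
    (hy1 : σ y1 = !i) (h1 : crs σ E = {s(x1, y1)}) (hi : inn σ (!i) E = ∅) : HasCyc G E := by
  classical
  have hdiff : ∀ u v, σ u = i → σ v = !i → u ≠ v := by
    intro u v hu hv huv
    rw [huv, hv] at hu
    cases i <;> simp at hu
  have he1 : s(x1, y1) ∈ E := crs_subset (h1 ▸ Finset.mem_singleton_self _)
  have hy1i : σ y1 ≠ i := by
    rw [hy1]; cases i <;> simp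
  -- another prescribed edge
  have hk2 := D.k2
  obtain ⟨e, he, hne⟩ : ∃ e ∈ E, e ≠ s(x1, y1) := by
    by_contra hh
    push Not at hh
    have : E ⊆ {s(x1, y1)} := fun e he => Finset.mem_singleton.2 (hh e he)
    have := Finset.card_le_card this
    rw [Finset.card_singleton, D.card] at this
    omega
  have hInn : ∀ e ∈ E, e ≠ s(x1, y1) → Inn σ i e := by
    intro e he hne
    have hnc : ¬ Crs σ e := by
      intro hc
      have : e ∈ crs σ E := mem_crs.2 ⟨he, hc⟩
      rw [h1, Finset.mem_singleton] at this
      exact hne this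
    have hni : ¬ Inn σ (!i) e := by
      intro hh
      have : e ∈ inn σ (!i) E := mem_inn.2 ⟨he, hh⟩
      rw [hi] at this
      simp at this
    rcases crs_or_inn σ e with h | h | h
    · exact absurd h hnc
    · cases i
      · exact absurd h hni
      · exact h
    · cases i
      · exact h
      · exact absurd h hni
  have hei := hInn e he hne
  induction e using Sym2.ind with
  | _ p q =>
    rw [inn_mk] at hei
    have hpx : p ≠ x1 := by
      intro h
      exact D.ind _ he _ he1 hne p (Sym2.mem_mk_left _ _) (h ▸ Sym2.mem_mk_left _ _)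
    obtain ⟨x, y, hx, hy, hxS, -, hxy⟩ := crossExist' (σ := σ) (i := i)
      (D.conn {x1} (by rw [Finset.card_singleton]; omega)) (u := p) (v := y1) hei.1 hy1i
      (by rw [Finset.mem_singleton]; exact hpx)
      (by rw [Finset.mem_singleton]; exact fun h => hdiff x1 y1 hx1 hy1 h.symm)
    rw [Finset.mem_singleton] at hxS
    have hs : σ x ≠ σ y := fun h => hy (h ▸ hx)
    have hnotE : s(x, y) ∉ E := by
      intro h
      have : s(x, y) ∈ crs σ E := mem_crs.2 ⟨h, crs_mk.2 hs⟩
      rw [h1, Finset.mem_singleton] at this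
      rcases Sym2.eq_iff.1 this with ⟨h', -⟩ | ⟨h', -⟩
      · exact hxS h'
      · exact hdiff x y1 hx hy1 h'
    have hodd : Odd (crs σ E).card := by rw [h1, Finset.card_singleton]; exact odd_one
    have hxe : x ∉ s(x1, y1) := by
      intro h
      rcases Sym2.mem_iff.1 h with h | h
      · exact hxS h
      · exact hdiff x y1 hx hy1 h
    by_cases hyy : y = y1
    · subst hyy
      obtain ⟨a, b, X, F, E', hP, hX, hF, hE', hc, ho, ha, hb, hp, ht, -⟩ :=
        sat2 (σ := σ) (PT.edge hxy) D.sub D.ind
          (fun e _ v _ hv => by simpa using hv) hxy.ne hnotE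
      have he1' : s(x1, y) ∉ E' := by
        intro h
        exact ho _ h y (Sym2.mem_mk_right _ _) (hX (by simp))
      have hc0 : crs σ E' = ∅ := by
        rw [Finset.eq_empty_iff_forall_notMem]
        intro e he
        have he2 := mem_crs.1 he
        have : e ∈ crs σ E := mem_crs.2 ⟨hE' he2.1, he2.2⟩
        rw [h1, Finset.mem_singleton] at this
        exact he1' (this ▸ he2.1)
      have hpar := hp (by
        constructor
        · intro h; exact absurd h hs
        · intro h; exact absurd hodd (Nat.not_odd_iff_even.2 h))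
      rw [hc0, Finset.card_empty] at hpar
      have hab : σ a = σ b := hpar.2 Even.zero
      have hsa : σ a = i := by
        rcases ha with rfl | ha
        · exact hx
        · by_cases hh : s(x, a) = s(x1, y)
          · exact absurd (hh ▸ Sym2.mem_mk_left x a) hxe
          · exact (inn_mk.1 (hInn _ ha hh)).2
      refine assemble2 D.two hP (fun e he => D.sub e (hE' he)) (D.ind.subset hE') ho (i := i)
        hsa (hab ▸ hsa) ?_ (by rw [D.card]; exact D.k2) hc
      intro e he
      exact hInn e (hE' he) (fun h => he1' (h ▸ he))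
    · refine oddCase D hodd hxy hs hnotE (e1 := s(x1, y1)) ?_ hxe ?_
      · rw [h1]; exact Finset.mem_singleton_self _
      · intro h
        rcases Sym2.mem_iff.1 h with h | h
        · exact hy (h ▸ hx1)
        · exact hyy h

/-- The Lovasz-Woodall statement for `k ≥ 2` and graphs whose vertex set is the union of two
cliques. -/
theorem twoCliques [Fintype V] {G : SimpleGraph V} {σ : V → Bool} {k : ℕ} {E : Finset (Sym2 V)}
    (D : Data G σ k E) (hno : ¬ HasCyc G E) :
    Odd k ∧ ¬ (G.deleteEdges (E : Set (Sym2 V))).Connected := by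
  classical
  by_contra hcon
  have hcon' : Odd k → (G.deleteEdges (E : Set (Sym2 V))).Connected := by
    intro h
    by_contra hh
    exact hcon ⟨h, hh⟩
  by_cases h0 : crs σ E = ∅
  · exact hno (zeroCase D h0)
  have hpos : (crs σ E).Nonempty := Finset.nonempty_iff_ne_empty.2 h0
  rcases Nat.even_or_odd (crs σ E).card with he | ho
  · exact hno (evenCase D he (Finset.card_pos.2 hpos).ne')
  -- odd number of crossing prescribed edges
  by_cases hc1 : (crs σ E).card = 1
  · obtain ⟨e1, he1⟩ := Finset.card_eq_one.1 hc1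
    have hmem : e1 ∈ crs σ E := he1 ▸ Finset.mem_singleton_self _
    obtain ⟨x1, y1, hxy1, hx1, hy1⟩ : ∃ x1 y1, e1 = s(x1, y1) ∧ σ x1 = true ∧ σ y1 = false := by
      obtain ⟨a, b, hab, hs⟩ := (mem_crs.1 hmem).2
      by_cases ha : σ a = true
      · exact ⟨a, b, hab, ha, by
          by_contra hb
          exact hs (by rw [ha]; symm; simpa using hb)⟩
      · have ha' : σ a = false := by simpa using ha
        exact ⟨b, a, by rw [hab, Sym2.eq_swap], by
          by_contra hb
          have : σ b = false := by simpa using hb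
          exact hs (by rw [ha', this]), ha'⟩
    subst hxy1
    by_cases ht : inn σ true E = ∅
    · refine hno (oneCrossSide D (i := false) (x1 := y1) (y1 := x1) hy1 hx1 ?_ ht)
      rw [he1, Sym2.eq_swap]
    by_cases hf : inn σ false E = ∅
    · exact hno (oneCrossSide D (i := true) (x1 := x1) (y1 := y1) hx1 hy1 he1 hf)
    obtain ⟨et, het⟩ := Finset.nonempty_iff_ne_empty.2 ht
    obtain ⟨ef, hef⟩ := Finset.nonempty_iff_ne_empty.2 hf
    have het' := (mem_inn.1 het).2
    have hef' := (mem_inn.1 hef).2
    have hk3 : 3 ≤ k := by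
      have h3 : ({et, ef, s(x1, y1)} : Finset (Sym2 V)) ⊆ E := by
        intro e he
        simp only [Finset.mem_insert, Finset.mem_singleton] at he
        rcases he with rfl | rfl | rfl
        · exact inn_subset het
        · exact inn_subset hef
        · exact crs_subset hmem
      have h4 := Finset.card_le_card h3
      rw [D.card] at h4
      have hn1 : et ≠ ef := by
        rintro rfl
        induction et using Sym2.ind with
        | _ p q =>
          rw [inn_mk] at het' hef'
          have := het'.1.symm.trans hef'.1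
          simp at this
      have hn2 : et ≠ s(x1, y1) := by
        rintro rfl
        exact not_crs_of_inn het' (mem_crs.1 hmem).2
      have hn3 : ef ≠ s(x1, y1) := by
        rintro rfl
        exact not_crs_of_inn hef' (mem_crs.1 hmem).2
      have h5 : ({et, ef, s(x1, y1)} : Finset (Sym2 V)).card = 3 := by
        rw [Finset.card_insert_of_notMem, Finset.card_insert_of_notMem, Finset.card_singleton]
        · simpa using hn3
        · simp only [Finset.mem_insert, Finset.mem_singleton, not_or]
          exact ⟨hn1, hn2⟩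
      omega
    have hetE := inn_subset het
    have hefE := inn_subset hef
    have hmE := crs_subset hmem
    induction et using Sym2.ind with
    | _ p q =>
      induction ef using Sym2.ind with
      | _ r t =>
        rw [inn_mk] at het' hef'
        have hnp : s(p, q) ≠ s(x1, y1) := by
          intro h
          have hh := inn_mk.2 het'
          rw [h] at hh
          exact not_crs_of_inn hh (mem_crs.1 hmem).2
        have hnr : s(r, t) ≠ s(x1, y1) := by
          intro h
          have hh := inn_mk.2 hef'
          rw [h] at hh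
          exact not_crs_of_inn hh (mem_crs.1 hmem).2
        have hpS : p ∉ ({x1, y1} : Finset V) := by
          intro h
          refine D.ind _ hetE _ hmE hnp p (Sym2.mem_mk_left _ _) ?_
          rw [Sym2.mem_iff]
          simpa using h
        have hrS : r ∉ ({x1, y1} : Finset V) := by
          intro h
          refine D.ind _ hefE _ hmE hnr r (Sym2.mem_mk_left _ _) ?_
          rw [Sym2.mem_iff]
          simpa using h
        obtain ⟨x, y, hx, hy, hxS, hyS, hxy⟩ := crossExist' (σ := σ) (i := true)
          (D.conn {x1, y1} (lt_of_le_of_lt Finset.card_le_two (by omega)))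
          (u := p) (v := r) het'.1 (by rw [hef'.1]; simp) hpS hrS
        have hs : σ x ≠ σ y := fun h => hy (h ▸ hx)
        have hx' : x ∉ s(x1, y1) := by
          rw [Sym2.mem_iff]
          simpa using hxS
        have hy' : y ∉ s(x1, y1) := by
          rw [Sym2.mem_iff]
          simpa using hyS
        refine hno (oddCase D ho hxy hs ?_ hmem hx' hy')
        intro hE
        have : s(x, y) ∈ crs σ E := mem_crs.2 ⟨hE, crs_mk.2 hs⟩
        rw [he1, Finset.mem_singleton] at this
        exact hx' (this ▸ Sym2.mem_mk_left x y)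
  · -- at least three
    have hc3 : 3 ≤ (crs σ E).card := by
      have := Finset.card_pos.2 hpos
      obtain ⟨m, hm⟩ := ho
      omega
    obtain ⟨x, y, hs, hxy, hnE⟩ := newCross D hpos hcon' ho
    have : ∃ e1 ∈ crs σ E, x ∉ e1 ∧ y ∉ e1 := by
      by_contra hh
      push Not at hh
      have hsub : ∀ e ∈ crs σ E, x ∈ e ∨ y ∈ e := by
        intro e he
        by_cases hx : x ∈ e
        · exact Or.inl hx
        · exact Or.inr (hh e he hx)
      have hcard : (crs σ E).card ≤ 2 := by
        by_contra hlt
        obtain ⟨a, ha, b, hb, c, hc, hab, hac, hbc⟩ := Finset.two_lt_card.1 (by omega : 2 < (crs σ E).card)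
        have hI : ∀ e ∈ crs σ E, ∀ f ∈ crs σ E, e ≠ f → ∀ v : V, v ∈ e → v ∉ f :=
          fun e he f hf => D.ind e (crs_subset he) f (crs_subset hf)
        rcases hsub a ha with h1 | h1 <;> rcases hsub b hb with h2 | h2 <;>
          rcases hsub c hc with h3 | h3
        · exact hI a ha b hb hab _ h1 h2
        · exact hI a ha b hb hab _ h1 h2
        · exact hI a ha c hc hac _ h1 h3
        · exact hI b hb c hc hbc _ h2 h3
        · exact hI b hb c hc hbc _ h2 h3
        · exact hI a ha c hc hac _ h1 h3
        · exact hI a ha b hb hab _ h1 h2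
        · exact hI a ha b hb hab _ h1 h2
      omega
    obtain ⟨e1, he1, hx1, hy1⟩ := this
    exact hno (oddCase D ho hxy hs hnE he1 hx1 hy1)

end Pool.Agent.LWC
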