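import Pool.Agent.LWC.E

set_option autoImplicit false

/-!
# The common neighbour closure and the Lovasz-Woodall statement
-/

namespace Pool.Agent.LWC

open SimpleGraph

universe w

variable {V : Type w}

/-- One step of the closure: `H` is `G` together with an edge between two vertices which have at
least `k` common neighbours in `G`. -/
def Step (k : ℕ) (G H : SimpleGraph V) : Prop :=
  ∃ u v : V, k ≤ (G.commonNeighbors u v).ncard ∧ H = G ⊔ edge u v

theorem Step.le {k : ℕ} {G H : SimpleGraph V} (h : Step k G H) : G ≤ H := by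
  obtain ⟨u, v, -, rfl⟩ := h
  exact le_sup_left

theorem le_of_steps {k : ℕ} {G H : SimpleGraph V} (h : Relation.ReflTransGen (Step k) G H) :
    G ≤ H := by
  induction h with
  | refl => exact le_rfl
  | tail _ h ih => exact ih.trans h.le

theorem Step.hasCyc [Finite V] {k : ℕ} {G H : SimpleGraph V} (h : Step k G H)
    {E : Finset (Sym2 V)} (hk : 2 ≤ k) (hE : E.card = k) (hEG : ∀ e ∈ E, e ∈ G.edgeSet)
    (hc : HasCyc H E) : HasCyc G E := by
  classical
  obtain ⟨u, v, huv, rfl⟩ := h
  have hfin : (G.commonNeighbors u v).Finite := Set.toFinite _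
  refine step hfin.toFinset ?_ (by rw [hE]; exact hk) hEG ?_ hc
  · intro x hx
    rw [Set.Finite.mem_toFinset] at hx
    exact ⟨hx.1, hx.2⟩
  · rw [hE, ← Set.ncard_eq_toFinset_card _ hfin]
    exact huv

theorem hasCyc_iff [Finite V] {k : ℕ} {G H : SimpleGraph V}
    (h : Relation.ReflTransGen (Step k) G H) {E : Finset (Sym2 V)} (hk : 2 ≤ k) (hE : E.card = k)
    (hEG : ∀ e ∈ E, e ∈ G.edgeSet) : HasCyc G E ↔ HasCyc H E := by
  refine ⟨fun hh => hh.mono (le_of_steps h), ?_⟩
  intro hh
  induction h with
  | refl => exact hh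
  | tail hs h ih =>
    exact ih (h.hasCyc hk hE (fun e he => edgeSet_mono (le_of_steps hs) (hEG e he)) hh)

theorem conn_mono {G H : SimpleGraph V} (h : G ≤ H) {k : ℕ}
    (hG : ∀ S : Finset V, S.card < k → (G.induce ((S : Set V)ᶜ)).Connected) :
    ∀ S : Finset V, S.card < k → (H.induce ((S : Set V)ᶜ)).Connected := by
  intro S hS
  refine (hG S hS).mono ?_
  intro a b hab
  exact h hab

theorem del_mono {G H : SimpleGraph V} (h : G ≤ H) (E : Set (Sym2 V))
    (hH : ¬ (H.deleteEdges E).Connected) : ¬ (G.deleteEdges E).Connected := by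
  intro hG
  apply hH
  refine hG.mono ?_
  intro a b hab
  rw [deleteEdges_adj] at hab ⊢
  exact ⟨h hab.1, hab.2⟩

/-- in a closed graph with a large number of vertices and without three independent vertices the
vertex set is the union of two cliques -/
theorem exists_two [Fintype V] {G : SimpleGraph V} {k : ℕ} (hk : 1 ≤ k)
    (hcl : ∀ u v, u ≠ v → ¬ G.Adj u v → (G.commonNeighbors u v).ncard < k)
    (hal : ∀ x y z, x ≠ y → x ≠ z → y ≠ z → G.Adj x y ∨ G.Adj x z ∨ G.Adj y z)
    (hn : 5 * k ≤ Fintype.card V + 4) : ∃ σ : V → Bool, Two G σ := by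
  classical
  by_cases hcomp : ∀ a b, a ≠ b → G.Adj a b
  · exact ⟨fun _ => true, fun a b hab _ => hcomp a b hab⟩
  push Not at hcomp
  obtain ⟨u, v, huv, hnadj⟩ := hcomp
  -- the sets of non-neighbours
  let NN : V → Finset V := fun x => Finset.univ.filter (fun w => w ≠ x ∧ ¬ G.Adj x w)
  have hNN : ∀ x w, w ∈ NN x ↔ (w ≠ x ∧ ¬ G.Adj x w) := by
    intro x w
    simp [NN]
  have hbig : ∃ x, 2 * k - 1 ≤ (NN x).card := by
    by_contra hh
    push Not at hh
    have h1 := hh u
    have h2 := hh v
    have h3 := hcl u v huv hnadj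
    have hfin : (G.commonNeighbors u v).Finite := Set.toFinite _
    rw [Set.ncard_eq_toFinset_card _ hfin] at h3
    have hcov : (Finset.univ : Finset V) ⊆ NN u ∪ NN v ∪ hfin.toFinset := by
      intro w _
      rw [Finset.mem_union, Finset.mem_union, hNN, hNN, Set.Finite.mem_toFinset]
      by_cases hwu : w = u
      · left; right
        subst hwu
        exact ⟨huv, fun h => hnadj h.symm⟩
      by_cases hwv : w = v
      · left; left
        subst hwv
        exact ⟨huv.symm, hnadj⟩
      by_cases hau : G.Adj u w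
      · by_cases hav : G.Adj v w
        · right; exact ⟨hau, hav⟩
        · left; right; exact ⟨hwv, hav⟩
      · left; left; exact ⟨hwu, hau⟩
    have h4 := Finset.card_le_card hcov
    rw [Finset.card_univ] at h4
    have h5 := Finset.card_union_le (NN u ∪ NN v) hfin.toFinset
    have h6 := Finset.card_union_le (NN u) (NN v)
    omega
  obtain ⟨x, hx⟩ := hbig
  have hB : ∀ p ∈ NN x, ∀ q ∈ NN x, p ≠ q → G.Adj p q := by
    intro p hp q hq hpq
    rw [hNN] at hp hq
    rcases hal x p q hp.1.symm hq.1.symm hpq with h | h | h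
    · exact absurd h hp.2
    · exact absurd h hq.2
    · exact h
  let K : V → Prop := fun w => ∀ b ∈ NN x, b ≠ w → G.Adj w b
  have hBK : ∀ w ∈ NN x, K w := fun w hw b hb hne => hB w hw b hb hne.symm
  have hsmall : ∀ a, ¬ K a → ((NN x).filter (fun z => G.Adj a z)).card ≤ k - 1 := by
    intro a ha
    have : ∃ b ∈ NN x, b ≠ a ∧ ¬ G.Adj a b := by
      by_contra hh
      push Not at hh
      exact ha (fun b hb hne => hh b hb hne)
    obtain ⟨b, hb, hne, hnab⟩ := this
    have h1 := hcl a b hne.symm hnab
    have hfin : (G.commonNeighbors a b).Finite := Set.toFinite _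
    rw [Set.ncard_eq_toFinset_card _ hfin] at h1
    have hsub : (NN x).filter (fun z => G.Adj a z) ⊆ hfin.toFinset := by
      intro z hz
      rw [Finset.mem_filter] at hz
      rw [Set.Finite.mem_toFinset]
      refine ⟨hz.2, ?_⟩
      exact hB b hb z hz.1 (fun h => hnab (h ▸ hz.2))
    have := Finset.card_le_card hsub
    omega
  refine ⟨fun w => decide (K w), ?_⟩
  intro a b hab hs
  have hs' : K a ↔ K b := by
    simpa using hs
  by_cases hKa : K a
  · have hKb := hs'.1 hKa
    by_contra hnab
    have haB : a ∉ NN x := fun h => hnab (hKb a h hab).symm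
    have hbB : b ∉ NN x := fun h => hnab (hKa b h hab.symm)
    have h1 := hcl a b hab hnab
    have hfin : (G.commonNeighbors a b).Finite := Set.toFinite _
    rw [Set.ncard_eq_toFinset_card _ hfin] at h1
    have hsub : NN x ⊆ hfin.toFinset := by
      intro z hz
      rw [Set.Finite.mem_toFinset]
      exact ⟨hKa z hz (fun h => haB (h ▸ hz)), hKb z hz (fun h => hbB (h ▸ hz))⟩
    have := Finset.card_le_card hsub
    omega
  · have hKb : ¬ K b := fun h => hKa (hs'.2 h)
    have h1 := hsmall a hKa
    have h2 := hsmall b hKb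
    have hex : ∃ z ∈ NN x, ¬ G.Adj a z ∧ ¬ G.Adj b z := by
      by_contra hh
      push Not at hh
      have hsub : NN x ⊆ (NN x).filter (fun z => G.Adj a z) ∪ (NN x).filter (fun z => G.Adj b z) := by
        intro z hz
        rw [Finset.mem_union]
        by_cases haz : G.Adj a z
        · exact Or.inl (Finset.mem_filter.2 ⟨hz, haz⟩)
        · exact Or.inr (Finset.mem_filter.2 ⟨hz, hh z hz haz⟩)
      have h3 := Finset.card_le_card hsub
      have h4 := Finset.card_union_le ((NN x).filter (fun z => G.Adj a z))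
        ((NN x).filter (fun z => G.Adj b z))
      omega
    obtain ⟨z, hz, hza, hzb⟩ := hex
    have hza' : a ≠ z := fun h => hKa (h ▸ hBK z hz)
    have hzb' : b ≠ z := fun h => hKb (h ▸ hBK z hz)
    rcases hal a b z hab hza' hzb' with h | h | h
    · exact h
    · exact absurd h hza
    · exact absurd h hzb

/-- three nonadjacent vertices with large degree sum: two of them have many common neighbours -/
theorem three [Fintype V] {G : SimpleGraph V} {k : ℕ}
    (hcl : ∀ u v, u ≠ v → ¬ G.Adj u v → (G.commonNeighbors u v).ncard < k) {x y z : V}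
    (hxy : x ≠ y) (hxz : x ≠ z) (hyz : y ≠ z) (h1 : ¬ G.Adj x y) (h2 : ¬ G.Adj x z)
    (h3 : ¬ G.Adj y z) :
    (G.neighborSet x).ncard + (G.neighborSet y).ncard + (G.neighborSet z).ncard + 6 ≤
      Fintype.card V + 3 * k := by
  classical
  have hc1 := hcl x y hxy h1
  have hc2 := hcl x z hxz h2
  have hc3 := hcl y z hyz h3
  let N : V → Finset V := fun x => Finset.univ.filter (fun w => G.Adj x w)
  have hN : ∀ x, (G.neighborSet x).ncard = (N x).card := by
    intro x
    rw [← Set.ncard_coe_finset]
    congr 1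
    ext w
    simp [N]
  have hC : ∀ x y, (G.commonNeighbors x y).ncard = (N x ∩ N y).card := by
    intro x y
    rw [← Set.ncard_coe_finset]
    congr 1
    ext w
    simp [N, mem_commonNeighbors]
  rw [hC] at hc1 hc2 hc3
  rw [hN, hN, hN]
  have hu : (N x ∪ N y ∪ N z).card + 3 ≤ Fintype.card V := by
    have h3c : ({x, y, z} : Finset V).card = 3 := by
      rw [Finset.card_insert_of_notMem, Finset.card_insert_of_notMem, Finset.card_singleton]
      · simpa using hyz
      · simp only [Finset.mem_insert, Finset.mem_singleton, not_or]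
        exact ⟨hxy, hxz⟩
    have hd : Disjoint (N x ∪ N y ∪ N z) {x, y, z} := by
      rw [Finset.disjoint_left]
      intro w hw hw'
      simp only [Finset.mem_insert, Finset.mem_singleton] at hw'
      have h1' : ¬ G.Adj y x := fun h => h1 h.symm
      have h2' : ¬ G.Adj z x := fun h => h2 h.symm
      have h3' : ¬ G.Adj z y := fun h => h3 h.symm
      rcases hw' with rfl | rfl | rfl
      · simp [N, h1', h2'] at hw
      · simp [N, h1, h3'] at hw
      · simp [N, h2, h3] at hw
    rw [← h3c, ← Finset.card_union_of_disjoint hd, ← Finset.card_univ]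
    exact Finset.card_le_card (Finset.subset_univ _)
  have e1 := Finset.card_union_add_card_inter (N x) (N y)
  have e2 := Finset.card_union_add_card_inter (N x ∪ N y) (N z)
  have e3 : ((N x ∪ N y) ∩ N z).card ≤ (N x ∩ N z).card + (N y ∩ N z).card := by
    rw [Finset.union_inter_distrib_right]
    exact Finset.card_union_le _ _
  omega

/-- the degree sum condition on triples of independent vertices -/
def DegSum [Fintype V] (G : SimpleGraph V) (k : ℕ) : Prop :=
  ∀ x y z : V, x ≠ y → x ≠ z → y ≠ z → ¬ G.Adj x y → ¬ G.Adj x z → ¬ G.Adj y z →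
    Fintype.card V + 3 * k ≤
      (G.neighborSet x).ncard + (G.neighborSet y).ncard + (G.neighborSet z).ncard + 5

theorem DegSum.mono [Fintype V] {G H : SimpleGraph V} (h : G ≤ H) {k : ℕ} (hG : DegSum G k) :
    DegSum H k := by
  intro x y z hxy hxz hyz h1 h2 h3
  have := hG x y z hxy hxz hyz (fun hh => h1 (h hh)) (fun hh => h2 (h hh)) (fun hh => h3 (h hh))
  have hN : ∀ w, (G.neighborSet w).ncard ≤ (H.neighborSet w).ncard := by
    intro w
    exact Set.ncard_le_ncard (fun t ht => h ht) (Set.toFinite _)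
  have := hN x
  have := hN y
  have := hN z
  omega

theorem degMain [Fintype V] {k : ℕ} (hk : 2 ≤ k) (hn : 5 * k ≤ Fintype.card V + 4)
    {E : Finset (Sym2 V)} (hE : E.card = k) (hind : Ind E) (G : SimpleGraph V) :
    (∀ S : Finset V, S.card < k → (G.induce ((S : Set V)ᶜ)).Connected) → DegSum G k →
    (∀ e ∈ E, e ∈ G.edgeSet) → ¬ HasCyc G E →
    Odd k ∧ ¬ (G.deleteEdges (E : Set (Sym2 V))).Connected := by
  classical
  induction G using WellFoundedGT.induction with
  | _ G ih =>
  intro hconn hdeg hEG hno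
  by_cases hcl : ∀ u v, u ≠ v → ¬ G.Adj u v → (G.commonNeighbors u v).ncard < k
  · have hal : ∀ x y z, x ≠ y → x ≠ z → y ≠ z → G.Adj x y ∨ G.Adj x z ∨ G.Adj y z := by
      intro x y z hxy hxz hyz
      by_contra hh
      push Not at hh
      have h1 := hdeg x y z hxy hxz hyz hh.1 hh.2.1 hh.2.2
      have h2 := three hcl hxy hxz hyz hh.1 hh.2.1 hh.2.2
      omega
    obtain ⟨σ, hσ⟩ := exists_two (by omega : 1 ≤ k) hcl hal hn
    exact twoCliques (σ := σ) ⟨hσ, hk, hconn, hEG, hE, hind⟩ hno
  · push Not at hcl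
    obtain ⟨u, v, huv, hnadj, hc⟩ := hcl
    have hle : G ≤ G ⊔ edge u v := le_sup_left
    have hlt : G < G ⊔ edge u v := by
      refine lt_of_le_of_ne hle ?_
      intro h
      apply hnadj
      rw [h]
      rw [sup_adj]
      right
      rw [edge_adj]
      exact ⟨Or.inl ⟨rfl, rfl⟩, huv⟩
    have hstep : Step k G (G ⊔ edge u v) := ⟨u, v, hc, rfl⟩
    obtain ⟨h1, h2⟩ := ih _ hlt (conn_mono hle hconn) (hdeg.mono hle)
      (fun e he => edgeSet_mono hle (hEG e he)) (fun hh => hno (hstep.hasCyc hk hE hEG hh))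
    exact ⟨h1, del_mono hle _ h2⟩

end Pool.Agent.LWC
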