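import Pool.Agent.LWC.F

set_option autoImplicit false

/-!
# Systems of disjoint paths and their type multigraph: an Euler tour gives a cycle
-/

namespace Pool.Agent.LWC

open SimpleGraph

universe w

variable {V : Type w} {ι : Type} [DecidableEq ι]

/-- a path of `G` with its two ends -/
structure Blk (G : SimpleGraph V) where
  a : V
  b : V
  p : G.Walk a b
  hp : p.IsPath

namespace Blk

variable {G : SimpleGraph V}

/-- the vertices of the path -/
def supp (B : Blk G) : List V := B.p.support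

/-- the reversed path -/
def rev (B : Blk G) : Blk G := ⟨B.b, B.a, B.p.reverse, B.hp.reverse⟩

/-- the one-vertex path -/
def one (G : SimpleGraph V) (v : V) : Blk G := ⟨v, v, Walk.nil, Walk.IsPath.nil⟩

/-- the one-edge path -/
def edg {a b : V} (h : G.Adj a b) : Blk G :=
  ⟨a, b, Walk.cons h Walk.nil, Walk.IsPath.nil.cons (by simpa using h.ne)⟩

theorem rev_a (B : Blk G) : B.rev.a = B.b := rfl

theorem rev_b (B : Blk G) : B.rev.b = B.a := rfl

theorem supp_rev (B : Blk G) : B.rev.supp = B.supp.reverse := by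
  simp [supp, rev]

theorem mem_edges_rev (B : Blk G) (e : Sym2 V) : e ∈ B.rev.p.edges ↔ e ∈ B.p.edges := by
  simp [rev]

theorem a_mem (B : Blk G) : B.a ∈ B.supp := B.p.start_mem_support

theorem b_mem (B : Blk G) : B.b ∈ B.supp := B.p.end_mem_support

theorem join_isPath (B C : Blk G) (h : G.Adj B.b C.a) (hd : ∀ v ∈ B.supp, v ∉ C.supp) :
    (B.p.append (Walk.cons h C.p)).IsPath := by
  rw [Walk.isPath_def, Walk.support_append, Walk.support_cons, List.tail_cons,
    List.nodup_append']
  exact ⟨B.hp.support_nodup, C.hp.support_nodup, fun v hv hv' => hd v hv hv'⟩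

/-- concatenation of two disjoint paths along an edge -/
def join (B C : Blk G) (h : G.Adj B.b C.a) (hd : ∀ v ∈ B.supp, v ∉ C.supp) : Blk G :=
  ⟨B.a, C.b, B.p.append (Walk.cons h C.p), join_isPath B C h hd⟩

theorem join_a (B C : Blk G) (h : G.Adj B.b C.a) (hd : ∀ v ∈ B.supp, v ∉ C.supp) :
    (join B C h hd).a = B.a := rfl

theorem join_b (B C : Blk G) (h : G.Adj B.b C.a) (hd : ∀ v ∈ B.supp, v ∉ C.supp) :
    (join B C h hd).b = C.b := rfl

theorem supp_join (B C : Blk G) (h : G.Adj B.b C.a) (hd : ∀ v ∈ B.supp, v ∉ C.supp) :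
    (join B C h hd).supp = B.supp ++ C.supp := by
  simp [supp, join, Walk.support_append]

theorem mem_edges_join (B C : Blk G) (h : G.Adj B.b C.a) (hd : ∀ v ∈ B.supp, v ∉ C.supp)
    {e : Sym2 V} (he : e ∈ B.p.edges ∨ e ∈ C.p.edges) : e ∈ (join B C h hd).p.edges := by
  simp only [join, Walk.edges_append, Walk.edges_cons, List.mem_append, List.mem_cons]
  tauto

end Blk

variable {G : SimpleGraph V}

/-- the paths of the list are pairwise disjoint -/
def ND (L : List (Blk G)) : Prop := (L.flatMap Blk.supp).Nodup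

/-- number of ends in the class `h` -/
def cnt (σ : V → ι) (h : ι) (L : List (Blk G)) : ℕ :=
  (L.map fun B => (if σ B.a = h then 1 else 0) + (if σ B.b = h then 1 else 0)).sum

/-- number of paths whose ends are separated by `X` -/
def ncross (σ : V → ι) (X : Finset ι) (L : List (Blk G)) : ℕ :=
  L.countP (fun B => decide (¬(σ B.a ∈ X ↔ σ B.b ∈ X)))

/-- connectedness of the type multigraph -/
def Cn (σ : V → ι) (L : List (Blk G)) : Prop :=
  ∀ X : Finset ι, (∀ B ∈ L, (σ B.a ∈ X ↔ σ B.b ∈ X)) →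
    (∀ B ∈ L, σ B.a ∈ X) ∨ (∀ B ∈ L, σ B.a ∉ X)

theorem cnt_cons (σ : V → ι) (h : ι) (B : Blk G) (L : List (Blk G)) :
    cnt σ h (B :: L) = (if σ B.a = h then 1 else 0) + (if σ B.b = h then 1 else 0) + cnt σ h L := by
  simp [cnt]

theorem cnt_perm {σ : V → ι} {h : ι} {L L' : List (Blk G)} (hp : L.Perm L') :
    cnt σ h L = cnt σ h L' := by
  unfold cnt
  exact (hp.map _).sum_eq

theorem ncross_cons (σ : V → ι) (X : Finset ι) (B : Blk G) (L : List (Blk G)) :
    ncross σ X (B :: L) = ncross σ X L + (if (σ B.a ∈ X ↔ σ B.b ∈ X) then 0 else 1) := by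
  unfold ncross
  rw [List.countP_cons]
  by_cases h : (σ B.a ∈ X ↔ σ B.b ∈ X) <;> simp [h]

theorem ncross_perm {σ : V → ι} {X : Finset ι} {L L' : List (Blk G)} (hp : L.Perm L') :
    ncross σ X L = ncross σ X L' := by
  unfold ncross
  exact hp.countP_eq _

theorem ncross_eq_zero {σ : V → ι} {X : Finset ι} {L : List (Blk G)}
    (h : ∀ B ∈ L, (σ B.a ∈ X ↔ σ B.b ∈ X)) : ncross σ X L = 0 := by
  unfold ncross
  rw [List.countP_eq_zero]
  intro B hB
  simp [h B hB]

theorem sum_cnt_add_cross (σ : V → ι) (X : Finset ι) (L : List (Blk G)) :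
    Even (ncross σ X L + ∑ h ∈ X, cnt σ h L) := by
  induction L with
  | nil => simp [ncross, cnt]
  | cons B L ih =>
    have h1 : ∑ h ∈ X, cnt σ h (B :: L) =
        (if σ B.a ∈ X then 1 else 0) + (if σ B.b ∈ X then 1 else 0) + ∑ h ∈ X, cnt σ h L := by
      simp only [cnt_cons, Finset.sum_add_distrib, Finset.sum_ite_eq]
    rw [h1, ncross_cons]
    by_cases ha : σ B.a ∈ X <;> by_cases hb : σ B.b ∈ X <;> simp only [ha, hb, if_true, if_false,
      iff_self, iff_true, iff_false, not_true, not_false_iff, true_iff, false_iff] <;>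
      rw [Nat.even_iff] at ih ⊢ <;> omega

/-- parity of a cut -/
theorem cut_parity {σ : V → ι} {L : List (Blk G)} {τ : ι → ℕ}
    (h : ∀ h, Even (cnt σ h L + τ h)) (X : Finset ι) : Even (ncross σ X L + ∑ h ∈ X, τ h) := by
  have h1 := sum_cnt_add_cross σ X L
  have h2 : Even (∑ h ∈ X, (cnt σ h L + τ h)) := Finset.even_sum _ (fun i _ => h i)
  rw [Finset.sum_add_distrib] at h2
  rw [Nat.even_iff] at h1 h2 ⊢
  omega

theorem ND.perm {L L' : List (Blk G)} (hp : L.Perm L') (h : ND L) : ND L' := by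
  unfold ND at *
  exact (List.Perm.nodup_iff (hp.flatMap_right _)).1 h

theorem Cn.perm {σ : V → ι} {L L' : List (Blk G)} (hp : L.Perm L') (h : Cn σ L) : Cn σ L' := by
  intro X hX
  rcases h X (fun B hB => hX B (hp.mem_iff.1 hB)) with h | h
  · exact Or.inl (fun B hB => h B (hp.mem_iff.2 hB))
  · exact Or.inr (fun B hB => h B (hp.mem_iff.2 hB))

theorem ND.tail {B : Blk G} {L : List (Blk G)} (h : ND (B :: L)) : ND L := by
  unfold ND at *
  rw [List.flatMap_cons, List.nodup_append'] at h
  exact h.2.1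

theorem ND.disj {B C : Blk G} {L : List (Blk G)} (h : ND (B :: L)) (hC : C ∈ L) :
    ∀ v ∈ B.supp, v ∉ C.supp := by
  unfold ND at *
  rw [List.flatMap_cons, List.nodup_append'] at h
  intro v hv hv'
  exact h.2.2 hv (List.mem_flatMap.2 ⟨C, hC, hv'⟩)

theorem ND.rev {B : Blk G} {L : List (Blk G)} (h : ND (B :: L)) : ND (B.rev :: L) := by
  unfold ND at *
  rw [List.flatMap_cons] at h ⊢
  rw [Blk.supp_rev]
  exact (List.Perm.nodup_iff ((List.reverse_perm _).append_right _)).2 h

theorem Cn.rev {σ : V → ι} {B : Blk G} {L : List (Blk G)} (h : Cn σ (B :: L)) :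
    Cn σ (B.rev :: L) := by
  intro X hX
  have hB : (σ B.b ∈ X ↔ σ B.a ∈ X) := hX B.rev (List.mem_cons_self)
  have hX' : ∀ C ∈ B :: L, (σ C.a ∈ X ↔ σ C.b ∈ X) := by
    intro C hC
    rcases List.mem_cons.1 hC with rfl | hC
    · exact hB.symm
    · exact hX C (List.mem_cons_of_mem _ hC)
  rcases h X hX' with h | h
  · left
    intro C hC
    rcases List.mem_cons.1 hC with rfl | hC
    · exact hB.2 (h B List.mem_cons_self)
    · exact h C (List.mem_cons_of_mem _ hC)
  · right
    intro C hC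
    rcases List.mem_cons.1 hC with rfl | hC
    · exact fun hh => h B List.mem_cons_self (hB.1 hh)
    · exact h C (List.mem_cons_of_mem _ hC)

theorem cnt_rev {σ : V → ι} {h : ι} {B : Blk G} {L : List (Blk G)} :
    cnt σ h (B.rev :: L) = cnt σ h (B :: L) := by
  rw [cnt_cons, cnt_cons, Blk.rev_a, Blk.rev_b]
  omega

/-- A cut witnessing that joining the first two paths destroys connectedness. -/
theorem bad_cut {σ : V → ι} [Fintype ι] {B1 B2 B' : Blk G} {L : List (Blk G)}
    (hC : Cn σ (B1 :: B2 :: L)) (hh : σ B1.b = σ B2.a) (ha : B'.a = B1.a) (hb : B'.b = B2.b)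
    (hbad : ¬ Cn σ (B' :: L)) :
    ∃ X : Finset ι, σ B1.b ∈ X ∧ σ B1.a ∉ X ∧ σ B2.b ∉ X ∧
      (∀ C ∈ L, (σ C.a ∈ X ↔ σ C.b ∈ X)) ∧ ∃ C ∈ L, σ C.a ∈ X := by
  unfold Cn at hbad
  push Not at hbad
  obtain ⟨X0, h1, h2, h3⟩ := hbad
  -- replace by the complement if necessary
  obtain ⟨X, hX, g1, g2, g3⟩ : ∃ X : Finset ι, σ B1.b ∈ X ∧
      (∀ B ∈ B' :: L, (σ B.a ∈ X ↔ σ B.b ∈ X)) ∧ (∃ B ∈ B' :: L, σ B.a ∉ X) ∧
      (∃ B ∈ B' :: L, σ B.a ∈ X) := by
    by_cases hx : σ B1.b ∈ X0
    · exact ⟨X0, hx, h1, h2, h3⟩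
    · refine ⟨X0ᶜ, by rw [Finset.mem_compl]; exact hx, ?_, ?_, ?_⟩
      · intro B hB
        rw [Finset.mem_compl, Finset.mem_compl, h1 B hB]
      · obtain ⟨B, hB, hB'⟩ := h3
        exact ⟨B, hB, by rw [Finset.mem_compl, not_not]; exact hB'⟩
      · obtain ⟨B, hB, hB'⟩ := h2
        exact ⟨B, hB, by rw [Finset.mem_compl]; exact hB'⟩
  have hB' := g1 B' List.mem_cons_self
  rw [ha, hb] at hB'
  have hna : σ B1.a ∉ X := by
    intro hin
    have hin2 := hB'.1 hin
    have hall : ∀ B ∈ B1 :: B2 :: L, (σ B.a ∈ X ↔ σ B.b ∈ X) := by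
      intro B hB
      rcases List.mem_cons.1 hB with rfl | hB
      · exact ⟨fun _ => hX, fun _ => hin⟩
      rcases List.mem_cons.1 hB with rfl | hB
      · exact ⟨fun _ => hin2, fun _ => hh ▸ hX⟩
      · exact g1 B (List.mem_cons_of_mem _ hB)
    rcases hC X hall with h | h
    · obtain ⟨B, hB, hBX⟩ := g2
      rcases List.mem_cons.1 hB with rfl | hB
      · rw [ha] at hBX
        exact hBX hin
      · exact hBX (h B (List.mem_cons_of_mem _ (List.mem_cons_of_mem _ hB)))
    · exact h B1 List.mem_cons_self hin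
  refine ⟨X, hX, hna, fun h => hna (hB'.2 h), fun C hC => g1 C (List.mem_cons_of_mem _ hC), ?_⟩
  obtain ⟨B, hB, hBX⟩ := g3
  rcases List.mem_cons.1 hB with rfl | hB
  · rw [ha] at hBX
    exact absurd hBX hna
  · exact ⟨B, hB, hBX⟩

/-- Euler tour: the paths of a connected even system can be concatenated to one path with both
ends in the same class. -/
theorem euler [Fintype ι] {σ : V → ι} (hG : ∀ a b, a ≠ b → σ a = σ b → G.Adj a b) :
    ∀ (n : ℕ) (L : List (Blk G)), L.length = n + 1 → ND L → (∀ h, Even (cnt σ h L)) → Cn σ L →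
      ∃ Q : Blk G, σ Q.a = σ Q.b ∧ ∀ B ∈ L, ∀ e ∈ B.p.edges, e ∈ Q.p.edges := by
  intro n
  induction n with
  | zero =>
    intro L hl _ hE _
    obtain ⟨B, rfl⟩ := List.length_eq_one_iff.1 hl
    refine ⟨B, ?_, fun C hC e he => by
      rw [List.mem_singleton] at hC
      rw [← hC]; exact he⟩
    by_contra hne
    have := hE (σ B.a)
    rw [cnt_cons] at this
    simp [cnt, Ne.symm hne] at this
  | succ n ih =>
    intro L hl hND hE hC
    -- joining two paths
    have hjoin : ∀ (B1 B2 : Blk G) (L2 : List (Blk G)), L.length = (B1 :: B2 :: L2).length →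
        ND (B1 :: B2 :: L2) → (∀ h, Even (cnt σ h (B1 :: B2 :: L2))) →
        σ B1.b = σ B2.a →
        (∀ B' : Blk G, B'.a = B1.a → B'.b = B2.b → Cn σ (B' :: L2)) →
        ∃ Q : Blk G, σ Q.a = σ Q.b ∧ ∀ B ∈ B1 :: B2 :: L2, ∀ e ∈ B.p.edges, e ∈ Q.p.edges := by
      intro B1 B2 L2 hl2 hND2 hE2 hh hgood
      have hd := hND2.disj (C := B2) List.mem_cons_self
      have hadj : G.Adj B1.b B2.a := by
        refine hG _ _ ?_ hh
        intro h
        exact hd B1.b B1.b_mem (h ▸ B2.a_mem)
      obtain ⟨Q, hQ1, hQ2⟩ := ih (Blk.join B1 B2 hadj hd :: L2) (by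
          simp only [List.length_cons] at hl2 ⊢; omega)
        (by
          unfold ND at hND2 ⊢
          rw [List.flatMap_cons, Blk.supp_join, List.append_assoc]
          rw [List.flatMap_cons, List.flatMap_cons] at hND2
          exact hND2)
        (by
          intro h
          have := hE2 h
          rw [cnt_cons, cnt_cons] at this
          rw [cnt_cons, Blk.join_a, Blk.join_b]
          rw [hh] at this
          rw [Nat.even_iff] at this ⊢
          split_ifs at this ⊢ <;> omega)
        (hgood _ rfl rfl)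
      refine ⟨Q, hQ1, ?_⟩
      intro B hB e he
      rcases List.mem_cons.1 hB with rfl | hB
      · exact hQ2 _ List.mem_cons_self e (Blk.mem_edges_join _ _ _ _ (Or.inl he))
      rcases List.mem_cons.1 hB with rfl | hB
      · exact hQ2 _ List.mem_cons_self e (Blk.mem_edges_join _ _ _ _ (Or.inr he))
      · exact hQ2 _ (List.mem_cons_of_mem _ hB) e he
    -- the first path
    obtain ⟨B1, L1, rfl⟩ : ∃ B1 L1, L = B1 :: L1 := by
      cases L with
      | nil => simp at hl
      | cons B L => exact ⟨B, L, rfl⟩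
    have hL1 : L1 ≠ [] := by
      rintro rfl
      simp at hl
    -- another path with an end in the class of `B1.b`
    have hex : ∃ B2 ∈ L1, σ B2.a = σ B1.b ∨ σ B2.b = σ B1.b := by
      by_contra hno
      push Not at hno
      have h0 : cnt σ (σ B1.b) L1 = 0 := by
        unfold cnt
        rw [List.sum_eq_zero_iff]
        intro x hx
        rw [List.mem_map] at hx
        obtain ⟨B, hB, rfl⟩ := hx
        have := hno B hB
        simp [this.1, this.2]
      have h1 := hE (σ B1.b)
      rw [cnt_cons, h0] at h1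
      have hloop : σ B1.a = σ B1.b := by
        by_contra hne
        simp [hne] at h1
      rcases hC {σ B1.b} (by
        intro B hB
        rcases List.mem_cons.1 hB with rfl | hB
        · simp [hloop]
        · have := hno B hB
          simp [this.1, this.2]) with h | h
      · obtain ⟨B, hB⟩ := List.exists_mem_of_ne_nil _ hL1
        have := h B (List.mem_cons_of_mem _ hB)
        rw [Finset.mem_singleton] at this
        exact (hno B hB).1 this
      · exact h B1 List.mem_cons_self (by simp [hloop])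
    -- bring a path with an end in the class of `B1.b` to the second place, oriented
    have hfront : ∀ (B : Blk G) (M : List (Blk G)), B ∈ M → (σ B.a = σ B1.b ∨ σ B.b = σ B1.b) →
        ∃ (B' : Blk G) (M' : List (Blk G)), σ B1.b = σ B'.a ∧ (B' :: M').length = M.length ∧
          (∀ P : List (Blk G), ND (P ++ M) → ND (P ++ B' :: M')) ∧
          (∀ P : List (Blk G), ∀ h, cnt σ h (P ++ B' :: M') = cnt σ h (P ++ M)) ∧
          (∀ P : List (Blk G), Cn σ (P ++ M) → Cn σ (P ++ B' :: M')) ∧
          (∀ C ∈ M, ∀ e ∈ C.p.edges, ∃ D ∈ B' :: M', e ∈ D.p.edges) ∧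
          (B' = B ∨ B' = B.rev) ∧ (∀ C ∈ M', C ∈ M) ∧ (∀ C ∈ M, C = B ∨ C ∈ M') := by
      intro B M hB hside
      classical
      have hperm : M.Perm (B :: M.erase B) := List.perm_cons_erase hB
      have hmem' : ∀ C ∈ M.erase B, C ∈ M := fun C hC => List.mem_of_mem_erase hC
      have hmem'' : ∀ C ∈ M, C = B ∨ C ∈ M.erase B := by
        intro C hC
        exact List.mem_cons.1 (hperm.mem_iff.1 hC)
      rcases hside with hs | hs
      · refine ⟨B, M.erase B, hs.symm, hperm.length_eq.symm, ?_, ?_, ?_, ?_, Or.inl rfl, hmem',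
          hmem''⟩
        · intro P hP
          exact hP.perm (hperm.append_left P)
        · intro P h
          exact (cnt_perm (hperm.append_left P)).symm
        · intro P hP
          exact hP.perm (hperm.append_left P)
        · intro C hC e he
          exact ⟨C, hperm.mem_iff.1 hC, he⟩
      · refine ⟨B.rev, M.erase B, hs.symm, ?_, ?_, ?_, ?_, ?_, Or.inr rfl, hmem', hmem''⟩
        · rw [List.length_cons, ← List.length_cons (a := B)]; exact hperm.length_eq.symm
        · intro P hP
          have h1 : ND (B :: (P ++ M.erase B)) :=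
            hP.perm ((hperm.append_left P).trans List.perm_middle)
          exact h1.rev.perm List.perm_middle.symm
        · intro P h
          rw [cnt_perm (List.perm_middle (a := B.rev) (l₁ := P) (l₂ := M.erase B)), cnt_rev,
            ← cnt_perm (List.perm_middle (a := B) (l₁ := P) (l₂ := M.erase B))]
          exact (cnt_perm (hperm.append_left P)).symm
        · intro P hP
          have h1 : Cn σ (B :: (P ++ M.erase B)) :=
            hP.perm ((hperm.append_left P).trans List.perm_middle)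
          exact h1.rev.perm List.perm_middle.symm
        · intro C hC e he
          rcases hmem'' C hC with rfl | hC'
          · exact ⟨C.rev, List.mem_cons_self, (Blk.mem_edges_rev _ _).2 he⟩
          · exact ⟨C, List.mem_cons_of_mem _ hC', he⟩
    obtain ⟨B2, hB2, hs2⟩ := hex
    obtain ⟨B2', L2, hh2, hlen2, hnd2, hcnt2, hcn2, hcov2, -, -, -⟩ := hfront B2 L1 hB2 hs2
    have hND2 : ND (B1 :: B2' :: L2) := hnd2 [B1] hND
    have hE2 : ∀ h, Even (cnt σ h (B1 :: B2' :: L2)) := by
      intro h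
      have := hcnt2 [B1] h
      simp only [List.cons_append, List.nil_append] at this
      rw [this]
      exact hE h
    have hC2 : Cn σ (B1 :: B2' :: L2) := hcn2 [B1] hC
    have hlen : (B1 :: L1).length = (B1 :: B2' :: L2).length := by
      simp only [List.length_cons] at hlen2 ⊢; omega
    -- transfer of the conclusion
    have hback : (∃ Q : Blk G, σ Q.a = σ Q.b ∧ ∀ B ∈ B1 :: B2' :: L2, ∀ e ∈ B.p.edges,
        e ∈ Q.p.edges) → ∃ Q : Blk G, σ Q.a = σ Q.b ∧ ∀ B ∈ B1 :: L1, ∀ e ∈ B.p.edges,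
        e ∈ Q.p.edges := by
      rintro ⟨Q, hQ1, hQ2⟩
      refine ⟨Q, hQ1, ?_⟩
      intro B hB e he
      rcases List.mem_cons.1 hB with rfl | hB
      · exact hQ2 _ List.mem_cons_self e he
      · obtain ⟨D, hD, heD⟩ := hcov2 B hB e he
        exact hQ2 D (List.mem_cons_of_mem _ hD) e heD
    apply hback
    by_cases hgood : ∀ B' : Blk G, B'.a = B1.a → B'.b = B2'.b → Cn σ (B' :: L2)
    · exact hjoin B1 B2' L2 hlen hND2 hE2 hh2 hgood
    -- otherwise a cut
    push Not at hgood
    obtain ⟨B', hBa, hBb, hbad⟩ := hgood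
    obtain ⟨X, hX1, hX2, hX3, hX4, C0, hC0, hC0X⟩ := bad_cut hC2 hh2 hBa hBb hbad
    have hex3 : ∃ B3 ∈ L2, σ B3.a = σ B1.b ∨ σ B3.b = σ B1.b := by
      by_contra hno
      push Not at hno
      rcases hC2 (X.erase (σ B1.b)) (by
        intro B hB
        rcases List.mem_cons.1 hB with rfl | hB
        · simp [hX2]
        rcases List.mem_cons.1 hB with rfl | hB
        · simp [← hh2, hX3]
        · have h1 := hno B hB
          have h2 := hX4 B hB
          rw [Finset.mem_erase, Finset.mem_erase]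
          simp [h1.1, h1.2, h2]) with h | h
      · exact hX2 (Finset.mem_of_mem_erase (h B1 List.mem_cons_self))
      · exact h C0 (List.mem_cons_of_mem _ (List.mem_cons_of_mem _ hC0))
          (Finset.mem_erase.2 ⟨(hno C0 hC0).1, hC0X⟩)
    obtain ⟨B3, hB3, hs3⟩ := hex3
    obtain ⟨B3', L3, hh3, hlen3, hnd3, hcnt3, hcn3, hcov3, hB3', hmem3, -⟩ := hfront B3 L2 hB3 hs3
    -- the list `B1 :: B3' :: B2' :: L3`
    have hsw : (B1 :: B2' :: B3' :: L3).Perm (B1 :: B3' :: B2' :: L3) :=
      (List.Perm.swap _ _ _).cons _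
    have hND3 : ND (B1 :: B3' :: B2' :: L3) := (hnd3 [B1, B2'] hND2).perm hsw
    have hE3' : ∀ h, Even (cnt σ h (B1 :: B2' :: B3' :: L3)) := by
      intro h
      have := hcnt3 [B1, B2'] h
      simp only [List.cons_append, List.nil_append] at this
      rw [this]
      exact hE2 h
    have hE3 : ∀ h, Even (cnt σ h (B1 :: B3' :: B2' :: L3)) := by
      intro h
      rw [← cnt_perm hsw]
      exact hE3' h
    have hC3 : Cn σ (B1 :: B3' :: B2' :: L3) := (hcn3 [B1, B2'] hC2).perm hsw
    have hres : ∃ Q : Blk G, σ Q.a = σ Q.b ∧ ∀ B ∈ B1 :: B3' :: B2' :: L3, ∀ e ∈ B.p.edges,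
        e ∈ Q.p.edges := by
      refine hjoin B1 B3' (B2' :: L3) ?_ hND3 hE3 hh3 ?_
      · simp only [List.length_cons] at hlen hlen3 ⊢; omega
      · intro B'' hBa' hBb'
        by_contra hbad'
        obtain ⟨Y, hY1, hY2, hY3, hY4, -⟩ := bad_cut hC3 hh3 hBa' hBb' hbad'
        have hpar := cut_parity (σ := σ) (L := B1 :: B2' :: B3' :: L3) (τ := fun _ => 0)
          (by simpa using hE3') (X ∩ Y)
        have hB2Y : σ B2'.b ∈ Y := by
          rw [← hY4 B2' List.mem_cons_self, ← hh2]; exact hY1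
        have hB3X : (σ B3'.a ∈ X ↔ σ B3'.b ∈ X) := by
          rcases hB3' with rfl | rfl
          · exact hX4 _ hB3
          · exact (hX4 _ hB3).symm
        have h0 : ncross σ (X ∩ Y) L3 = 0 := by
          apply ncross_eq_zero
          intro B hB
          rw [Finset.mem_inter, Finset.mem_inter, hX4 B (hmem3 B hB),
            hY4 B (List.mem_cons_of_mem _ hB)]
        rw [ncross_cons, ncross_cons, ncross_cons, h0] at hpar
        have e1 : ¬ (σ B1.a ∈ X ∩ Y ↔ σ B1.b ∈ X ∩ Y) := by
          simp [hX1, hX2, hY1]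
        have e2 : ¬ (σ B2'.a ∈ X ∩ Y ↔ σ B2'.b ∈ X ∩ Y) := by
          simp [← hh2, hX1, hX3, hY1]
        have e3 : ¬ (σ B3'.a ∈ X ∩ Y ↔ σ B3'.b ∈ X ∩ Y) := by
          simp [← hh3, hX1, hY3, hY1]
        rw [if_neg e1, if_neg e2, if_neg e3] at hpar
        simp at hpar
        exact absurd hpar (by decide)
    obtain ⟨Q, hQ1, hQ2⟩ := hres
    refine ⟨Q, hQ1, ?_⟩
    intro B hB e he
    rcases List.mem_cons.1 hB with rfl | hB
    · exact hQ2 _ List.mem_cons_self e he
    rcases List.mem_cons.1 hB with rfl | hB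
    · exact hQ2 _ (List.mem_cons_of_mem _ (List.mem_cons_of_mem _ List.mem_cons_self)) e he
    · obtain ⟨D, hD, heD⟩ := hcov3 B hB e he
      rcases List.mem_cons.1 hD with rfl | hD
      · exact hQ2 _ (List.mem_cons_of_mem _ List.mem_cons_self) e heD
      · exact hQ2 _ (List.mem_cons_of_mem _ (List.mem_cons_of_mem _ (List.mem_cons_of_mem _ hD)))
          e heD

end Pool.Agent.LWC
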