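import Pool.Agent.LWC.H9

set_option autoImplicit false

/-!
# Completing a `k`-linked part does not create new cycles through `k` prescribed edges
-/

namespace Pool.Agent.LWC

open SimpleGraph Classical

universe w

variable {V : Type w}

/-- every subwalk between two vertices of `A` without edges of `E` has length at most one -/
def Tight {K : SimpleGraph V} (A : Set V) (E : Finset (Sym2 V)) {u v : V} (q : K.Walk u v) :
    Prop :=
  ∀ (x y : V) (q1 : K.Walk u x) (r : K.Walk x y) (q2 : K.Walk y v),
    q = q1.append (r.append q2) → x ∈ A → y ∈ A → (∀ e ∈ r.edges, e ∉ E) → r.length ≤ 1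

theorem Tight.tail {K : SimpleGraph V} {A : Set V} {E : Finset (Sym2 V)} {u u' v : V}
    {h : K.Adj u u'} {q : K.Walk u' v} (ht : Tight A E (Walk.cons h q)) : Tight A E q := by
  intro x y q1 r q2 hq hx hy hr
  refine ht x y (Walk.cons h q1) r q2 ?_ hx hy hr
  rw [hq]
  rfl

/-- number of vertices of `A` in the first segment -/
noncomputable def sg {K : SimpleGraph V} (A : Set V) (E : Finset (Sym2 V)) :
    ∀ {u v : V}, K.Walk u v → ℕ
  | u, _, .nil => if u ∈ A then 1 else 0
  | u, _, .cons (v := u') _ q => (if u ∈ A then 1 else 0) +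
      (if s(u, u') ∈ E then 0 else sg A E q)

/-- number of vertices of `A` -/
noncomputable def nA {K : SimpleGraph V} (A : Set V) {u v : V} (q : K.Walk u v) : ℕ :=
  (q.support.filter (fun x => x ∈ A)).length

/-- number of edges of `E` -/
noncomputable def nE {K : SimpleGraph V} (E : Finset (Sym2 V)) {u v : V} (q : K.Walk u v) : ℕ :=
  (q.edges.filter (fun x => x ∈ E)).length

/-- the pairs of consecutive vertices of `A`, joined by an edge outside `E` -/
noncomputable def Mq {K : SimpleGraph V} (A : Set V) (E : Finset (Sym2 V)) :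
    ∀ {u v : V}, K.Walk u v → List (V × V)
  | _, _, .nil => []
  | u, _, .cons (v := u') _ q => if s(u, u') ∉ E ∧ u ∈ A ∧ u' ∈ A then (u, u') :: Mq A E q
      else Mq A E q

theorem sg_one {K : SimpleGraph V} {A : Set V} {E : Finset (Sym2 V)} :
    ∀ {u v : V} (q : K.Walk u v), 1 ≤ sg A E q → ∃ (y : V) (r : K.Walk u y) (q2 : K.Walk y v),
      q = r.append q2 ∧ y ∈ A ∧ ∀ e ∈ r.edges, e ∉ E := by
  intro u v q
  induction q with
  | @nil u =>
    intro h
    rw [sg] at h
    by_cases hu : u ∈ A
    · exact ⟨u, .nil, .nil, rfl, hu, by simp⟩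
    · simp [hu] at h
  | @cons u u' v h q ih =>
    intro hs
    by_cases hu : u ∈ A
    · exact ⟨u, .nil, .cons h q, rfl, hu, by simp⟩
    · rw [sg] at hs
      by_cases he : s(u, u') ∈ E
      · simp [hu, he] at hs
      · rw [if_neg hu, if_neg he, zero_add] at hs
        obtain ⟨y, r, q2, h1, h2, h3⟩ := ih hs
        refine ⟨y, .cons h r, q2, by rw [h1]; rfl, h2, ?_⟩
        intro e hee
        rw [Walk.edges_cons] at hee
        rcases List.mem_cons.1 hee with h4 | h4
        · rw [h4]; exact he
        · exact h3 e h4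

theorem sg_two {K : SimpleGraph V} {A : Set V} {E : Finset (Sym2 V)}
    {u v : V} (q : K.Walk u v) (hs : 2 ≤ sg A E q) :
      ∃ (y : V) (r : K.Walk u y) (q2 : K.Walk y v),
      q = r.append q2 ∧ y ∈ A ∧ (∀ e ∈ r.edges, e ∉ E) ∧ 1 ≤ r.length := by
  cases q with
  | nil =>
    rw [sg] at hs
    split_ifs at hs <;> omega
  | @cons u u' v h q =>
    rw [sg] at hs
    by_cases he : s(u, u') ∈ E
    · simp only [he, if_true] at hs
      split_ifs at hs <;> omega
    · rw [if_neg he] at hs
      have h1 : 1 ≤ sg A E q := by split_ifs at hs <;> omega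
      obtain ⟨y, r, q2, h1, h2, h3⟩ := sg_one q h1
      refine ⟨y, .cons h r, q2, by rw [h1]; rfl, h2, ?_, by simp⟩
      intro e hee
      rw [Walk.edges_cons] at hee
      rcases List.mem_cons.1 hee with h4 | h4
      · rw [h4]; exact he
      · exact h3 e h4

theorem sg_le {K : SimpleGraph V} {A : Set V} {E : Finset (Sym2 V)} :
    ∀ {u v : V} (q : K.Walk u v), Tight A E q → sg A E q ≤ 2 := by
  intro u v q
  induction q with
  | @nil u =>
    intro _
    rw [sg]
    split_ifs <;> omega
  | @cons u u' v h q ih =>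
    intro ht
    have h1 := ih ht.tail
    rw [sg]
    by_cases he : s(u, u') ∈ E
    · simp only [he, if_true]
      split_ifs <;> omega
    · rw [if_neg he]
      by_cases hu : u ∈ A
      · by_contra hlt
        have h2 : 2 ≤ sg A E q := by rw [if_pos hu] at hlt; omega
        obtain ⟨y, r, q2, h3, h4, h5, h6⟩ := sg_two q h2
        have h7 := ht u y .nil (.cons h r) q2 (by rw [h3]; rfl) hu h4 (by
          intro e hee
          rw [Walk.edges_cons] at hee
          rcases List.mem_cons.1 hee with h4 | h4
          · rw [h4]; exact he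
          · exact h5 e h4)
        rw [Walk.length_cons] at h7
        omega
      · rw [if_neg hu]; omega

theorem nA_le {K : SimpleGraph V} {A : Set V} {E : Finset (Sym2 V)} :
    ∀ {u v : V} (q : K.Walk u v), Tight A E q → nA A q ≤ sg A E q + 2 * nE E q := by
  intro u v q
  induction q with
  | @nil u =>
    intro _
    rw [sg, nA, nE]
    by_cases hu : u ∈ A <;> simp [hu]
  | @cons u u' v h q ih =>
    intro ht
    have h1 := ih ht.tail
    have h2 := sg_le q ht.tail
    have h3 : nA A (Walk.cons h q) = (if u ∈ A then 1 else 0) + nA A q := by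
      rw [nA, nA, Walk.support_cons, List.filter_cons]
      by_cases hu : u ∈ A
      · simp [hu]; ring
      · simp [hu]
    have h4 : nE E (Walk.cons h q) = (if s(u, u') ∈ E then 1 else 0) + nE E q := by
      rw [nE, nE, Walk.edges_cons, List.filter_cons]
      by_cases hu : s(u, u') ∈ E
      · simp [hu]; ring
      · simp [hu]
    rw [h3, h4, sg]
    by_cases he : s(u, u') ∈ E
    · rw [if_pos he, if_pos he]
      omega
    · rw [if_neg he, if_neg he]
      omega

theorem one_le_sg {K : SimpleGraph V} {A : Set V} {E : Finset (Sym2 V)} {u v : V}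
    (q : K.Walk u v) (hu : u ∈ A) : 1 ≤ sg A E q := by
  cases q with
  | nil => rw [sg, if_pos hu]
  | cons h q => rw [sg, if_pos hu]; omega

theorem mem_Mq {K : SimpleGraph V} {A : Set V} {E : Finset (Sym2 V)} :
    ∀ {u v : V} (q : K.Walk u v), ∀ x ∈ fl (Mq A E q), x ∈ q.support ∧ x ∈ A := by
  intro u v q
  induction q with
  | nil => intro x hx; simp [Mq, fl] at hx
  | @cons u u' v h q ih =>
    intro x hx
    rw [Mq] at hx
    split_ifs at hx with hc
    · rw [fl_cons] at hx
      rcases List.mem_cons.1 hx with h1 | h1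
      · simp only at h1; subst h1; exact ⟨by simp, hc.2.1⟩
      · rcases List.mem_cons.1 h1 with h1 | h1
        · simp only at h1; subst h1
          exact ⟨by simp, hc.2.2⟩
        · exact ⟨by rw [Walk.support_cons]; exact List.mem_cons_of_mem _ (ih x h1).1, (ih x h1).2⟩
    · exact ⟨by rw [Walk.support_cons]; exact List.mem_cons_of_mem _ (ih x hx).1, (ih x hx).2⟩

theorem start_Mq {K : SimpleGraph V} {A : Set V} {E : Finset (Sym2 V)}
    {u v : V} (q : K.Walk u v) (hq : q.IsPath) (h : u ∈ fl (Mq A E q)) : 2 ≤ sg A E q := by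
  cases q with
  | nil => simp [Mq, fl] at h
  | @cons u u' v hadj q =>
    rw [Walk.cons_isPath_iff] at hq
    rw [Mq] at h
    split_ifs at h with hc
    · rw [sg, if_pos hc.2.1, if_neg hc.1]
      have := one_le_sg (E := E) q hc.2.2
      omega
    · exact absurd (mem_Mq q u h).1 hq.2

theorem nodup_Mq {K : SimpleGraph V} {A : Set V} {E : Finset (Sym2 V)} :
    ∀ {u v : V} (q : K.Walk u v), q.IsPath → Tight A E q → (fl (Mq A E q)).Nodup := by
  intro u v q
  induction q with
  | nil => intro _ _; simp [Mq, fl]
  | @cons u u' v h q ih =>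
    intro hq ht
    have hq' := (Walk.cons_isPath_iff _ _).1 hq
    have h1 := ih hq'.1 ht.tail
    rw [Mq]
    split_ifs with hc
    · rw [fl_cons, List.nodup_cons, List.nodup_cons]
      refine ⟨?_, ?_, h1⟩
      · intro h2
        rcases List.mem_cons.1 h2 with h2 | h2
        · exact h.ne h2
        · exact hq'.2 (mem_Mq q u h2).1
      · intro h2
        have h3 := start_Mq q hq'.1 h2
        obtain ⟨y, r, q2, h3, h4, h5, h6⟩ := sg_two q h3
        have h7 := ht u y .nil (.cons h r) q2 (by rw [h3]; rfl) hc.2.1 h4 (by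
          intro e hee
          rw [Walk.edges_cons] at hee
          rcases List.mem_cons.1 hee with h4 | h4
          · rw [h4]; exact hc.1
          · exact h5 e h4)
        rw [Walk.length_cons] at h7
        omega
    · exact h1

/-- substitution of disjoint linking paths for the edges of `Mq` -/
theorem substPath {G K : SimpleGraph V} {A : Set V} {E : Finset (Sym2 V)} {X : Set V}
    (hK : ∀ a b, K.Adj a b → G.Adj a b ∨ (a ∈ A ∧ b ∈ A)) (hE : ∀ e ∈ E, e ∈ G.edgeSet)
    {R : V × V → Set V} (hR1 : ∀ m m', m ≠ m' → ∀ v, v ∈ R m → v ∉ R m')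
    (hR2 : ∀ m, ∀ v ∈ R m, v ∈ X → v = m.1 ∨ v = m.2) :
    ∀ {u v : V} (q : K.Walk u v), q.IsPath → (∀ w ∈ q.support, w ∈ X) →
      (∀ m ∈ Mq A E q, ∃ p : G.Walk m.1 m.2, p.IsPath ∧ ∀ v ∈ p.support, v ∈ R m) →
      ∃ p : G.Walk u v, p.IsPath ∧ (∀ e ∈ E, e ∈ q.edges → e ∈ p.edges) ∧
        ∀ w ∈ p.support, w ∈ q.support ∨ ∃ m ∈ Mq A E q, w ∈ R m := by
  intro u v q
  induction q with
  | @nil u =>
    intro _ _ _
    exact ⟨.nil, Walk.IsPath.nil, by intro e _ h; simp at h, by intro w hw; left; simpa using hw⟩
  | @cons u u' v h q ih =>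
    intro hq hX hM
    have hq' := (Walk.cons_isPath_iff _ _).1 hq
    have hMsub : ∀ m ∈ Mq A E q, m ∈ Mq A E (Walk.cons h q) := by
      intro m hm
      rw [Mq]
      split_ifs
      · exact List.mem_cons_of_mem _ hm
      · exact hm
    have hsupp : ∀ w ∈ q.support, w ∈ (Walk.cons h q).support := by
      intro w hw
      rw [Walk.support_cons]; exact List.mem_cons_of_mem _ hw
    obtain ⟨p, hp1, hp2, hp3⟩ := ih hq'.1 (fun w hw => hX w (hsupp w hw))
      (fun m hm => hM m (hMsub m hm))
    have huX : u ∈ X := hX u (by simp)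
    have hup : u ∉ p.support := by
      intro hu
      rcases hp3 u hu with h1 | ⟨m, hm, h1⟩
      · exact hq'.2 h1
      · rcases hR2 m u h1 huX with h2 | h2
        · exact hq'.2 (mem_Mq q u (mem_fl.2 ⟨m, hm, Or.inl h2⟩)).1
        · exact hq'.2 (mem_Mq q u (mem_fl.2 ⟨m, hm, Or.inr h2⟩)).1
    by_cases hc : s(u, u') ∉ E ∧ u ∈ A ∧ u' ∈ A
    · have hmem : (u, u') ∈ Mq A E (Walk.cons h q) := by
        rw [Mq, if_pos hc]; exact List.mem_cons_self
      obtain ⟨p0, h01, h02⟩ := hM _ hmem
      simp only at p0
      have hdis : ∀ w ∈ p0.support, w ∈ p.support → w = u' := by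
        intro w hw0 hw
        rcases hp3 w hw with h1 | ⟨m, hm, h1⟩
        · rcases hR2 _ w (h02 w hw0) (hX w (hsupp w h1)) with h2 | h2
          · simp only at h2
            subst h2
            exact absurd h1 hq'.2
          · exact h2
        · exfalso
          have hne : (u, u') ≠ m := by
            intro h2
            apply hq'.2
            exact (mem_Mq q u (mem_fl.2 ⟨m, hm, Or.inl (by rw [← h2])⟩)).1
          exact hR1 _ _ hne w (h02 w hw0) h1
      refine ⟨p0.append p, ?_, ?_, ?_⟩
      · rw [Walk.isPath_def, Walk.support_append, List.nodup_append']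
        refine ⟨h01.support_nodup, hp1.support_nodup.tail, ?_⟩
        intro w hw hw'
        have h1 := hdis w hw (List.mem_of_mem_tail hw')
        subst h1
        have h2 := hp1.support_nodup
        rw [← Walk.cons_tail_support, List.nodup_cons] at h2
        exact h2.1 hw'
      · intro e he hee
        rw [Walk.edges_append, List.mem_append]
        rw [Walk.edges_cons] at hee
        rcases List.mem_cons.1 hee with h1 | h1
        · exact absurd (h1 ▸ he) hc.1
        · right; exact hp2 e he h1
      · intro w hw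
        rcases (Walk.mem_support_append_iff _ _).1 hw with h1 | h1
        · right; exact ⟨_, hmem, h02 w h1⟩
        · rcases hp3 w h1 with h2 | ⟨m, hm, h2⟩
          · left; exact hsupp w h2
          · right; exact ⟨m, hMsub m hm, h2⟩
    · have hG : G.Adj u u' := by
        by_cases he : s(u, u') ∈ E
        · exact hE _ he
        · rcases hK u u' h with h1 | h1
          · exact h1
          · exact absurd ⟨he, h1⟩ hc
      refine ⟨.cons hG p, hp1.cons hup, ?_, ?_⟩
      · intro e he hee
        rw [Walk.edges_cons] at hee ⊢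
        rcases List.mem_cons.1 hee with h1 | h1
        · rw [h1]; exact List.mem_cons_self
        · exact List.mem_cons_of_mem _ (hp2 e he h1)
      · intro w hw
        rw [Walk.support_cons] at hw
        rcases List.mem_cons.1 hw with h1 | h1
        · left; rw [h1]; simp
        · rcases hp3 w h1 with h2 | ⟨m, hm, h2⟩
          · left; exact hsupp w h2
          · right; exact ⟨m, hMsub m hm, h2⟩

end Pool.Agent.LWC
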