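import Pool.Agent.LWC.H6

set_option autoImplicit false

/-!
# Graphs whose vertex set is a union of few large cliques, and dense graphs
-/

namespace Pool.Agent.LWC

open SimpleGraph

universe w

variable {V : Type w}

theorem crossSet {H : SimpleGraph V} (hc : H.Connected) {A : Set V} {u v : V}
    (hu : u ∈ A) (hv : v ∉ A) : ∃ x y, x ∈ A ∧ y ∉ A ∧ H.Adj x y := by
  obtain ⟨p⟩ := hc.preconnected u v
  obtain ⟨d, -, hd1, hd2⟩ := p.exists_boundary_dart A hu hv
  exact ⟨d.fst, d.snd, hd1, hd2, d.adj⟩

theorem hyp_of_conn [Fintype V] {ι : Type} [DecidableEq ι] {G : SimpleGraph V}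
    {E : Finset (Sym2 V)} {k : ℕ} {σ : V → ι}
    (hconn : ∀ S : Finset V, S.card < k → (G.induce ((S : Set V)ᶜ)).Connected)
    (hbig : ∀ v, k ≤ (Finset.univ.filter (fun u => σ u = σ v)).card)
    (hcon : Odd k → (G.deleteEdges (E : Set (Sym2 V))).Connected) : Hyp G E k σ := by
  classical
  constructor
  · rintro S hS X ⟨u, hu⟩ ⟨v, hv⟩
    have hpick : ∀ v, ∃ v', σ v' = σ v ∧ v' ∉ S := by
      intro v
      by_contra hno
      push Not at hno
      have hsub : Finset.univ.filter (fun u => σ u = σ v) ⊆ S := by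
        intro x hx
        exact hno x (Finset.mem_filter.1 hx).2
      have := Finset.card_le_card hsub
      have := hbig v
      omega
    obtain ⟨u', hu', huS⟩ := hpick u
    obtain ⟨v', hv', hvS⟩ := hpick v
    obtain ⟨x, y, hx, hy, hxy⟩ := crossSet (hconn S hS)
      (A := {z : ((S : Set V)ᶜ : Set V) | σ z.1 ∈ X}) (u := ⟨u', huS⟩) (v := ⟨v', hvS⟩)
      (by show σ u' ∈ X; rw [hu']; exact hu) (by show σ v' ∉ X; rw [hv']; exact hv)
    exact ⟨x.1, y.1, hxy, hx, hy, x.2, y.2⟩
  · rintro hk X ⟨u, hu⟩ ⟨v, hv⟩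
    obtain ⟨x, y, hx, hy, hxy⟩ := crossSet (hcon hk) (A := {z | σ z ∈ X}) hu hv
    rw [deleteEdges_adj] at hxy
    exact ⟨x, y, hxy.1, hx, hy, fun h => hxy.2 (by exact_mod_cast h)⟩

/-- The Lovasz-Woodall statement for graphs whose vertex set is partitioned into at most `m`
cliques with at least `k` vertices each, `k ≥ 12 (m + 1) ^ 2`. -/
theorem manyCliques [Fintype V] {ι : Type} [Fintype ι] [DecidableEq ι] {G : SimpleGraph V}
    {E : Finset (Sym2 V)} {k m : ℕ} {σ : V → ι} (hm : 1 ≤ m) (hk : 12 * (m + 1) ^ 2 ≤ k)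
    (hG : ∀ a b, a ≠ b → σ a = σ b → G.Adj a b)
    (himg : (Finset.univ.image σ).card ≤ m)
    (hconn : ∀ S : Finset V, S.card < k → (G.induce ((S : Set V)ᶜ)).Connected)
    (hbig : ∀ v, k ≤ (Finset.univ.filter (fun u => σ u = σ v)).card)
    (hE : ∀ e ∈ E, e ∈ G.edgeSet) (hcard : E.card = k) (hind : Ind E) (hno : ¬ HasCyc G E) :
    Odd k ∧ ¬ (G.deleteEdges (E : Set (Sym2 V))).Connected := by
  by_contra hcon
  have hcon' : Odd k → (G.deleteEdges (E : Set (Sym2 V))).Connected := by
    intro h
    by_contra hh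
    exact hcon ⟨h, hh⟩
  apply hno
  have hk2 : 2 ≤ E.card := by rw [hcard]; nlinarith
  exact good_hasCyc hG hk2 (goodAll hE hind hcard m hm σ himg (hyp_of_conn hconn hbig hcon') hk)

/-- independent sets of size `m + 1` in a closed graph have small degree sum -/
theorem indep_small [Fintype V] {G : SimpleGraph V} {k m : ℕ}
    (hcl : ∀ u v, u ≠ v → ¬ G.Adj u v → (G.commonNeighbors u v).ncard < k)
    (hdeg : ∀ v, Fintype.card V + (m + 1) ^ 3 * k ≤ (m + 1) * (G.neighborSet v).ncard)
    (I : Finset V) (hI : ∀ x ∈ I, ∀ y ∈ I, x ≠ y → ¬ G.Adj x y) : I.card ≤ m := by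
  classical
  by_contra hlt
  push Not at hlt
  obtain ⟨J, hJI, hJ⟩ := Finset.exists_subset_card_eq (by omega : m + 1 ≤ I.card)
  have hJ' : ∀ x ∈ J, ∀ y ∈ J, x ≠ y → ¬ G.Adj x y :=
    fun x hx y hy => hI x (hJI hx) y (hJI hy)
  let N : V → Finset V := fun x => Finset.univ.filter (fun w => G.Adj x w)
  have hN : ∀ x, (G.neighborSet x).ncard = (N x).card := by
    intro x
    rw [← Set.ncard_coe_finset]
    congr 1
    ext w
    simp [N]
  have hC : ∀ x y, (G.commonNeighbors x y).ncard = (N x ∩ N y).card := by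
    intro x y
    rw [← Set.ncard_coe_finset]
    congr 1
    ext w
    simp [N, mem_commonNeighbors]
  -- Bonferroni
  have hbon : ∀ A : Finset V, A ⊆ J → ∑ x ∈ A, (N x).card ≤
      (A.biUnion N).card + A.card * A.card * k := by
    intro A
    induction A using Finset.induction_on with
    | empty => intro _; simp
    | @insert x A hxA ih =>
      intro hsub
      have hA : A ⊆ J := (Finset.subset_insert _ _).trans hsub
      have hxJ : x ∈ J := hsub (Finset.mem_insert_self _ _)
      have h1 := ih hA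
      rw [Finset.sum_insert hxA, Finset.biUnion_insert, Finset.card_insert_of_notMem hxA]
      have h2 := Finset.card_union_add_card_inter (N x) (A.biUnion N)
      have h3 : (N x ∩ A.biUnion N).card ≤ A.card * k := by
        rw [Finset.inter_biUnion]
        refine Finset.card_biUnion_le_card_mul _ _ _ ?_
        intro y hy
        rw [← hC]
        have hxy : x ≠ y := fun h => hxA (h ▸ hy)
        exact (hcl x y hxy (hJ' x hxJ y (hA hy) hxy)).le
      nlinarith
  have h1 := hbon J (Finset.Subset.refl _)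
  have h2 : (J.biUnion N).card ≤ Fintype.card V := by
    rw [← Finset.card_univ]; exact Finset.card_le_card (Finset.subset_univ _)
  have h3 : ∑ _x ∈ J, (Fintype.card V + (m + 1) ^ 3 * k) ≤ ∑ x ∈ J, (m + 1) * (N x).card := by
    apply Finset.sum_le_sum
    intro x _
    rw [← hN]
    exact hdeg x
  rw [Finset.sum_const, smul_eq_mul, ← Finset.mul_sum, hJ] at h3
  rw [hJ] at h1
  have h4 : Fintype.card V + (m + 1) ^ 3 * k ≤ ∑ x ∈ J, (N x).card :=
    Nat.le_of_mul_le_mul_left h3 (by omega)
  have h5 : (m + 1) ^ 3 * k ≤ (m + 1) * (m + 1) * k := by omega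
  have hk : 0 < k := by
    by_contra hk0
    have hk0' : k = 0 := by omega
    subst hk0'
    -- two vertices of `J`
    have h2J : 1 ≤ J.card := by omega
    by_cases hm : m = 0
    · -- a single vertex: degree `≥ n`
      subst hm
      obtain ⟨x, hx⟩ := Finset.card_pos.1 (by omega : 0 < J.card)
      have := hdeg x
      rw [hN] at this
      have h6 : (N x).card < Fintype.card V := by
        rw [← Finset.card_univ]
        apply Finset.card_lt_card
        rw [Finset.ssubset_univ_iff]
        intro h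
        have : x ∈ N x := by rw [h]; exact Finset.mem_univ _
        simp [N] at this
      omega
    · obtain ⟨x, hx, y, hy, hxy⟩ := Finset.one_lt_card.1 (by omega : 1 < J.card)
      exact absurd (hcl x y hxy (hJ' x hx y hy hxy)) (by omega)
  by_cases hm : m = 0
  · subst hm
    obtain ⟨x, hx⟩ := Finset.card_pos.1 (by omega : 0 < J.card)
    have := hdeg x
    rw [hN] at this
    have h6 : (N x).card < Fintype.card V := by
      rw [← Finset.card_univ]
      apply Finset.card_lt_card
      rw [Finset.ssubset_univ_iff]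
      intro h
      have : x ∈ N x := by rw [h]; exact Finset.mem_univ _
      simp [N] at this
    simp at this
    omega
  · have h7 : (m + 1) * (m + 1) * k < (m + 1) ^ 3 * k := by
      apply Nat.mul_lt_mul_of_pos_right _ hk
      have : 1 ≤ m := by omega
      nlinarith [Nat.pos_of_ne_zero hm, sq_nonneg m]
    omega

end Pool.Agent.LWC
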