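import Pool.Agent.LWC.H10
import Pool.Agent.LWC.H7

set_option autoImplicit false

/-!
# The extended closure
-/

namespace Pool.Agent.LWC

open SimpleGraph Classical

universe w

variable {V : Type w}

/-- opening a cycle at one of its edges -/
theorem cycSplit {G : SimpleGraph V} {a b w : V} (c : G.Walk w w) (hc : c.IsCycle)
    (h : s(a, b) ∈ c.edges) :
    ∃ q : G.Walk b a, q.IsPath ∧ ∀ e ∈ c.edges, e ≠ s(a, b) → e ∈ q.edges := by
  have hu : a ∈ c.support := Walk.fst_mem_support_of_mem_edges _ h
  have hc1 : (c.rotate a hu).IsCycle := hc.rotate hu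
  have hedges : ∀ e, e ∈ (c.rotate a hu).edges ↔ e ∈ c.edges :=
    fun e => (c.rotate_edges a hu).mem_iff
  generalize hc' : c.rotate a hu = c' at hc1 hedges
  have hab' : s(a, b) ∈ c'.edges := (hedges _).2 h
  have hab : a ≠ b := (Walk.adj_of_mem_edges _ hab').ne
  have hv : b ∈ c'.support := Walk.snd_mem_support_of_mem_edges _ hab'
  have hsp := c'.take_spec hv
  have hn1 : ¬ (c'.takeUntil b hv).Nil := by
    rw [Walk.nil_takeUntil]; exact hab
  have hn2 : ¬ (c'.dropUntil b hv).Nil := by
    intro hn
    exact hab hn.eq.symm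
  have hcyc : ((c'.takeUntil b hv).append (c'.dropUntil b hv)).IsCycle := by
    rw [hsp]; exact hc1
  have hp1 := hcyc.isPath_of_append_left hn2
  have hp2 := hcyc.isPath_of_append_right hn1
  have hE' : ∀ e ∈ c.edges, e ∈ (c'.takeUntil b hv).edges ∨ e ∈ (c'.dropUntil b hv).edges := by
    intro e he
    have h1 := (hedges e).2 he
    rw [← hsp, Walk.edges_append] at h1
    simpa using h1
  rcases hE' _ h with h1 | h1
  · have hlen := hp1.length_eq_one_of_mem_edges h1
    refine ⟨c'.dropUntil b hv, hp2, ?_⟩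
    intro e he hne
    rcases hE' e he with h2 | h2
    · exfalso
      obtain ⟨x, hx⟩ := List.length_eq_one_iff.1 ((c'.takeUntil b hv).length_edges.trans hlen)
      rw [hx] at h1 h2
      simp only [List.mem_singleton] at h1 h2
      exact hne (h2.trans h1.symm)
    · exact h2
  · have hlen := hp2.length_eq_one_of_mem_edges (by rwa [Sym2.eq_swap])
    refine ⟨(c'.takeUntil b hv).reverse, hp1.reverse, ?_⟩
    intro e he hne
    rw [Walk.edges_reverse, List.mem_reverse]
    rcases hE' e he with h2 | h2
    · exact h2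
    · exfalso
      obtain ⟨x, hx⟩ := List.length_eq_one_iff.1 ((c'.dropUntil b hv).length_edges.trans hlen)
      rw [hx] at h1 h2
      simp only [List.mem_singleton] at h1 h2
      exact hne (h2.trans h1.symm)

/-- the graph `G` with all edges inside `A` added -/
def compl (G : SimpleGraph V) (A : Set V) : SimpleGraph V where
  Adj a b := G.Adj a b ∨ (a ≠ b ∧ a ∈ A ∧ b ∈ A)
  symm := ⟨fun a b h => by
    rcases h with h | ⟨h1, h2, h3⟩
    · exact Or.inl h.symm
    · exact Or.inr ⟨h1.symm, h3, h2⟩⟩
  loopless := ⟨fun a h => by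
    rcases h with h | ⟨h1, -, -⟩
    · exact h.ne rfl
    · exact h1 rfl⟩

theorem le_compl (G : SimpleGraph V) (A : Set V) : G ≤ compl G A := fun _ _ h => Or.inl h

/-- a shortest path is tight -/
theorem tight_of_min {K : SimpleGraph V} {A : Set V} (hA : ∀ a b, a ≠ b → a ∈ A → b ∈ A → K.Adj a b)
    {E : Finset (Sym2 V)} {u v : V} (q : K.Walk u v) (hq : q.IsPath) (hE : ∀ e ∈ E, e ∈ q.edges)
    (hmin : ∀ q' : K.Walk u v, q'.IsPath → (∀ e ∈ E, e ∈ q'.edges) → q.length ≤ q'.length) :
    Tight A E q := by
  intro x y q1 r q2 hdec hx hy hr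
  by_contra hlt
  push Not at hlt
  subst hdec
  have hrp : r.IsPath := hq.of_append_right.of_append_left
  have hxy : x ≠ y := by
    intro h
    subst h
    have h0 := Walk.isPath_iff_nil.1 hrp
    rw [← Walk.length_eq_zero_iff] at h0
    omega
  have hnd := hq.support_nodup
  rw [Walk.support_append, List.nodup_append'] at hnd
  have hrq := hq.of_append_right
  have hnd2 := hrq.support_nodup
  rw [Walk.support_append, List.nodup_append'] at hnd2
  have hq2 := hrq.of_append_right
  -- `x` is not on `q2`
  have hxq2 : x ∉ q2.support := by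
    intro h
    rw [← Walk.cons_tail_support] at h
    rcases List.mem_cons.1 h with h | h
    · exact hxy h
    · exact hnd2.2.2 r.start_mem_support h
  have h1 : (Walk.cons (hA x y hxy hx hy) q2).IsPath := hq2.cons hxq2
  have h2 : (q1.append (Walk.cons (hA x y hxy hx hy) q2)).IsPath := by
    rw [Walk.isPath_def, Walk.support_append, Walk.support_cons, List.tail_cons,
      List.nodup_append']
    refine ⟨hnd.1, hq2.support_nodup, ?_⟩
    intro w hw hw'
    have h3 : w ∈ (r.append q2).support.tail := by
      rw [Walk.support_append]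
      rw [List.tail_append_of_ne_nil r.support_ne_nil]
      by_cases hwy : w = y
      · subst hwy
        rw [List.mem_append]
        left
        have := r.end_mem_support
        rw [← Walk.cons_tail_support] at this
        rcases List.mem_cons.1 this with h | h
        · exact absurd h hxy.symm
        · exact h
      · rw [List.mem_append]
        right
        rw [← Walk.cons_tail_support] at hw'
        rcases List.mem_cons.1 hw' with h | h
        · exact absurd h hwy
        · exact h
    exact hnd.2.2 hw h3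
  have h3 := hmin _ h2 (by
    intro e he
    have h4 := hE e he
    rw [Walk.edges_append, Walk.edges_append] at h4
    rw [Walk.edges_append, Walk.edges_cons]
    rcases List.mem_append.1 h4 with h5 | h5
    · exact List.mem_append.2 (Or.inl h5)
    · rcases List.mem_append.1 h5 with h6 | h6
      · exact absurd he (hr e h6)
      · exact List.mem_append.2 (Or.inr (List.mem_cons_of_mem _ h6)))
  rw [Walk.length_append, Walk.length_append, Walk.length_append, Walk.length_cons] at h3
  omega

/-- The linking step. -/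
theorem linkStep [Finite V] {G H : SimpleGraph V} {A : Set V} {k : ℕ} (hA : Linked G A k)
    (hGH : ∀ a b, H.Adj a b → G.Adj a b ∨ (a ∈ A ∧ b ∈ A)) {E : Finset (Sym2 V)} (hk : 2 ≤ k)
    (hE : E.card = k) (hEG : ∀ e ∈ E, e ∈ G.edgeSet) (hc : HasCyc H E) : HasCyc G E := by
  have hle : H ≤ compl G A := by
    intro a b h
    rcases hGH a b h with h1 | h1
    · exact Or.inl h1
    · exact Or.inr ⟨h.ne, h1.1, h1.2⟩
  obtain ⟨w, c, hcyc, hcE⟩ := hc.mono hle
  obtain ⟨e0, he0⟩ := Finset.card_pos.1 (by omega : 0 < E.card)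
  obtain ⟨a, b, rfl⟩ : ∃ a b, e0 = s(a, b) := by
    induction e0 with | _ a b => exact ⟨a, b, rfl⟩
  obtain ⟨q0, hq0, hq0E⟩ := cycSplit c hcyc (hcE _ he0)
  have hab : G.Adj a b := hEG _ he0
  -- a shortest path
  let F := E.erase s(a, b)
  have hF : F.card + 1 = k := by
    rw [← hE]; exact Finset.card_erase_add_one he0
  have hex : ∃ n : ℕ, ∃ q : (compl G A).Walk b a, q.IsPath ∧ (∀ e ∈ F, e ∈ q.edges) ∧
      q.length = n := ⟨_, q0, hq0, fun e he => hq0E e (hcE e (Finset.mem_of_mem_erase he))
        (Finset.ne_of_mem_erase he), rfl⟩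
  obtain ⟨q, hq, hqF, hqn⟩ := Nat.find_spec hex
  have hmin : ∀ q' : (compl G A).Walk b a, q'.IsPath → (∀ e ∈ F, e ∈ q'.edges) →
      q.length ≤ q'.length := by
    intro q' h1 h2
    rw [hqn]
    exact Nat.find_min' hex ⟨q', h1, h2, rfl⟩
  have ht := tight_of_min (A := A) (fun a b h1 h2 h3 => Or.inr ⟨h1, h2, h3⟩) q hq hqF hmin
  have hFG : ∀ e ∈ F, e ∈ G.edgeSet := fun e he => hEG e (Finset.mem_of_mem_erase he)
  -- counting
  have h1 := nA_le q ht
  have h2 := sg_le q ht
  have h3 : nE F q ≤ F.card := by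
    rw [nE]
    have hnd := (hq.isTrail.edges_nodup).filter (fun x => decide (x ∈ F))
    rw [← List.toFinset_card_of_nodup hnd]
    apply Finset.card_le_card
    intro e he
    rw [List.mem_toFinset, List.mem_filter] at he
    simpa using he.2
  have hX : ({v | v ∈ q.support} ∩ A).ncard ≤ 2 * k := by
    have h4 : ({v | v ∈ q.support} ∩ A) = ((q.support.filter (fun x => x ∈ A)).toFinset : Set V) := by
      ext x
      simp
    rw [h4, Set.ncard_coe_finset]
    have h5 := List.toFinset_card_le (q.support.filter (fun x => x ∈ A))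
    have h6 : (q.support.filter (fun x => x ∈ A)).length = nA A q := rfl
    omega
  obtain ⟨R, hR0, hR1, hR2⟩ := linkPairs hA (Set.toFinite A) hX (nodup_Mq q hq ht)
    (fun v hv => mem_Mq q v hv)
  obtain ⟨p, hp1, hp2, -⟩ := substPath (G := G) (K := compl G A) (A := A) (E := F)
    (X := {v | v ∈ q.support}) (fun a b h => by
      rcases h with h | h
      · exact Or.inl h
      · exact Or.inr h.2) hFG hR1 hR2 q hq (fun w hw => hw) hR0
  have hpF : ∀ e ∈ F, e ∈ p.edges := fun e he => hp2 e he (hqF e he)
  obtain ⟨e1, he1⟩ := Finset.card_pos.1 (by omega : 0 < F.card)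
  have hlen : 2 ≤ p.length := by
    have h4 := hpF e1 he1
    have h5 : 1 ≤ p.length := by
      rw [← Walk.length_edges]
      exact List.length_pos_of_mem h4
    by_contra hlt
    have h6 : p.length = 1 := by omega
    have h7 := Walk.adj_of_length_eq_one h6
    have h8 : p.edges = [s(b, a)] := by
      cases p with
      | nil => simp at h6
      | cons h p' =>
        cases p' with
        | nil => simp
        | cons h' p'' => simp at h6
    rw [h8, List.mem_singleton] at h4
    exact Finset.ne_of_mem_erase he1 (h4.trans Sym2.eq_swap)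
  refine ⟨a, _, close p hp1 hab hlen, ?_⟩
  intro e he
  rw [Walk.edges_cons]
  by_cases h : e = s(a, b)
  · rw [h]; exact List.mem_cons_self
  · exact List.mem_cons_of_mem _ (hpF e (Finset.mem_erase.2 ⟨h, he⟩))

/-- One step of the extended closure. -/
def CStep (k : ℕ) (G H : SimpleGraph V) : Prop :=
  (∃ u v : V, k ≤ (G.commonNeighbors u v).ncard ∧ H = G ⊔ edge u v) ∨
    (∃ A : Set V, Linked G A k ∧ G ≤ H ∧ ∀ a b, H.Adj a b → G.Adj a b ∨ (a ∈ A ∧ b ∈ A))

theorem CStep.le {k : ℕ} {G H : SimpleGraph V} (h : CStep k G H) : G ≤ H := by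
  rcases h with ⟨u, v, -, rfl⟩ | ⟨A, -, h, -⟩
  · exact le_sup_left
  · exact h

theorem le_of_csteps {k : ℕ} {G H : SimpleGraph V} (h : Relation.ReflTransGen (CStep k) G H) :
    G ≤ H := by
  induction h with
  | refl => exact le_rfl
  | tail _ h ih => exact ih.trans h.le

theorem CStep.hasCyc [Finite V] {k : ℕ} {G H : SimpleGraph V} (h : CStep k G H)
    {E : Finset (Sym2 V)} (hk : 2 ≤ k) (hE : E.card = k) (hEG : ∀ e ∈ E, e ∈ G.edgeSet)
    (hc : HasCyc H E) : HasCyc G E := by
  rcases h with h | ⟨A, hA, -, hGH⟩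
  · exact Step.hasCyc h hk hE hEG hc
  · exact linkStep hA hGH hk hE hEG hc

theorem hasCyc_iff' [Finite V] {k : ℕ} {G H : SimpleGraph V}
    (h : Relation.ReflTransGen (CStep k) G H) {E : Finset (Sym2 V)} (hk : 2 ≤ k) (hE : E.card = k)
    (hEG : ∀ e ∈ E, e ∈ G.edgeSet) : HasCyc G E ↔ HasCyc H E := by
  refine ⟨fun hh => hh.mono (le_of_csteps h), ?_⟩
  intro hh
  induction h with
  | refl => exact hh
  | tail hs h ih =>
    exact ih (h.hasCyc hk hE (fun e he => edgeSet_mono (le_of_csteps hs) (hEG e he)) hh)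

end Pool.Agent.LWC
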