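import Pool.Agent.LWC.H11
import Pool.Agent.LWC.E

set_option autoImplicit false

/-!
# Graphs whose closure is a union of few linked parts
-/

namespace Pool.Agent.LWC

open SimpleGraph Classical

universe w

variable {V : Type w}

theorem Linked.mono {G G' : SimpleGraph V} (h : G ≤ G') {A : Set V} {k : ℕ} (hA : Linked G A k) :
    Linked G' A k := by
  obtain ⟨h1, h2⟩ := hA
  refine ⟨h1, fun s t hst hs ht hne => ?_⟩
  obtain ⟨P, hP1, hP2, hP3⟩ := h2 s t hst hs ht hne
  refine ⟨fun i => (P i).mapLe h, fun i => (Walk.isPath_mapLe h).2 (hP1 i), ?_, ?_⟩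
  · intro i v hv
    rw [Walk.support_mapLe_eq_support] at hv
    exact hP2 i v hv
  · intro i j hij v hv hv'
    rw [Walk.support_mapLe_eq_support] at hv hv'
    exact hP3 i j hij v hv hv'

/-- completing all classes of `σ` with index in `S` -/
def comp {m : ℕ} (H : SimpleGraph V) (σ : V → Fin m) (S : Finset (Fin m)) : SimpleGraph V where
  Adj a b := H.Adj a b ∨ (a ≠ b ∧ σ a = σ b ∧ σ a ∈ S)
  symm := ⟨fun a b h => by
    rcases h with h | ⟨h1, h2, h3⟩
    · exact Or.inl h.symm
    · exact Or.inr ⟨h1.symm, h2.symm, h2 ▸ h3⟩⟩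
  loopless := ⟨fun a h => by
    rcases h with h | ⟨h1, -⟩
    · exact h.ne rfl
    · exact h1 rfl⟩

theorem compSteps {m k : ℕ} {H : SimpleGraph V} {σ : V → Fin m}
    (hσ : ∀ i, Linked H {v | σ v = i} k ∨ H.IsClique {v | σ v = i}) (S : Finset (Fin m)) :
    Relation.ReflTransGen (CStep k) H (comp H σ S) := by
  induction S using Finset.induction_on with
  | empty =>
    have : comp H σ ∅ = H := by
      ext a b
      constructor
      · rintro (h | ⟨-, -, h⟩)
        · exact h
        · exact absurd h (Finset.notMem_empty _)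
      · exact fun h => Or.inl h
    rw [this]
  | @insert i S hi ih =>
    have hle : comp H σ S ≤ comp H σ (insert i S) := by
      rintro a b (h | ⟨h1, h2, h3⟩)
      · exact Or.inl h
      · exact Or.inr ⟨h1, h2, Finset.mem_insert_of_mem h3⟩
    rcases hσ i with h | h
    · refine ih.tail (Or.inr ⟨{v | σ v = i}, h.mono (fun a b h => Or.inl h), hle, ?_⟩)
      rintro a b (h | ⟨h1, h2, h3⟩)
      · exact Or.inl (Or.inl h)
      · rcases Finset.mem_insert.1 h3 with h4 | h4
        · exact Or.inr ⟨h4, (show σ b = i from h2.symm.trans h4)⟩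
        · exact Or.inl (Or.inr ⟨h1, h2, h4⟩)
    · have : comp H σ (insert i S) = comp H σ S := by
        apply le_antisymm _ hle
        rintro a b (h' | ⟨h1, h2, h3⟩)
        · exact Or.inl h'
        · rcases Finset.mem_insert.1 h3 with h4 | h4
          · exact Or.inl (h h4 (show σ b = i from h2.symm.trans h4) h1)
          · exact Or.inr ⟨h1, h2, h4⟩
      rw [this]
      exact ih

theorem partsMain [Fintype V] {G H : SimpleGraph V} {m k : ℕ} {E : Finset (Sym2 V)} {σ : V → Fin m}
    (hk : 2 ≤ k)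
    (hconn : ∀ S : Finset V, S.card < k → (G.induce ((S : Set V)ᶜ)).Connected)
    (hstep : Relation.ReflTransGen (CStep k) G H)
    (hσ : ∀ i, Linked H {v | σ v = i} k ∨ H.IsClique {v | σ v = i})
    (hm : m ≤ 2 ∨ (12 * (m + 1) ^ 2 ≤ k ∧ ∀ v, k ≤ {u | σ u = σ v}.ncard))
    (hE : ∀ e ∈ E, e ∈ G.edgeSet) (hcard : E.card = k) (hind : Ind E) (hno : ¬ HasCyc G E) :
    Odd k ∧ ¬ (G.deleteEdges (E : Set (Sym2 V))).Connected := by
  have hst : Relation.ReflTransGen (CStep k) G (comp H σ Finset.univ) :=
    hstep.trans (compSteps hσ Finset.univ)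
  have hle := le_of_csteps hst
  have hno' : ¬ HasCyc (comp H σ Finset.univ) E := fun h => hno ((hasCyc_iff' hst hk hcard hE).2 h)
  have hE' : ∀ e ∈ E, e ∈ (comp H σ Finset.univ).edgeSet := fun e he => edgeSet_mono hle (hE e he)
  have hadj : ∀ a b, a ≠ b → σ a = σ b → (comp H σ Finset.univ).Adj a b :=
    fun a b h1 h2 => Or.inr ⟨h1, h2, Finset.mem_univ _⟩
  rcases hm with hm | ⟨hm, hbig⟩
  · have h2 : Two (comp H σ Finset.univ) (fun v => decide ((σ v).val = 0)) := by
      intro a b hab hs
      apply hadj a b hab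
      have hs' : (σ a).val = 0 ↔ (σ b).val = 0 := by simpa using hs
      apply Fin.ext
      have ha := (σ a).isLt
      have hb := (σ b).isLt
      by_cases h0 : (σ a).val = 0
      · rw [h0, hs'.1 h0]
      · have h0' : (σ b).val ≠ 0 := fun h => h0 (hs'.2 h)
        omega
    obtain ⟨h3, h4⟩ := twoCliques ⟨h2, hk, conn_mono hle hconn, hE', hcard, hind⟩ hno'
    exact ⟨h3, del_mono hle _ h4⟩
  · -- the vertex set is not empty
    have hm1 : 1 ≤ m := by
      obtain ⟨e0, he0⟩ := Finset.card_pos.1 (by omega : 0 < E.card)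
      induction e0 with | _ a b => exact Nat.lt_of_le_of_lt (Nat.zero_le _) (σ a).isLt
    obtain ⟨h3, h4⟩ := manyCliques (G := comp H σ Finset.univ) (σ := σ) hm1 hm hadj (by
        calc (Finset.univ.image σ).card ≤ (Finset.univ : Finset (Fin m)).card :=
              Finset.card_le_card (Finset.subset_univ _)
          _ = m := by simp) (conn_mono hle hconn) (by
        intro v
        have h := hbig v
        rw [← Set.ncard_coe_finset]
        convert h using 2
        ext u
        simp) hE' hcard hind hno'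
    exact ⟨h3, del_mono hle _ h4⟩

end Pool.Agent.LWC
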