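import Pool.Agent.LWC.H1

set_option autoImplicit false

/-!
# Adding an edge to a system of disjoint paths
-/

namespace Pool.Agent.LWC

open SimpleGraph

universe w

variable {V : Type w} {ι : Type} [DecidableEq ι] {G : SimpleGraph V}

/-- every path of the system lies in the spoiled set or is a single prescribed edge -/
def Typ (E : Finset (Sym2 V)) (S : Finset V) (L : List (Blk G)) : Prop :=
  ∀ B ∈ L, (∀ v ∈ B.supp, v ∈ S) ∨ (B.supp = [B.a, B.b] ∧ s(B.a, B.b) ∈ E)

theorem cnt_append (σ : V → ι) (h : ι) (L M : List (Blk G)) :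
    cnt σ h (L ++ M) = cnt σ h L + cnt σ h M := by
  simp [cnt]

theorem ND.unique {B : Blk G} {s t : List (Blk G)} (h : ND (s ++ B :: t)) {v : V}
    (hv : v ∈ B.supp) {C : Blk G} (hC : C ∈ s ++ t) : v ∉ C.supp := by
  have h1 : ND (B :: (s ++ t)) := h.perm List.perm_middle
  exact h1.disj hC v hv

/-- locating a vertex -/
theorem locate {σ : V → ι} {E : Finset (Sym2 V)} {S : Finset V} {L : List (Blk G)}
    (hnd : ND L) (htyp : Typ E S L) {z : V} (hz : z ∉ S) :
    ∃ (B : Blk G) (L' : List (Blk G)), B.b = z ∧ B.supp.length ≤ 2 ∧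
      (∀ v ∈ B.supp, v = z ∨ s(z, v) ∈ E) ∧
      (∀ P : List (Blk G), ND (P ++ L) → (∀ C ∈ P, z ∉ C.supp) → ND (P ++ B :: L')) ∧
      (∀ C, C ∈ L' ↔ (C ∈ L ∧ z ∉ C.supp)) ∧
      (∀ e, (∃ C ∈ L, e ∈ C.p.edges) → ∃ C ∈ B :: L', e ∈ C.p.edges) ∧
      (∀ h, Even (cnt σ h (B :: L') + cnt σ h L)) ∧
      (∀ C ∈ L, z ∈ C.supp → (σ C.a = σ z ∧ σ C.b = σ B.a) ∨ (σ C.a = σ B.a ∧ σ C.b = σ z)) ∧
      ((∀ C ∈ L, z ∉ C.supp) → B.a = z) := by
  by_cases hex : ∃ C ∈ L, z ∈ C.supp
  · obtain ⟨C, hC, hzC⟩ := hex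
    obtain ⟨s, t, rfl⟩ := List.append_of_mem hC
    have hsupp : C.supp = [C.a, C.b] ∧ s(C.a, C.b) ∈ E := by
      rcases htyp C hC with h | h
      · exact absurd (h z hzC) hz
      · exact h
    have huniq : ∀ D, D ∈ s ++ t → z ∉ D.supp := fun D hD => hnd.unique hzC hD
    have hmem : ∀ D, D ∈ s ++ t ↔ (D ∈ s ++ C :: t ∧ z ∉ D.supp) := by
      intro D
      constructor
      · intro hD
        refine ⟨?_, huniq D hD⟩
        rw [List.mem_append] at hD ⊢
        rcases hD with h | h
        · exact Or.inl h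
        · exact Or.inr (List.mem_cons_of_mem _ h)
      · rintro ⟨hD, hzD⟩
        rw [List.mem_append, List.mem_cons] at hD
        rw [List.mem_append]
        rcases hD with h | rfl | h
        · exact Or.inl h
        · exact absurd hzC hzD
        · exact Or.inr h
    have hone : ∀ D ∈ s ++ C :: t, z ∈ D.supp → D = C := by
      intro D hD hzD
      by_contra hne
      rw [List.mem_append, List.mem_cons] at hD
      rcases hD with h | h | h
      · exact huniq D (List.mem_append.2 (Or.inl h)) hzD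
      · exact hne h
      · exact huniq D (List.mem_append.2 (Or.inr h)) hzD
    have hlen : C.supp.length ≤ 2 := by rw [hsupp.1]; simp
    have hz2 : z = C.b ∨ z = C.a := by
      rw [hsupp.1] at hzC
      simpa [or_comm] using hzC
    rcases hz2 with rfl | rfl
    · refine ⟨C, s ++ t, rfl, hlen, ?_, ?_, hmem, ?_, ?_, ?_, ?_⟩
      · intro v hv
        rw [hsupp.1] at hv
        have : v = C.a ∨ v = C.b := by simpa using hv
        rcases this with h | h
        · right
          rw [h, Sym2.eq_swap]; exact hsupp.2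
        · exact Or.inl h
      · intro P hP _
        exact hP.perm (List.perm_middle.append_left P)
      · rintro e ⟨D, hD, heD⟩
        refine ⟨D, ?_, heD⟩
        exact (List.perm_middle.mem_iff).1 hD
      · intro h
        rw [← cnt_perm (List.perm_middle (a := C) (l₁ := s) (l₂ := t))]
        exact ⟨_, rfl⟩
      · intro D hD hzD
        rw [hone D hD hzD]
        exact Or.inr ⟨rfl, rfl⟩
      · intro hno
        exact absurd hzC (hno C hC)
    · refine ⟨C.rev, s ++ t, rfl, by rw [Blk.supp_rev, List.length_reverse]; exact hlen, ?_, ?_,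
        hmem, ?_, ?_, ?_, ?_⟩
      · intro v hv
        rw [Blk.supp_rev, List.mem_reverse, hsupp.1] at hv
        have : v = C.a ∨ v = C.b := by simpa using hv
        rcases this with h | h
        · exact Or.inl h
        · right
          rw [h]; exact hsupp.2
      · intro P hP _
        have h1 : ND (C :: (P ++ (s ++ t))) :=
          hP.perm ((List.perm_middle.append_left P).trans List.perm_middle)
        exact h1.rev.perm List.perm_middle.symm
      · rintro e ⟨D, hD, heD⟩
        rcases List.mem_cons.1 ((List.perm_middle.mem_iff).1 hD) with rfl | hD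
        · exact ⟨D.rev, List.mem_cons_self, (Blk.mem_edges_rev _ _).2 heD⟩
        · exact ⟨D, List.mem_cons_of_mem _ hD, heD⟩
      · intro h
        rw [cnt_rev, ← cnt_perm (List.perm_middle (a := C) (l₁ := s) (l₂ := t))]
        exact ⟨_, rfl⟩
      · intro D hD hzD
        rw [hone D hD hzD]
        exact Or.inl ⟨rfl, rfl⟩
      · intro hno
        exact absurd hzC (hno C hC)
  · push Not at hex
    refine ⟨Blk.one G z, L, rfl, by simp [Blk.one, Blk.supp], ?_, ?_, ?_, ?_, ?_, ?_, ?_⟩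
    · intro v hv
      left
      simpa [Blk.one, Blk.supp] using hv
    · intro P hP hzP
      have h1 : ND (Blk.one G z :: (P ++ L)) := by
        unfold ND at hP ⊢
        rw [List.flatMap_cons]
        have : (Blk.one G z).supp = [z] := by simp [Blk.one, Blk.supp]
        rw [this, List.singleton_append, List.nodup_cons]
        refine ⟨?_, hP⟩
        intro hmem
        obtain ⟨C, hC, hzC⟩ := List.mem_flatMap.1 hmem
        rcases List.mem_append.1 hC with h | h
        · exact hzP C h hzC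
        · exact hex C h hzC
      exact h1.perm List.perm_middle.symm
    · intro C
      exact ⟨fun h => ⟨h, hex C h⟩, fun h => h.1⟩
    · rintro e ⟨C, hC, heC⟩
      exact ⟨C, List.mem_cons_of_mem _ hC, heC⟩
    · intro h
      rw [cnt_cons]
      have h1 : (Blk.one G z).a = z := rfl
      have h2 : (Blk.one G z).b = z := rfl
      rw [h1, h2]
      rw [Nat.even_iff]
      split_ifs <;> omega
    · intro C hC hzC
      exact absurd hzC (hex C hC)
    · intro _
      rfl

/-- adding the edge `z w` -/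
theorem addEdge {σ : V → ι} {E : Finset (Sym2 V)} {S : Finset V} {L : List (Blk G)}
    (hnd : ND L) (htyp : Typ E S L) {z w : V} (hz : z ∉ S) (hw : w ∉ S) (hzw : G.Adj z w)
    (hE : s(z, w) ∉ E) :
    ∃ (B' : Blk G) (L2 : List (Blk G)) (g h : ι) (T : Finset V), ND (B' :: L2) ∧
      (∀ C, C ∈ L2 ↔ (C ∈ L ∧ z ∉ C.supp ∧ w ∉ C.supp)) ∧
      (∀ e, (∃ C ∈ L, e ∈ C.p.edges) → ∃ C ∈ B' :: L2, e ∈ C.p.edges) ∧
      (∀ v, v ∈ T ↔ v ∈ B'.supp) ∧ T.card ≤ 4 ∧
      (∀ v ∈ T, v = z ∨ v = w ∨ s(z, v) ∈ E ∨ s(w, v) ∈ E) ∧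
      (∀ x, Even (cnt σ x (B' :: L2) + cnt σ x L + (if σ z = x then 1 else 0) +
        (if σ w = x then 1 else 0))) ∧
      σ B'.a = g ∧ σ B'.b = h ∧
      (∀ C ∈ L, z ∈ C.supp → (σ C.a = σ z ∧ σ C.b = g) ∨ (σ C.a = g ∧ σ C.b = σ z)) ∧
      ((∀ C ∈ L, z ∉ C.supp) → g = σ z) ∧
      (∀ C ∈ L, w ∈ C.supp → (σ C.a = σ w ∧ σ C.b = h) ∨ (σ C.a = h ∧ σ C.b = σ w)) ∧
      ((∀ C ∈ L, w ∉ C.supp) → h = σ w) := by
  classical
  obtain ⟨B1, L1, hb1, hl1, hs1, hnd1, hm1, hc1, hp1, ht1, hn1⟩ := locate (σ := σ) hnd htyp hz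
  have htyp1 : Typ E S L1 := fun C hC => htyp C ((hm1 C).1 hC).1
  have hndL1 : ND (B1 :: L1) := hnd1 [] hnd (by simp)
  obtain ⟨B2, L2, hb2, hl2, hs2, hnd2, hm2, hc2, hp2, ht2, hn2⟩ :=
    locate (σ := σ) hndL1.tail htyp1 hw
  have hwB1 : w ∉ B1.supp := by
    intro h
    rcases hs1 w h with h | h
    · exact hzw.ne h.symm
    · exact hE h
  have hND : ND (B1 :: B2 :: L2) := by
    have := hnd2 [B1] hndL1 (by
      intro C hC
      rw [List.mem_singleton] at hC
      rw [hC]; exact hwB1)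
    exact this
  have hND' : ND (B1 :: B2.rev :: L2) := by
    have h1 : ND (B2 :: B1 :: L2) := hND.perm (List.Perm.swap _ _ _)
    exact h1.rev.perm (List.Perm.swap _ _ _)
  have hd := hND'.disj (C := B2.rev) List.mem_cons_self
  have hadj : G.Adj B1.b B2.rev.a := by
    rw [Blk.rev_a, hb1, hb2]; exact hzw
  -- membership in L2
  have hmem : ∀ C, C ∈ L2 ↔ (C ∈ L ∧ z ∉ C.supp ∧ w ∉ C.supp) := by
    intro C
    rw [hm2, hm1]
    tauto
  refine ⟨Blk.join B1 B2.rev hadj hd, L2, σ B1.a, σ B2.a,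
    (Blk.join B1 B2.rev hadj hd).supp.toFinset, ?_, hmem, ?_, ?_, ?_, ?_, ?_, rfl, rfl, ht1, ?_,
    ?_, ?_⟩
  · unfold ND at hND' ⊢
    rw [List.flatMap_cons, Blk.supp_join, List.append_assoc]
    rw [List.flatMap_cons, List.flatMap_cons] at hND'
    exact hND'
  · intro e he
    obtain ⟨C, hC, heC⟩ := hc1 e he
    rcases List.mem_cons.1 hC with rfl | hC
    · exact ⟨_, List.mem_cons_self, Blk.mem_edges_join _ _ _ _ (Or.inl heC)⟩
    · obtain ⟨D, hD, heD⟩ := hc2 e ⟨C, hC, heC⟩
      rcases List.mem_cons.1 hD with rfl | hD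
      · exact ⟨_, List.mem_cons_self,
          Blk.mem_edges_join _ _ _ _ (Or.inr ((Blk.mem_edges_rev _ _).2 heD))⟩
      · exact ⟨D, List.mem_cons_of_mem _ hD, heD⟩
  · intro v
    rw [List.mem_toFinset]
  · refine (List.toFinset_card_le _).trans ?_
    rw [Blk.supp_join, Blk.supp_rev, List.length_append, List.length_reverse]
    omega
  · intro v hv
    rw [List.mem_toFinset, Blk.supp_join, Blk.supp_rev, List.mem_append, List.mem_reverse] at hv
    rcases hv with h | h
    · rcases hs1 v h with h | h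
      · exact Or.inl h
      · exact Or.inr (Or.inr (Or.inl h))
    · rcases hs2 v h with h | h
      · exact Or.inr (Or.inl h)
      · exact Or.inr (Or.inr (Or.inr h))
  · intro x
    have h1 := hp1 x
    have h2 := hp2 x
    rw [cnt_cons] at h1 h2
    rw [cnt_cons, Blk.join_a, Blk.join_b, Blk.rev_b]
    rw [hb1] at h1
    rw [hb2] at h2
    rw [Nat.even_iff] at h1 h2 ⊢
    split_ifs at h1 h2 ⊢ <;> omega
  · intro hno
    rw [hn1 hno]
  · intro C hC hwC
    by_cases hzC : z ∈ C.supp
    · -- impossible: the block is an edge containing `z` and `w`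
      exfalso
      rcases htyp C hC with h | h
      · exact hz (h z hzC)
      · rw [h.1] at hzC hwC
        have h1 : z = C.a ∨ z = C.b := by simpa using hzC
        have h2 : w = C.a ∨ w = C.b := by simpa using hwC
        rcases h1 with h1 | h1 <;> rcases h2 with h2 | h2
        · exact hzw.ne (h1.trans h2.symm)
        · exact hE (by rw [h1, h2]; exact h.2)
        · exact hE (by rw [h1, h2, Sym2.eq_swap]; exact h.2)
        · exact hzw.ne (h1.trans h2.symm)
    · exact ht2 C ((hm1 C).2 ⟨hC, hzC⟩) hwC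
  · intro hno
    rw [hn2 (fun C hC => hno C ((hm1 C).1 hC).1)]

end Pool.Agent.LWC
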