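import Pool.Agent.LWC.H2

set_option autoImplicit false

/-!
# Merging two classes, odd case
-/

namespace Pool.Agent.LWC

open SimpleGraph

universe w

variable {V : Type w} {ι : Type} [DecidableEq ι] {G : SimpleGraph V}

/-- data of a cut showing that the addition of `z w` destroys connectedness -/
structure Bd (σ : V → ι) (L : List (Blk G)) (i j : ι) (z w : V) (X : Finset ι) (g h : ι) :
    Prop where
  gX : g ∈ X
  hX : h ∈ X
  off : ∀ C ∈ L, z ∉ C.supp → w ∉ C.supp → (σ C.a ∈ X ↔ σ C.b ∈ X)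
  zt : ∀ C ∈ L, z ∈ C.supp → (σ C.a = i ∧ σ C.b = g) ∨ (σ C.a = g ∧ σ C.b = i)
  wt : ∀ C ∈ L, w ∈ C.supp → (σ C.a = j ∧ σ C.b = h) ∨ (σ C.a = h ∧ σ C.b = j)
  zi : i ∉ X → ∃ C ∈ L, z ∈ C.supp
  wj : j ∉ X → ∃ C ∈ L, w ∈ C.supp
  no : ¬ (i ∈ X ∧ j ∈ X)

theorem Bd.swap {σ : V → ι} {L : List (Blk G)} {i j : ι} {z w : V} {X : Finset ι} {g h : ι}
    (b : Bd σ L i j z w X g h) : Bd σ L j i w z X h g :=
  ⟨b.hX, b.gX, fun C hC h1 h2 => b.off C hC h2 h1, b.wt, b.zt, b.wj, b.zi,
    fun h => b.no ⟨h.2, h.1⟩⟩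

/-- the block of `z` does not contain the vertices of another candidate -/
theorem far_block {E : Finset (Sym2 V)} {S : Finset V} {L : List (Blk G)} (htyp : Typ E S L)
    {z v : V} (hz : z ∉ S) (hzv : z ≠ v) (hE : s(z, v) ∉ E) {C : Blk G} (hC : C ∈ L)
    (hzC : z ∈ C.supp) : v ∉ C.supp := by
  intro hvC
  rcases htyp C hC with h | h
  · exact hz (h z hzC)
  · rw [h.1] at hzC hvC
    have h1 : z = C.a ∨ z = C.b := by simpa using hzC
    have h2 : v = C.a ∨ v = C.b := by simpa using hvC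
    rcases h1 with h1 | h1 <;> rcases h2 with h2 | h2
    · exact hzv (h1.trans h2.symm)
    · exact hE (by rw [h1, h2]; exact h.2)
    · exact hE (by rw [h1, h2, Sym2.eq_swap]; exact h.2)
    · exact hzv (h1.trans h2.symm)

theorem Bd.g_notMem {E : Finset (Sym2 V)} {S : Finset V} {σ : V → ι} {L : List (Blk G)}
    (htyp : Typ E S L) {i j : ι} {z w z' w' : V} {X Y : Finset ι} {g h g' h' : ι}
    (b : Bd σ L i j z w X g h) (b' : Bd σ L i j z' w' Y g' h') (hz : z ∉ S)
    (h1 : z ≠ z') (h2 : s(z, z') ∉ E) (h3 : z ≠ w') (h4 : s(z, w') ∉ E)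
    (hiX : i ∉ X) (hiY : i ∉ Y) : g ∉ Y := by
  obtain ⟨C, hC, hzC⟩ := b.zi hiX
  have h5 := far_block htyp hz h1 h2 hC hzC
  have h6 := far_block htyp hz h3 h4 hC hzC
  have h7 := b'.off C hC h5 h6
  rcases b.zt C hC hzC with h | h
  · rw [h.1, h.2] at h7
    exact fun hg => hiY (h7.2 hg)
  · rw [h.1, h.2] at h7
    exact fun hg => hiY (h7.1 hg)

theorem Bd.two [Fintype ι] {E : Finset (Sym2 V)} {S : Finset V} {σ : V → ι} {L : List (Blk G)}
    (htyp : Typ E S L) {i j : ι}
    (hpar : ∀ x, Even (cnt σ x L + ((if x = i then 1 else 0) + (if x = j then 1 else 0))))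
    {z w z' w' : V} {X Y : Finset ι} {g h g' h' : ι}
    (b : Bd σ L i j z w X g h) (b' : Bd σ L i j z' w' Y g' h') (hz : z ∉ S) (hz' : z' ∉ S)
    (h1 : z ≠ z') (h2 : s(z, z') ∉ E) (h3 : z ≠ w') (h4 : s(z, w') ∉ E)
    (h5 : z' ≠ w) (h6 : s(z', w) ∉ E)
    (hiX : i ∉ X) (hjX : j ∈ X) (hiY : i ∉ Y) (hjY : j ∈ Y) : False := by
  have hg := b.g_notMem htyp b' hz h1 h2 h3 h4 hiX hiY
  have hg' := b'.g_notMem htyp b hz' h1.symm (by rw [Sym2.eq_swap]; exact h2) h5 h6 hiY hiX
  have hodd := cut_parity hpar (X ∩ Y)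
  have hsum : ∑ x ∈ X ∩ Y, ((if x = i then 1 else 0) + (if x = j then 1 else 0)) = 1 := by
    rw [Finset.sum_add_distrib, Finset.sum_ite_eq' (X ∩ Y) i, Finset.sum_ite_eq' (X ∩ Y) j]
    simp [hiX, hjX, hjY]
  rw [hsum] at hodd
  have hnc : ncross σ (X ∩ Y) L = 0 := by
    apply ncross_eq_zero
    intro C hC
    rw [Finset.mem_inter, Finset.mem_inter]
    by_cases hX : (σ C.a ∈ X ↔ σ C.b ∈ X)
    · by_cases hY : (σ C.a ∈ Y ↔ σ C.b ∈ Y)
      · rw [hX, hY]
      · -- crosses `Y`
        have hw' : w' ∉ C.supp := by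
          intro hh
          rcases b'.wt C hC hh with h | h
          · rw [h.1, h.2] at hY
            exact hY ⟨fun _ => b'.hX, fun _ => hjY⟩
          · rw [h.1, h.2] at hY
            exact hY ⟨fun _ => hjY, fun _ => b'.hX⟩
        have hzz' : z' ∈ C.supp := by
          by_contra hh
          exact hY (b'.off C hC hh hw')
        rcases b'.zt C hC hzz' with h | h
        · rw [h.1, h.2]; simp [hiX, hg']
        · rw [h.1, h.2]; simp [hiX, hg']
    · have hw' : w ∉ C.supp := by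
        intro hh
        rcases b.wt C hC hh with h | h
        · rw [h.1, h.2] at hX
          exact hX ⟨fun _ => b.hX, fun _ => hjX⟩
        · rw [h.1, h.2] at hX
          exact hX ⟨fun _ => hjX, fun _ => b.hX⟩
      have hzz' : z ∈ C.supp := by
        by_contra hh
        exact hX (b.off C hC hh hw')
      rcases b.zt C hC hzz' with h | h
      · rw [h.1, h.2]; simp [hiX, hg]
      · rw [h.1, h.2]; simp [hiX, hg]
  rw [hnc] at hodd
  exact absurd hodd (by decide)

/-- the candidates are pairwise far apart -/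
structure Far (E : Finset (Sym2 V)) {n : ℕ} (z w : Fin n → V) : Prop where
  zz : ∀ l l', l ≠ l' → z l ≠ z l' ∧ s(z l, z l') ∉ E
  zw : ∀ l l', l ≠ l' → z l ≠ w l' ∧ s(z l, w l') ∉ E
  ww : ∀ l l', l ≠ l' → w l ≠ w l' ∧ s(w l, w l') ∉ E

theorem exists_end_of_odd {σ : V → ι} {L : List (Blk G)} {i : ι} (h : ¬ Even (cnt σ i L)) :
    ∃ C ∈ L, σ C.a = i ∨ σ C.b = i := by
  by_contra hno
  push Not at hno
  apply h
  have h0 : cnt σ i L = 0 := by
    unfold cnt
    rw [List.sum_eq_zero_iff]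
    intro x hx
    rw [List.mem_map] at hx
    obtain ⟨B, hB, rfl⟩ := hx
    have := hno B hB
    simp [this.1, this.2]
  rw [h0]
  exact Even.zero

theorem oddMerge [Fintype ι] {E : Finset (Sym2 V)} {S : Finset V} {σ : V → ι} {L : List (Blk G)}
    (hnd : ND L) (htyp : Typ E S L) {i j : ι} (hij : i ≠ j)
    (hpar : ∀ x, Even (cnt σ x L + ((if x = i then 1 else 0) + (if x = j then 1 else 0))))
    (hC : Cn σ L) {I : Finset ι} (hI : ∀ v, σ v ∈ I) {m : ℕ} (hm : I.card ≤ m)
    (z w : Fin (m + 1) → V) (hz : ∀ l, z l ∉ S) (hw : ∀ l, w l ∉ S)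
    (hzw : ∀ l, G.Adj (z l) (w l)) (hE : ∀ l, s(z l, w l) ∉ E) (hσz : ∀ l, σ (z l) = i)
    (hσw : ∀ l, σ (w l) = j) (hfar : Far E z w) :
    ∃ (Lnew : List (Blk G)) (S' : Finset V), ND Lnew ∧ Typ E S' Lnew ∧
      (∀ e, (∃ C ∈ L, e ∈ C.p.edges) → ∃ C ∈ Lnew, e ∈ C.p.edges) ∧
      (∀ x, Even (cnt σ x Lnew)) ∧ Cn σ Lnew ∧ S'.card ≤ S.card + 4 := by
  classical
  by_contra hno
  -- all candidates are bad
  have hbad : ∀ l, ∃ (X : Finset ι) (g h : ι), g ∈ I ∧ Bd σ L i j (z l) (w l) X g h := by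
    intro l
    obtain ⟨B', L2, g, h, T, h1, h2, h3, h4, h5, h6, h7, h8, h9, h10, h11, h12, h13⟩ :=
      addEdge (σ := σ) hnd htyp (hz l) (hw l) (hzw l) (hE l)
    rw [hσz] at h10 h11
    rw [hσw] at h12 h13
    have hnC : ¬ Cn σ (B' :: L2) := by
      intro hCn
      apply hno
      refine ⟨B' :: L2, S ∪ T, h1, ?_, h3, ?_, hCn, ?_⟩
      · intro B hB
        rcases List.mem_cons.1 hB with rfl | hB
        · left
          intro v hv
          exact Finset.mem_union_right _ ((h4 v).2 hv)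
        · rcases htyp B ((h2 B).1 hB).1 with h | h
          · left
            intro v hv
            exact Finset.mem_union_left _ (h v hv)
          · exact Or.inr h
      · intro x
        have e1 := h7 x
        have e2 := hpar x
        rw [hσz, hσw] at e1
        have c1 : (if i = x then (1 : ℕ) else 0) = (if x = i then 1 else 0) := by
          simp only [eq_comm]
        have c2 : (if j = x then (1 : ℕ) else 0) = (if x = j then 1 else 0) := by
          simp only [eq_comm]
        rw [c1, c2] at e1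
        rw [Nat.even_iff] at e1 e2 ⊢
        omega
      · have := Finset.card_union_le S T
        omega
    unfold Cn at hnC
    push Not at hnC
    obtain ⟨X0, g1, g2, g3⟩ := hnC
    obtain ⟨X, k1, k2, k3⟩ : ∃ X : Finset ι, g ∈ X ∧
        (∀ B ∈ B' :: L2, (σ B.a ∈ X ↔ σ B.b ∈ X)) ∧ (∃ B ∈ B' :: L2, σ B.a ∉ X) := by
      by_cases hx : g ∈ X0
      · exact ⟨X0, hx, g1, g2⟩
      · refine ⟨X0ᶜ, by rw [Finset.mem_compl]; exact hx, ?_, ?_⟩
        · intro B hB
          rw [Finset.mem_compl, Finset.mem_compl, g1 B hB]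
        · obtain ⟨B, hB, hB'⟩ := g3
          exact ⟨B, hB, by rw [Finset.mem_compl, not_not]; exact hB'⟩
    have hh : h ∈ X := by
      have := k2 B' List.mem_cons_self
      rw [h8, h9] at this
      exact this.1 k1
    have hoff : ∀ C ∈ L, z l ∉ C.supp → w l ∉ C.supp → (σ C.a ∈ X ↔ σ C.b ∈ X) := by
      intro C hC' hzC hwC
      exact k2 C (List.mem_cons_of_mem _ ((h2 C).2 ⟨hC', hzC, hwC⟩))
    refine ⟨X, g, h, h8 ▸ hI _, k1, hh, hoff, h10, h12, ?_, ?_, ?_⟩
    · intro hi
      by_contra hne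
      push Not at hne
      exact hi (h11 hne ▸ k1)
    · intro hj
      by_contra hne
      push Not at hne
      exact hj (h13 hne ▸ hh)
    · rintro ⟨hiX, hjX⟩
      have hall : ∀ C ∈ L, (σ C.a ∈ X ↔ σ C.b ∈ X) := by
        intro C hC'
        by_cases hzC : z l ∈ C.supp
        · rcases h10 C hC' hzC with h | h
          · rw [h.1, h.2]; exact ⟨fun _ => k1, fun _ => hiX⟩
          · rw [h.1, h.2]; exact ⟨fun _ => hiX, fun _ => k1⟩
        by_cases hwC : w l ∈ C.supp
        · rcases h12 C hC' hwC with h | h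
          · rw [h.1, h.2]; exact ⟨fun _ => hh, fun _ => hjX⟩
          · rw [h.1, h.2]; exact ⟨fun _ => hjX, fun _ => hh⟩
        exact hoff C hC' hzC hwC
      rcases hC X hall with h | h
      · obtain ⟨B, hB, hBX⟩ := k3
        rcases List.mem_cons.1 hB with rfl | hB
        · rw [h8] at hBX
          exact hBX k1
        · exact hBX (h B ((h2 B).1 hB).1)
      · have hodd : ¬ Even (cnt σ i L) := by
          have := hpar i
          simp only [if_true, hij, if_false, Nat.add_zero] at this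
          rwa [Nat.even_add_one] at this
        obtain ⟨C, hC', hCi⟩ := exists_end_of_odd hodd
        rcases hCi with hCi | hCi
        · exact h C hC' (hCi ▸ hiX)
        · exact h C hC' ((hall C hC').2 (hCi ▸ hiX))
  choose X g h hgI hB using hbad
  -- three types
  let A : Finset (Fin (m + 1)) := Finset.univ.filter (fun l => i ∉ X l ∧ j ∈ X l)
  let B : Finset (Fin (m + 1)) := Finset.univ.filter (fun l => j ∉ X l ∧ i ∈ X l)
  let D : Finset (Fin (m + 1)) := Finset.univ.filter (fun l => i ∉ X l ∧ j ∉ X l)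
  have hcov : (Finset.univ : Finset (Fin (m + 1))) ⊆ A ∪ B ∪ D := by
    intro l _
    have := (hB l).no
    simp only [A, B, D, Finset.mem_union, Finset.mem_filter, Finset.mem_univ, true_and]
    tauto
  have hA : A.card ≤ 1 := by
    rw [Finset.card_le_one]
    intro l hl l' hl'
    by_contra hne
    simp only [A, Finset.mem_filter, Finset.mem_univ, true_and] at hl hl'
    exact Bd.two htyp hpar (hB l) (hB l') (hz l) (hz l') (hfar.zz l l' hne).1
      (hfar.zz l l' hne).2 (hfar.zw l l' hne).1 (hfar.zw l l' hne).2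
      (hfar.zw l' l (Ne.symm hne)).1 (hfar.zw l' l (Ne.symm hne)).2 hl.1 hl.2 hl'.1 hl'.2
  have hBc : B.card ≤ 1 := by
    rw [Finset.card_le_one]
    intro l hl l' hl'
    by_contra hne
    simp only [B, Finset.mem_filter, Finset.mem_univ, true_and] at hl hl'
    have e1 := hfar.zw l' l (Ne.symm hne)
    have e2 := hfar.zw l l' hne
    exact Bd.two htyp (fun x => by
        have := hpar x
        rwa [add_comm (if x = i then 1 else 0)] at this) (hB l).swap (hB l').swap (hw l) (hw l')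
      (hfar.ww l l' hne).1 (hfar.ww l l' hne).2 e1.1.symm (by rw [Sym2.eq_swap]; exact e1.2)
      e2.1.symm (by rw [Sym2.eq_swap]; exact e2.2) hl.1 hl.2 hl'.1 hl'.2
  have hiI : i ∈ I := hσz 0 ▸ hI _
  have hjI : j ∈ I := hσw 0 ▸ hI _
  have hDc : D.card ≤ ((I.erase i).erase j).card := by
    refine Finset.card_le_card_of_injOn g ?_ ?_
    · intro l hl
      have hl' : l ∈ D := hl
      simp only [D, Finset.mem_filter, Finset.mem_univ, true_and] at hl'
      have hg := (hB l).gX
      rw [Finset.mem_coe, Finset.mem_erase, Finset.mem_erase]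
      exact ⟨fun hh => hl'.2 (hh ▸ hg), fun hh => hl'.1 (hh ▸ hg), hgI l⟩
    · intro l hl l' hl' hgg
      have h1 : l ∈ D := hl
      have h2 : l' ∈ D := hl'
      simp only [D, Finset.mem_filter, Finset.mem_univ, true_and] at h1 h2
      by_contra hne
      have h3 := Bd.g_notMem htyp (hB l) (hB l') (hz l) (hfar.zz l l' hne).1
        (hfar.zz l l' hne).2 (hfar.zw l l' hne).1 (hfar.zw l l' hne).2 h1.1 h2.1
      exact h3 (hgg ▸ (hB l').gX)
  have hIc : ((I.erase i).erase j).card = I.card - 1 - 1 := by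
    rw [Finset.card_erase_of_mem (Finset.mem_erase.2 ⟨hij.symm, hjI⟩),
      Finset.card_erase_of_mem hiI]
  have hI2 : 2 ≤ I.card := by
    have : ({i, j} : Finset ι) ⊆ I := by
      intro x hx
      rcases Finset.mem_insert.1 hx with rfl | hx
      · exact hiI
      · rw [Finset.mem_singleton] at hx
        rw [hx]; exact hjI
    have h2 := Finset.card_le_card this
    rwa [Finset.card_pair hij] at h2
  have h1 := Finset.card_le_card hcov
  rw [Finset.card_univ, Fintype.card_fin] at h1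
  have h2 := Finset.card_union_le (A ∪ B) D
  have h3 := Finset.card_union_le A B
  omega

end Pool.Agent.LWC
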