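import Pool.Agent.LWC.H3

set_option autoImplicit false

/-!
# Merging two classes, even case
-/

namespace Pool.Agent.LWC

open SimpleGraph

universe w

variable {V : Type w} {ι : Type} [DecidableEq ι] {G : SimpleGraph V}

/-- the two paths through `z` and `z'` form a cut at the class `i` -/
structure Kd (σ : V → ι) (L : List (Blk G)) (i : ι) (z z' : V) : Prop where
  ex : ∃ U : Finset ι, i ∈ U ∧ (∀ C ∈ L, z ∈ C.supp → ¬ (σ C.a ∈ U ↔ σ C.b ∈ U)) ∧
    (∀ C ∈ L, z' ∈ C.supp → ¬ (σ C.a ∈ U ↔ σ C.b ∈ U)) ∧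
    (∀ C ∈ L, z ∉ C.supp → z' ∉ C.supp → (σ C.a ∈ U ↔ σ C.b ∈ U))
  b1 : ∃ C ∈ L, z ∈ C.supp
  b2 : ∃ C ∈ L, z' ∈ C.supp

theorem Kd.symm {σ : V → ι} {L : List (Blk G)} {i : ι} {z z' : V} (k : Kd σ L i z z') :
    Kd σ L i z' z := by
  obtain ⟨U, h1, h2, h3, h4⟩ := k.ex
  exact ⟨⟨U, h1, h3, h2, fun C hC a b => h4 C hC b a⟩, k.b2, k.b1⟩

theorem splitOff {L : List (Blk G)} (hnd : ND L) {z : V} {C : Blk G} (hC : C ∈ L)
    (hz : z ∈ C.supp) : ∃ L' : List (Blk G), L.Perm (C :: L') ∧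
      ∀ D, D ∈ L' ↔ (D ∈ L ∧ z ∉ D.supp) := by
  obtain ⟨s, t, rfl⟩ := List.append_of_mem hC
  refine ⟨s ++ t, List.perm_middle, ?_⟩
  intro D
  constructor
  · intro hD
    refine ⟨?_, hnd.unique hz hD⟩
    rw [List.mem_append] at hD ⊢
    rcases hD with h | h
    · exact Or.inl h
    · exact Or.inr (List.mem_cons_of_mem _ h)
  · rintro ⟨hD, hzD⟩
    rw [List.mem_append, List.mem_cons] at hD
    rw [List.mem_append]
    rcases hD with h | rfl | h
    · exact Or.inl h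
    · exact absurd hz hzD
    · exact Or.inr h

theorem end_of_typ {E : Finset (Sym2 V)} {S : Finset V} {L : List (Blk G)} (htyp : Typ E S L)
    {σ : V → ι} {i : ι} {z : V} (hz : z ∉ S) (hσ : σ z = i) {C : Blk G} (hC : C ∈ L)
    (hzC : z ∈ C.supp) : σ C.a = i ∨ σ C.b = i := by
  rcases htyp C hC with h | h
  · exact absurd (h z hzC) hz
  · rw [h.1] at hzC
    have h1 : z = C.a ∨ z = C.b := by simpa using hzC
    rcases h1 with h1 | h1
    · left; rw [← h1]; exact hσ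
    · right; rw [← h1]; exact hσ

theorem Kd.triple [Fintype ι] {E : Finset (Sym2 V)} {S : Finset V} {σ : V → ι}
    {L : List (Blk G)} (hnd : ND L) (htyp : Typ E S L) (hpar : ∀ x, Even (cnt σ x L)) {i : ι}
    {z0 z1 z2 : V} (h0 : z0 ∉ S) (h1 : z1 ∉ S) (h2 : z2 ∉ S) (s0 : σ z0 = i) (s1 : σ z1 = i)
    (s2 : σ z2 = i) (f01 : z0 ≠ z1 ∧ s(z0, z1) ∉ E) (f02 : z0 ≠ z2 ∧ s(z0, z2) ∉ E)
    (f12 : z1 ≠ z2 ∧ s(z1, z2) ∉ E) (k1 : Kd σ L i z0 z1) (k2 : Kd σ L i z0 z2) : False := by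
  obtain ⟨U, u1, u2, u3, u4⟩ := k1.ex
  obtain ⟨W, w1, w2, w3, w4⟩ := k2.ex
  obtain ⟨C0, hC0, hz0⟩ := k1.b1
  obtain ⟨C1, hC1, hz1⟩ := k1.b2
  obtain ⟨C2, hC2, hz2⟩ := k2.b2
  have a01 : z0 ∉ C1.supp := far_block htyp h1 f01.1.symm (by rw [Sym2.eq_swap]; exact f01.2)
    hC1 hz1
  have a02 : z0 ∉ C2.supp := far_block htyp h2 f02.1.symm (by rw [Sym2.eq_swap]; exact f02.2)
    hC2 hz2
  have a12 : z1 ∉ C2.supp := far_block htyp h2 f12.1.symm (by rw [Sym2.eq_swap]; exact f12.2)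
    hC2 hz2
  obtain ⟨L0, p0, m0⟩ := splitOff hnd hC0 hz0
  have nd0 : ND L0 := (hnd.perm p0).tail
  have hC1' : C1 ∈ L0 := (m0 C1).2 ⟨hC1, a01⟩
  obtain ⟨L1, p1, m1⟩ := splitOff nd0 hC1' hz1
  have nd1 : ND L1 := (nd0.perm p1).tail
  have hC2' : C2 ∈ L1 := (m1 C2).2 ⟨(m0 C2).2 ⟨hC2, a02⟩, a12⟩
  obtain ⟨L2, p2, m2⟩ := splitOff nd1 hC2' hz2
  have hp : L.Perm (C0 :: C1 :: C2 :: L2) :=
    p0.trans ((p1.trans (p2.cons _)).cons _)
  have hn : ncross σ (U ∩ W) L2 = 0 := by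
    apply ncross_eq_zero
    intro D hD
    have d2 := (m2 D).1 hD
    have d1 := (m1 D).1 d2.1
    have d0 := (m0 D).1 d1.1
    rw [Finset.mem_inter, Finset.mem_inter, u4 D d0.1 d0.2 d1.2, w4 D d0.1 d0.2 d2.2]
  -- crossing of the three paths
  have cr : ∀ (C : Blk G), (σ C.a = i ∨ σ C.b = i) → ∀ X Y : Finset ι, i ∈ X → i ∈ Y →
      ¬ (σ C.a ∈ X ↔ σ C.b ∈ X) → ¬ (σ C.a ∈ X ∩ Y ↔ σ C.b ∈ X ∩ Y) := by
    intro C hC X Y hX hY hcr
    rw [Finset.mem_inter, Finset.mem_inter]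
    rcases hC with h | h
    · rw [h] at hcr ⊢
      tauto
    · rw [h] at hcr ⊢
      tauto
  have e0 := cr C0 (end_of_typ htyp h0 s0 hC0 hz0) U W u1 w1 (u2 C0 hC0 hz0)
  have e1 := cr C1 (end_of_typ htyp h1 s1 hC1 hz1) U W u1 w1 (u3 C1 hC1 hz1)
  have e2 := cr C2 (end_of_typ htyp h2 s2 hC2 hz2) W U w1 u1 (w3 C2 hC2 hz2)
  rw [Finset.inter_comm] at e2
  have hpar' := cut_parity (σ := σ) (L := L) (τ := fun _ => 0) (by simpa using hpar) (U ∩ W)
  rw [ncross_perm hp, ncross_cons, ncross_cons, ncross_cons, hn, if_neg e0, if_neg e1,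
    if_neg e2] at hpar'
  simp at hpar'
  exact absurd hpar' (by decide)

theorem evenPair [Fintype ι] {E : Finset (Sym2 V)} {S : Finset V} {σ : V → ι}
    {L : List (Blk G)} (hnd : ND L) (htyp : Typ E S L) {i j : ι}
    (hpar : ∀ x, Even (cnt σ x L))
    (hC' : ∀ X : Finset ι, (i ∈ X ↔ j ∈ X) → (∀ B ∈ L, (σ B.a ∈ X ↔ σ B.b ∈ X)) →
      (∀ B ∈ L, σ B.a ∈ X) ∨ (∀ B ∈ L, σ B.a ∉ X))
    (hnC : ¬ Cn σ L) {z w z' w' : V} (hz : z ∉ S) (hw : w ∉ S) (hz' : z' ∉ S) (hw' : w' ∉ S)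
    (hzw : G.Adj z w) (hzw' : G.Adj z' w') (hE : s(z, w) ∉ E) (hE' : s(z', w') ∉ E)
    (hσz : σ z = i) (hσw : σ w = j) (hσz' : σ z' = i) (hσw' : σ w' = j)
    (f1 : z ≠ z' ∧ s(z, z') ∉ E) (f2 : z ≠ w' ∧ s(z, w') ∉ E) (f3 : w ≠ z' ∧ s(w, z') ∉ E)
    (f4 : w ≠ w' ∧ s(w, w') ∉ E) :
    (∃ (Lnew : List (Blk G)) (S' : Finset V), ND Lnew ∧ Typ E S' Lnew ∧
      (∀ e, (∃ C ∈ L, e ∈ C.p.edges) → ∃ C ∈ Lnew, e ∈ C.p.edges) ∧
      (∀ x, Even (cnt σ x Lnew)) ∧ Cn σ Lnew ∧ S'.card ≤ S.card + 8) ∨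
    Kd σ L i z z' ∨ Kd σ L j w w' := by
  classical
  -- the cut separating `i` from `j`
  obtain ⟨X0, hX0, ⟨Bo, hBo, hBoX⟩, ⟨Bi, hBi, hBiX⟩, hi0, hj0⟩ : ∃ X0 : Finset ι,
      (∀ B ∈ L, (σ B.a ∈ X0 ↔ σ B.b ∈ X0)) ∧ (∃ B ∈ L, σ B.a ∉ X0) ∧ (∃ B ∈ L, σ B.a ∈ X0) ∧
      i ∈ X0 ∧ j ∉ X0 := by
    unfold Cn at hnC
    push Not at hnC
    obtain ⟨X0, g1, g2, g3⟩ := hnC
    have hsep : ¬ (i ∈ X0 ↔ j ∈ X0) := by
      intro h
      rcases hC' X0 h g1 with h | h
      · obtain ⟨B, hB, hBX⟩ := g2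
        exact hBX (h B hB)
      · obtain ⟨B, hB, hBX⟩ := g3
        exact h B hB hBX
    by_cases hi : i ∈ X0
    · exact ⟨X0, g1, g2, g3, hi, fun hj => hsep ⟨fun _ => hj, fun _ => hi⟩⟩
    · have hj : j ∈ X0 := by
        by_contra hj
        exact hsep ⟨fun h => absurd h hi, fun h => absurd h hj⟩
      refine ⟨X0ᶜ, ?_, ?_, ?_, by rw [Finset.mem_compl]; exact hi,
        by rw [Finset.mem_compl, not_not]; exact hj⟩
      · intro B hB
        rw [Finset.mem_compl, Finset.mem_compl, g1 B hB]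
      · obtain ⟨B, hB, hB'⟩ := g3
        exact ⟨B, hB, by rw [Finset.mem_compl, not_not]; exact hB'⟩
      · obtain ⟨B, hB, hB'⟩ := g2
        exact ⟨B, hB, by rw [Finset.mem_compl]; exact hB'⟩
  -- the class `i` is active
  have hact : ∃ C ∈ L, σ C.a = i ∨ σ C.b = i := by
    by_contra hno
    push Not at hno
    rcases hC' (X0.erase i) (by simp [hj0]) (by
      intro B hB
      rw [Finset.mem_erase, Finset.mem_erase, hX0 B hB]
      simp [(hno B hB).1, (hno B hB).2]) with h | h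
    · exact hBoX (Finset.mem_of_mem_erase (h Bo hBo))
    · exact h Bi hBi (Finset.mem_erase.2 ⟨(hno Bi hBi).1, hBiX⟩)
  -- first edge
  obtain ⟨B', L2, g, h, T, a1, a2, a3, a4, a5, a6, a7, a8, a9, a10, a11, a12, a13⟩ :=
    addEdge (σ := σ) hnd htyp hz hw hzw hE
  rw [hσz] at a10 a11
  rw [hσw] at a12 a13
  have htyp1 : Typ E (S ∪ T) (B' :: L2) := by
    intro B hB
    rcases List.mem_cons.1 hB with rfl | hB
    · left
      intro v hv
      exact Finset.mem_union_right _ ((a4 v).2 hv)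
    · rcases htyp B ((a2 B).1 hB).1 with h | h
      · left
        intro v hv
        exact Finset.mem_union_left _ (h v hv)
      · exact Or.inr h
  have hzT : z' ∉ T := by
    intro hh
    rcases a6 z' hh with h | h | h | h
    · exact f1.1 h.symm
    · exact f3.1 h.symm
    · exact f1.2 h
    · exact f3.2 h
  have hwT : w' ∉ T := by
    intro hh
    rcases a6 w' hh with h | h | h | h
    · exact f2.1 h.symm
    · exact f4.1 h.symm
    · exact f2.2 h
    · exact f4.2 h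
  have hz1 : z' ∉ S ∪ T := by
    rw [Finset.mem_union]
    rintro (h | h)
    · exact hz' h
    · exact hzT h
  have hw1 : w' ∉ S ∪ T := by
    rw [Finset.mem_union]
    rintro (h | h)
    · exact hw' h
    · exact hwT h
  -- second edge
  obtain ⟨B'', L3, g', h', T', b1, b2, b3, b4, b5, b6, b7, b8, b9, b10, b11, b12, b13⟩ :=
    addEdge (σ := σ) a1 htyp1 hz1 hw1 hzw' hE'
  rw [hσz'] at b10 b11
  rw [hσw'] at b12 b13
  by_cases hCn : Cn σ (B'' :: L3)
  · left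
    refine ⟨B'' :: L3, S ∪ T ∪ T', b1, ?_, fun e he => b3 e (a3 e he), ?_, hCn, ?_⟩
    · intro B hB
      rcases List.mem_cons.1 hB with rfl | hB
      · left
        intro v hv
        exact Finset.mem_union_right _ ((b4 v).2 hv)
      · rcases htyp1 B ((b2 B).1 hB).1 with h | h
        · left
          intro v hv
          exact Finset.mem_union_left _ (h v hv)
        · exact Or.inr h
    · intro x
      have e1 := a7 x
      have e2 := b7 x
      have e3 := hpar x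
      rw [hσz, hσw] at e1
      rw [hσz', hσw'] at e2
      rw [Nat.even_iff] at e1 e2 e3 ⊢
      omega
    · have h1 := Finset.card_union_le S T
      have h2 := Finset.card_union_le (S ∪ T) T'
      omega
  right
  -- the bad cut
  obtain ⟨X, hiX, hXn, ⟨Bout, hBout, hBoutX⟩⟩ : ∃ X : Finset ι, i ∈ X ∧
      (∀ B ∈ B'' :: L3, (σ B.a ∈ X ↔ σ B.b ∈ X)) ∧ (∃ B ∈ B'' :: L3, σ B.a ∉ X) := by
    unfold Cn at hCn
    push Not at hCn
    obtain ⟨X1, g1, g2, g3⟩ := hCn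
    by_cases hi : i ∈ X1
    · exact ⟨X1, hi, g1, g2⟩
    · refine ⟨X1ᶜ, by rw [Finset.mem_compl]; exact hi, ?_, ?_⟩
      · intro B hB
        rw [Finset.mem_compl, Finset.mem_compl, g1 B hB]
      · obtain ⟨B, hB, hB'⟩ := g3
        exact ⟨B, hB, by rw [Finset.mem_compl, not_not]; exact hB'⟩
  have hB'L3 : B' ∈ L3 := by
    rw [b2]
    exact ⟨List.mem_cons_self, fun hh => hzT ((a4 z').2 hh), fun hh => hwT ((a4 w').2 hh)⟩
  have F1 : g' ∈ X ↔ h' ∈ X := by
    have := hXn B'' List.mem_cons_self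
    rwa [b8, b9] at this
  have F2 : g ∈ X ↔ h ∈ X := by
    have := hXn B' (List.mem_cons_of_mem _ hB'L3)
    rwa [a8, a9] at this
  have F3 : ∀ C ∈ L, z ∉ C.supp → w ∉ C.supp → z' ∉ C.supp → w' ∉ C.supp →
      (σ C.a ∈ X ↔ σ C.b ∈ X) := by
    intro C hC c1 c2 c3 c4
    exact hXn C (List.mem_cons_of_mem _ ((b2 C).2
      ⟨List.mem_cons_of_mem _ ((a2 C).2 ⟨hC, c1, c2⟩), c3, c4⟩))
  have far1 : ∀ C ∈ L, z' ∈ C.supp → C ∈ B' :: L2 := by
    intro C hC hzC
    refine List.mem_cons_of_mem _ ((a2 C).2 ⟨hC, ?_, ?_⟩)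
    · exact far_block htyp hz' f1.1.symm (by rw [Sym2.eq_swap]; exact f1.2) hC hzC
    · exact far_block htyp hz' f3.1.symm (by rw [Sym2.eq_swap]; exact f3.2) hC hzC
  have far2 : ∀ C ∈ L, w' ∈ C.supp → C ∈ B' :: L2 := by
    intro C hC hwC
    refine List.mem_cons_of_mem _ ((a2 C).2 ⟨hC, ?_, ?_⟩)
    · exact far_block htyp hw' f2.1.symm (by rw [Sym2.eq_swap]; exact f2.2) hC hwC
    · exact far_block htyp hw' f4.1.symm (by rw [Sym2.eq_swap]; exact f4.2) hC hwC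
  -- types
  have tz : ∀ C ∈ L, z ∈ C.supp → (σ C.a = i ∧ σ C.b = g) ∨ (σ C.a = g ∧ σ C.b = i) := a10
  have tw : ∀ C ∈ L, w ∈ C.supp → (σ C.a = j ∧ σ C.b = h) ∨ (σ C.a = h ∧ σ C.b = j) := a12
  have tz' : ∀ C ∈ L, z' ∈ C.supp → (σ C.a = i ∧ σ C.b = g') ∨ (σ C.a = g' ∧ σ C.b = i) :=
    fun C hC hzC => b10 C (far1 C hC hzC) hzC
  have tw' : ∀ C ∈ L, w' ∈ C.supp → (σ C.a = j ∧ σ C.b = h') ∨ (σ C.a = h' ∧ σ C.b = j) :=
    fun C hC hwC => b12 C (far2 C hC hwC) hwC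
  have nz : (∀ C ∈ L, z ∉ C.supp) → g = i := a11
  have nw : (∀ C ∈ L, w ∉ C.supp) → h = j := a13
  have nz' : (∀ C ∈ L, z' ∉ C.supp) → g' = i := by
    intro hno
    apply b11
    intro C hC
    rcases List.mem_cons.1 hC with rfl | hC
    · exact fun hh => hzT ((a4 z').2 hh)
    · exact hno C ((a2 C).1 hC).1
  have nw' : (∀ C ∈ L, w' ∉ C.supp) → h' = j := by
    intro hno
    apply b13
    intro C hC
    rcases List.mem_cons.1 hC with rfl | hC
    · exact fun hh => hwT ((a4 w').2 hh)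
    · exact hno C ((a2 C).1 hC).1
  -- positions with respect to `X0`
  have side : ∀ (C : Blk G) (p q : ι), C ∈ L → (σ C.a = p ∧ σ C.b = q) ∨ (σ C.a = q ∧ σ C.b = p) →
      (p ∈ X0 ↔ q ∈ X0) := by
    intro C p q hC ht
    have := hX0 C hC
    rcases ht with ht | ht
    · rwa [ht.1, ht.2] at this
    · rw [ht.1, ht.2] at this
      exact this.symm
  have hg0 : g ∈ X0 := by
    by_cases hex : ∃ C ∈ L, z ∈ C.supp
    · obtain ⟨C, hC, hzC⟩ := hex
      exact (side C i g hC (tz C hC hzC)).1 hi0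
    · push Not at hex
      rw [nz hex]; exact hi0
  have hg0' : g' ∈ X0 := by
    by_cases hex : ∃ C ∈ L, z' ∈ C.supp
    · obtain ⟨C, hC, hzC⟩ := hex
      exact (side C i g' hC (tz' C hC hzC)).1 hi0
    · push Not at hex
      rw [nz' hex]; exact hi0
  have hh0 : h ∉ X0 := by
    by_cases hex : ∃ C ∈ L, w ∈ C.supp
    · obtain ⟨C, hC, hwC⟩ := hex
      exact fun hh => hj0 ((side C j h hC (tw C hC hwC)).2 hh)
    · push Not at hex
      rw [nw hex]; exact hj0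
  have hh0' : h' ∉ X0 := by
    by_cases hex : ∃ C ∈ L, w' ∈ C.supp
    · obtain ⟨C, hC, hwC⟩ := hex
      exact fun hh => hj0 ((side C j h' hC (tw' C hC hwC)).2 hh)
    · push Not at hex
      rw [nw' hex]; exact hj0
  -- non-crossing of a path from its type
  have nc : ∀ (C : Blk G) (p q : ι) (Y : Finset ι),
      (σ C.a = p ∧ σ C.b = q) ∨ (σ C.a = q ∧ σ C.b = p) → (p ∈ Y ↔ q ∈ Y) →
      (σ C.a ∈ Y ↔ σ C.b ∈ Y) := by
    intro C p q Y ht hpq
    rcases ht with ht | ht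
    · rw [ht.1, ht.2]; exact hpq
    · rw [ht.1, ht.2]; exact hpq.symm
  have cr : ∀ (C : Blk G) (p q : ι) (Y : Finset ι),
      (σ C.a = p ∧ σ C.b = q) ∨ (σ C.a = q ∧ σ C.b = p) → ¬ (p ∈ Y ↔ q ∈ Y) →
      ¬ (σ C.a ∈ Y ↔ σ C.b ∈ Y) := by
    intro C p q Y ht hpq
    rcases ht with ht | ht
    · rw [ht.1, ht.2]; exact hpq
    · rw [ht.1, ht.2]; exact fun h => hpq h.symm
  -- the paths missing `z` and `z'` do not cross `X ∩ X0`
  have hZ : ∀ C ∈ L, z ∉ C.supp → z' ∉ C.supp → (σ C.a ∈ X ∩ X0 ↔ σ C.b ∈ X ∩ X0) := by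
    intro C hC c1 c2
    by_cases c3 : w ∈ C.supp
    · refine nc C j h _ (tw C hC c3) ?_
      simp [hj0, hh0]
    by_cases c4 : w' ∈ C.supp
    · refine nc C j h' _ (tw' C hC c4) ?_
      simp [hj0, hh0']
    rw [Finset.mem_inter, Finset.mem_inter, F3 C hC c1 c3 c2 c4, hX0 C hC]
  have hparZ := cut_parity (σ := σ) (L := L) (τ := fun _ => 0) (by simpa using hpar) (X ∩ X0)
  rw [Finset.sum_const_zero, Nat.add_zero] at hparZ
  by_cases hg : g ∈ X
  · by_cases hg' : g' ∈ X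
    · -- both in `X`
      by_cases hj : j ∈ X
      · exfalso
        have hall : ∀ B ∈ L, (σ B.a ∈ X ↔ σ B.b ∈ X) := by
          intro C hC
          by_cases c1 : z ∈ C.supp
          · exact nc C i g _ (tz C hC c1) ⟨fun _ => hg, fun _ => hiX⟩
          by_cases c2 : w ∈ C.supp
          · exact nc C j h _ (tw C hC c2) ⟨fun _ => F2.1 hg, fun _ => hj⟩
          by_cases c3 : z' ∈ C.supp
          · exact nc C i g' _ (tz' C hC c3) ⟨fun _ => hg', fun _ => hiX⟩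
          by_cases c4 : w' ∈ C.supp
          · exact nc C j h' _ (tw' C hC c4) ⟨fun _ => F1.1 hg', fun _ => hj⟩
          exact F3 C hC c1 c2 c3 c4
        rcases hC' X ⟨fun _ => hj, fun _ => hiX⟩ hall with hin | hout
        · rcases List.mem_cons.1 hBout with rfl | hB
          · rw [b8] at hBoutX
            exact hBoutX hg'
          · rcases List.mem_cons.1 ((b2 Bout).1 hB).1 with rfl | hB
            · rw [a8] at hBoutX
              exact hBoutX hg
            · exact hBoutX (hin Bout ((a2 Bout).1 hB).1)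
        · obtain ⟨C, hC, hCi⟩ := hact
          rcases hCi with hCi | hCi
          · exact hout C hC (hCi ▸ hiX)
          · exact hout C hC ((hall C hC).2 (hCi ▸ hiX))
      · right
        refine ⟨⟨(X ∪ X0)ᶜ, ?_, ?_, ?_, ?_⟩, ?_, ?_⟩
        · rw [Finset.mem_compl, Finset.mem_union]
          rintro (h | h)
          · exact hj h
          · exact hj0 h
        · intro C hC c
          refine cr C j h _ (tw C hC c) ?_
          rw [Finset.mem_compl, Finset.mem_compl, Finset.mem_union, Finset.mem_union]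
          intro hh
          refine (hh.1 ?_) (Or.inl (F2.1 hg))
          rintro (h | h)
          · exact hj h
          · exact hj0 h
        · intro C hC c
          refine cr C j h' _ (tw' C hC c) ?_
          rw [Finset.mem_compl, Finset.mem_compl, Finset.mem_union, Finset.mem_union]
          intro hh
          refine (hh.1 ?_) (Or.inl (F1.1 hg'))
          rintro (h | h)
          · exact hj h
          · exact hj0 h
        · intro C hC c2 c4
          have hX' : (σ C.a ∈ X ↔ σ C.b ∈ X) := by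
            by_cases c1 : z ∈ C.supp
            · exact nc C i g _ (tz C hC c1) ⟨fun _ => hg, fun _ => hiX⟩
            by_cases c3 : z' ∈ C.supp
            · exact nc C i g' _ (tz' C hC c3) ⟨fun _ => hg', fun _ => hiX⟩
            exact F3 C hC c1 c2 c3 c4
          rw [Finset.mem_compl, Finset.mem_compl, Finset.mem_union, Finset.mem_union, hX',
            hX0 C hC]
        · by_contra hex
          push Not at hex
          exact hj (nw hex ▸ F2.1 hg)
        · by_contra hex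
          push Not at hex
          exact hj (nw' hex ▸ F1.1 hg')
    · -- exactly one path crosses `X ∩ X0`
      exfalso
      obtain ⟨C, hC, hzC⟩ : ∃ C ∈ L, z' ∈ C.supp := by
        by_contra hex
        push Not at hex
        exact hg' (nz' hex ▸ hiX)
      obtain ⟨L0, p0, m0⟩ := splitOff hnd hC hzC
      have h0 : ncross σ (X ∩ X0) L0 = 0 := by
        apply ncross_eq_zero
        intro D hD
        have hD' := (m0 D).1 hD
        by_cases c1 : z ∈ D.supp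
        · refine nc D i g _ (tz D hD'.1 c1) ?_
          simp [hiX, hi0, hg, hg0]
        · exact hZ D hD'.1 c1 hD'.2
      rw [ncross_perm p0, ncross_cons, h0, if_neg (cr C i g' _ (tz' C hC hzC) (by
        simp [hiX, hi0, hg']))] at hparZ
      exact absurd hparZ (by decide)
  · by_cases hg' : g' ∈ X
    · exfalso
      obtain ⟨C, hC, hzC⟩ : ∃ C ∈ L, z ∈ C.supp := by
        by_contra hex
        push Not at hex
        exact hg (nz hex ▸ hiX)
      obtain ⟨L0, p0, m0⟩ := splitOff hnd hC hzC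
      have h0 : ncross σ (X ∩ X0) L0 = 0 := by
        apply ncross_eq_zero
        intro D hD
        have hD' := (m0 D).1 hD
        by_cases c1 : z' ∈ D.supp
        · refine nc D i g' _ (tz' D hD'.1 c1) ?_
          simp [hiX, hi0, hg', hg0']
        · exact hZ D hD'.1 hD'.2 c1
      rw [ncross_perm p0, ncross_cons, h0, if_neg (cr C i g _ (tz C hC hzC) (by
        simp [hiX, hi0, hg]))] at hparZ
      exact absurd hparZ (by decide)
    · left
      refine ⟨⟨X ∩ X0, Finset.mem_inter.2 ⟨hiX, hi0⟩, ?_, ?_, hZ⟩, ?_, ?_⟩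
      · intro C hC c
        refine cr C i g _ (tz C hC c) ?_
        simp [hiX, hi0, hg]
      · intro C hC c
        refine cr C i g' _ (tz' C hC c) ?_
        simp [hiX, hi0, hg']
      · by_contra hex
        push Not at hex
        exact hg (nz hex ▸ hiX)
      · by_contra hex
        push Not at hex
        exact hg' (nz' hex ▸ hiX)

theorem evenMerge [Fintype ι] {E : Finset (Sym2 V)} {S : Finset V} {σ : V → ι}
    {L : List (Blk G)} (hnd : ND L) (htyp : Typ E S L) {i j : ι}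
    (hpar : ∀ x, Even (cnt σ x L))
    (hC' : ∀ X : Finset ι, (i ∈ X ↔ j ∈ X) → (∀ B ∈ L, (σ B.a ∈ X ↔ σ B.b ∈ X)) →
      (∀ B ∈ L, σ B.a ∈ X) ∨ (∀ B ∈ L, σ B.a ∉ X))
    (hnC : ¬ Cn σ L) (z w : Fin 3 → V) (hz : ∀ l, z l ∉ S) (hw : ∀ l, w l ∉ S)
    (hzw : ∀ l, G.Adj (z l) (w l)) (hE : ∀ l, s(z l, w l) ∉ E) (hσz : ∀ l, σ (z l) = i)
    (hσw : ∀ l, σ (w l) = j) (hfar : Far E z w) :
    ∃ (Lnew : List (Blk G)) (S' : Finset V), ND Lnew ∧ Typ E S' Lnew ∧
      (∀ e, (∃ C ∈ L, e ∈ C.p.edges) → ∃ C ∈ Lnew, e ∈ C.p.edges) ∧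
      (∀ x, Even (cnt σ x Lnew)) ∧ Cn σ Lnew ∧ S'.card ≤ S.card + 8 := by
  by_contra hno
  have hpair : ∀ l l', l ≠ l' → Kd σ L i (z l) (z l') ∨ Kd σ L j (w l) (w l') := by
    intro l l' hne
    have e1 := hfar.zw l' l hne.symm
    rcases evenPair hnd htyp hpar hC' hnC (hz l) (hw l) (hz l') (hw l') (hzw l) (hzw l') (hE l)
      (hE l') (hσz l) (hσw l) (hσz l') (hσw l') (hfar.zz l l' hne) (hfar.zw l l' hne)
      ⟨e1.1.symm, by rw [Sym2.eq_swap]; exact e1.2⟩ (hfar.ww l l' hne) with h | h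
    · exact absurd h hno
    · exact h
  have tri : ∀ a b c : Fin 3, a ≠ b → a ≠ c → b ≠ c → Kd σ L i (z a) (z b) →
      Kd σ L i (z a) (z c) → False := by
    intro a b c hab hac hbc k1 k2
    exact Kd.triple hnd htyp hpar (hz a) (hz b) (hz c) (hσz a) (hσz b) (hσz c)
      (hfar.zz a b hab) (hfar.zz a c hac) (hfar.zz b c hbc) k1 k2
  have tri' : ∀ a b c : Fin 3, a ≠ b → a ≠ c → b ≠ c → Kd σ L j (w a) (w b) →
      Kd σ L j (w a) (w c) → False := by
    intro a b c hab hac hbc k1 k2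
    exact Kd.triple hnd htyp hpar (hw a) (hw b) (hw c) (hσw a) (hσw b) (hσw c)
      (hfar.ww a b hab) (hfar.ww a c hac) (hfar.ww b c hbc) k1 k2
  have n01 : (0 : Fin 3) ≠ 1 := by decide
  have n02 : (0 : Fin 3) ≠ 2 := by decide
  have n12 : (1 : Fin 3) ≠ 2 := by decide
  rcases hpair 0 1 n01 with h1 | h1 <;> rcases hpair 0 2 n02 with h2 | h2 <;>
    rcases hpair 1 2 n12 with h3 | h3
  · exact tri 0 1 2 n01 n02 n12 h1 h2
  · exact tri 0 1 2 n01 n02 n12 h1 h2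
  · exact tri 1 0 2 n01.symm n12 n02 h1.symm h3
  · exact tri' 2 0 1 n02.symm n12.symm n01 h2.symm h3.symm
  · exact tri 2 0 1 n02.symm n12.symm n01 h2.symm h3.symm
  · exact tri' 1 0 2 n01.symm n12 n02 h1.symm h3
  · exact tri' 0 1 2 n01 n02 n12 h1 h2
  · exact tri' 0 1 2 n01 n02 n12 h1 h2

end Pool.Agent.LWC
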