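import Pool.Agent.LWC.H4

set_option autoImplicit false

/-!
# Base cases: at most two classes
-/

namespace Pool.Agent.LWC

open SimpleGraph

universe w

variable {V : Type w} {ι : Type} [DecidableEq ι] {G : SimpleGraph V}

/-- the hypotheses on the partition -/
structure Hyp (G : SimpleGraph V) (E : Finset (Sym2 V)) (k : ℕ) (σ : V → ι) : Prop where
  cut : ∀ S : Finset V, S.card < k → ∀ X : Finset ι, (∃ u, σ u ∈ X) → (∃ v, σ v ∉ X) →
    ∃ x y, G.Adj x y ∧ σ x ∈ X ∧ σ y ∉ X ∧ x ∉ S ∧ y ∉ S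
  cutE : Odd k → ∀ X : Finset ι, (∃ u, σ u ∈ X) → (∃ v, σ v ∉ X) →
    ∃ x y, G.Adj x y ∧ σ x ∈ X ∧ σ y ∉ X ∧ s(x, y) ∉ E

/-- a good system -/
def Good (G : SimpleGraph V) (E : Finset (Sym2 V)) (σ : V → ι) (n : ℕ) : Prop :=
  ∃ (L : List (Blk G)) (S : Finset V), ND L ∧ Typ E S L ∧ (∀ e ∈ E, ∃ C ∈ L, e ∈ C.p.edges) ∧
    (∀ x, Even (cnt σ x L)) ∧ Cn σ L ∧ S.card ≤ n

open Classical in
/-- the prescribed edges separated by `X` -/
noncomputable def sepE (σ : V → ι) (X : Finset ι) (E : Finset (Sym2 V)) : Finset (Sym2 V) :=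
  E.filter (fun e => ∃ a b, e = s(a, b) ∧ σ a ∈ X ∧ σ b ∉ X)

theorem mem_sepE {σ : V → ι} {X : Finset ι} {E : Finset (Sym2 V)} {e : Sym2 V} :
    e ∈ sepE σ X E ↔ (e ∈ E ∧ ∃ a b, e = s(a, b) ∧ σ a ∈ X ∧ σ b ∉ X) := by
  classical
  unfold sepE
  rw [Finset.mem_filter]

theorem sep_mk {σ : V → ι} {X : Finset ι} {p q : V} :
    (∃ a b, s(p, q) = s(a, b) ∧ σ a ∈ X ∧ σ b ∉ X) ↔ ¬ (σ p ∈ X ↔ σ q ∈ X) := by
  constructor
  · rintro ⟨a, b, h, ha, hb⟩
    rcases Sym2.eq_iff.1 h with ⟨rfl, rfl⟩ | ⟨rfl, rfl⟩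
    · exact fun h => hb (h.1 ha)
    · exact fun h => hb (h.2 ha)
  · intro h
    by_cases hp : σ p ∈ X
    · exact ⟨p, q, rfl, hp, fun hq => h ⟨fun _ => hq, fun _ => hp⟩⟩
    · refine ⟨q, p, Sym2.eq_swap, ?_, hp⟩
      by_contra hq
      exact h ⟨fun h => absurd h hp, fun h => absurd h hq⟩

/-- the list of the prescribed edges -/
theorem base_list (σ : V → ι) (E : Finset (Sym2 V)) : (∀ e ∈ E, e ∈ G.edgeSet) → Ind E →
    ∃ L : List (Blk G), ND L ∧ (∀ B ∈ L, B.supp = [B.a, B.b] ∧ s(B.a, B.b) ∈ E) ∧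
      (∀ e ∈ E, ∃ C ∈ L, e ∈ C.p.edges ∧ e = s(C.a, C.b)) ∧
      (∀ X : Finset ι, ncross σ X L = (sepE σ X E).card) := by
  classical
  induction E using Finset.induction_on with
  | empty =>
    intro _ _
    exact ⟨[], by simp [ND], by simp, by simp, by simp [ncross, sepE]⟩
  | @insert e E heE ih =>
    intro h1 h2
    obtain ⟨L, hnd, htyp, hcov, hnc⟩ := ih (fun f hf => h1 f (Finset.mem_insert_of_mem hf))
      (h2.subset (Finset.subset_insert _ _))
    have he1 := h1 e (Finset.mem_insert_self _ _)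
    have hoff : ∀ f ∈ E, ∀ v ∈ e, v ∉ f := by
      intro f hf v hv
      exact h2 e (Finset.mem_insert_self _ _) f (Finset.mem_insert_of_mem hf)
        (fun hef => heE (hef ▸ hf)) v hv
    induction e using Sym2.ind with
    | _ p q =>
      rw [mem_edgeSet] at he1
      have hs : (Blk.edg he1).supp = [p, q] := by simp [Blk.edg, Blk.supp]
      refine ⟨Blk.edg he1 :: L, ?_, ?_, ?_, ?_⟩
      · unfold ND at hnd ⊢
        rw [List.flatMap_cons, hs, List.nodup_append']
        refine ⟨by simp [he1.ne], hnd, ?_⟩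
        intro v hv hv'
        obtain ⟨C, hC, hvC⟩ := List.mem_flatMap.1 hv'
        have hC' := htyp C hC
        rw [hC'.1] at hvC
        refine hoff _ hC'.2 v ?_ ?_
        · rw [Sym2.mem_iff]; simpa using hv
        · rw [Sym2.mem_iff]; simpa using hvC
      · intro B hB
        rcases List.mem_cons.1 hB with rfl | hB
        · exact ⟨hs, Finset.mem_insert_self _ _⟩
        · exact ⟨(htyp B hB).1, Finset.mem_insert_of_mem (htyp B hB).2⟩
      · intro f hf
        rcases Finset.mem_insert.1 hf with rfl | hf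
        · exact ⟨Blk.edg he1, List.mem_cons_self, by simp [Blk.edg], rfl⟩
        · obtain ⟨C, hC, hfC⟩ := hcov f hf
          exact ⟨C, List.mem_cons_of_mem _ hC, hfC⟩
      · intro X
        rw [ncross_cons, hnc X]
        have ha : (Blk.edg he1).a = p := rfl
        have hb : (Blk.edg he1).b = q := rfl
        rw [ha, hb]
        by_cases hcr : (σ p ∈ X ↔ σ q ∈ X)
        · rw [if_pos hcr, Nat.add_zero]
          congr 1
          ext f
          rw [mem_sepE, mem_sepE, Finset.mem_insert]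
          constructor
          · rintro ⟨hf, hx⟩
            exact ⟨Or.inr hf, hx⟩
          · rintro ⟨hf | hf, hx⟩
            · rw [hf] at hx
              exact absurd hcr (sep_mk.1 hx)
            · exact ⟨hf, hx⟩
        · rw [if_neg hcr]
          have : sepE σ X (insert s(p, q) E) = insert s(p, q) (sepE σ X E) := by
            ext f
            rw [mem_sepE, Finset.mem_insert, Finset.mem_insert, mem_sepE]
            constructor
            · rintro ⟨hf | hf, hx⟩
              · exact Or.inl hf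
              · exact Or.inr ⟨hf, hx⟩
            · rintro (hf | ⟨hf, hx⟩)
              · rw [hf]
                exact ⟨Or.inl rfl, sep_mk.2 hcr⟩
              · exact ⟨Or.inr hf, hx⟩
          rw [this, Finset.card_insert_of_notMem]
          intro hmem
          exact heE (mem_sepE.1 hmem).1

theorem good_mono {E : Finset (Sym2 V)} {σ : V → ι} {n n' : ℕ} (h : Good G E σ n)
    (hn : n ≤ n') : Good G E σ n' := by
  obtain ⟨L, S, h1, h2, h3, h4, h5, h6⟩ := h
  exact ⟨L, S, h1, h2, h3, h4, h5, h6.trans hn⟩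

/-- one class -/
theorem base_one {E : Finset (Sym2 V)} {σ : V → ι} (hE : ∀ e ∈ E, e ∈ G.edgeSet)
    (hind : Ind E) (hσ : ∀ u v, σ u = σ v) : Good G E σ 0 := by
  obtain ⟨L, hnd, htyp, hcov, -⟩ := base_list (G := G) σ E hE hind
  refine ⟨L, ∅, hnd, fun B hB => Or.inr (htyp B hB), fun e he => ?_, ?_, ?_, by simp⟩
  · obtain ⟨C, hC, h, -⟩ := hcov e he
    exact ⟨C, hC, h⟩
  · intro x
    clear hnd htyp hcov
    induction L with
    | nil => simp [cnt]
    | cons B L ih =>
      rw [cnt_cons, hσ B.a B.b]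
      rw [Nat.even_iff] at ih ⊢
      omega
  · intro X _
    by_cases hne : ∃ B ∈ L, σ B.a ∈ X
    · obtain ⟨B, hB, hBX⟩ := hne
      left
      intro C hC
      rw [hσ C.a B.a]; exact hBX
    · push Not at hne
      exact Or.inr hne

/-- number of crossing paths not containing `z` -/
theorem ncross_le_succ {σ : V → ι} {L : List (Blk G)} (hnd : ND L) (z : V) (X : Finset ι) :
    ∃ L' : List (Blk G), ncross σ X L ≤ ncross σ X L' + 1 ∧ ND L' ∧
      ∀ D, D ∈ L' ↔ (D ∈ L ∧ z ∉ D.supp) := by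
  by_cases hex : ∃ C ∈ L, z ∈ C.supp
  · obtain ⟨C, hC, hzC⟩ := hex
    obtain ⟨L', hp, hm⟩ := splitOff hnd hC hzC
    refine ⟨L', ?_, (hnd.perm hp).tail, hm⟩
    rw [ncross_perm hp, ncross_cons]
    split_ifs <;> omega
  · push Not at hex
    exact ⟨L, by omega, hnd, fun D => ⟨fun h => ⟨h, hex D h⟩, fun h => h.1⟩⟩

/-- a further crossing edge in the case of two classes -/
theorem newCross2 [Fintype V] {E : Finset (Sym2 V)} {k : ℕ} {σ : V → ι} (H : Hyp G E k σ)
    (hind : Ind E) (hcard : E.card = k) {i j : ι} (hij : i ≠ j) (hσ : ∀ v, σ v = i ∨ σ v = j)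
    (hi : ∃ v, σ v = i) (hj : ∃ v, σ v = j) {D : Finset (Sym2 V)}
    (hD : ∀ e, e ∈ D ↔ (e ∈ E ∧ ∃ a b, e = s(a, b) ∧ σ a = i ∧ σ b = j)) (hodd : Odd D.card) :
    ∃ x y, G.Adj x y ∧ σ x = i ∧ σ y = j ∧ s(x, y) ∉ E := by
  classical
  have hsub : D ⊆ E := fun e he => ((hD e).1 he).1
  have hle : D.card ≤ k := by rw [← hcard]; exact Finset.card_le_card hsub
  have hfix : ∀ X : Finset ι, i ∈ X → j ∉ X → ∀ x y, σ x ∈ X → σ y ∉ X → σ x = i ∧ σ y = j := by
    intro X hiX hjX x y hx hy
    refine ⟨?_, ?_⟩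
    · rcases hσ x with h | h
      · exact h
      · exact absurd (h ▸ hx) hjX
    · rcases hσ y with h | h
      · exact absurd (h ▸ hiX) hy
      · exact h
  have hiX : i ∈ ({i} : Finset ι) := Finset.mem_singleton_self _
  have hjX : j ∉ ({i} : Finset ι) := by rw [Finset.mem_singleton]; exact hij.symm
  by_cases hck : D.card = k
  · obtain ⟨x, y, h1, h2, h3, h4⟩ := H.cutE (hck ▸ hodd) {i}
      (by obtain ⟨v, hv⟩ := hi; exact ⟨v, by rw [hv]; exact hiX⟩)
      (by obtain ⟨v, hv⟩ := hj; exact ⟨v, by rw [hv]; exact hjX⟩)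
    have := hfix _ hiX hjX x y h2 h3
    exact ⟨x, y, h1, this.1, this.2, h4⟩
  · obtain ⟨e, he, hne⟩ : ∃ e ∈ E, e ∉ D := by
      by_contra hh
      push Not at hh
      have := Finset.card_le_card (fun e he => hh e he : E ⊆ D)
      omega
    -- the class of `e`
    have hcl : ∃ l, (l = i ∨ l = j) ∧ ∀ v ∈ e, σ v = l := by
      induction e using Sym2.ind with
      | _ p q =>
        rcases hσ p with hp | hp <;> rcases hσ q with hq | hq
        · exact ⟨i, Or.inl rfl, by
            intro v hv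
            rcases Sym2.mem_iff.1 hv with rfl | rfl <;> assumption⟩
        · exact absurd ((hD _).2 ⟨he, p, q, rfl, hp, hq⟩) hne
        · exact absurd ((hD _).2 ⟨he, q, p, Sym2.eq_swap, hq, hp⟩) hne
        · exact ⟨j, Or.inr rfl, by
            intro v hv
            rcases Sym2.mem_iff.1 hv with rfl | rfl <;> assumption⟩
    obtain ⟨l, hl, hle'⟩ := hcl
    let S : Finset V := Finset.univ.filter (fun v => σ v = l ∧ ∃ f ∈ D, v ∈ f)
    have hS : ∀ v, v ∈ S ↔ (σ v = l ∧ ∃ f ∈ D, v ∈ f) := by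
      intro v
      simp [S]
    have hScard : S.card ≤ D.card := by
      have hch : ∀ v ∈ S, ∃ f ∈ D, v ∈ f := fun v hv => ((hS v).1 hv).2
      have : Nonempty (Sym2 V) := ⟨e⟩
      choose! g hg1 hg2 using hch
      refine Finset.card_le_card_of_injOn g (fun v hv => hg1 v hv) ?_
      intro v hv w hw hvw
      have hv' : v ∈ S := hv
      have hw' : w ∈ S := hw
      by_contra hne
      have h1 := hg2 v hv'
      have h2 := hg2 w hw'
      rw [← hvw] at h2
      obtain ⟨-, a, b, hab, ha, hb⟩ := (hD _).1 (hg1 v hv')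
      rw [hab] at h1 h2
      have h4 := ((hS v).1 hv').1
      have h5 := ((hS w).1 hw').1
      have hne' : σ a ≠ σ b := by rw [ha, hb]; exact hij
      rcases Sym2.mem_iff.1 h1 with rfl | rfl <;> rcases Sym2.mem_iff.1 h2 with rfl | rfl
      · exact hne rfl
      · exact hne' (h4.trans h5.symm)
      · exact hne' (h5.trans h4.symm)
      · exact hne rfl
    obtain ⟨p, hp⟩ : ∃ p, p ∈ e := by
      induction e using Sym2.ind with
      | _ p q => exact ⟨p, Sym2.mem_mk_left _ _⟩
    have hpS : p ∉ S := by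
      intro h
      obtain ⟨-, f', hf', hpf'⟩ := (hS p).1 h
      refine hind _ he f' (hsub hf') ?_ p hp hpf'
      intro hh
      exact hne (hh ▸ hf')
    -- cut avoiding `S` and one more vertex is not needed: use the cut of `l`
    obtain ⟨o, ho⟩ : ∃ v, σ v ≠ l := by
      rcases hl with rfl | rfl
      · obtain ⟨v, hv⟩ := hj
        exact ⟨v, by rw [hv]; exact hij.symm⟩
      · obtain ⟨v, hv⟩ := hi
        exact ⟨v, by rw [hv]; exact hij⟩
    obtain ⟨x, y, hxy, hx, hy, hxS, hyS⟩ := H.cut S (by omega) {l}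
      ⟨p, by rw [hle' p hp]; exact Finset.mem_singleton_self _⟩
      ⟨o, by rw [Finset.mem_singleton]; exact ho⟩
    rw [Finset.mem_singleton] at hx hy
    have hnE : s(x, y) ∉ E := by
      intro hE
      apply hxS
      rw [hS]
      refine ⟨hx, s(x, y), (hD _).2 ⟨hE, ?_⟩, Sym2.mem_mk_left _ _⟩
      rcases hl with rfl | rfl
      · refine ⟨x, y, rfl, hx, ?_⟩
        rcases hσ y with h | h
        · exact absurd h hy
        · exact h
      · refine ⟨y, x, Sym2.eq_swap, ?_, hx⟩
        rcases hσ y with h | h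
        · exact h
        · exact absurd h hy
    rcases hl with rfl | rfl
    · refine ⟨x, y, hxy, hx, ?_, hnE⟩
      rcases hσ y with h | h
      · exact absurd h hy
      · exact h
    · refine ⟨y, x, hxy.symm, ?_, hx, by rw [Sym2.eq_swap]; exact hnE⟩
      rcases hσ y with h | h
      · exact h
      · exact absurd h hy

/-- two classes -/
theorem base_two [Fintype V] [Fintype ι] {E : Finset (Sym2 V)} {k : ℕ} {σ : V → ι}
    (H : Hyp G E k σ) (hE : ∀ e ∈ E, e ∈ G.edgeSet) (hind : Ind E) (hcard : E.card = k)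
    (hk : 5 ≤ k) {i j : ι} (hij : i ≠ j) (hσ : ∀ v, σ v = i ∨ σ v = j) (hi : ∃ v, σ v = i)
    (hj : ∃ v, σ v = j) : Good G E σ 8 := by
  classical
  obtain ⟨L, hnd, htyp0, hcov, hncr⟩ := base_list (G := G) σ E hE hind
  have htyp : Typ E ∅ L := fun B hB => Or.inr (htyp0 B hB)
  have hcov' : ∀ e ∈ E, ∃ C ∈ L, e ∈ C.p.edges := by
    intro e he
    obtain ⟨C, hC, h, -⟩ := hcov e he
    exact ⟨C, hC, h⟩
  have hiX : i ∈ ({i} : Finset ι) := Finset.mem_singleton_self _
  have hjX : j ∉ ({i} : Finset ι) := by rw [Finset.mem_singleton]; exact hij.symm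
  have hcut : ∀ S : Finset V, S.card < k → ∃ x y, G.Adj x y ∧ σ x = i ∧ σ y = j ∧ x ∉ S ∧
      y ∉ S := by
    intro S hS
    obtain ⟨x, y, h1, h2, h3, h4, h5⟩ := H.cut S hS {i}
      (by obtain ⟨v, hv⟩ := hi; exact ⟨v, by rw [hv]; exact hiX⟩)
      (by obtain ⟨v, hv⟩ := hj; exact ⟨v, by rw [hv]; exact hjX⟩)
    rw [Finset.mem_singleton] at h2 h3
    refine ⟨x, y, h1, h2, ?_, h4, h5⟩
    rcases hσ y with h | h
    · exact absurd h h3
    · exact h
  -- parity of the numbers of ends
  have hzero : ∀ x, x ≠ i → x ≠ j → cnt σ x L = 0 := by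
    intro x hxi hxj
    unfold cnt
    rw [List.sum_eq_zero_iff]
    intro y hy
    rw [List.mem_map] at hy
    obtain ⟨B, hB, rfl⟩ := hy
    have h1 : ∀ v, σ v ≠ x := by
      intro v
      rcases hσ v with h | h
      · rw [h]; exact hxi.symm
      · rw [h]; exact hxj.symm
    simp [h1]
  have hsumall : Even (cnt σ i L + cnt σ j L) := by
    have h1 := sum_cnt_add_cross σ {i, j} L
    have h2 : ncross σ {i, j} L = 0 := by
      apply ncross_eq_zero
      intro C _
      have h1 : ∀ v, σ v ∈ ({i, j} : Finset ι) := by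
        intro v
        rw [Finset.mem_insert, Finset.mem_singleton]
        exact hσ v
      exact ⟨fun _ => h1 _, fun _ => h1 _⟩
    rw [h2, Finset.sum_pair hij, Nat.zero_add] at h1
    exact h1
  -- connectedness for the sets not separating `i` and `j`
  have hC' : ∀ (M : List (Blk G)) (X : Finset ι), (i ∈ X ↔ j ∈ X) →
      (∀ B ∈ M, σ B.a ∈ X) ∨ (∀ B ∈ M, σ B.a ∉ X) := by
    intro M X hX
    by_cases hi' : i ∈ X
    · left
      intro B _
      rcases hσ B.a with h | h
      · rw [h]; exact hi'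
      · rw [h]; exact hX.1 hi'
    · right
      intro B _
      rcases hσ B.a with h | h
      · rw [h]; exact hi'
      · rw [h]; exact fun hh => hi' (hX.2 hh)
  -- a crossing path gives connectedness
  have hCcross : ∀ M : List (Blk G), (∃ C ∈ M, σ C.a ≠ σ C.b) → Cn σ M := by
    rintro M ⟨C, hC, hne⟩ X hX
    refine hC' M X ?_
    have h1 := hX C hC
    rcases hσ C.a with ha | ha <;> rcases hσ C.b with hb | hb
    · exact absurd (ha.trans hb.symm) hne
    · rwa [ha, hb] at h1
    · rw [ha, hb] at h1; exact h1.symm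
    · exact absurd (ha.trans hb.symm) hne
  rcases Nat.even_or_odd (cnt σ i L) with he | ho
  · -- even
    have hpar : ∀ x, Even (cnt σ x L) := by
      intro x
      by_cases hxi : x = i
      · rw [hxi]; exact he
      by_cases hxj : x = j
      · rw [hxj]
        rw [Nat.even_iff] at he hsumall ⊢
        omega
      rw [hzero x hxi hxj]
      exact Even.zero
    by_cases hCn : Cn σ L
    · exact ⟨L, ∅, hnd, htyp, hcov', hpar, hCn, by simp⟩
    -- no crossing path
    have hnc : ∀ C ∈ L, σ C.a = σ C.b := by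
      intro C hC
      by_contra hne
      exact hCn (hCcross L ⟨C, hC, hne⟩)
    have hncE : ∀ x y, σ x = i → σ y = j → s(x, y) ∉ E := by
      intro x y hx hy hxy
      obtain ⟨C, hC, -, h⟩ := hcov _ hxy
      have h1 := hnc C hC
      rcases Sym2.eq_iff.1 h with ⟨h2, h3⟩ | ⟨h2, h3⟩
      · rw [← h2, ← h3, hx, hy] at h1
        exact hij h1
      · rw [← h2, ← h3, hx, hy] at h1
        exact hij h1.symm
    obtain ⟨z, w, hzw, hz, hw, -, -⟩ := hcut ∅ (by simp; omega)
    -- second edge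
    let P : V → Finset V := fun v => Finset.univ.filter (fun u => s(v, u) ∈ E)
    have hP : ∀ v u, u ∈ P v ↔ s(v, u) ∈ E := by
      intro v u
      simp [P]
    have hPc : ∀ v, (P v).card ≤ 1 := by
      intro v
      rw [Finset.card_le_one]
      intro a ha b hb
      rw [hP] at ha hb
      by_contra hne
      have : s(v, a) = s(v, b) := by
        by_contra hh
        exact hind _ ha _ hb hh v (Sym2.mem_mk_left _ _) (Sym2.mem_mk_left _ _)
      rcases Sym2.eq_iff.1 this with ⟨-, h⟩ | ⟨h1, h2⟩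
      · exact hne h
      · exact hne (h2.trans h1)
    obtain ⟨z', w', hzw', hz', hw', hzS, hwS⟩ := hcut ({z, w} ∪ P z ∪ P w) (by
      have h1 := Finset.card_union_le ({z, w} ∪ P z) (P w)
      have h2 := Finset.card_union_le {z, w} (P z)
      have h3 : ({z, w} : Finset V).card ≤ 2 := Finset.card_le_two
      have h4 := hPc z
      have h5 := hPc w
      omega)
    simp only [Finset.mem_union, Finset.mem_insert, Finset.mem_singleton, hP, not_or] at hzS hwS
    rcases evenPair hnd htyp hpar (fun X hX _ => hC' L X hX) hCn (by simp) (by simp)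
      (by simp) (by simp) hzw hzw' (hncE _ _ hz hw) (hncE _ _ hz' hw') hz hw hz' hw'
      ⟨Ne.symm hzS.1.1.1, hzS.1.2⟩ ⟨Ne.symm hwS.1.1.1, hwS.1.2⟩ ⟨Ne.symm hzS.1.1.2, hzS.2⟩
      ⟨Ne.symm hwS.1.1.2, hwS.2⟩ with h | h | h
    · obtain ⟨L', S', g1, g2, g3, g4, g5, g6⟩ := h
      exact ⟨L', S', g1, g2, fun e he => g3 e (hcov' e he), g4, g5, by simpa using g6⟩
    · exfalso
      obtain ⟨U, -, h2, -, -⟩ := h.ex
      obtain ⟨C, hC, hzC⟩ := h.b1
      exact h2 C hC hzC (by rw [hnc C hC])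
    · exfalso
      obtain ⟨U, -, h2, -, -⟩ := h.ex
      obtain ⟨C, hC, hzC⟩ := h.b1
      exact h2 C hC hzC (by rw [hnc C hC])
  · -- odd
    have hoj : Odd (cnt σ j L) := by
      rw [Nat.odd_iff] at ho ⊢
      rw [Nat.even_iff] at hsumall
      omega
    -- the crossing prescribed edges
    have hD : ∀ e, e ∈ sepE σ {i} E ↔ (e ∈ E ∧ ∃ a b, e = s(a, b) ∧ σ a = i ∧ σ b = j) := by
      intro e
      rw [mem_sepE]
      constructor
      · rintro ⟨he, a, b, hab, ha, hb⟩
        rw [Finset.mem_singleton] at ha hb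
        refine ⟨he, a, b, hab, ha, ?_⟩
        rcases hσ b with h | h
        · exact absurd h hb
        · exact h
      · rintro ⟨he, a, b, hab, ha, hb⟩
        refine ⟨he, a, b, hab, ?_, ?_⟩
        · rw [Finset.mem_singleton]; exact ha
        · rw [Finset.mem_singleton, hb]; exact hij.symm
    have hodd : Odd (sepE σ {i} E).card := by
      rw [← hncr]
      have h1 := sum_cnt_add_cross σ {i} L
      rw [Finset.sum_singleton] at h1
      rw [Nat.odd_iff] at ho ⊢
      rw [Nat.even_iff] at h1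
      omega
    -- an edge which misses a crossing path
    obtain ⟨z, w, hzw, hz, hw, hnE, C, hC, hCne, hzC, hwC⟩ : ∃ z w, G.Adj z w ∧ σ z = i ∧
        σ w = j ∧ s(z, w) ∉ E ∧ ∃ C ∈ L, σ C.a ≠ σ C.b ∧ z ∉ C.supp ∧ w ∉ C.supp := by
      have hcr : ∀ C : Blk G, ¬ (σ C.a ∈ ({i} : Finset ι) ↔ σ C.b ∈ ({i} : Finset ι)) →
          σ C.a ≠ σ C.b := by
        intro C h hh
        exact h (by rw [hh])
      have hpos : ∀ M : List (Blk G), ncross σ {i} M ≠ 0 → ∃ C ∈ M, σ C.a ≠ σ C.b := by
        intro M hM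
        by_contra hh
        push Not at hh
        exact hM (ncross_eq_zero (fun C hC => by rw [hh C hC]))
      by_cases h1 : (sepE σ {i} E).card = 1
      · obtain ⟨C, hC, hne⟩ := hpos L (by rw [hncr, h1]; decide)
        obtain ⟨x, y, hxy, hx, hy, hxS, hyS⟩ := hcut {C.a, C.b}
          (lt_of_le_of_lt Finset.card_le_two (by omega))
        have hsC := htyp0 C hC
        have hxC : x ∉ C.supp := by
          rw [hsC.1]; simpa using hxS
        have hyC : y ∉ C.supp := by
          rw [hsC.1]; simpa using hyS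
        refine ⟨x, y, hxy, hx, hy, ?_, C, hC, hne, hxC, hyC⟩
        intro hE'
        obtain ⟨e, he⟩ := Finset.card_eq_one.1 h1
        have h2 : s(x, y) ∈ sepE σ {i} E := (hD _).2 ⟨hE', x, y, rfl, hx, hy⟩
        have h3 : s(C.a, C.b) ∈ sepE σ {i} E := by
          rw [mem_sepE]
          refine ⟨hsC.2, sep_mk.2 ?_⟩
          intro hh
          rw [Finset.mem_singleton, Finset.mem_singleton] at hh
          rcases hσ C.a with ha | ha <;> rcases hσ C.b with hb | hb
          · exact hne (ha.trans hb.symm)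
          · exact hij ((hh.1 ha).symm.trans hb)
          · exact hij ((hh.2 hb).symm.trans ha)
          · exact hne (ha.trans hb.symm)
        rw [he, Finset.mem_singleton] at h2 h3
        have h4 : x ∈ s(C.a, C.b) := by rw [h3, ← h2]; exact Sym2.mem_mk_left _ _
        apply hxC
        rw [hsC.1]
        rw [Sym2.mem_iff] at h4
        simpa using h4
      · obtain ⟨x, y, hxy, hx, hy, hnE⟩ := newCross2 H hind hcard hij hσ hi hj hD hodd
        obtain ⟨L1, hl1, hnd1, hm1⟩ := ncross_le_succ (σ := σ) hnd x {i}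
        obtain ⟨L2, hl2, hnd2, hm2⟩ := ncross_le_succ (σ := σ) hnd1 y {i}
        have h3 : 3 ≤ (sepE σ {i} E).card := by
          obtain ⟨r, hr⟩ := hodd
          omega
        rw [← hncr] at h3
        obtain ⟨C, hC, hne⟩ := hpos L2 (by omega)
        have hC2 := (hm2 C).1 hC
        have hC1 := (hm1 C).1 hC2.1
        exact ⟨x, y, hxy, hx, hy, hnE, C, hC1.1, hne, hC1.2, hC2.2⟩
    obtain ⟨B', L2, g, h, T, a1, a2, a3, a4, a5, a6, a7, -, -, -, -, -, -⟩ :=
      addEdge (σ := σ) hnd htyp (by simp) (by simp) hzw hnE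
    refine ⟨B' :: L2, T, a1, ?_, fun e he => a3 e (hcov' e he), ?_, ?_, by omega⟩
    · intro B hB
      rcases List.mem_cons.1 hB with rfl | hB
      · left
        intro v hv
        exact (a4 v).2 hv
      · exact Or.inr (htyp0 B ((a2 B).1 hB).1)
    · intro x
      have e1 := a7 x
      rw [hz, hw] at e1
      by_cases hxi : x = i
      · subst hxi
        rw [if_pos rfl, if_neg hij.symm] at e1
        rw [Nat.even_iff] at e1 ⊢
        rw [Nat.odd_iff] at ho
        omega
      by_cases hxj : x = j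
      · subst hxj
        rw [if_pos rfl, if_neg hij] at e1
        rw [Nat.even_iff] at e1 ⊢
        rw [Nat.odd_iff] at hoj
        omega
      rw [if_neg (Ne.symm hxi), if_neg (Ne.symm hxj), hzero x hxi hxj] at e1
      simpa using e1
    · exact hCcross _ ⟨C, List.mem_cons_of_mem _ ((a2 C).2 ⟨hC, hzC, hwC⟩), hCne⟩

end Pool.Agent.LWC
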