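import Pool.Agent.LWC.H5

set_option autoImplicit false

/-!
# The induction on the number of classes
-/

namespace Pool.Agent.LWC

open SimpleGraph

universe w

variable {V : Type w} {ι : Type} [DecidableEq ι] {G : SimpleGraph V}

/-- the partition in which the class `j` is merged into the class `i` -/
def mrg (i j : ι) (σ : V → ι) : V → ι := fun v => if σ v = j then i else σ v

theorem mrg_mem {i j : ι} {σ : V → ι} (X : Finset ι) (v : V) :
    mrg i j σ v ∈ X ↔ σ v ∈ (if i ∈ X then insert j X else X.erase j) := by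
  unfold mrg
  by_cases hi : i ∈ X
  · rw [if_pos hi]
    by_cases hv : σ v = j
    · simp [hv, hi]
    · simp [hv]
  · rw [if_neg hi]
    by_cases hv : σ v = j
    · simp [hv, hi]
    · simp [hv]

theorem mrg_mem' {i j : ι} {σ : V → ι} (X : Finset ι) (h : i ∈ X ↔ j ∈ X) (v : V) :
    mrg i j σ v ∈ X ↔ σ v ∈ X := by
  unfold mrg
  by_cases hv : σ v = j
  · rw [if_pos hv, hv]; exact h
  · rw [if_neg hv]

theorem Hyp.merge {E : Finset (Sym2 V)} {k : ℕ} {σ : V → ι} (H : Hyp G E k σ) (i j : ι) :
    Hyp G E k (mrg i j σ) := by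
  constructor
  · intro S hS X hu hv
    simp only [mrg_mem] at hu hv ⊢
    exact H.cut S hS _ hu hv
  · intro hk X hu hv
    simp only [mrg_mem] at hu hv ⊢
    exact H.cutE hk _ hu hv

theorem cnt_mrg {i j : ι} (hij : i ≠ j) {σ : V → ι} (L : List (Blk G)) :
    cnt (mrg i j σ) i L = cnt σ i L + cnt σ j L := by
  induction L with
  | nil => simp [cnt]
  | cons B L ih =>
    rw [cnt_cons, cnt_cons, cnt_cons, ih]
    have h : ∀ v, (if mrg i j σ v = i then 1 else 0) =
        (if σ v = i then 1 else 0) + (if σ v = j then 1 else 0) := by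
      intro v
      unfold mrg
      by_cases h1 : σ v = j
      · simp [h1, hij.symm]
      · simp [h1]
    rw [h, h]
    omega

theorem cnt_mrg' {i j : ι} {σ : V → ι} (L : List (Blk G)) {x : ι} (hi : x ≠ i)
    (hj : x ≠ j) : cnt (mrg i j σ) x L = cnt σ x L := by
  induction L with
  | nil => simp [cnt]
  | cons B L ih =>
    rw [cnt_cons, cnt_cons, ih]
    have h : ∀ v, (if mrg i j σ v = x then 1 else 0) = (if σ v = x then 1 else 0) := by
      intro v
      unfold mrg
      by_cases h1 : σ v = j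
      · simp [h1, hi.symm, hj.symm]
      · simp [h1]
    rw [h, h]

/-- greedy choice of candidates -/
theorem candidates [Fintype V] {E : Finset (Sym2 V)} (hind : Ind E) {S0 : Finset V} {N : ℕ}
    {Q : V → V → Prop} (hQ : ∀ S : Finset V, S.card ≤ N → ∃ z w, Q z w ∧ z ∉ S ∧ w ∉ S) :
    ∀ n : ℕ, S0.card + 4 * n ≤ N + 4 → ∃ z w : ℕ → V,
      (∀ l < n, Q (z l) (w l) ∧ z l ∉ S0 ∧ w l ∉ S0) ∧
      (∀ l l', l < n → l' < n → l ≠ l' → (z l ≠ z l' ∧ s(z l, z l') ∉ E) ∧
        (z l ≠ w l' ∧ s(z l, w l') ∉ E) ∧ (w l ≠ w l' ∧ s(w l, w l') ∉ E)) := by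
  classical
  let P : V → Finset V := fun v => Finset.univ.filter (fun u => s(v, u) ∈ E)
  have hP : ∀ v u, u ∈ P v ↔ s(v, u) ∈ E := by
    intro v u
    simp [P]
  have hPc : ∀ v, (P v).card ≤ 1 := by
    intro v
    rw [Finset.card_le_one]
    intro a ha b hb
    rw [hP] at ha hb
    by_contra hne
    have : s(v, a) = s(v, b) := by
      by_contra hh
      exact hind _ ha _ hb hh v (Sym2.mem_mk_left _ _) (Sym2.mem_mk_left _ _)
    rcases Sym2.eq_iff.1 this with ⟨-, h⟩ | ⟨h1, h2⟩
    · exact hne h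
    · exact hne (h2.trans h1)
  intro n
  induction n with
  | zero =>
    intro _
    obtain ⟨z, w, -, -, -⟩ := hQ ∅ (by simp)
    exact ⟨fun _ => z, fun _ => w, fun l hl => absurd hl (Nat.not_lt_zero l),
      fun l l' hl => absurd hl (Nat.not_lt_zero l)⟩
  | succ n ih =>
    intro hn
    obtain ⟨z, w, h1, h2⟩ := ih (by omega)
    let A : Finset V := S0 ∪ (Finset.range n).biUnion
      (fun l => ({z l, w l} ∪ P (z l)) ∪ P (w l))
    have hA : A.card ≤ S0.card + 4 * n := by
      have e1 := Finset.card_union_le S0 ((Finset.range n).biUnion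
        (fun l => ({z l, w l} ∪ P (z l)) ∪ P (w l)))
      have e2 : ((Finset.range n).biUnion (fun l => ({z l, w l} ∪ P (z l)) ∪ P (w l))).card ≤
          n * 4 := by
        have := Finset.card_biUnion_le_card_mul (Finset.range n)
          (fun l => ({z l, w l} ∪ P (z l)) ∪ P (w l)) 4 (by
            intro l _
            have f1 := Finset.card_union_le ({z l, w l} ∪ P (z l)) (P (w l))
            have f2 := Finset.card_union_le {z l, w l} (P (z l))
            have f3 : ({z l, w l} : Finset V).card ≤ 2 := Finset.card_le_two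
            have f4 := hPc (z l)
            have f5 := hPc (w l)
            omega)
        rwa [Finset.card_range] at this
      have e3 : A.card ≤ _ := e1
      omega
    obtain ⟨z', w', hq, hz', hw'⟩ := hQ A (by omega)
    have hzS : z' ∉ S0 := fun h => hz' (Finset.mem_union_left _ h)
    have hwS : w' ∉ S0 := fun h => hw' (Finset.mem_union_left _ h)
    have hzl : ∀ l < n, z' ≠ z l ∧ z' ≠ w l ∧ s(z l, z') ∉ E ∧ s(w l, z') ∉ E := by
      intro l hl
      have : z' ∉ ({z l, w l} ∪ P (z l)) ∪ P (w l) := fun h =>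
        hz' (Finset.mem_union_right _ (Finset.mem_biUnion.2 ⟨l, Finset.mem_range.2 hl, h⟩))
      simp only [Finset.mem_union, Finset.mem_insert, Finset.mem_singleton, hP, not_or] at this
      exact ⟨this.1.1.1, this.1.1.2, this.1.2, this.2⟩
    have hwl : ∀ l < n, w' ≠ z l ∧ w' ≠ w l ∧ s(z l, w') ∉ E ∧ s(w l, w') ∉ E := by
      intro l hl
      have : w' ∉ ({z l, w l} ∪ P (z l)) ∪ P (w l) := fun h =>
        hw' (Finset.mem_union_right _ (Finset.mem_biUnion.2 ⟨l, Finset.mem_range.2 hl, h⟩))
      simp only [Finset.mem_union, Finset.mem_insert, Finset.mem_singleton, hP, not_or] at this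
      exact ⟨this.1.1.1, this.1.1.2, this.1.2, this.2⟩
    refine ⟨Function.update z n z', Function.update w n w', ?_, ?_⟩
    · intro l hl
      by_cases hln : l = n
      · subst hln
        simp only [Function.update_self]
        exact ⟨hq, hzS, hwS⟩
      · simp only [Function.update_of_ne hln]
        exact h1 l (by omega)
    · intro l l' hl hl' hne
      by_cases hln : l = n
      · have hl'n : l' ≠ n := fun h => hne (hln.trans h.symm)
        subst hln
        simp only [Function.update_self, Function.update_of_ne hl'n]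
        have a1 := hzl l' (by omega)
        have a2 := hwl l' (by omega)
        refine ⟨⟨a1.1, ?_⟩, ⟨a1.2.1, ?_⟩, ⟨a2.2.1, ?_⟩⟩
        · rw [Sym2.eq_swap]; exact a1.2.2.1
        · rw [Sym2.eq_swap]; exact a1.2.2.2
        · rw [Sym2.eq_swap]; exact a2.2.2.2
      · by_cases hl'n : l' = n
        · subst hl'n
          simp only [Function.update_self, Function.update_of_ne hln]
          have a1 := hzl l (by omega)
          have a2 := hwl l (by omega)
          exact ⟨⟨a1.1.symm, a1.2.2.1⟩, ⟨a2.1.symm, a2.2.2.1⟩, ⟨a2.2.1.symm, a2.2.2.2⟩⟩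
        · simp only [Function.update_of_ne hln, Function.update_of_ne hl'n]
          exact h2 l l' (by omega) (by omega) hne

theorem mergeStep [Fintype V] [Fintype ι] {E : Finset (Sym2 V)} {σ : V → ι} (hind : Ind E)
    {i j : ι} (hij : i ≠ j) {I : Finset ι} (hI : ∀ v, σ v ∈ I) {m : ℕ} (hm : I.card ≤ m)
    (hm3 : 3 ≤ m) {N n0 : ℕ}
    (hpairs : ∀ S : Finset V, S.card ≤ N → ∃ z w, (G.Adj z w ∧ σ z = i ∧ σ w = j ∧
      s(z, w) ∉ E) ∧ z ∉ S ∧ w ∉ S) (hN : n0 + 4 * m ≤ N)
    (hgood : Good G E (mrg i j σ) n0) : Good G E σ (n0 + 8) := by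
  classical
  obtain ⟨L, S, hnd, htyp, hcov, hpar', hC1, hSc⟩ := hgood
  obtain ⟨z, w, hq, hfar⟩ := candidates hind (S0 := S) hpairs (m + 1) (by omega)
  -- parity outside `i`, `j`
  have hparx : ∀ x, x ≠ i → x ≠ j → Even (cnt σ x L) := by
    intro x hxi hxj
    have := hpar' x
    rwa [cnt_mrg' L hxi hxj] at this
  have hparij : Even (cnt σ i L + cnt σ j L) := by
    have := hpar' i
    rwa [cnt_mrg hij] at this
  have hC' : ∀ X : Finset ι, (i ∈ X ↔ j ∈ X) → (∀ B ∈ L, (σ B.a ∈ X ↔ σ B.b ∈ X)) →
      (∀ B ∈ L, σ B.a ∈ X) ∨ (∀ B ∈ L, σ B.a ∉ X) := by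
    intro X hX hB
    have := hC1 X (by
      intro B hB'
      rw [mrg_mem' X hX, mrg_mem' X hX]
      exact hB B hB')
    simpa only [mrg_mem' X hX] using this
  rcases Nat.even_or_odd (cnt σ i L) with he | ho
  · have hpar : ∀ x, Even (cnt σ x L) := by
      intro x
      by_cases hxi : x = i
      · rw [hxi]; exact he
      by_cases hxj : x = j
      · rw [hxj]
        rw [Nat.even_iff] at he hparij ⊢
        omega
      exact hparx x hxi hxj
    by_cases hCn : Cn σ L
    · exact ⟨L, S, hnd, htyp, hcov, hpar, hCn, by omega⟩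
    obtain ⟨L', S', g1, g2, g3, g4, g5, g6⟩ := evenMerge hnd htyp hpar hC' hCn
      (fun l : Fin 3 => z l) (fun l : Fin 3 => w l)
      (fun l => (hq l (by omega)).2.1) (fun l => (hq l (by omega)).2.2)
      (fun l => (hq l (by omega)).1.1) (fun l => (hq l (by omega)).1.2.2.2)
      (fun l => (hq l (by omega)).1.2.1) (fun l => (hq l (by omega)).1.2.2.1)
      ⟨fun l l' hne => (hfar l l' (by omega) (by omega) (fun h => hne (Fin.ext h))).1,
        fun l l' hne => (hfar l l' (by omega) (by omega) (fun h => hne (Fin.ext h))).2.1,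
        fun l l' hne => (hfar l l' (by omega) (by omega) (fun h => hne (Fin.ext h))).2.2⟩
    exact ⟨L', S', g1, g2, fun e he => g3 e (hcov e he), g4, g5, by omega⟩
  · have hoj : Odd (cnt σ j L) := by
      rw [Nat.odd_iff] at ho ⊢
      rw [Nat.even_iff] at hparij
      omega
    have hpar : ∀ x, Even (cnt σ x L + ((if x = i then 1 else 0) + (if x = j then 1 else 0))) := by
      intro x
      by_cases hxi : x = i
      · subst hxi
        rw [if_pos rfl, if_neg hij]
        rw [Nat.odd_iff] at ho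
        rw [Nat.even_iff]
        omega
      by_cases hxj : x = j
      · subst hxj
        rw [if_pos rfl, if_neg hij.symm]
        rw [Nat.odd_iff] at hoj
        rw [Nat.even_iff]
        omega
      rw [if_neg hxi, if_neg hxj]
      simpa using hparx x hxi hxj
    have hCn : Cn σ L := by
      intro X hX
      by_cases hsep : (i ∈ X ↔ j ∈ X)
      · exact hC' X hsep hX
      · exfalso
        have h1 := cut_parity hpar X
        rw [ncross_eq_zero hX, Nat.zero_add, Finset.sum_add_distrib,
          Finset.sum_ite_eq' X i, Finset.sum_ite_eq' X j] at h1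
        by_cases hi : i ∈ X
        · have hj : j ∉ X := fun h => hsep ⟨fun _ => h, fun _ => hi⟩
          rw [if_pos hi, if_neg hj] at h1
          exact absurd h1 (by decide)
        · have hj : j ∈ X := by
            by_contra hj
            exact hsep ⟨fun h => absurd h hi, fun h => absurd h hj⟩
          rw [if_neg hi, if_pos hj] at h1
          exact absurd h1 (by decide)
    obtain ⟨L', S', g1, g2, g3, g4, g5, g6⟩ := oddMerge hnd htyp hij hpar hCn hI hm
      (fun l : Fin (m + 1) => z l) (fun l : Fin (m + 1) => w l)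
      (fun l => (hq l l.2).2.1) (fun l => (hq l l.2).2.2)
      (fun l => (hq l l.2).1.1) (fun l => (hq l l.2).1.2.2.2)
      (fun l => (hq l l.2).1.2.1) (fun l => (hq l l.2).1.2.2.1)
      ⟨fun l l' hne => (hfar l l' l.2 l'.2 (fun h => hne (Fin.ext h))).1,
        fun l l' hne => (hfar l l' l.2 l'.2 (fun h => hne (Fin.ext h))).2.1,
        fun l l' hne => (hfar l l' l.2 l'.2 (fun h => hne (Fin.ext h))).2.2⟩
    exact ⟨L', S', g1, g2, fun e he => g3 e (hcov e he), g4, g5, by omega⟩

/-- existence of a pair of classes joined by many edges which are not prescribed -/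
theorem existsPair [Fintype V] {E : Finset (Sym2 V)} {k : ℕ} {σ : V → ι} (H : Hyp G E k σ)
    (hcard : E.card = k) {m : ℕ} (hm : (Finset.univ.image σ).card = m) (hm3 : 3 ≤ m)
    (hk : 12 * (m + 1) ^ 2 ≤ k) :
    ∃ i ∈ Finset.univ.image σ, ∃ j ∈ Finset.univ.image σ, i ≠ j ∧
      ∀ S : Finset V, S.card ≤ 12 * m - 16 → ∃ z w, (G.Adj z w ∧ σ z = i ∧ σ w = j ∧
        s(z, w) ∉ E) ∧ z ∉ S ∧ w ∉ S := by
  classical
  by_contra hno
  push Not at hno
  have hcov : ∀ i j, ∃ S : Finset V, i ∈ Finset.univ.image σ → j ∈ Finset.univ.image σ →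
      i ≠ j → (S.card ≤ 12 * m - 16 ∧ ∀ z w, (G.Adj z w ∧ σ z = i ∧ σ w = j ∧ s(z, w) ∉ E) →
        z ∉ S → w ∈ S) := by
    intro i j
    by_cases h : i ∈ Finset.univ.image σ ∧ j ∈ Finset.univ.image σ ∧ i ≠ j
    · obtain ⟨S, h1, h2⟩ := hno i h.1 j h.2.1 h.2.2
      exact ⟨S, fun _ _ _ => ⟨h1, h2⟩⟩
    · exact ⟨∅, fun a b c => absurd ⟨a, b, c⟩ h⟩
  choose Cov hCov using hcov
  let I : Finset ι := Finset.univ.image σ
  have hIσ : ∀ v, σ v ∈ I := fun v => Finset.mem_image_of_mem _ (Finset.mem_univ _)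
  let T : Finset V := Finset.univ.filter (fun v => ∃ e ∈ E, v ∈ e)
  have hT : T.card ≤ 2 * k := by
    have h1 : T ⊆ E.biUnion (fun e => Finset.univ.filter (fun v => v ∈ e)) := by
      intro v hv
      simp only [T, Finset.mem_filter, Finset.mem_univ, true_and] at hv
      obtain ⟨e, he, hve⟩ := hv
      exact Finset.mem_biUnion.2 ⟨e, he, by simpa using hve⟩
    have h2 := Finset.card_biUnion_le_card_mul E
      (fun e => Finset.univ.filter (fun v => v ∈ e)) 2 (by
        intro e _
        induction e using Sym2.ind with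
        | _ p q =>
          have : (Finset.univ.filter (fun v => v ∈ s(p, q))) ⊆ ({p, q} : Finset V) := by
            intro v hv
            simpa using hv
          exact (Finset.card_le_card this).trans Finset.card_le_two)
    have h3 := Finset.card_le_card h1
    rw [hcard] at h2
    omega
  have hkey : ∀ h ∈ I, k ≤ (m - 1) * (12 * m - 16) + (T.filter (fun v => σ v = h)).card := by
    intro h hh
    by_contra hlt
    push Not at hlt
    let S : Finset V := (I.erase h).biUnion (Cov h) ∪ T.filter (fun v => σ v = h)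
    have hS : S.card < k := by
      have e1 := Finset.card_union_le ((I.erase h).biUnion (Cov h)) (T.filter (fun v => σ v = h))
      have e2 := Finset.card_biUnion_le_card_mul (I.erase h) (Cov h) (12 * m - 16) (by
        intro j hj
        exact (hCov h j hh (Finset.mem_of_mem_erase hj) (Finset.ne_of_mem_erase hj).symm).1)
      have e3 : (I.erase h).card = m - 1 := by
        rw [Finset.card_erase_of_mem hh]
        have : I.card = m := hm
        rw [this]
      rw [e3] at e2
      have e4 : S.card ≤ _ := e1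
      omega
    obtain ⟨u, -, hu⟩ := Finset.mem_image.1 hh
    obtain ⟨j, hj⟩ : (I.erase h).Nonempty := by
      rw [← Finset.card_pos, Finset.card_erase_of_mem hh]
      have : I.card = m := hm
      omega
    obtain ⟨v, -, hv⟩ := Finset.mem_image.1 (Finset.mem_of_mem_erase hj)
    obtain ⟨x, y, hxy, hx, hy, hxS, hyS⟩ := H.cut S hS {h}
      ⟨u, by rw [hu]; exact Finset.mem_singleton_self _⟩
      ⟨v, by rw [hv, Finset.mem_singleton]; exact Finset.ne_of_mem_erase hj⟩
    rw [Finset.mem_singleton] at hx hy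
    have hnE : s(x, y) ∉ E := by
      intro hE
      apply hxS
      refine Finset.mem_union_right _ (Finset.mem_filter.2 ⟨?_, hx⟩)
      simp only [T, Finset.mem_filter, Finset.mem_univ, true_and]
      exact ⟨_, hE, Sym2.mem_mk_left _ _⟩
    have hyI : σ y ∈ I.erase h := Finset.mem_erase.2 ⟨hy, hIσ y⟩
    have h1 := (hCov h (σ y) hh (hIσ y) (Ne.symm hy)).2 x y ⟨hxy, hx, rfl, hnE⟩ (by
      intro hx'
      exact hxS (Finset.mem_union_left _ (Finset.mem_biUnion.2 ⟨σ y, hyI, hx'⟩)))
    exact hyS (Finset.mem_union_left _ (Finset.mem_biUnion.2 ⟨σ y, hyI, h1⟩))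
  have hsum : ∑ h ∈ I, (T.filter (fun v => σ v = h)).card = T.card :=
    (Finset.card_eq_sum_card_fiberwise (fun v _ => hIσ v)).symm
  have h1 : ∑ _h ∈ I, k ≤ ∑ h ∈ I, ((m - 1) * (12 * m - 16) +
      (T.filter (fun v => σ v = h)).card) := Finset.sum_le_sum hkey
  rw [Finset.sum_add_distrib, hsum, Finset.sum_const, Finset.sum_const, smul_eq_mul,
    smul_eq_mul] at h1
  have hIm : I.card = m := hm
  rw [hIm] at h1
  obtain ⟨t, rfl⟩ : ∃ t, m = t + 3 := ⟨m - 3, by omega⟩
  have e1 : t + 3 - 1 = t + 2 := by omega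
  have e2 : 12 * (t + 3) - 16 = 12 * t + 20 := by omega
  rw [e1, e2] at h1
  have h2 : (t + 1) * k ≤ (t + 3) * ((t + 2) * (12 * t + 20)) := by nlinarith
  have h3 : (t + 1) * (12 * (t + 3 + 1) ^ 2) ≤ (t + 1) * k := Nat.mul_le_mul_left _ hk
  nlinarith

theorem goodAll [Fintype V] [Fintype ι] {E : Finset (Sym2 V)} {k : ℕ}
    (hE : ∀ e ∈ E, e ∈ G.edgeSet) (hind : Ind E) (hcard : E.card = k) :
    ∀ m : ℕ, 1 ≤ m → ∀ σ : V → ι, (Finset.univ.image σ).card ≤ m → Hyp G E k σ →
      12 * (m + 1) ^ 2 ≤ k → Good G E σ (8 * (m - 1)) := by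
  classical
  intro m
  induction m with
  | zero => intro h; omega
  | succ m ih =>
    intro _ σ hσ H hk
    have hIσ : ∀ v, σ v ∈ Finset.univ.image σ :=
      fun v => Finset.mem_image_of_mem _ (Finset.mem_univ _)
    by_cases h1 : (Finset.univ.image σ).card ≤ 1
    · refine good_mono (base_one hE hind ?_) (Nat.zero_le _)
      intro u v
      exact Finset.card_le_one.1 h1 _ (hIσ u) _ (hIσ v)
    by_cases h2 : (Finset.univ.image σ).card = 2
    · obtain ⟨i, j, hij, himg⟩ := Finset.card_eq_two.1 h2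
      have hi : ∃ v, σ v = i := by
        have : i ∈ Finset.univ.image σ := by rw [himg]; simp
        obtain ⟨v, -, hv⟩ := Finset.mem_image.1 this
        exact ⟨v, hv⟩
      have hj : ∃ v, σ v = j := by
        have : j ∈ Finset.univ.image σ := by rw [himg]; simp
        obtain ⟨v, -, hv⟩ := Finset.mem_image.1 this
        exact ⟨v, hv⟩
      have hk5 : 5 ≤ k := by nlinarith
      refine good_mono (base_two H hE hind hcard hk5 hij ?_ hi hj) (by omega)
      intro v
      have := hIσ v
      rw [himg] at this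
      simpa using this
    by_cases h3 : (Finset.univ.image σ).card ≤ m
    · refine good_mono (ih (by omega) σ h3 H (le_trans ?_ hk)) (by omega)
      nlinarith
    have hcardm : (Finset.univ.image σ).card = m + 1 := by omega
    obtain ⟨i, hi, j, hj, hij, hpairs⟩ := existsPair H hcard hcardm (by omega) hk
    have himg : (Finset.univ.image (mrg i j σ)).card ≤ m := by
      have hsub : Finset.univ.image (mrg i j σ) ⊆ (Finset.univ.image σ).erase j := by
        intro x hx
        obtain ⟨v, -, rfl⟩ := Finset.mem_image.1 hx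
        unfold mrg
        by_cases hv : σ v = j
        · rw [if_pos hv]
          exact Finset.mem_erase.2 ⟨hij, hi⟩
        · rw [if_neg hv]
          exact Finset.mem_erase.2 ⟨hv, hIσ v⟩
      have := Finset.card_le_card hsub
      rw [Finset.card_erase_of_mem hj] at this
      omega
    have hg := ih (by omega) (mrg i j σ) himg (H.merge i j) (le_trans (by nlinarith) hk)
    have := mergeStep hind hij hIσ (m := m + 1) (by omega) (by omega) hpairs
      (n0 := 8 * (m - 1)) (by omega) hg
    exact good_mono this (by omega)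

/-- from a good system to a cycle -/
theorem good_hasCyc [Fintype ι] {E : Finset (Sym2 V)} {σ : V → ι}
    (hG : ∀ a b, a ≠ b → σ a = σ b → G.Adj a b) (hk : 2 ≤ E.card) {n : ℕ}
    (h : Good G E σ n) : HasCyc G E := by
  obtain ⟨L, S, hnd, -, hcov, hpar, hC, -⟩ := h
  have hL : L ≠ [] := by
    rintro rfl
    obtain ⟨e, he⟩ := Finset.card_pos.1 (by omega : 0 < E.card)
    obtain ⟨C, hC, -⟩ := hcov e he
    simp at hC
  obtain ⟨n, hn⟩ : ∃ n, L.length = n + 1 := by
    cases L with
    | nil => exact absurd rfl hL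
    | cons B L => exact ⟨L.length, rfl⟩
  obtain ⟨Q, hQ1, hQ2⟩ := euler hG n L hn hnd hpar hC
  have hEQ : ∀ e ∈ E, e ∈ Q.p.edges := by
    intro e he
    obtain ⟨C, hC, heC⟩ := hcov e he
    exact hQ2 C hC e heC
  have hlen := two_le Q.p hk hEQ
  have hne : Q.b ≠ Q.a := by
    intro hh
    have hP : PT G Q.a Q.b Set.univ (E : Set (Sym2 V)) :=
      ⟨Q.p, Q.hp, fun _ _ => trivial, hEQ⟩
    exact hP.ne hk (fun e he => he) hh.symm
  exact hasCyc_of_close Q.p Q.hp (hG _ _ hne hQ1.symm) hk hEQ

end Pool.Agent.LWC
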