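import Pool.Agent.LWC.H7

set_option autoImplicit false

/-!
# Dense graphs: the clique partition of the closure
-/

namespace Pool.Agent.LWC

open SimpleGraph

/-- In a closed graph with large minimum degree the vertex set is partitioned into few large
cliques. -/
theorem partition {V : Type} [Fintype V] [DecidableEq V] {G : SimpleGraph V} {k m : ℕ}
    (hk : 1 ≤ k)
    (hcl : ∀ u v, u ≠ v → ¬ G.Adj u v → (G.commonNeighbors u v).ncard < k)
    (hind : ∀ I : Finset V, (∀ x ∈ I, ∀ y ∈ I, x ≠ y → ¬ G.Adj x y) → I.card ≤ m)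
    (hdeg : ∀ v, (m + 1) ^ 2 * k ≤ (G.neighborSet v).ncard) :
    ∃ σ : V → V, (∀ a b, a ≠ b → σ a = σ b → G.Adj a b) ∧
      (Finset.univ.image σ).card ≤ m ∧
      (∀ v, k ≤ (Finset.univ.filter (fun u => σ u = σ v)).card) := by
  classical
  let N : V → Finset V := fun x => Finset.univ.filter (fun w => G.Adj x w)
  have hNm : ∀ x w, w ∈ N x ↔ G.Adj x w := by
    intro x w
    simp [N]
  have hN : ∀ x, (G.neighborSet x).ncard = (N x).card := by
    intro x
    rw [← Set.ncard_coe_finset]
    congr 1
    ext w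
    simp [N]
  have hC : ∀ x y, (G.commonNeighbors x y).ncard = (N x ∩ N y).card := by
    intro x y
    rw [← Set.ncard_coe_finset]
    congr 1
    ext w
    simp [N, mem_commonNeighbors]
  -- a maximum independent set
  let F : Finset (Finset V) := Finset.univ.filter
    (fun I => ∀ x ∈ I, ∀ y ∈ I, x ≠ y → ¬ G.Adj x y)
  have hF : ∀ I, I ∈ F ↔ ∀ x ∈ I, ∀ y ∈ I, x ≠ y → ¬ G.Adj x y := by
    intro I
    simp [F]
  obtain ⟨I, hI, hmax⟩ := Finset.exists_max_image F Finset.card ⟨∅, by rw [hF]; simp⟩
  rw [hF] at hI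
  have hIm : I.card ≤ m := hind I hI
  -- the private neighbourhoods
  let P : V → Finset V := fun x => Finset.univ.filter
    (fun v => v = x ∨ (G.Adj v x ∧ ∀ y ∈ I, y ≠ x → ¬ G.Adj v y))
  have hP : ∀ x v, v ∈ P x ↔ (v = x ∨ (G.Adj v x ∧ ∀ y ∈ I, y ≠ x → ¬ G.Adj v y)) := by
    intro x v
    simp [P]
  have hPcl : ∀ x ∈ I, ∀ p ∈ P x, ∀ q ∈ P x, p ≠ q → G.Adj p q := by
    intro x hx p hp q hq hpq
    rw [hP] at hp hq
    rcases hp with rfl | ⟨hpx, hp⟩
    · rcases hq with rfl | ⟨hqx, -⟩
      · exact absurd rfl hpq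
      · exact hqx.symm
    · rcases hq with rfl | ⟨hqx, hq⟩
      · exact hpx
      · by_contra hnadj
        have hpI : p ∉ I := fun h => hI p h x hx hpx.ne hpx
        have hqI : q ∉ I := fun h => hI q h x hx hqx.ne hqx
        have hnew : insert p (insert q (I.erase x)) ∈ F := by
          rw [hF]
          intro a ha b hb hab
          rw [Finset.mem_insert, Finset.mem_insert, Finset.mem_erase] at ha hb
          rcases ha with rfl | rfl | ⟨hax, haI⟩
          · rcases hb with rfl | rfl | ⟨hbx, hbI⟩
            · exact absurd rfl hab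
            · exact hnadj
            · exact hp b hbI hbx
          · rcases hb with rfl | rfl | ⟨hbx, hbI⟩
            · exact fun h => hnadj h.symm
            · exact absurd rfl hab
            · exact hq b hbI hbx
          · rcases hb with rfl | rfl | ⟨hbx, hbI⟩
            · exact fun h => hp a haI hax h.symm
            · exact fun h => hq a haI hax h.symm
            · exact hI a haI b hbI hab
        have h1 := hmax _ hnew
        rw [Finset.card_insert_of_notMem, Finset.card_insert_of_notMem,
          Finset.card_erase_of_mem hx] at h1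
        · have : 1 ≤ I.card := Finset.card_pos.2 ⟨x, hx⟩
          omega
        · exact fun h => hqI (Finset.mem_of_mem_erase h)
        · rw [Finset.mem_insert]
          rintro (h | h)
          · exact hpq h
          · exact hpI (Finset.mem_of_mem_erase h)
  -- the vertices with two neighbours in `I`
  let Q : Finset V := I.biUnion (fun x => (I.erase x).biUnion (fun y => N x ∩ N y))
  have hQc : Q.card ≤ m * (m * k) := by
    have h1 : Q.card ≤ I.card * (m * k) := by
      refine Finset.card_biUnion_le_card_mul _ _ _ ?_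
      intro x hx
      have h2 : ((I.erase x).biUnion (fun y => N x ∩ N y)).card ≤ (I.erase x).card * k := by
        refine Finset.card_biUnion_le_card_mul _ _ _ ?_
        intro y hy
        rw [← hC]
        have hxy : x ≠ y := (Finset.ne_of_mem_erase hy).symm
        exact (hcl x y hxy (hI x hx y (Finset.mem_of_mem_erase hy) hxy)).le
      have h3 : (I.erase x).card ≤ m := (Finset.card_le_card (Finset.erase_subset _ _)).trans hIm
      exact h2.trans (Nat.mul_le_mul_right _ h3)
    exact h1.trans (Nat.mul_le_mul_right _ hIm)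
  have hcov : ∀ v, v ∈ I.biUnion P ∪ Q := by
    intro v
    rw [Finset.mem_union, Finset.mem_biUnion]
    by_cases hv : v ∈ I
    · left
      exact ⟨v, hv, (hP v v).2 (Or.inl rfl)⟩
    -- a neighbour in `I`
    have hex : ∃ x ∈ I, G.Adj v x := by
      by_contra hno
      push Not at hno
      have hnew : insert v I ∈ F := by
        rw [hF]
        intro a ha b hb hab
        rw [Finset.mem_insert] at ha hb
        rcases ha with rfl | ha
        · rcases hb with rfl | hb
          · exact absurd rfl hab
          · exact hno b hb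
        · rcases hb with rfl | hb
          · exact fun h => hno a ha h.symm
          · exact hI a ha b hb hab
      have h1 := hmax _ hnew
      rw [Finset.card_insert_of_notMem hv] at h1
      omega
    obtain ⟨x, hx, hvx⟩ := hex
    by_cases hone : ∀ y ∈ I, y ≠ x → ¬ G.Adj v y
    · left
      exact ⟨x, hx, (hP x v).2 (Or.inr ⟨hvx, hone⟩)⟩
    · right
      push Not at hone
      obtain ⟨y, hy, hyx, hvy⟩ := hone
      refine Finset.mem_biUnion.2 ⟨x, hx, Finset.mem_biUnion.2 ⟨y, Finset.mem_erase.2 ⟨hyx, hy⟩,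
        ?_⟩⟩
      rw [Finset.mem_inter, hNm, hNm]
      exact ⟨hvx.symm, hvy.symm⟩
  have hPbig : ∀ x ∈ I, k ≤ (P x).card := by
    intro x hx
    have hsub : N x ⊆ P x ∪ (I.erase x).biUnion (fun y => N x ∩ N y) := by
      intro v hv
      rw [hNm] at hv
      rw [Finset.mem_union]
      by_cases hone : ∀ y ∈ I, y ≠ x → ¬ G.Adj v y
      · left
        exact (hP x v).2 (Or.inr ⟨hv.symm, hone⟩)
      · right
        push Not at hone
        obtain ⟨y, hy, hyx, hvy⟩ := hone
        refine Finset.mem_biUnion.2 ⟨y, Finset.mem_erase.2 ⟨hyx, hy⟩, ?_⟩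
        rw [Finset.mem_inter, hNm, hNm]
        exact ⟨hv, hvy.symm⟩
    have h1 := Finset.card_le_card hsub
    have h2 := Finset.card_union_le (P x) ((I.erase x).biUnion (fun y => N x ∩ N y))
    have h3 : ((I.erase x).biUnion (fun y => N x ∩ N y)).card ≤ (I.erase x).card * k := by
      refine Finset.card_biUnion_le_card_mul _ _ _ ?_
      intro y hy
      rw [← hC]
      have hxy : x ≠ y := (Finset.ne_of_mem_erase hy).symm
      exact (hcl x y hxy (hI x hx y (Finset.mem_of_mem_erase hy) hxy)).le
    have h4 : (I.erase x).card ≤ m := (Finset.card_le_card (Finset.erase_subset _ _)).trans hIm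
    have h5 := Nat.mul_le_mul_right k h4
    have h6 := hdeg x
    rw [hN] at h6
    have h7 : (m + 1) ^ 2 * k = m * m * k + 2 * (m * k) + k := by ring
    have h8 : 0 ≤ m * m * k := Nat.zero_le _
    omega
  -- every vertex is complete to some private neighbourhood
  have hcomp : ∀ v, ∃ x ∈ I, ∀ p ∈ P x, p ≠ v → G.Adj v p := by
    intro v
    have hbig : ∃ x ∈ I, k ≤ (N v ∩ P x).card := by
      by_contra hno
      push Not at hno
      have hsub : N v ⊆ I.biUnion (fun x => N v ∩ P x) ∪ Q := by
        intro u hu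
        rw [Finset.mem_union, Finset.mem_biUnion]
        rcases Finset.mem_union.1 (hcov u) with h | h
        · left
          obtain ⟨x, hx, hux⟩ := Finset.mem_biUnion.1 h
          exact ⟨x, hx, Finset.mem_inter.2 ⟨hu, hux⟩⟩
        · exact Or.inr h
      have h1 := Finset.card_le_card hsub
      have h2 := Finset.card_union_le (I.biUnion (fun x => N v ∩ P x)) Q
      have h3 : (I.biUnion (fun x => N v ∩ P x)).card ≤ I.card * k := by
        refine Finset.card_biUnion_le_card_mul _ _ _ ?_
        intro x hx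
        exact (hno x hx).le
      have h4 := Nat.mul_le_mul_right k hIm
      have h5 := hdeg v
      rw [hN] at h5
      have h7 : (m + 1) ^ 2 * k = m * (m * k) + 2 * (m * k) + k := by ring
      omega
    obtain ⟨x, hx, hbig⟩ := hbig
    refine ⟨x, hx, ?_⟩
    intro p hp hpv
    by_contra hnadj
    have h1 := hcl v p hpv.symm hnadj
    rw [hC] at h1
    have hsub : N v ∩ P x ⊆ N v ∩ N p := by
      intro u hu
      rw [Finset.mem_inter] at hu ⊢
      refine ⟨hu.1, ?_⟩
      rw [hNm]
      refine hPcl x hx p hp u hu.2 ?_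
      rintro rfl
      exact hnadj ((hNm _ _).1 hu.1)
    have h2 := Finset.card_le_card hsub
    omega
  choose σ hσI hσ using hcomp
  have hσP : ∀ x ∈ I, ∀ p ∈ P x, σ p = x := by
    intro x hx p hp
    by_contra hne
    have h1 : σ p ∈ P (σ p) := (hP _ _).2 (Or.inl rfl)
    by_cases hpx : p = σ p
    · -- then `p ∈ I` and `p ∈ P x` with `p ≠ x`
      have hpI : p ∈ I := by rw [hpx]; exact hσI p
      rcases (hP x p).1 hp with h | ⟨h, -⟩
      · exact hne (by rw [← hpx, h])
      · exact hI p hpI x hx h.ne h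
    · have h2 := hσ p (σ p) h1 (Ne.symm hpx)
      rcases (hP x p).1 hp with h | ⟨-, h⟩
      · rw [h] at h2
        exact hI x hx (σ x) (hσI x) h2.ne h2
      · exact h (σ p) (hσI p) hne h2
  refine ⟨σ, ?_, ?_, ?_⟩
  · intro a b hab hs
    by_cases ha : a ∈ P (σ a)
    · have := hσ b a (by rw [← hs]; exact ha) hab
      exact this.symm
    by_cases hb : b ∈ P (σ a)
    · exact hσ a b hb hab.symm
    by_contra hnadj
    have h1 := hcl a b hab hnadj
    rw [hC] at h1
    have hsub : P (σ a) ⊆ N a ∩ N b := by
      intro u hu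
      rw [Finset.mem_inter, hNm, hNm]
      refine ⟨hσ a u hu ?_, hσ b u (by rw [← hs]; exact hu) ?_⟩
      · rintro rfl
        exact ha hu
      · rintro rfl
        exact hb hu
    have h2 := Finset.card_le_card hsub
    have h3 := hPbig (σ a) (hσI a)
    omega
  · refine (Finset.card_le_card ?_).trans hIm
    intro x hx
    obtain ⟨v, -, rfl⟩ := Finset.mem_image.1 hx
    exact hσI v
  · intro v
    refine (hPbig (σ v) (hσI v)).trans (Finset.card_le_card ?_)
    intro p hp
    rw [Finset.mem_filter]
    exact ⟨Finset.mem_univ _, hσP (σ v) (hσI v) p hp⟩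

theorem denseMain {V : Type} [Fintype V] {k m : ℕ} (hm : 1 ≤ m) (hk : 12 * (m + 1) ^ 2 ≤ k)
    {E : Finset (Sym2 V)} (hE : E.card = k) (hind : Ind E) (G : SimpleGraph V) :
    (∀ S : Finset V, S.card < k → (G.induce ((S : Set V)ᶜ)).Connected) →
    (∀ v, Fintype.card V + (m + 1) ^ 3 * k ≤ (m + 1) * (G.neighborSet v).ncard) →
    (∀ e ∈ E, e ∈ G.edgeSet) → ¬ HasCyc G E →
    Odd k ∧ ¬ (G.deleteEdges (E : Set (Sym2 V))).Connected := by
  classical
  induction G using WellFoundedGT.induction with
  | _ G ih =>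
  intro hconn hdeg hEG hno
  have hk2 : 2 ≤ k := by nlinarith
  by_cases hcl : ∀ u v, u ≠ v → ¬ G.Adj u v → (G.commonNeighbors u v).ncard < k
  · have hdeg' : ∀ v, (m + 1) ^ 2 * k ≤ (G.neighborSet v).ncard := by
      intro v
      have h1 := hdeg v
      have h2 : (m + 1) * ((m + 1) ^ 2 * k) ≤ (m + 1) * (G.neighborSet v).ncard := by
        calc (m + 1) * ((m + 1) ^ 2 * k) = (m + 1) ^ 3 * k := by ring
          _ ≤ _ := by omega
      exact Nat.le_of_mul_le_mul_left h2 (by omega)
    obtain ⟨σ, h1, h2, h3⟩ := partition (by omega) hcl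
      (fun I hI => indep_small hcl hdeg I hI) hdeg'
    exact manyCliques hm hk h1 h2 hconn h3 hEG hE hind hno
  · push Not at hcl
    obtain ⟨u, v, huv, hnadj, hc⟩ := hcl
    have hle : G ≤ G ⊔ edge u v := le_sup_left
    have hlt : G < G ⊔ edge u v := by
      refine lt_of_le_of_ne hle ?_
      intro h
      apply hnadj
      rw [h]
      rw [sup_adj]
      right
      rw [edge_adj]
      exact ⟨Or.inl ⟨rfl, rfl⟩, huv⟩
    have hstep : Step k G (G ⊔ edge u v) := ⟨u, v, hc, rfl⟩
    obtain ⟨h1, h2⟩ := ih _ hlt (conn_mono hle hconn)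
      (fun w => (hdeg w).trans (Nat.mul_le_mul_left _
        (Set.ncard_le_ncard (fun t ht => hle ht) (Set.toFinite _))))
      (fun e he => edgeSet_mono hle (hEG e he)) (fun hh => hno (hstep.hasCyc hk2 hE hEG hh))
    exact ⟨h1, del_mono hle _ h2⟩

end Pool.Agent.LWC
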