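import Pool.Agent.LWC.F

set_option autoImplicit false

/-!
# Completing a `k`-linked part: combinatorics of shortest paths
-/

namespace Pool.Agent.LWC

open SimpleGraph

universe w

variable {V : Type w}

/-- `G[A]` is `k`-linked. -/
def Linked (G : SimpleGraph V) (A : Set V) (k : ℕ) : Prop :=
  2 * k ≤ A.ncard ∧ ∀ s t : Fin k → V, (∀ i, s i ∈ A ∧ t i ∈ A) → Function.Injective s →
    Function.Injective t → (∀ i j, s i ≠ t j) →
    ∃ P : ∀ i, G.Walk (s i) (t i), (∀ i, (P i).IsPath) ∧ (∀ i, ∀ v ∈ (P i).support, v ∈ A) ∧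
      ∀ i j, i ≠ j → ∀ v ∈ (P i).support, v ∉ (P j).support

/-- the list of all ends of a list of pairs -/
def fl (M : List (V × V)) : List V := M.flatMap (fun m => [m.1, m.2])

theorem fl_cons (m : V × V) (M : List (V × V)) : fl (m :: M) = m.1 :: m.2 :: fl M := by
  simp [fl]

theorem mem_fl {M : List (V × V)} {v : V} : v ∈ fl M ↔ ∃ m ∈ M, v = m.1 ∨ v = m.2 := by
  simp [fl]

theorem length_fl (M : List (V × V)) : (fl M).length = 2 * M.length := by
  induction M with
  | nil => rfl
  | cons m M ih => rw [fl_cons, List.length_cons, List.length_cons, ih, List.length_cons]; ring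

/-- extending a list of disjoint pairs to a perfect matching -/
theorem extendPairs [DecidableEq V] {Y : Finset V} {k : ℕ} (hY : Y.card = 2 * k) :
    ∀ (n : ℕ) (M : List (V × V)), M.length + n = k → (fl M).Nodup → (∀ v ∈ fl M, v ∈ Y) →
      ∃ M' : List (V × V), M'.length = k ∧ (fl M').Nodup ∧ (∀ v ∈ fl M', v ∈ Y) ∧
        ∀ m ∈ M, m ∈ M' := by
  intro n
  induction n with
  | zero => intro M hl hn hv; exact ⟨M, by omega, hn, hv, fun m hm => hm⟩
  | succ n ih =>
    intro M hl hn hv
    have h1 : (fl M).toFinset ⊆ Y := fun v h => hv v (List.mem_toFinset.1 h)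
    have h2 : (fl M).toFinset.card = 2 * M.length := by
      rw [List.toFinset_card_of_nodup hn, length_fl]
    have h3 : 1 < (Y \ (fl M).toFinset).card := by
      rw [Finset.card_sdiff_of_subset h1, h2, hY]
      omega
    obtain ⟨x, hx, y, hy, hxy⟩ := Finset.one_lt_card.1 h3
    rw [Finset.mem_sdiff, List.mem_toFinset] at hx hy
    obtain ⟨M', h4, h5, h6, h7⟩ := ih ((x, y) :: M) (by rw [List.length_cons]; omega)
      (by
        rw [fl_cons, List.nodup_cons, List.nodup_cons]
        refine ⟨?_, hy.2, hn⟩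
        intro h
        rcases List.mem_cons.1 h with h | h
        · exact hxy h
        · exact hx.2 h)
      (by
        intro v h
        rw [fl_cons] at h
        rcases List.mem_cons.1 h with h | h
        · rw [h]; exact hx.1
        · rcases List.mem_cons.1 h with h | h
          · rw [h]; exact hy.1
          · exact hv v h)
    exact ⟨M', h4, h5, h6, fun m hm => h7 m (List.mem_cons_of_mem _ hm)⟩

/-- the pairs of `M` can be linked inside `A` by disjoint paths of `G`, and these paths avoid all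
other vertices of `X ∩ A` if `|X ∩ A| ≤ 2 k` -/
theorem linkPairs {G : SimpleGraph V} {A : Set V} {k : ℕ} (hA : Linked G A k)
    (hfin : A.Finite) {X : Set V} (hX : (X ∩ A).ncard ≤ 2 * k) {M : List (V × V)}
    (hM1 : (fl M).Nodup) (hM2 : ∀ v ∈ fl M, v ∈ X ∩ A) :
    ∃ R : V × V → Set V, (∀ m ∈ M, ∃ p : G.Walk m.1 m.2, p.IsPath ∧ ∀ v ∈ p.support, v ∈ R m) ∧
      (∀ m m', m ≠ m' → ∀ v, v ∈ R m → v ∉ R m') ∧
      (∀ m, ∀ v ∈ R m, v ∈ X → v = m.1 ∨ v = m.2) := by
  classical
  obtain ⟨hA1, hA2⟩ := hA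
  have hXfin : (X ∩ A).Finite := hfin.subset Set.inter_subset_right
  rw [Set.ncard_eq_toFinset_card _ hXfin] at hX
  rw [Set.ncard_eq_toFinset_card _ hfin] at hA1
  have hsub : hXfin.toFinset ⊆ hfin.toFinset := by
    intro x hx
    rw [Set.Finite.mem_toFinset] at hx ⊢
    exact hx.2
  obtain ⟨Y, hY1, hY2, hY3⟩ := Finset.exists_subsuperset_card_eq hsub hX hA1
  have hlen : M.length ≤ k := by
    have h1 : (fl M).toFinset ⊆ Y := by
      intro v h
      exact hY1 (by rw [Set.Finite.mem_toFinset]; exact hM2 v (List.mem_toFinset.1 h))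
    have h2 := Finset.card_le_card h1
    rw [List.toFinset_card_of_nodup hM1, length_fl] at h2
    omega
  obtain ⟨M', h1, h2, h3, h4⟩ := extendPairs hY3 (k - M.length) M (by omega) hM1
    (fun v hv => hY1 (by rw [Set.Finite.mem_toFinset]; exact hM2 v hv))
  -- `M'` covers `Y`
  have hcov : ∀ v ∈ Y, v ∈ fl M' := by
    intro v hv
    have h5 : (fl M').toFinset ⊆ Y := fun v h => h3 v (List.mem_toFinset.1 h)
    have h6 : (fl M').toFinset = Y := by
      apply Finset.eq_of_subset_of_card_le h5
      rw [List.toFinset_card_of_nodup h2, length_fl, hY3, h1]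
    rw [← h6] at hv
    exact List.mem_toFinset.1 hv
  -- injectivity
  have hinj : ∀ (N : List (V × V)), (fl N).Nodup → ∀ i j : ℕ, ∀ (hi : i < N.length)
      (hj : j < N.length), (N[i].1 = N[j].1 → i = j) ∧ (N[i].2 = N[j].2 → i = j) ∧
        N[i].1 ≠ N[j].2 := by
    intro N
    induction N with
    | nil => intro _ i j hi; simp at hi
    | cons m N ih =>
      intro hnd i j hi hj
      rw [fl_cons, List.nodup_cons, List.nodup_cons] at hnd
      obtain ⟨g1, g2, g3⟩ := hnd
      have g1' : m.1 ≠ m.2 ∧ m.1 ∉ fl N := by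
        constructor
        · intro h; exact g1 (by rw [h]; exact List.mem_cons_self)
        · intro h; exact g1 (List.mem_cons_of_mem _ h)
      have hm : ∀ (i : ℕ) (hi : i < N.length), N[i].1 ∈ fl N ∧ N[i].2 ∈ fl N := by
        intro i hi
        have := List.getElem_mem hi
        exact ⟨mem_fl.2 ⟨_, this, Or.inl rfl⟩, mem_fl.2 ⟨_, this, Or.inr rfl⟩⟩
      rcases i with _ | i
      · rcases j with _ | j
        · exact ⟨fun _ => rfl, fun _ => rfl, g1'.1⟩
        · have hj' : j < N.length := by simpa using hj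
          simp only [List.getElem_cons_zero, List.getElem_cons_succ]
          refine ⟨fun h => absurd (h ▸ (hm j hj').1) g1'.2, fun h => absurd (h ▸ (hm j hj').2) g2,
            fun h => absurd (h ▸ (hm j hj').2) g1'.2⟩
      · have hi' : i < N.length := by simpa using hi
        rcases j with _ | j
        · simp only [List.getElem_cons_zero, List.getElem_cons_succ]
          refine ⟨fun h => absurd (h ▸ (hm i hi').1) g1'.2, fun h => absurd (h ▸ (hm i hi').2) g2,
            fun h => absurd (h ▸ (hm i hi').1) g2⟩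
        · have hj' : j < N.length := by simpa using hj
          simp only [List.getElem_cons_succ]
          obtain ⟨e1, e2, e3⟩ := ih g3 i j hi' hj'
          exact ⟨fun h => by rw [e1 h], fun h => by rw [e2 h], e3⟩
  have hA' : ∀ v ∈ fl M', v ∈ A := by
    intro v hv
    have := hY2 (h3 v hv)
    rwa [Set.Finite.mem_toFinset] at this
  obtain ⟨P, hP1, hP2, hP3⟩ := hA2 (fun i => (M'[i.1]'(by rw [h1]; exact i.2)).1)
    (fun i => (M'[i.1]'(by rw [h1]; exact i.2)).2)
    (by
      intro i
      have := List.getElem_mem (l := M') (n := i.1) (by rw [h1]; exact i.2)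
      exact ⟨hA' _ (mem_fl.2 ⟨_, this, Or.inl rfl⟩), hA' _ (mem_fl.2 ⟨_, this, Or.inr rfl⟩)⟩)
    (by
      intro i j hij
      exact Fin.ext ((hinj M' h2 i.1 j.1 (by rw [h1]; exact i.2) (by rw [h1]; exact j.2)).1 hij))
    (by
      intro i j hij
      exact Fin.ext ((hinj M' h2 i.1 j.1 (by rw [h1]; exact i.2) (by rw [h1]; exact j.2)).2.1 hij))
    (by
      intro i j
      exact (hinj M' h2 i.1 j.1 (by rw [h1]; exact i.2) (by rw [h1]; exact j.2)).2.2)
  refine ⟨fun m => {v | ∃ i : Fin k, (M'[i.1]'(by rw [h1]; exact i.2)) = m ∧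
    v ∈ (P i).support}, ?_, ?_, ?_⟩
  · intro m hm
    obtain ⟨i, hi, him⟩ := List.getElem_of_mem (h4 m hm)
    have hik : i < k := by rw [← h1]; exact hi
    subst him
    exact ⟨P ⟨i, hik⟩, hP1 _, fun v hv => ⟨⟨i, hik⟩, rfl, hv⟩⟩
  · rintro m m' hmm v ⟨i, hi, hvi⟩ ⟨j, hj, hvj⟩
    have hij : i ≠ j := by
      intro h
      subst h
      exact hmm (hi.symm.trans hj)
    exact hP3 i j hij v hvi hvj
  · rintro m v ⟨i, hi, hvi⟩ hvX
    have hvA := hP2 i v hvi
    have hvY : v ∈ Y := hY1 (by rw [Set.Finite.mem_toFinset]; exact ⟨hvX, hvA⟩)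
    obtain ⟨m', hm', hv'⟩ := mem_fl.1 (hcov v hvY)
    obtain ⟨j, hj, hjm⟩ := List.getElem_of_mem hm'
    have hjk : j < k := by rw [← h1]; exact hj
    have hvj : v ∈ (P ⟨j, hjk⟩).support := by
      subst hjm
      rcases hv' with h | h
      · have := (P ⟨j, hjk⟩).start_mem_support
        rw [h]; exact this
      · have := (P ⟨j, hjk⟩).end_mem_support
        rw [h]; exact this
    have hij : i = ⟨j, hjk⟩ := by
      by_contra hne
      exact hP3 _ _ hne v hvi hvj
    subst hij
    rw [← hi, hjm]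
    exact hv'

end Pool.Agent.LWC
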