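import Pool.Agent.LWC.H10

set_option autoImplicit false

/-!
# Tools for cycles through independent edges in highly connected graphs
-/

namespace Pool.Agent.LWC

open SimpleGraph Classical

universe w

variable {V : Type w} {G : SimpleGraph V}

/-- deleting fewer than `c` vertices never disconnects `G[U]` -/
def ConnU (G : SimpleGraph V) (U : Set V) (c : ℕ) : Prop :=
  ∀ S : Finset V, S.card < c → (G.induce (U \ (S : Set V))).Connected

theorem ConnU.closed {U : Set V} {c : ℕ} (h : ConnU G U c) {S : Finset V} (hS : S.card < c)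
    {F : Set V} {a b : V} (ha : a ∈ F) (haU : a ∈ U) (haS : a ∉ S) (hbU : b ∈ U) (hbS : b ∉ S)
    (hcl : ∀ u ∈ F, u ∈ U → u ∉ S → ∀ n ∈ U, n ∉ S → G.Adj u n → n ∈ F) : b ∈ F := by
  by_contra hb
  obtain ⟨p⟩ := (h S hS).preconnected ⟨a, haU, haS⟩ ⟨b, hbU, hbS⟩
  obtain ⟨d, -, hd1, hd2⟩ := p.exists_boundary_dart {z | z.1 ∈ F} ha hb
  exact hd2 (hcl d.fst.1 hd1 d.fst.2.1 d.fst.2.2 d.snd.1 d.snd.2.1 d.snd.2.2 d.adj)

theorem ConnU.sub {U : Set V} {c : ℕ} (h : ConnU G U c) (D : Finset V) {c' : ℕ}
    (hc : c' + D.card ≤ c) : ConnU G (U \ (D : Set V)) c' := by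
  intro S hS
  have h1 := h (D ∪ S) (by have := Finset.card_union_le D S; omega)
  have h2 : U \ ((D ∪ S : Finset V) : Set V) = (U \ (D : Set V)) \ (S : Set V) := by
    ext x
    simp only [Set.mem_sdiff, Finset.mem_coe, Finset.mem_union]
    tauto
  rw [h2] at h1
  exact h1

theorem ConnU.mono {U : Set V} {c : ℕ} (h : ConnU G U c) {H : SimpleGraph V} (hGH : G ≤ H) :
    ConnU H U c := fun S hS => (h S hS).mono (fun _ _ hab => hGH hab)

theorem ConnU.le {U : Set V} {c c' : ℕ} (h : ConnU G U c) (hc : c' ≤ c) : ConnU G U c' :=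
  fun S hS => h S (by omega)

/-- `b` can be reached from `a` inside `O` -/
def Rch (G : SimpleGraph V) (O : Set V) (a b : V) : Prop :=
  ∃ p : G.Walk a b, ∀ v ∈ p.support, v ∈ O

theorem Rch.refl {O : Set V} {a : V} (ha : a ∈ O) : Rch G O a a :=
  ⟨.nil, by intro v hv; simp at hv; rw [hv]; exact ha⟩

theorem Rch.symm {O : Set V} {a b : V} (h : Rch G O a b) : Rch G O b a := by
  obtain ⟨p, hp⟩ := h
  exact ⟨p.reverse, fun v hv => hp v (by simpa using hv)⟩

theorem Rch.trans {O : Set V} {a b c : V} (h : Rch G O a b) (h' : Rch G O b c) :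
    Rch G O a c := by
  obtain ⟨p, hp⟩ := h
  obtain ⟨q, hq⟩ := h'
  refine ⟨p.append q, fun v hv => ?_⟩
  rcases (Walk.mem_support_append_iff _ _).1 hv with h | h
  · exact hp v h
  · exact hq v h

theorem Rch.left {O : Set V} {a b : V} (h : Rch G O a b) : a ∈ O := by
  obtain ⟨p, hp⟩ := h
  exact hp _ p.start_mem_support

theorem Rch.right {O : Set V} {a b : V} (h : Rch G O a b) : b ∈ O := by
  obtain ⟨p, hp⟩ := h
  exact hp _ p.end_mem_support

theorem Rch.adj {O : Set V} {a b c : V} (h : Rch G O a b) (hbc : G.Adj b c) (hc : c ∈ O) :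
    Rch G O a c :=
  h.trans ⟨.cons hbc .nil, by
    intro v hv
    simp at hv
    rcases hv with hv | hv
    · rw [hv]; exact h.right
    · rw [hv]; exact hc⟩

theorem Rch.path {O : Set V} {a b : V} (h : Rch G O a b) :
    ∃ p : G.Walk a b, p.IsPath ∧ ∀ v ∈ p.support, v ∈ O ∧ Rch G O a v := by
  obtain ⟨p, hp⟩ := h
  refine ⟨p.bypass, p.bypass_isPath, fun v hv => ?_⟩
  have hv' : v ∈ p.support := p.support_bypass_subset_support hv
  refine ⟨hp v hv', ⟨p.takeUntil v hv', fun x hx => hp x ?_⟩⟩
  exact Walk.support_takeUntil_subset_support _ _ hx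

/-- the vertices of `O` which can be reached from `u` through `O` -/
def Att (G : SimpleGraph V) (O : Set V) (u : V) : Set V := {o | ∃ a, G.Adj u a ∧ Rch G O a o}

/-- `u` and `w` are adjacent or joined through `O` -/
def Con (G : SimpleGraph V) (O : Set V) (u w : V) : Prop :=
  G.Adj u w ∨ ∃ o ∈ Att G O u, G.Adj o w

theorem Att.mem {O : Set V} {u o : V} (h : o ∈ Att G O u) : o ∈ O := by
  obtain ⟨a, -, h⟩ := h
  exact h.right

theorem Att.adj {O : Set V} {u o o' : V} (h : o ∈ Att G O u) (ho : G.Adj o o') (ho' : o' ∈ O) :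
    o' ∈ Att G O u := by
  obtain ⟨a, h1, h2⟩ := h
  exact ⟨a, h1, h2.adj ho ho'⟩

theorem Att.rch {O : Set V} {u o o' : V} (h : o ∈ Att G O u) (ho : Rch G O o o') :
    o' ∈ Att G O u := by
  obtain ⟨a, h1, h2⟩ := h
  exact ⟨a, h1, h2.trans ho⟩

theorem con_of_att {O : Set V} {u w o : V} (h : o ∈ Att G O u) (h' : o ∈ Att G O w) :
    Con G O u w := by
  obtain ⟨b, h3, h4⟩ := h'
  exact Or.inr ⟨b, Att.rch h h4.symm, h3.symm⟩

theorem Con.symm {O : Set V} {u w : V} (h : Con G O u w) : Con G O w u := by
  rcases h with h | ⟨o, ⟨a, h1, h2⟩, h3⟩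
  · exact Or.inl h.symm
  · exact Or.inr ⟨a, ⟨o, h3.symm, h2.symm⟩, h1.symm⟩

/-- concatenating two paths which only share the common end -/
theorem append_isPath {a b c : V} {p : G.Walk a b} {q : G.Walk b c} (hp : p.IsPath)
    (hq : q.IsPath) (h : ∀ v ∈ p.support, v ∈ q.support → v = b) : (p.append q).IsPath := by
  rw [Walk.isPath_def, Walk.support_append, List.nodup_append']
  refine ⟨hp.support_nodup, hq.support_nodup.tail, ?_⟩
  intro w hw hw'
  have h1 := h w hw (List.mem_of_mem_tail hw')
  subst h1
  have h2 := hq.support_nodup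
  rw [← Walk.cons_tail_support, List.nodup_cons] at h2
  exact h2.1 hw'

/-- a connection realised by a path -/
theorem conPath {O : Set V} {u w : V} (h : Con G O u w) (huw : u ≠ w) (hu : u ∉ O) (hw : w ∉ O) :
    ∃ c : G.Walk u w, c.IsPath ∧
      ∀ v ∈ c.support, v = u ∨ v = w ∨ (v ∈ O ∧ v ∈ Att G O u ∧ v ∈ Att G O w) := by
  rcases h with h | ⟨o, ⟨a, h1, h2⟩, h3⟩
  · refine ⟨.cons h .nil, Walk.IsPath.nil.cons (by simpa using huw), ?_⟩
    intro v hv
    simp at hv
    tauto
  · obtain ⟨p, hp1, hp2⟩ := h2.path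
    refine ⟨.cons h1 (p.concat h3), ?_, ?_⟩
    · refine Walk.IsPath.cons (hp1.concat (fun hh => hw (hp2 _ hh).1) h3) ?_
      intro hh
      rw [Walk.support_concat, List.mem_append] at hh
      rcases hh with hh | hh
      · exact hu (hp2 _ hh).1
      · exact huw (by simpa using hh)
    · intro v hv
      rw [Walk.support_cons, List.mem_cons] at hv
      rcases hv with hv | hv
      · exact Or.inl hv
      · rw [Walk.support_concat, List.mem_append] at hv
        rcases hv with hv | hv
        · right; right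
          obtain ⟨g1, g2⟩ := hp2 v hv
          exact ⟨g1, ⟨a, h1, g2⟩, ⟨o, h3.symm, h2.symm.trans g2⟩⟩
        · right; left
          simpa using hv

/-- uniqueness of the decomposition of a path at a vertex -/
theorem split_unique {u v x : V} {A A' : G.Walk u x} {B B' : G.Walk x v}
    (hp : (A.append B).IsPath) (h : A.append B = A'.append B') : A = A' ∧ B = B' := by
  induction A with
  | nil =>
    cases A' with
    | nil => exact ⟨rfl, by simpa using h⟩
    | @cons _ y _ hadj A' =>
      exfalso
      rw [h] at hp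
      rw [Walk.cons_append, Walk.cons_isPath_iff] at hp
      exact hp.2 ((Walk.mem_support_append_iff _ _).2 (Or.inl A'.end_mem_support))
  | @cons a y b hadj A ih =>
    cases A' with
    | nil =>
      exfalso
      rw [Walk.cons_append, Walk.cons_isPath_iff] at hp
      exact hp.2 ((Walk.mem_support_append_iff _ _).2 (Or.inl A.end_mem_support))
    | @cons _ y' _ hadj' A' =>
      rw [Walk.cons_append, Walk.cons_append] at h
      rw [Walk.cons_append, Walk.cons_isPath_iff] at hp
      simp only [Walk.cons.injEq] at h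
      obtain ⟨h1, h2⟩ := h
      subst h1
      have h2' := eq_of_heq h2
      obtain ⟨h3, h4⟩ := ih hp.1 h2'
      exact ⟨by rw [h3], h4⟩

/-- the position of an edge on a path -/
theorem edge_split {u v x y : V} (p : G.Walk u v) (h : s(x, y) ∈ p.edges) (hxy : G.Adj x y) :
    (∃ (A : G.Walk u x) (B : G.Walk y v), p = A.append (.cons hxy B)) ∨
      (∃ (A : G.Walk u y) (B : G.Walk x v), p = A.append (.cons hxy.symm B)) := by
  induction p with
  | nil => simp at h
  | @cons a b c hadj p ih =>
    rw [Walk.edges_cons, List.mem_cons] at h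
    rcases h with h | h
    · rw [Sym2.eq_iff] at h
      rcases h with ⟨h1, h2⟩ | ⟨h1, h2⟩
      · subst h1; subst h2
        exact Or.inl ⟨.nil, p, rfl⟩
      · subst h1; subst h2
        exact Or.inr ⟨.nil, p, rfl⟩
    · rcases ih h with ⟨A, B, hAB⟩ | ⟨A, B, hAB⟩
      · exact Or.inl ⟨.cons hadj A, B, by rw [hAB]; rfl⟩
      · exact Or.inr ⟨.cons hadj A, B, by rw [hAB]; rfl⟩

/-- a path whose edges all lie on a path is a piece of it -/
theorem sub_of_edges {u v a b : V} (Φ : G.Walk u v) (hΦ : Φ.IsPath) (r : G.Walk a b)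
    (hr : r.IsPath) (hne : a ≠ b) (h : ∀ e ∈ r.edges, e ∈ Φ.edges) :
    (∃ (A : G.Walk u a) (B : G.Walk b v), Φ = A.append (r.append B)) ∨
      (∃ (A : G.Walk u b) (B : G.Walk a v), Φ = A.append (r.reverse.append B)) := by
  induction r with
  | nil => exact absurd rfl hne
  | @cons a a' b hadj r ih =>
    have he : s(a, a') ∈ Φ.edges := h _ (by simp)
    have hr' := (Walk.cons_isPath_iff _ _).1 hr
    have hedge := edge_split Φ he hadj
    by_cases ha'b : a' = b
    · subst ha'b
      have hnil : r = .nil := by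
        have := Walk.isPath_iff_nil.1 hr'.1
        exact this.eq_nil
      subst hnil
      rcases hedge with ⟨A, B, hAB⟩ | ⟨A, B, hAB⟩
      · exact Or.inl ⟨A, B, by rw [hAB]; rfl⟩
      · exact Or.inr ⟨A, B, by rw [hAB]; simp⟩
    · have hsub : ∀ e ∈ r.edges, e ∈ Φ.edges := fun e he => h e (by
        rw [Walk.edges_cons]; exact List.mem_cons_of_mem _ he)
      -- the second vertex of `r` is not `a`
      have hsnd : ∀ {w : V} (B : G.Walk a w) (B' : G.Walk b w),
          r.append B' = .cons hadj.symm B → False := by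
        intro w B B' hB
        cases r with
        | nil => exact ha'b rfl
        | @cons _ a'' _ h2 r' =>
          rw [Walk.cons_append] at hB
          simp only [Walk.cons.injEq] at hB
          have h3 := hB.1
          subst h3
          exact hr'.2 (by simp)
      rcases ih hr'.1 ha'b hsub with ⟨A1, B1, h1⟩ | ⟨A1, B1, h1⟩
      · rcases hedge with ⟨A, B, hAB⟩ | ⟨A, B, hAB⟩
        · left
          have h2 : (A.concat hadj).append B = A1.append (r.append B1) := by
            rw [← h1, hAB, Walk.concat_append]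
          have h3 := split_unique (by rw [h2, ← h1]; exact hΦ) h2
          refine ⟨A, B1, ?_⟩
          rw [hAB, h3.2]
          rfl
        · exfalso
          have h2 : A.append (.cons hadj.symm B) = A1.append (r.append B1) := by
            rw [← h1, hAB]
          have h3 := split_unique (by rw [h2, ← h1]; exact hΦ) h2
          exact hsnd B B1 h3.2.symm
      · rcases hedge with ⟨A, B, hAB⟩ | ⟨A, B, hAB⟩
        · exfalso
          have h2 : (A.concat hadj).append B = (A1.append r.reverse).append B1 := by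
            rw [← Walk.append_assoc, ← h1, hAB, Walk.concat_append]
          have h3 := split_unique (by rw [h2, ← Walk.append_assoc, ← h1]; exact hΦ) h2
          have h4 : r.append A1.reverse = .cons hadj.symm A.reverse := by
            have := congrArg Walk.reverse h3.1
            rw [Walk.reverse_append, Walk.reverse_reverse, Walk.reverse_concat] at this
            exact this.symm
          exact hsnd _ _ h4
        · right
          have h2 : A.append (.cons hadj.symm B) = (A1.append r.reverse).append B1 := by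
            rw [← Walk.append_assoc, ← h1, hAB]
          have h3 := split_unique (by rw [h2, ← Walk.append_assoc, ← h1]; exact hΦ) h2
          refine ⟨A1, B, ?_⟩
          rw [hAB, h3.1, Walk.reverse_cons, ← Walk.append_assoc, ← Walk.append_assoc]
          rfl

end Pool.Agent.LWC
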