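import Pool.Agent.LWC.W1

set_option autoImplicit false

/-!
# The hopping argument
-/

namespace Pool.Agent.LWC

open SimpleGraph Classical

universe w

variable {V : Type w} {G : SimpleGraph V}

/-- a cyclic sequence `v 0, …, v n` through the edges of `L`, closed by the edge `v n v 0` of `L` -/
structure Cyc (G : SimpleGraph V) (v : ℕ → V) (n : ℕ) (L : Finset (Sym2 V)) : Prop where
  adj : ∀ i < n, G.Adj (v i) (v (i + 1))
  inj : ∀ i ≤ n, ∀ j ≤ n, v i = v j → i = j
  cl : G.Adj (v n) (v 0)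
  mem : s(v n, v 0) ∈ L
  all : ∀ e ∈ L, e = s(v n, v 0) ∨ ∃ l < n, e = s(v l, v (l + 1))
  two : 2 ≤ n

/-- number of the segment of `i` -/
noncomputable def cc (v : ℕ → V) (L : Finset (Sym2 V)) (i : ℕ) : ℕ :=
  ((Finset.range i).filter (fun l => s(v l, v (l + 1)) ∈ L)).card

theorem cc_mono {v : ℕ → V} {L : Finset (Sym2 V)} {i j : ℕ} (h : i ≤ j) :
    cc v L i ≤ cc v L j := by
  apply Finset.card_le_card
  apply Finset.filter_subset_filter
  exact Finset.range_subset_range.2 h

theorem cc_free {v : ℕ → V} {L : Finset (Sym2 V)} {i j l : ℕ} (h : cc v L i = cc v L j)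
    (h1 : i ≤ l) (h2 : l < j) : s(v l, v (l + 1)) ∉ L := by
  intro hl
  have h3 := cc_mono (v := v) (L := L) h1
  have h4 := cc_mono (v := v) (L := L) (show l + 1 ≤ j from h2)
  have h5 : cc v L (l + 1) = cc v L l + 1 := by
    unfold cc
    rw [Finset.range_add_one, Finset.filter_insert, if_pos hl, Finset.card_insert_of_notMem]
    simp
  omega

theorem edge_inj {v : ℕ → V} {n : ℕ} {L : Finset (Sym2 V)} (C : Cyc G v n L) {l l' : ℕ}
    (hl : l < n) (hl' : l' < n) (h : s(v l, v (l + 1)) = s(v l', v (l' + 1))) : l = l' := by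
  rw [Sym2.eq_iff] at h
  rcases h with ⟨h1, -⟩ | ⟨h1, h2⟩
  · exact C.inj _ hl.le _ hl'.le h1
  · have h3 := C.inj _ hl.le _ hl' h1
    have h4 := C.inj _ hl _ hl'.le h2
    omega

theorem Cyc.seg0 {v : ℕ → V} {n : ℕ} {L : Finset (Sym2 V)} (C : Cyc G v n L) :
    ∀ d i, i + d ≤ n → ∃ r : G.Walk (v i) (v (i + d)), r.IsPath ∧
      (∀ e, e ∈ r.edges ↔ ∃ l, i ≤ l ∧ l < i + d ∧ e = s(v l, v (l + 1))) ∧
      (∀ x, x ∈ r.support ↔ ∃ l, i ≤ l ∧ l ≤ i + d ∧ x = v l) := by
  intro d
  induction d with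
  | zero =>
    intro i hi
    refine ⟨.nil, Walk.IsPath.nil, ?_, ?_⟩
    · intro e
      constructor
      · intro h; simp at h
      · rintro ⟨l, h1, h2, -⟩; omega
    · intro x
      rw [Walk.support_nil, List.mem_singleton]
      constructor
      · intro h; exact ⟨i, le_rfl, le_rfl, h⟩
      · rintro ⟨l, h1, h2, h3⟩
        have : l = i := by omega
        rw [h3, this]
  | succ d ih =>
    intro i hi
    obtain ⟨r, h1, h2, h3⟩ := ih i (by omega)
    have hadj := C.adj (i + d) (by omega)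
    refine ⟨r.concat hadj, ?_, ?_, ?_⟩
    · refine h1.concat ?_ hadj
      intro hh
      obtain ⟨l, g1, g2, g3⟩ := (h3 _).1 hh
      have := C.inj _ (by omega) _ (by omega) g3
      omega
    · intro e
      rw [Walk.edges_concat, List.concat_eq_append, List.mem_append, h2, List.mem_singleton]
      constructor
      · rintro (⟨l, g1, g2, g3⟩ | h)
        · exact ⟨l, g1, by omega, g3⟩
        · exact ⟨i + d, by omega, by omega, h⟩
      · rintro ⟨l, g1, g2, g3⟩
        by_cases hl : l < i + d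
        · exact Or.inl ⟨l, g1, hl, g3⟩
        · right
          have : l = i + d := by omega
          subst this
          exact g3
    · intro x
      rw [Walk.support_concat, List.mem_append, h3, List.mem_singleton]
      constructor
      · rintro (⟨l, g1, g2, g3⟩ | h)
        · exact ⟨l, g1, by omega, g3⟩
        · exact ⟨i + d + 1, by omega, by omega, h⟩
      · rintro ⟨l, g1, g2, g3⟩
        by_cases hl : l ≤ i + d
        · exact Or.inl ⟨l, g1, hl, g3⟩
        · right
          have : l = i + d + 1 := by omega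
          subst this
          exact g3

theorem Cyc.seg {v : ℕ → V} {n : ℕ} {L : Finset (Sym2 V)} (C : Cyc G v n L) {i j : ℕ}
    (hij : i ≤ j) (hj : j ≤ n) : ∃ r : G.Walk (v i) (v j), r.IsPath ∧
      (∀ e, e ∈ r.edges ↔ ∃ l, i ≤ l ∧ l < j ∧ e = s(v l, v (l + 1))) ∧
      (∀ x, x ∈ r.support ↔ ∃ l, i ≤ l ∧ l ≤ j ∧ x = v l) := by
  obtain ⟨d, rfl⟩ := Nat.exists_eq_add_of_le hij
  exact C.seg0 d i hj

theorem Cyc.around0 {v : ℕ → V} {n : ℕ} {L : Finset (Sym2 V)} (C : Cyc G v n L) {i j : ℕ}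
    (hij : i < j) (hj : j ≤ n) (hc : cc v L i = cc v L j) :
    ∃ Φ : G.Walk (v i) (v j), Φ.IsPath ∧ (∀ x ∈ Φ.support, ∃ l ≤ n, x = v l) ∧
      (∀ e ∈ L, e ∈ Φ.edges) ∧ ∀ l < n, (l < i ∨ j ≤ l) → s(v l, v (l + 1)) ∈ Φ.edges := by
  obtain ⟨r1, a1, a2, a3⟩ := C.seg (Nat.zero_le i) (by omega)
  obtain ⟨r2, b1, b2, b3⟩ := C.seg hj le_rfl
  have hdis : ∀ x ∈ r1.support, x ∉ r2.support := by
    intro x hx hx'
    obtain ⟨l, g1, g2, g3⟩ := (a3 x).1 hx
    obtain ⟨l', g4, g5, g6⟩ := (b3 x).1 hx'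
    have := C.inj l (by omega) l' (by omega) (g3.symm.trans g6)
    omega
  have hedges : ∀ e, e ∈ (r1.reverse.append (.cons C.cl.symm r2.reverse)).edges ↔
      e ∈ r1.edges ∨ e = s(v n, v 0) ∨ e ∈ r2.edges := by
    intro e
    rw [Walk.edges_append, Walk.edges_cons, Walk.edges_reverse, Walk.edges_reverse,
      List.mem_append, List.mem_cons, List.mem_reverse, List.mem_reverse, Sym2.eq_swap]
  refine ⟨r1.reverse.append (.cons C.cl.symm r2.reverse), ?_, ?_, ?_, ?_⟩
  · rw [Walk.isPath_def, Walk.support_append, Walk.support_cons, List.tail_cons,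
      List.nodup_append']
    refine ⟨a1.reverse.support_nodup, b1.reverse.support_nodup, ?_⟩
    intro x hx hx'
    rw [Walk.support_reverse, List.mem_reverse] at hx hx'
    exact hdis x hx hx'
  · intro x hx
    rw [Walk.mem_support_append_iff, Walk.support_cons, List.mem_cons, Walk.support_reverse,
      Walk.support_reverse, List.mem_reverse, List.mem_reverse] at hx
    rcases hx with hx | hx | hx
    · obtain ⟨l, g1, g2, g3⟩ := (a3 x).1 hx
      exact ⟨l, by omega, g3⟩
    · exact ⟨0, by omega, hx⟩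
    · obtain ⟨l, g1, g2, g3⟩ := (b3 x).1 hx
      exact ⟨l, by omega, g3⟩
  · intro e he
    rw [hedges]
    rcases C.all e he with h | ⟨l, hl, h⟩
    · exact Or.inr (Or.inl h)
    · by_cases h1 : l < i
      · exact Or.inl ((a2 e).2 ⟨l, Nat.zero_le _, h1, h⟩)
      · by_cases h2 : j ≤ l
        · exact Or.inr (Or.inr ((b2 e).2 ⟨l, h2, hl, h⟩))
        · exfalso
          rw [h] at he
          exact cc_free hc (by omega) (by omega) he
  · intro l hl h
    rw [hedges]
    rcases h with h | h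
    · exact Or.inl ((a2 _).2 ⟨l, Nat.zero_le _, h, rfl⟩)
    · exact Or.inr (Or.inr ((b2 _).2 ⟨l, h, hl, rfl⟩))

theorem Cyc.around {v : ℕ → V} {n : ℕ} {L : Finset (Sym2 V)} (C : Cyc G v n L) {i j : ℕ}
    (hij : i ≠ j) (hi : i ≤ n) (hj : j ≤ n) (hc : cc v L i = cc v L j) :
    ∃ Φ : G.Walk (v i) (v j), Φ.IsPath ∧ (∀ x ∈ Φ.support, ∃ l ≤ n, x = v l) ∧
      (∀ e ∈ L, e ∈ Φ.edges) ∧
      ∀ l < n, (l < i ∧ l < j ∨ i ≤ l ∧ j ≤ l) → s(v l, v (l + 1)) ∈ Φ.edges := by
  rcases Nat.lt_or_gt_of_ne hij with h | h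
  · obtain ⟨Φ, h1, h2, h3, h4⟩ := C.around0 h hj hc
    exact ⟨Φ, h1, h2, h3, fun l hl hh => h4 l hl (by omega)⟩
  · obtain ⟨Φ, h1, h2, h3, h4⟩ := C.around0 h hi hc.symm
    refine ⟨Φ.reverse, h1.reverse, ?_, ?_, ?_⟩
    · intro x hx; exact h2 x (by simpa using hx)
    · intro e he
      rw [Walk.edges_reverse, List.mem_reverse]; exact h3 e he
    · intro l hl hh
      rw [Walk.edges_reverse, List.mem_reverse]; exact h4 l hl (by omega)

/-- the indices strictly between two elements of `X` of the same segment -/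
def btw (v : ℕ → V) (L : Finset (Sym2 V)) (X : Set ℕ) : Set ℕ :=
  {l | ∃ i j, i < l ∧ l < j ∧ i ∈ X ∧ j ∈ X ∧ cc v L i = cc v L j}

/-- the hopping sets -/
def hop (G : SimpleGraph V) (O : Set V) (v : ℕ → V) (n : ℕ) (L : Finset (Sym2 V)) (g : V) :
    ℕ → Set ℕ
  | 0 => {i | i ≤ n ∧ Con G O g (v i)}
  | t + 1 => {i | i ∈ hop G O v n L g t ∨
      (i ≤ n ∧ ∃ l ∈ btw v L (hop G O v n L g t), Con G O (v l) (v i))}

theorem hop_le {O : Set V} {v : ℕ → V} {n : ℕ} {L : Finset (Sym2 V)} {g : V} :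
    ∀ {t i : ℕ}, i ∈ hop G O v n L g t → i ≤ n
  | 0, _, h => h.1
  | _ + 1, _, h => by
    rcases h with h | h
    · exact hop_le h
    · exact h.1

theorem hop_mono {O : Set V} {v : ℕ → V} {n : ℕ} {L : Finset (Sym2 V)} {g : V} {t t' : ℕ}
    (h : t ≤ t') {i : ℕ} (hi : i ∈ hop G O v n L g t) : i ∈ hop G O v n L g t' := by
  induction h with
  | refl => exact hi
  | step _ ih => exact Or.inl ih

section

variable {O N : Set V} {v : ℕ → V} {n : ℕ} {L : Finset (Sym2 V)} {g : V}

/-- invariant (edges of the hulls of level less than `m` are intact) -/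
def I1 (G : SimpleGraph V) (O : Set V) (v : ℕ → V) (n : ℕ) (L : Finset (Sym2 V)) (g : V) (m : ℕ)
    (F : List (Sym2 V)) : Prop :=
  ∀ t < m, ∀ l i j : ℕ, i ≤ l → l < j → i ∈ hop G O v n L g t → j ∈ hop G O v n L g t →
    cc v L i = cc v L j → s(v l, v (l + 1)) ∈ F

/-- invariant (the vertices off the cycle are not reachable at level less than `m`) -/
def I2 (G : SimpleGraph V) (O N : Set V) (v : ℕ → V) (n : ℕ) (L : Finset (Sym2 V)) (g : V) (m : ℕ)
    (F : List V) : Prop :=
  ∀ x ∈ F, (∃ l ≤ n, x = v l) ∨ (x ∈ O ∧ x ∉ N ∧ x ∉ Att G O g ∧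
    ∀ t < m, ∀ l ∈ btw v L (hop G O v n L g t), x ∉ Att G O (v l))

theorem stepΦ (C : Cyc G v n L) (hO : ∀ l ≤ n, v l ∉ O) {jq m i s l0 ts : ℕ}
    (hs : s ∈ hop G O v n L g ts) (hts : ts ≤ m)
    (hi : i ≤ n) (him : i ∉ hop G O v n L g m) (hl0 : l0 ∈ btw v L (hop G O v n L g m))
    (hl0n : l0 ≤ n) (hsl : s ≠ l0) (hcon : Con G O (v l0) (v i))
    (hN : ∀ x ∈ Att G O (v l0), x ∉ N)
    (D : G.Walk (v s) (v l0)) (hD1 : ∀ e ∈ D.edges, e ∉ L)
    (hD2 : ∀ e ∈ D.edges, ∀ t < ts, ∀ l i' j' : ℕ, i' ≤ l → l < j' →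
      i' ∈ hop G O v n L g t → j' ∈ hop G O v n L g t → cc v L i' = cc v L j' →
      e ≠ s(v l, v (l + 1)))
    (A : G.Walk (v i) (v s)) (rest : G.Walk (v l0) (v jq))
    (hΦ : (A.append (D.append rest)).IsPath)
    (i0 : ∀ e ∈ L, e ∈ (A.append (D.append rest)).edges)
    (i1 : I1 G O v n L g (m + 1) (A.append (D.append rest)).edges)
    (i2 : I2 G O N v n L g (m + 1) (A.append (D.append rest)).support) :
    ∃ Φ : G.Walk (v s) (v jq), Φ.IsPath ∧ (∀ e ∈ L, e ∈ Φ.edges) ∧
      I1 G O v n L g ts Φ.edges ∧ I2 G O N v n L g ts Φ.support := by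
  have hsn := hop_le hs
  have hsv : v s ≠ v l0 := fun h => hsl (C.inj _ hsn _ hl0n h)
  have hA := hΦ.of_append_left
  have hDr := hΦ.of_append_right
  have hr := hDr.of_append_right
  -- intersections
  have hAD : ∀ x ∈ A.support, x ∈ (D.append rest).support → x = v s := by
    intro x hx hx'
    by_contra hne
    exact hΦ.ne_of_mem_support_of_append hne hx hx' rfl
  have hDrest : ∀ x ∈ D.support, x ∈ rest.support → x = v l0 := by
    intro x hx hx'
    by_contra hne
    exact hDr.ne_of_mem_support_of_append hne hx hx' rfl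
  have hrest_sub : ∀ x ∈ rest.support, x ∈ (D.append rest).support :=
    fun x hx => (Walk.mem_support_append_iff _ _).2 (Or.inr hx)
  have hiD : v i ∉ (D.append rest).support := by
    intro h
    have h1 := hAD _ A.start_mem_support h
    have h2 := C.inj _ hi _ hsn h1
    exact him (h2 ▸ hop_mono hts hs)
  have hil0 : v i ≠ v l0 := by
    intro h
    apply hiD
    rw [h]
    exact hrest_sub _ rest.start_mem_support
  obtain ⟨c, hc1, hc2⟩ := conPath hcon.symm hil0 (hO i hi) (hO l0 hl0n)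
  -- the interior of `c` avoids the path
  have hcΦ : ∀ x, x ∈ O → x ∈ Att G O (v l0) → x ∉ (A.append (D.append rest)).support := by
    intro x hxO hxA hx
    rcases i2 x hx with ⟨l, hl, h⟩ | ⟨-, -, -, h⟩
    · exact hO l hl (h ▸ hxO)
    · exact h m (by omega) l0 hl0 hxA
  have hcr : (c.append rest).IsPath := by
    refine append_isPath hc1 hr ?_
    intro x hx hx'
    rcases hc2 x hx with h | h | ⟨h1, -, h3⟩
    · exact absurd (h ▸ hrest_sub x hx') hiD
    · exact h
    · exact absurd ((Walk.mem_support_append_iff _ _).2 (Or.inr (hrest_sub x hx'))) (hcΦ x h1 h3)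
  have hfull : (A.reverse.append (c.append rest)).IsPath := by
    refine append_isPath hA.reverse hcr ?_
    intro x hx hx'
    rw [Walk.support_reverse, List.mem_reverse] at hx
    rcases (Walk.mem_support_append_iff _ _).1 hx' with h | h
    · rcases hc2 x h with h | h | ⟨h1, -, h3⟩
      · exact h
      · exfalso
        rw [h] at hx
        exact hsv (hAD _ hx (hrest_sub _ rest.start_mem_support)).symm
      · exact absurd ((Walk.mem_support_append_iff _ _).2 (Or.inl hx)) (hcΦ x h1 h3)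
    · exfalso
      have h1 := hAD x hx (hrest_sub x h)
      rw [h1] at h
      exact hsv (hDrest _ D.start_mem_support h)
  have hedges : ∀ e, e ∈ (A.append (D.append rest)).edges → e ∉ D.edges →
      e ∈ (A.reverse.append (c.append rest)).edges := by
    intro e he hne
    rw [Walk.edges_append, Walk.edges_append, List.mem_append, List.mem_append] at he
    rw [Walk.edges_append, Walk.edges_append, List.mem_append, List.mem_append,
      Walk.edges_reverse, List.mem_reverse]
    rcases he with he | he | he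
    · exact Or.inl he
    · exact absurd he hne
    · exact Or.inr (Or.inr he)
  refine ⟨_, hfull, ?_, ?_, ?_⟩
  · intro e he
    exact hedges e (i0 e he) (fun h => hD1 e h he)
  · intro t ht l i' j' h1 h2 h3 h4 h5
    exact hedges _ (i1 t (by omega) l i' j' h1 h2 h3 h4 h5)
      (fun h => hD2 _ h t ht l i' j' h1 h2 h3 h4 h5 rfl)
  · intro x hx
    have hw : x ∈ (A.append (D.append rest)).support → (∃ l ≤ n, x = v l) ∨ (x ∈ O ∧ x ∉ N ∧
        x ∉ Att G O g ∧ ∀ t < ts, ∀ l ∈ btw v L (hop G O v n L g t), x ∉ Att G O (v l)) := by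
      intro h
      rcases i2 x h with h | ⟨h1, h2, h3, h4⟩
      · exact Or.inl h
      · exact Or.inr ⟨h1, h2, h3, fun t ht => h4 t (by omega)⟩
    rcases (Walk.mem_support_append_iff _ _).1 hx with h | h
    · rw [Walk.support_reverse, List.mem_reverse] at h
      exact hw ((Walk.mem_support_append_iff _ _).2 (Or.inl h))
    · rcases (Walk.mem_support_append_iff _ _).1 h with h | h
      · rcases hc2 x h with h | h | ⟨h1, h2, h3⟩
        · exact Or.inl ⟨i, hi, h⟩
        · exact Or.inl ⟨l0, hl0n, h⟩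
        · refine Or.inr ⟨h1, hN x h3, ?_, ?_⟩
          · intro h4
            have h5 : i ∈ hop G O v n L g 0 := ⟨hi, con_of_att h4 h2⟩
            exact him (hop_mono (Nat.zero_le _) h5)
          · intro t ht l hl h4
            have h5 : i ∈ hop G O v n L g (t + 1) := Or.inr ⟨hi, l, hl, con_of_att h4 h2⟩
            exact him (hop_mono (by omega) h5)
      · exact hw ((Walk.mem_support_append_iff _ _).2 (Or.inr (hrest_sub x h)))

theorem descent (C : Cyc G v n L) (hO : ∀ l ≤ n, v l ∉ O) {jq : ℕ} : ∀ m : ℕ,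
    (∀ t < m, ∀ l ∈ btw v L (hop G O v n L g t), ∀ x ∈ Att G O (v l), x ∉ N) →
    ∀ i ∈ hop G O v n L g m, ∀ Φ : G.Walk (v i) (v jq), Φ.IsPath →
    (∀ e ∈ L, e ∈ Φ.edges) → I1 G O v n L g m Φ.edges → I2 G O N v n L g m Φ.support →
    ∃ i0 ∈ hop G O v n L g 0, ∃ Φ' : G.Walk (v i0) (v jq), Φ'.IsPath ∧
      (∀ e ∈ L, e ∈ Φ'.edges) ∧
      ∀ x ∈ Φ'.support, (∃ l ≤ n, x = v l) ∨ (x ∈ O ∧ x ∉ N ∧ x ∉ Att G O g) := by
  intro m
  induction m using Nat.strong_induction_on with
  | _ m ih =>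
    intro hN i hi Φ hΦ i0 i1 i2
    rcases m with _ | m
    · refine ⟨i, hi, Φ, hΦ, i0, ?_⟩
      intro x hx
      rcases i2 x hx with h | ⟨h1, h2, h3, -⟩
      · exact Or.inl h
      · exact Or.inr ⟨h1, h2, h3⟩
    by_cases him : i ∈ hop G O v n L g m
    · refine ih m (by omega) (fun t ht => hN t (by omega)) i him Φ hΦ i0
        (fun t ht => i1 t (by omega)) ?_
      intro x hx
      rcases i2 x hx with h | ⟨h1, h2, h3, h4⟩
      · exact Or.inl h
      · exact Or.inr ⟨h1, h2, h3, fun t ht => h4 t (by omega)⟩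
    rcases hi with hi | ⟨hin, l0, hl0, hcon⟩
    · exact absurd hi him
    have hl0' := hl0
    obtain ⟨a, b, ha, hb, haX, hbX, hab⟩ := hl0
    have hbn := hop_le hbX
    have hal : cc v L a = cc v L l0 := by
      have h1 := cc_mono (v := v) (L := L) ha.le
      have h2 := cc_mono (v := v) (L := L) hb.le
      omega
    -- minimal levels on both sides
    have exL : ∃ t, ∃ s ∈ hop G O v n L g t, s < l0 ∧ cc v L s = cc v L l0 :=
      ⟨m, a, haX, ha, hal⟩
    have exR : ∃ t, ∃ s ∈ hop G O v n L g t, l0 < s ∧ cc v L s = cc v L l0 :=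
      ⟨m, b, hbX, hb, hab.symm.trans hal⟩
    obtain ⟨sL, hsL, hsL1, hsL2⟩ := Nat.find_spec exL
    obtain ⟨sR, hsR, hsR1, hsR2⟩ := Nat.find_spec exR
    have htL : Nat.find exL ≤ m := Nat.find_min' exL ⟨a, haX, ha, hal⟩
    have htR : Nat.find exR ≤ m := Nat.find_min' exR ⟨b, hbX, hb, hab.symm.trans hal⟩
    have hminL : ∀ t < Nat.find exL, ∀ s ∈ hop G O v n L g t, s < l0 → cc v L s ≠ cc v L l0 :=
      fun t ht s hs h1 h2 => Nat.find_min exL ht ⟨s, hs, h1, h2⟩
    have hminR : ∀ t < Nat.find exR, ∀ s ∈ hop G O v n L g t, l0 < s → cc v L s ≠ cc v L l0 :=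
      fun t ht s hs h1 h2 => Nat.find_min exR ht ⟨s, hs, h1, h2⟩
    generalize Nat.find exL = tL at hsL htL hminL
    generalize Nat.find exR = tR at hsR htR hminR
    have hRn := hop_le hsR
    obtain ⟨r1, a1, a2, a3⟩ := C.seg hsL1.le (by omega)
    obtain ⟨r2, b1, b2, b3⟩ := C.seg hsR1.le hRn
    have hr : (r1.append r2).IsPath := by
      refine append_isPath a1 b1 ?_
      intro x hx hx'
      obtain ⟨l, g1, g2, g3⟩ := (a3 x).1 hx
      obtain ⟨l', g4, g5, g6⟩ := (b3 x).1 hx'
      have h7 := C.inj l (by omega) l' (by omega) (g3.symm.trans g6)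
      have h8 : l = l0 := by omega
      rw [g3, h8]
    have hredges : ∀ e ∈ (r1.append r2).edges, e ∈ Φ.edges := by
      intro e he
      rw [Walk.edges_append, List.mem_append] at he
      have : ∃ l, sL ≤ l ∧ l < sR ∧ e = s(v l, v (l + 1)) := by
        rcases he with he | he
        · obtain ⟨l, g1, g2, g3⟩ := (a2 e).1 he
          exact ⟨l, g1, by omega, g3⟩
        · obtain ⟨l, g1, g2, g3⟩ := (b2 e).1 he
          exact ⟨l, by omega, g2, g3⟩
      obtain ⟨l, g1, g2, g3⟩ := this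
      rw [g3]
      exact i1 m (by omega) l sL sR g1 g2 (hop_mono htL hsL) (hop_mono htR hsR)
        (hsL2.trans hsR2.symm)
    have hne : v sL ≠ v sR := by
      intro h
      have := C.inj _ (by omega) _ hRn h
      omega
    have hsqueeze : ∀ {x y z : ℕ}, x ≤ y → y ≤ z → cc v L x = cc v L z →
        cc v L x = cc v L y ∧ cc v L y = cc v L z := by
      intro x y z hxy hyz h
      have h1 := cc_mono (v := v) (L := L) hxy
      have h2 := cc_mono (v := v) (L := L) hyz
      omega
    have hNl : ∀ x ∈ Att G O (v l0), x ∉ N := hN m (by omega) l0 hl0'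
    rcases sub_of_edges Φ hΦ (r1.append r2) hr hne hredges with ⟨A, B, hAB⟩ | ⟨A, B, hAB⟩
    · -- the predecessor side is the left one
      have hAB' : Φ = A.append (r1.append (r2.append B)) := by
        rw [hAB, Walk.append_assoc r1 r2 B]
      rw [hAB'] at hΦ i0 i1 i2
      obtain ⟨Φ', p1, p2, p3, p4⟩ := stepΦ C hO hsL htL hin him hl0' (by omega) (by omega) hcon
        hNl r1 (by
          intro e he
          obtain ⟨l, g1, g2, g3⟩ := (a2 e).1 he
          rw [g3]
          exact cc_free hsL2 g1 g2) (by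
          intro e he t ht l i' j' h1 h2 h3 h4 h5 h6
          obtain ⟨l', g1, g2, g3⟩ := (a2 e).1 he
          have h7 := hop_le h4
          have h8 := edge_inj C (by omega) (by omega) (g3.symm.trans h6)
          subst h8
          have h9 := (hsqueeze h1 h2.le h5).1
          have h10 := (hsqueeze g1 g2.le hsL2).2
          exact hminL t ht i' h3 (by omega) (h9.trans h10)) A (r2.append B) hΦ i0 i1 i2
      exact ih tL (by omega) (fun t ht => hN t (by omega)) sL hsL Φ' p1 p2 p3 p4
    · -- the predecessor side is the right one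
      have hAB' : Φ = A.append (r2.reverse.append (r1.reverse.append B)) := by
        rw [hAB, Walk.reverse_append, ← Walk.append_assoc]
      rw [hAB'] at hΦ i0 i1 i2
      obtain ⟨Φ', p1, p2, p3, p4⟩ := stepΦ C hO hsR htR hin him hl0' (by omega) (by omega) hcon
        hNl r2.reverse (by
          intro e he
          rw [Walk.edges_reverse, List.mem_reverse] at he
          obtain ⟨l, g1, g2, g3⟩ := (b2 e).1 he
          rw [g3]
          exact cc_free hsR2.symm g1 g2) (by
          intro e he t ht l i' j' h1 h2 h3 h4 h5 h6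
          rw [Walk.edges_reverse, List.mem_reverse] at he
          obtain ⟨l', g1, g2, g3⟩ := (b2 e).1 he
          have h7 := hop_le h4
          have h8 := edge_inj C (by omega) (by omega) (g3.symm.trans h6)
          subst h8
          have h9 := (hsqueeze h1 h2.le h5).2
          have h10 := (hsqueeze g1 g2.le hsR2.symm).1
          exact hminR t ht j' h4 (by omega) (h9.symm.trans h10.symm)) A (r1.reverse.append B)
          hΦ i0 i1 i2
      exact ih tR (by omega) (fun t ht => hN t (by omega)) sR hsR Φ' p1 p2 p3 p4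

end

end Pool.Agent.LWC
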