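import Pool.Agent.LWC.W2

set_option autoImplicit false

/-!
# A cycle and an edge outside: the exclusivity lemma
-/

namespace Pool.Agent.LWC

open SimpleGraph Classical

universe w

variable {V : Type w} {G : SimpleGraph V}

/-- some cycle of `G[U]` contains all edges of `E` -/
def CycIn (G : SimpleGraph V) (U : Set V) (E : Finset (Sym2 V)) : Prop :=
  ∃ (u : V) (p : G.Walk u u), p.IsCycle ∧ (∀ w ∈ p.support, w ∈ U) ∧ ∀ e ∈ E, e ∈ p.edges

/-- any two vertices of `B` are joined inside `B` by a path through `e` -/
def Thru (G : SimpleGraph V) (e : Sym2 V) (B : Set V) : Prop :=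
  ∀ g ∈ B, ∀ g' ∈ B, g ≠ g' → PT G g g' B {e}

theorem ear {e : Sym2 V} {B : Set V} (hB : Thru G e B) {g g' a a' : V} (hg : g ∈ B) (hg' : g' ∈ B)
    (hgg : g ≠ g') (p : G.Walk a a') (hp : p.IsPath) (hpB : ∀ z ∈ p.support, z ∉ B)
    (h1 : G.Adj g a) (h2 : G.Adj a' g') : Thru G e (B ∪ {z | z ∈ p.support}) := by
  -- prefix and suffix of the ear
  have hpre : ∀ s (hs : s ∈ p.support), PT G s a {z | z ∈ (p.takeUntil s hs).support} ∅ := by
    intro s hs
    exact PT.symm ⟨p.takeUntil s hs, hp.takeUntil _, fun z hz => hz, fun e he => absurd he (by simp)⟩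
  have hsuf : ∀ s (hs : s ∈ p.support), PT G s a' {z | z ∈ (p.dropUntil s hs).support} ∅ := by
    intro s hs
    exact ⟨p.dropUntil s hs, hp.dropUntil _, fun z hz => hz, fun e he => absurd he (by simp)⟩
  have hsubp : ∀ s (hs : s ∈ p.support), ∀ z ∈ (p.takeUntil s hs).support, z ∈ p.support :=
    fun s hs z hz => Walk.support_takeUntil_subset_support _ _ hz
  have hsubs : ∀ s (hs : s ∈ p.support), ∀ z ∈ (p.dropUntil s hs).support, z ∈ p.support :=
    fun s hs z hz => Walk.support_dropUntil_subset_support _ _ hz
  have hPB : ∀ s (_ : s ∈ p.support), ∀ b ∈ B, PT G s b (B ∪ {z | z ∈ p.support}) {e} := by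
    intro s hs b hb
    by_cases hbg : b = g
    · have hbg' : g' ≠ b := fun h => hgg (hbg.symm.trans h.symm)
      have h3 := (hsuf s hs).join h2 (hB g' hg' b hb hbg')
        (fun z hz hz' => hpB z (hsubs s hs z hz) hz')
      refine h3.mono ?_ (by simp)
      rintro z (hz | hz)
      · exact Or.inr (hsubs s hs z hz)
      · exact Or.inl hz
    · have h3 := (hpre s hs).join h1.symm (hB g hg b hb (Ne.symm hbg))
        (fun z hz hz' => hpB z (hsubp s hs z hz) hz')
      refine h3.mono ?_ (by simp)
      rintro z (hz | hz)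
      · exact Or.inr (hsubp s hs z hz)
      · exact Or.inl hz
  have hPP : ∀ s (hs : s ∈ p.support) t (ht : t ∈ p.support), s ≠ t →
      s ∈ (p.takeUntil t ht).support → PT G s t (B ∪ {z | z ∈ p.support}) {e} := by
    intro s hs t ht hst hsp
    have hdis : ∀ z ∈ (p.takeUntil s hs).support, z ∉ (p.dropUntil t ht).support := by
      intro z hz hz'
      rw [← p.takeUntil_takeUntil ht hsp] at hz
      have hz2 : z ∈ (p.takeUntil t ht).support := Walk.support_takeUntil_subset_support _ _ hz
      have hzt : z = t := by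
        by_contra hne
        have hpp : ((p.takeUntil t ht).append (p.dropUntil t ht)).IsPath := by
          rw [p.take_spec]; exact hp
        exact hpp.ne_of_mem_support_of_append hne hz2 hz' rfl
      have hpp : (((p.takeUntil t ht).takeUntil s hsp).append
          ((p.takeUntil t ht).dropUntil s hsp)).IsPath := by
        rw [Walk.take_spec]; exact hp.takeUntil _
      have hzs : z = s := by
        by_contra hne
        refine hpp.ne_of_mem_support_of_append hne hz ?_ rfl
        rw [hzt]
        exact Walk.end_mem_support _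
      exact hst (hzs.symm.trans hzt)
    have h3 := (hpre s hs).join h1.symm (hB g hg g' hg' hgg)
      (fun z hz hz' => hpB z (hsubp s hs z hz) hz')
    have h4 := h3.join h2.symm (hsuf t ht).symm (by
      rintro z (hz | hz) hz'
      · exact hdis z hz hz'
      · exact hpB z (hsubs t ht z hz') hz)
    refine h4.mono ?_ (by simp)
    rintro z ((hz | hz) | hz)
    · exact Or.inr (hsubp s hs z hz)
    · exact Or.inl hz
    · exact Or.inr (hsubs t ht z hz)
  rintro s (hs | hs) t (ht | ht) hst
  · exact (hB s hs t ht hst).mono Set.subset_union_left (le_refl _)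
  · exact (hPB t ht s hs).symm
  · exact hPB s hs t ht
  · rcases takeUntil_total p s t hs ht with h | h
    · exact hPP s hs t ht hst h
    · exact (hPP t ht s hs hst.symm h).symm

/-- the data of a cycle `C` and an edge `e = xy` off `C`, with a maximal `Thru` set -/
structure Dat (G : SimpleGraph V) (U : Set V) (v : ℕ → V) (n : ℕ) (L : Finset (Sym2 V))
    (e : Sym2 V) (B O : Set V) : Prop where
  cyc : Cyc G v n L
  vU : ∀ l ≤ n, v l ∈ U
  vB : ∀ l ≤ n, v l ∉ B
  vO : ∀ l ≤ n, v l ∉ O
  BU : ∀ b ∈ B, b ∈ U
  OU : ∀ o ∈ O, o ∈ U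
  BO : ∀ b ∈ B, b ∉ O
  cover : ∀ u ∈ U, (∃ l ≤ n, u = v l) ∨ u ∈ B ∨ u ∈ O
  thru : Thru G e B
  att : ∀ g ∈ B, ∀ g' ∈ B, g ≠ g' → ∀ o ∈ Att G O g, o ∉ Att G O g'
  card : 2 ≤ (insert e L).card

section

variable {U : Set V} {v : ℕ → V} {n : ℕ} {L : Finset (Sym2 V)} {e : Sym2 V} {B O : Set V}

theorem exclCyc (D : Dat G U v n L e B O) {g g' : V} (hg : g ∈ B) (hg' : g' ∈ B) (hgg : g ≠ g') :
    ∀ m : ℕ, ∀ i ∈ hop G O v n L g m, ∀ j ∈ hop G O v n L g' 0, i ≠ j → cc v L i = cc v L j →
      CycIn G U (insert e L) := by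
  intro m
  induction m using Nat.strong_induction_on with
  | _ m ih =>
    intro i hi j hj hij hcc
    by_contra hno
    have hIH : ∀ t < m, ∀ i' ∈ hop G O v n L g t, ∀ j' ∈ hop G O v n L g' 0,
        cc v L i' = cc v L j' → i' = j' := by
      intro t ht i' hi' j' hj' h
      by_contra hne
      exact hno (ih t ht i' hi' j' hj' hne h)
    have hin := hop_le hi
    have hjn := hop_le hj
    obtain ⟨Φ, f1, f2, f3, f4⟩ := D.cyc.around hij hin hjn hcc
    have hsq : ∀ {x y z : ℕ}, x ≤ y → y ≤ z → cc v L x = cc v L z →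
        cc v L x = cc v L y ∧ cc v L y = cc v L z := by
      intro x y z hxy hyz h
      have h1 := cc_mono (v := v) (L := L) hxy
      have h2 := cc_mono (v := v) (L := L) hyz
      omega
    have hN : ∀ t < m, ∀ l ∈ btw v L (hop G O v n L g t), ∀ x ∈ Att G O (v l),
        x ∉ Att G O g' := by
      rintro t ht l ⟨a, b, hal, hlb, ha, hb, hab⟩ x hx hx'
      have hbn := hop_le hb
      have h1 : l ∈ hop G O v n L g' 0 := ⟨by omega, con_of_att hx' hx⟩
      have h2 := (hsq hal.le hlb.le hab).1
      have h3 := hIH t ht a ha l h1 h2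
      omega
    obtain ⟨i0, hi0, Φ', p1, p2, p3⟩ := descent D.cyc D.vO (N := Att G O g') m hN i hi Φ f1 f3
      (by
        intro t ht l i' j' h1 h2 h3 h4 h5
        have hj'n := hop_le h4
        apply f4 l (by omega)
        by_contra hbad
        rcases Nat.lt_or_ge l i with hli | hli
        · have hjl : j ≤ l := by
            by_contra hh
            exact hbad (Or.inl ⟨hli, by omega⟩)
          have h6 := (hsq hjl hli.le hcc.symm).1
          have h7 := (hsq h1 h2.le h5).2
          have h8 := hIH t ht j' h4 j hj (h7.symm.trans h6.symm)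
          omega
        · have hlj : l < j := by
            by_contra hh
            exact hbad (Or.inr ⟨hli, by omega⟩)
          have h6 := (hsq hli hlj.le hcc).2
          have h7 := (hsq h1 h2.le h5).1
          have h8 := hIH t ht i' h3 j hj (h7.trans h6)
          omega)
      (fun x hx => Or.inl (f2 x hx))
    apply hno
    have hi0n := hop_le hi0
    have hgO : g ∉ O := D.BO g hg
    have hg'O : g' ∉ O := D.BO g' hg'
    have hgv : ∀ l ≤ n, g ≠ v l := fun l hl h => D.vB l hl (h ▸ hg)
    have hg'v : ∀ l ≤ n, g' ≠ v l := fun l hl h => D.vB l hl (h ▸ hg')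
    obtain ⟨c1, c11, c12⟩ := conPath hi0.2 (hgv _ hi0n) hgO (D.vO _ hi0n)
    obtain ⟨c2, c21, c22⟩ := conPath hj.2.symm (hg'v _ hjn).symm (D.vO _ hjn) hg'O
    obtain ⟨β, b1, b2, b3⟩ := D.thru g' hg' g hg hgg.symm
    have hΦB : ∀ x ∈ Φ'.support, x ∉ B := by
      intro x hx hxB
      rcases p3 x hx with ⟨l, hl, h⟩ | ⟨h, -, -⟩
      · exact D.vB l hl (h ▸ hxB)
      · exact D.BO x hxB h
    -- concatenations
    have q1 : (c2.append β).IsPath := by
      refine append_isPath c21 b1 ?_
      intro x hx hx'
      rcases c22 x hx with h | h | ⟨h, -, -⟩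
      · exact absurd (h ▸ b2 x hx') (D.vB _ hjn)
      · exact h
      · exact absurd h (D.BO x (b2 x hx'))
    have q2 : (Φ'.append (c2.append β)).IsPath := by
      refine append_isPath p1 q1 ?_
      intro x hx hx'
      rcases (Walk.mem_support_append_iff _ _).1 hx' with h | h
      · rcases c22 x h with h | h | ⟨h3, -, h5⟩
        · exact h
        · exact absurd (h ▸ hg' : x ∈ B) (hΦB x hx)
        · exfalso
          rcases p3 x hx with ⟨l, hl, h6⟩ | ⟨-, h6, -⟩
          · exact D.vO l hl (h6 ▸ h3)
          · exact h6 h5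
      · exact absurd (b2 x h) (hΦB x hx)
    cases c1 with
    | nil => exact absurd rfl (hgv _ hi0n)
    | @cons _ a _ hadj c1' =>
      have c13 := (Walk.cons_isPath_iff _ _).1 c11
      have c14 : ∀ x ∈ c1'.support, x = v i0 ∨ (x ∈ O ∧ x ∈ Att G O g) := by
        intro x hx
        rcases c12 x (by rw [Walk.support_cons]; exact List.mem_cons_of_mem _ hx) with
          h | h | ⟨h3, h4, -⟩
        · exact absurd (h ▸ hx) c13.2
        · exact Or.inl h
        · exact Or.inr ⟨h3, h4⟩
      have q3 : (c1'.append (Φ'.append (c2.append β))).IsPath := by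
        refine append_isPath c13.1 q2 ?_
        intro x hx hx'
        rcases c14 x hx with h | ⟨h3, h4⟩
        · exact h
        exfalso
        rcases (Walk.mem_support_append_iff _ _).1 hx' with h | h
        · rcases p3 x h with ⟨l, hl, h6⟩ | ⟨-, -, h6⟩
          · exact D.vO l hl (h6 ▸ h3)
          · exact h6 h4
        · rcases (Walk.mem_support_append_iff _ _).1 h with h | h
          · rcases c22 x h with h | h | ⟨-, -, h5⟩
            · exact D.vO _ hjn (h ▸ h3)
            · exact hg'O (h ▸ h3)
            · exact D.att g hg g' hg' hgg x h4 h5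
          · exact D.BO x (b2 x h) h3
      have hE : ∀ f ∈ insert e L, f ∈ (c1'.append (Φ'.append (c2.append β))).edges := by
        intro f hf
        rw [Walk.edges_append, Walk.edges_append, Walk.edges_append, List.mem_append,
          List.mem_append, List.mem_append]
        rcases Finset.mem_insert.1 hf with h | h
        · exact Or.inr (Or.inr (Or.inr (b3 f (by rw [h]; rfl))))
        · exact Or.inr (Or.inl (p2 f h))
      refine ⟨g, _, close _ q3 hadj (two_le _ D.card hE), ?_, ?_⟩
      · intro x hx
        rw [Walk.support_cons, List.mem_cons] at hx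
        rcases hx with h | h
        · rw [h]; exact D.BU g hg
        · rcases (Walk.mem_support_append_iff _ _).1 h with h | h
          · rcases c14 x h with h | ⟨h, -⟩
            · rw [h]; exact D.vU _ hi0n
            · exact D.OU x h
          · rcases (Walk.mem_support_append_iff _ _).1 h with h | h
            · rcases p3 x h with ⟨l, hl, h6⟩ | ⟨h6, -, -⟩
              · rw [h6]; exact D.vU l hl
              · exact D.OU x h6
            · rcases (Walk.mem_support_append_iff _ _).1 h with h | h
              · rcases c22 x h with h | h | ⟨h, -, -⟩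
                · rw [h]; exact D.vU _ hjn
                · rw [h]; exact D.BU g' hg'
                · exact D.OU x h
              · exact D.BU x (b2 x h)
      · intro f hf
        rw [Walk.edges_cons]
        exact List.mem_cons_of_mem _ (hE f hf)

end

end Pool.Agent.LWC
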