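import Pool.Agent.LWC.W3

set_option autoImplicit false

/-!
# A cycle and an edge off it
-/

namespace Pool.Agent.LWC

open SimpleGraph Classical

universe w

variable {V : Type w} {G : SimpleGraph V}

theorem exists_dat [Finite V] {U : Set V} {v : ℕ → V} {n : ℕ} {L : Finset (Sym2 V)} {x y : V}
    (C : Cyc G v n L) (hvU : ∀ l ≤ n, v l ∈ U) (hx : x ∈ U) (hy : y ∈ U) (hxy : G.Adj x y)
    (hxv : ∀ l ≤ n, x ≠ v l) (hyv : ∀ l ≤ n, y ≠ v l) :
    ∃ B : Set V, x ∈ B ∧ y ∈ B ∧
      Dat G U v n L s(x, y) B ({u | u ∈ U ∧ (∀ l ≤ n, u ≠ v l) ∧ u ∉ B}) := by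
  let F : Set (Set V) := {B | x ∈ B ∧ y ∈ B ∧ (∀ b ∈ B, b ∈ U) ∧ (∀ b ∈ B, ∀ l ≤ n, b ≠ v l) ∧
    Thru G s(x, y) B}
  have hfin : F.Finite := Set.toFinite _
  have hne : F.Nonempty := by
    refine ⟨{x, y}, by simp, by simp, ?_, ?_, ?_⟩
    · rintro b (h | h)
      · rw [h]; exact hx
      · rw [h]; exact hy
    · rintro b (h | h)
      · rw [h]; exact hxv
      · rw [h]; exact hyv
    · rintro g (hg | hg) g' (hg' | hg') hgg
      · exact absurd (hg.trans hg'.symm) hgg
      · rw [hg, hg']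
        exact PT.edge hxy
      · rw [hg, hg']
        exact (PT.edge hxy).symm
      · exact absurd (hg.trans hg'.symm) hgg
  obtain ⟨B, hBF, hmax⟩ := hfin.exists_maximal hne
  obtain ⟨b1, b2, b3, b4, b5⟩ := hBF
  refine ⟨B, b1, b2, ?_⟩
  constructor
  · exact C
  · exact hvU
  · intro l hl h
    exact b4 _ h l hl rfl
  · intro l hl h
    exact h.2.1 l hl rfl
  · exact b3
  · intro o ho; exact ho.1
  · intro b hb h; exact h.2.2 hb
  · intro u hu
    by_cases h1 : ∃ l ≤ n, u = v l
    · exact Or.inl h1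
    · by_cases h2 : u ∈ B
      · exact Or.inr (Or.inl h2)
      · right; right
        refine ⟨hu, ?_, h2⟩
        intro l hl h
        exact h1 ⟨l, hl, h⟩
  · exact b5
  · -- maximality
    rintro g hg g' hg' hgg o ⟨a, h1, h2⟩ ⟨a', h3, h4⟩
    obtain ⟨p, hp1, hp2⟩ := (h2.trans h4.symm).path
    have h5 := ear b5 hg hg' hgg p hp1 (fun z hz => (hp2 z hz).1.2.2) h1 h3.symm
    have h6 : B ∪ {z | z ∈ p.support} ∈ F := by
      refine ⟨Or.inl b1, Or.inl b2, ?_, ?_, h5⟩
      · rintro b (hb | hb)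
        · exact b3 b hb
        · exact (hp2 b hb).1.1
      · rintro b (hb | hb)
        · exact b4 b hb
        · exact (hp2 b hb).1.2.1
    have h7 := hmax h6 Set.subset_union_left
    have h8 : a ∈ B := h7 (Or.inr p.start_mem_support)
    exact h2.left.2.2 h8
  · -- two edges
    have he : s(x, y) ∉ L := by
      intro h
      rcases C.all _ h with h | ⟨l, hl, h⟩
      · rw [Sym2.eq_iff] at h
        rcases h with ⟨h, -⟩ | ⟨h, -⟩
        · exact hxv n le_rfl h
        · exact hxv 0 (Nat.zero_le _) h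
      · rw [Sym2.eq_iff] at h
        rcases h with ⟨h, -⟩ | ⟨h, -⟩
        · exact hxv l hl.le h
        · exact hxv (l + 1) hl h
    rw [Finset.card_insert_of_notMem he]
    have := Finset.card_pos.2 ⟨_, C.mem⟩
    omega

section

variable {U : Set V} {v : ℕ → V} {n : ℕ} {L : Finset (Sym2 V)} {e : Sym2 V} {B O : Set V}

theorem closing_ne (C : Cyc G v n L) {l : ℕ} (hl : l < n) : s(v l, v (l + 1)) ≠ s(v n, v 0) := by
  intro h
  have h2 := C.two
  rw [Sym2.eq_iff] at h
  rcases h with ⟨h1, -⟩ | ⟨h1, h3⟩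
  · have := C.inj _ hl.le _ le_rfl h1
    omega
  · have h4 := C.inj _ hl.le _ (Nat.zero_le _) h1
    have h5 := C.inj _ hl _ le_rfl h3
    omega

theorem cc_lt (C : Cyc G v n L) {i : ℕ} (hi : i ≤ n) : cc v L i < L.card := by
  have h1 : cc v L i ≤ (L.erase s(v n, v 0)).card := by
    unfold cc
    apply Finset.card_le_card_of_injOn (fun l => s(v l, v (l + 1)))
    · intro l hl
      have hl' := Finset.mem_filter.1 (Finset.mem_coe.1 hl)
      have hln : l < n := by have := Finset.mem_range.1 hl'.1; omega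
      exact Finset.mem_coe.2 (Finset.mem_erase.2 ⟨closing_ne C hln, hl'.2⟩)
    · intro l hl l' hl' h
      have h1 := Finset.mem_filter.1 (Finset.mem_coe.1 hl)
      have h2 := Finset.mem_filter.1 (Finset.mem_coe.1 hl')
      exact edge_inj C (by have := Finset.mem_range.1 h1.1; omega)
        (by have := Finset.mem_range.1 h2.1; omega) h
  rw [Finset.card_erase_of_mem C.mem] at h1
  have := Finset.card_pos.2 ⟨_, C.mem⟩
  omega

/-- an independent set of edges does not contain all edges of the cycle -/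
theorem card_le_n (C : Cyc G v n L) (hind : Ind L) : L.card ≤ n := by
  have h01 : s(v 0, v 1) ∉ L := by
    intro h
    have h1 := closing_ne C (by have := C.two; omega : 0 < n)
    exact hind _ h _ C.mem h1 (v 0) (Sym2.mem_mk_left _ _) (Sym2.mem_mk_right _ _)
  have h1 : L ⊆ insert s(v n, v 0) ((Finset.Ico 1 n).image (fun l => s(v l, v (l + 1)))) := by
    intro f hf
    rcases C.all f hf with h | ⟨l, hl, h⟩
    · rw [h]; exact Finset.mem_insert_self _ _
    · apply Finset.mem_insert_of_mem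
      rw [Finset.mem_image]
      refine ⟨l, ?_, h.symm⟩
      rw [Finset.mem_Ico]
      refine ⟨?_, hl⟩
      by_contra hl0
      have : l = 0 := by omega
      subst this
      exact h01 (h ▸ hf)
  have h2 := Finset.card_le_card h1
  have h3 := Finset.card_insert_le s(v n, v 0) ((Finset.Ico 1 n).image (fun l => s(v l, v (l + 1))))
  have h4 : ((Finset.Ico 1 n).image (fun l => s(v l, v (l + 1)))).card ≤ n - 1 := by
    refine Finset.card_image_le.trans ?_
    rw [Nat.card_Ico]
  have := C.two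
  omega

/-- every vertex of `B` has two attachments in a common segment -/
theorem twoAtt (D : Dat G U v n L e B O) (hind : Ind L) (hno : ¬ CycIn G U (insert e L)) {c : ℕ}
    (hconn : ConnU G U c) (hc : L.card < c) {g : V} (hg : g ∈ B) :
    ∃ i ∈ hop G O v n L g 0, ∃ j ∈ hop G O v n L g 0, i ≠ j ∧ cc v L i = cc v L j := by
  by_contra hcon
  push Not at hcon
  have hex : ∀ g ∈ B, ∀ g' ∈ B, ∀ i ∈ hop G O v n L g 0, ∀ j ∈ hop G O v n L g' 0, i ≠ j →
      cc v L i = cc v L j → g = g' := by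
    intro g hg g' hg' i hi j hj hij h
    by_contra hgg
    exact hno (exclCyc D hg hg' hgg 0 i hi j hj hij h)
  let P1 : ℕ → V → Prop := fun s w => w ∈ B ∧ ∃ i ∈ hop G O v n L w 0, ∃ w' ∈ B,
    ∃ j ∈ hop G O v n L w' 0, i ≠ j ∧ cc v L i = s ∧ cc v L j = s
  let P2 : ℕ → ℕ → Prop := fun s i => (∃ w ∈ B, i ∈ hop G O v n L w 0) ∧ cc v L i = s
  let ζ : ℕ → V := fun s => if h : ∃ w, P1 s w then h.choose else
    if h : ∃ i, P2 s i then v h.choose else v 0
  let Z : Finset V := (Finset.range L.card).image ζ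
  have hZ : Z.card ≤ L.card := by
    refine Finset.card_image_le.trans ?_
    rw [Finset.card_range]
  -- gates outside `Z` only have attachments in `Z`
  have hkey : ∀ g' ∈ B, g' ∉ Z → ∀ i ∈ hop G O v n L g' 0, v i ∈ Z := by
    intro g' hg' hgZ i hi
    have hs : cc v L i ∈ Finset.range L.card := Finset.mem_range.2 (cc_lt D.cyc (hop_le hi))
    by_cases h1 : ∃ w, P1 (cc v L i) w
    · exfalso
      apply hgZ
      have h2 := h1.choose_spec
      have h3 : ζ (cc v L i) = h1.choose := by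
        show (if h : ∃ w, P1 (cc v L i) w then h.choose else _) = _
        rw [dif_pos h1]
      obtain ⟨hw, i1, hi1, w', hw', j1, hj1, hij, hci, hcj⟩ := h2
      have h4 : h1.choose = w' := hex _ hw _ hw' i1 hi1 j1 hj1 hij (hci.trans hcj.symm)
      have h5 : h1.choose = g' := by
        by_cases hii : i1 = i
        · have hji : j1 ≠ i := fun h => hij (hii.trans h.symm)
          rw [h4]
          exact hex _ hw' _ hg' j1 hj1 i hi hji hcj
        · exact hex _ hw _ hg' i1 hi1 i hi hii hci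
      rw [← h5, ← h3]
      exact Finset.mem_image_of_mem _ hs
    · have h2 : ∃ i', P2 (cc v L i) i' := ⟨i, ⟨g', hg', hi⟩, rfl⟩
      have h3 : ζ (cc v L i) = v h2.choose := by
        show (if h : ∃ w, P1 (cc v L i) w then h.choose else
          if h : ∃ i', P2 (cc v L i) i' then v h.choose else v 0) = _
        rw [dif_neg h1, dif_pos h2]
      obtain ⟨⟨w, hw, hiw⟩, hcw⟩ := h2.choose_spec
      have h4 : h2.choose = i := by
        by_contra hne
        exact h1 ⟨w, hw, _, hiw, g', hg', i, hi, hne, hcw, rfl⟩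
      rw [← h4, ← h3]
      exact Finset.mem_image_of_mem _ hs
  have hgZ : g ∉ Z := by
    intro h
    obtain ⟨s, hs, h⟩ := Finset.mem_image.1 h
    by_cases h1 : ∃ w, P1 s w
    · have h3 : ζ s = h1.choose := by
        show (if h : ∃ w, P1 s w then h.choose else _) = _
        rw [dif_pos h1]
      obtain ⟨hw, i1, hi1, w', hw', j1, hj1, hij, hci, hcj⟩ := h1.choose_spec
      have h4 : h1.choose = w' := hex _ hw _ hw' i1 hi1 j1 hj1 hij (hci.trans hcj.symm)
      have h5 : h1.choose = g := h3.symm.trans h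
      refine hcon i1 (h5 ▸ hi1) j1 ?_ hij (hci.trans hcj.symm)
      rw [← h5, h4]
      exact hj1
    · by_cases h2 : ∃ i', P2 s i'
      · have h3 : ζ s = v h2.choose := by
          show (if h : ∃ w, P1 s w then h.choose else
            if h : ∃ i', P2 s i' then v h.choose else v 0) = _
          rw [dif_neg h1, dif_pos h2]
        obtain ⟨⟨w, hw, hiw⟩, hcw⟩ := h2.choose_spec
        exact D.vB _ (hop_le hiw) (by rw [← h3, h]; exact hg)
      · have h3 : ζ s = v 0 := by
          show (if h : ∃ w, P1 s w then h.choose else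
            if h : ∃ i', P2 s i' then v h.choose else v 0) = _
          rw [dif_neg h1, dif_neg h2]
        exact D.vB 0 (Nat.zero_le _) (by rw [← h3, h]; exact hg)
  -- a vertex of the cycle outside `Z`
  have hb : ∃ l ≤ n, v l ∉ Z := by
    by_contra hall
    push Not at hall
    have h1 : (Finset.range (n + 1)).image v ⊆ Z := by
      intro z hz
      obtain ⟨l, hl, rfl⟩ := Finset.mem_image.1 hz
      exact hall l (by have := Finset.mem_range.1 hl; omega)
    have h2 := Finset.card_le_card h1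
    rw [Finset.card_image_of_injOn, Finset.card_range] at h2
    · have := card_le_n D.cyc hind
      omega
    · intro a ha b hb hab
      have ha' := Finset.mem_range.1 (Finset.mem_coe.1 ha)
      have hb' := Finset.mem_range.1 (Finset.mem_coe.1 hb)
      exact D.cyc.inj a (by omega) b (by omega) hab
  obtain ⟨l, hl, hlZ⟩ := hb
  have hfin := hconn.closed (S := Z) (F := {u | u ∈ B ∨ ∃ g' ∈ B, g' ∉ Z ∧ u ∈ Att G O g'})
    (by omega) (a := g) (b := v l) (Or.inl hg) (D.BU g hg) hgZ (D.vU l hl) hlZ (by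
      intro u hu huU huZ z hzU hzZ hadj
      rcases D.cover z hzU with ⟨i, hi, hzi⟩ | hzB | hzO
      · exfalso
        rcases hu with hu | ⟨g', hg', hgZ', hu⟩
        · exact hzZ (hzi ▸ hkey u hu huZ i ⟨hi, Or.inl (hzi ▸ hadj)⟩)
        · exact hzZ (hzi ▸ hkey g' hg' hgZ' i ⟨hi, Or.inr ⟨u, hu, hzi ▸ hadj⟩⟩)
      · exact Or.inl hzB
      · right
        rcases hu with hu | ⟨g', hg', hgZ', hu⟩
        · exact ⟨u, hu, huZ, ⟨z, hadj, Rch.refl hzO⟩⟩
        · exact ⟨g', hg', hgZ', Att.adj hu hadj hzO⟩)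
  rcases hfin with h | ⟨g', -, -, h⟩
  · exact D.vB l hl h
  · exact D.vO l hl (Att.mem h)

/-- Case A: a cycle through `L` and an edge `e` off it. -/
theorem caseA [Finite V] (D : Dat G U v n L e B O) (hind : Ind L)
    (hconn : ConnU G U (2 * L.card)) {g g' : V} (hg : g ∈ B) (hg' : g' ∈ B) (hgg : g ≠ g') :
    CycIn G U (insert e L) := by
  by_contra hno
  have hLpos := Finset.card_pos.2 ⟨_, D.cyc.mem⟩
  have hatt : ∀ b : V, b ∈ B → ∃ i ∈ hop G O v n L b 0, ∃ j ∈ hop G O v n L b 0, i ≠ j ∧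
      cc v L i = cc v L j := fun b hb => twoAtt D hind hno hconn (by omega) hb
  choose! ia hia ja hja hij hcc using hatt
  -- exclusivity at all levels
  have hex : ∀ b ∈ B, g ≠ b → ∀ m, ∀ i ∈ hop G O v n L g m, ∀ j ∈ hop G O v n L b 0,
      cc v L i = cc v L j → i = j := by
    intro b hb hgb m i hi j hj h
    by_contra hne
    exact hno (exclCyc D hg hb hgb m i hi j hj hne h)
  have hex2 : ∀ b ∈ B, g ≠ b → ∀ m, ∀ i ∈ hop G O v n L g m, cc v L i ≠ cc v L (ia b) := by
    intro b hb hgb m i hi h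
    have h1 := hex b hb hgb m i hi _ (hia b hb) h
    have h2 := hex b hb hgb m i hi _ (hja b hb) (h.trans (hcc b hb))
    exact hij b hb (h1.symm.trans h2)
  let X : Set ℕ := {i | ∃ m, i ∈ hop G O v n L g m}
  have hXn : ∀ i ∈ X, i ≤ n := by
    rintro i ⟨m, hm⟩; exact hop_le hm
  let T : ℕ → Finset ℕ := fun s => (Finset.range (n + 1)).filter (fun i => i ∈ X ∧ cc v L i = s)
  have hT : ∀ s i, i ∈ T s ↔ i ∈ X ∧ cc v L i = s := by
    intro s i
    simp only [T, Finset.mem_filter, Finset.mem_range]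
    constructor
    · exact fun h => h.2
    · exact fun h => ⟨by have := hXn i h.1; omega, h⟩
  let Sg : Finset ℕ := (Finset.range L.card).filter (fun s => (T s).Nonempty)
  let lo : ℕ → ℕ := fun s => if h : (T s).Nonempty then (T s).min' h else 0
  let hi : ℕ → ℕ := fun s => if h : (T s).Nonempty then (T s).max' h else 0
  have hlo : ∀ s (h : (T s).Nonempty), lo s = (T s).min' h := fun s h => by
    show (if h : (T s).Nonempty then (T s).min' h else 0) = _
    rw [dif_pos h]
  have hhi : ∀ s (h : (T s).Nonempty), hi s = (T s).max' h := fun s h => by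
    show (if h : (T s).Nonempty then (T s).max' h else 0) = _
    rw [dif_pos h]
  have hBfin : B.Finite := Set.toFinite _
  let BF : Finset V := hBfin.toFinset
  have hBF : ∀ b, b ∈ BF ↔ b ∈ B := fun b => Set.Finite.mem_toFinset _
  let W : Finset V := BF.erase g ∪ (Sg.image (fun s => v (lo s)) ∪ Sg.image (fun s => v (hi s)))
  -- counting
  have hcard1 : (BF.erase g).card ≤ ((Finset.range L.card) \ Sg).card := by
    apply Finset.card_le_card_of_injOn (fun b => cc v L (ia b))
    · intro b hb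
      have hb' := Finset.mem_erase.1 (Finset.mem_coe.1 hb)
      have hbB := (hBF b).1 hb'.2
      refine Finset.mem_coe.2 (Finset.mem_sdiff.2 ⟨Finset.mem_range.2
        (cc_lt D.cyc (hop_le (hia b hbB))), ?_⟩)
      intro h
      obtain ⟨-, i, hi⟩ := Finset.mem_filter.1 h
      obtain ⟨⟨m, hm⟩, hc⟩ := (hT _ _).1 hi
      exact hex2 b hbB hb'.1.symm m i hm hc
    · intro b hb b' hb' h
      have h1 := Finset.mem_erase.1 (Finset.mem_coe.1 hb)
      have h2 := Finset.mem_erase.1 (Finset.mem_coe.1 hb')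
      have hbB := (hBF b).1 h1.2
      have hbB' := (hBF b').1 h2.2
      by_contra hne
      have h' : cc v L (ia b) = cc v L (ia b') := h
      by_cases hii : ia b = ia b'
      · have h3 : ia b ≠ ja b' := fun h4 => hij b' hbB' (hii.symm.trans h4)
        exact hno (exclCyc D hbB hbB' hne 0 _ (hia b hbB) _ (hja b' hbB') h3
          (h'.trans (hcc b' hbB')))
      · exact hno (exclCyc D hbB hbB' hne 0 _ (hia b hbB) _ (hia b' hbB') hii h')
  have hSgsub : Sg ⊆ Finset.range L.card := Finset.filter_subset _ _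
  rw [Finset.card_sdiff_of_subset hSgsub, Finset.card_range] at hcard1
  have hSgle := Finset.card_le_card hSgsub
  rw [Finset.card_range] at hSgle
  have hBge : 1 ≤ (BF.erase g).card := by
    apply Finset.card_pos.2
    exact ⟨g', Finset.mem_erase.2 ⟨hgg.symm, (hBF g').2 hg'⟩⟩
  have hW : W.card < 2 * L.card := by
    have h1 := Finset.card_union_le (BF.erase g)
      (Sg.image (fun s => v (lo s)) ∪ Sg.image (fun s => v (hi s)))
    have h2 := Finset.card_union_le (Sg.image (fun s => v (lo s))) (Sg.image (fun s => v (hi s)))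
    have h3 : (Sg.image (fun s => v (lo s))).card ≤ Sg.card := Finset.card_image_le
    have h4 : (Sg.image (fun s => v (hi s))).card ≤ Sg.card := Finset.card_image_le
    have h5 : W.card ≤ (BF.erase g).card + (Sg.card + Sg.card) := by
      show (BF.erase g ∪ _).card ≤ _
      omega
    omega
  -- elements of `X` outside `W` are between two others
  have hK : ∀ i ∈ X, v i ∉ W → i ∈ btw v L X := by
    intro i hiX hiW
    have hiT : i ∈ T (cc v L i) := (hT _ _).2 ⟨hiX, rfl⟩
    have hne : (T (cc v L i)).Nonempty := ⟨i, hiT⟩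
    have hSg : cc v L i ∈ Sg :=
      Finset.mem_filter.2 ⟨Finset.mem_range.2 (cc_lt D.cyc (hXn i hiX)), hne⟩
    have h1 := hlo _ hne
    have h2 := hhi _ hne
    have h3 := (T (cc v L i)).min'_mem hne
    have h4 := (T (cc v L i)).max'_mem hne
    have h5 := (T (cc v L i)).min'_le i hiT
    have h6 := (T (cc v L i)).le_max' i hiT
    rw [← h1] at h3 h5
    rw [← h2] at h4 h6
    have h7 : lo (cc v L i) ≠ i := by
      intro h
      apply hiW
      refine Finset.mem_union_right _ (Finset.mem_union_left _ ?_)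
      exact Finset.mem_image.2 ⟨_, hSg, by rw [h]⟩
    have h8 : hi (cc v L i) ≠ i := by
      intro h
      apply hiW
      refine Finset.mem_union_right _ (Finset.mem_union_right _ ?_)
      exact Finset.mem_image.2 ⟨_, hSg, by rw [h]⟩
    have h9 := (hT _ _).1 h3
    have h10 := (hT _ _).1 h4
    exact ⟨_, _, by omega, by omega, h9.1, h10.1, h9.2.trans h10.2.symm⟩
  have hbtw : ∀ l ∈ btw v L X, ∃ m, l ∈ btw v L (hop G O v n L g m) := by
    rintro l ⟨a, b, h1, h2, ⟨m1, h3⟩, ⟨m2, h4⟩, h5⟩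
    exact ⟨max m1 m2, a, b, h1, h2, hop_mono (le_max_left _ _) h3, hop_mono (le_max_right _ _) h4, h5⟩
  have hbtwn : ∀ l ∈ btw v L X, l ≤ n := by
    rintro l ⟨a, b, h1, h2, -, h4, -⟩
    have := hXn b h4
    omega
  -- connections from the region stay in `X`
  have hX1 : ∀ i ≤ n, Con G O g (v i) → i ∈ X := fun i hi h => ⟨0, hi, h⟩
  have hX2 : ∀ l ∈ btw v L X, ∀ i ≤ n, Con G O (v l) (v i) → i ∈ X := by
    intro l hl i hi h
    obtain ⟨m, hm⟩ := hbtw l hl
    exact ⟨m + 1, Or.inr ⟨hi, l, hm, h⟩⟩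
  let F : Set V := {u | u = g ∨ u ∈ Att G O g ∨ (∃ l ∈ btw v L X, u = v l) ∨
    ∃ l ∈ btw v L X, u ∈ Att G O (v l)}
  have hgW : g ∉ W := by
    intro h
    rcases Finset.mem_union.1 h with h | h
    · exact (Finset.mem_erase.1 h).1 rfl
    · have : ∃ i ≤ n, g = v i := by
        rcases Finset.mem_union.1 h with h | h
        · obtain ⟨s, hs, h⟩ := Finset.mem_image.1 h
          obtain ⟨-, hne⟩ := Finset.mem_filter.1 hs
          refine ⟨lo s, ?_, h.symm⟩
          rw [hlo s hne]
          exact hXn _ ((hT _ _).1 ((T s).min'_mem hne)).1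
        · obtain ⟨s, hs, h⟩ := Finset.mem_image.1 h
          obtain ⟨-, hne⟩ := Finset.mem_filter.1 hs
          refine ⟨hi s, ?_, h.symm⟩
          rw [hhi s hne]
          exact hXn _ ((hT _ _).1 ((T s).max'_mem hne)).1
      obtain ⟨i, hi, h⟩ := this
      exact D.vB i hi (h ▸ hg)
  have hBW : ∀ b ∈ B, b ≠ g → b ∈ W := fun b hb hbg =>
    Finset.mem_union_left _ (Finset.mem_erase.2 ⟨hbg, (hBF b).2 hb⟩)
  -- the far vertex
  have hian := hop_le (hia g' hg')
  have hfarX : ∀ i ∈ X, cc v L i ≠ cc v L (ia g') := by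
    rintro i ⟨m, hm⟩
    exact hex2 g' hg' hgg m i hm
  have hfarW : v (ia g') ∉ W := by
    intro h
    rcases Finset.mem_union.1 h with h | h
    · exact D.vB _ hian ((hBF _).1 (Finset.mem_erase.1 h).2)
    · rcases Finset.mem_union.1 h with h | h
      · obtain ⟨s, hs, h⟩ := Finset.mem_image.1 h
        obtain ⟨-, hne⟩ := Finset.mem_filter.1 hs
        have h1 := (hT _ _).1 ((T s).min'_mem hne)
        rw [← hlo s hne] at h1
        have h2 := D.cyc.inj _ (hXn _ h1.1) _ hian h
        exact hfarX _ h1.1 (by rw [h2])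
      · obtain ⟨s, hs, h⟩ := Finset.mem_image.1 h
        obtain ⟨-, hne⟩ := Finset.mem_filter.1 hs
        have h1 := (hT _ _).1 ((T s).max'_mem hne)
        rw [← hhi s hne] at h1
        have h2 := D.cyc.inj _ (hXn _ h1.1) _ hian h
        exact hfarX _ h1.1 (by rw [h2])
  have hcyc : ∀ z, ∀ i ≤ n, z = v i → i ∈ X → z ∉ W → z ∈ F := by
    intro z i hi hz hiX hzW
    exact Or.inr (Or.inr (Or.inl ⟨i, hK i hiX (hz ▸ hzW), hz⟩))
  have hfin := hconn.closed (S := W) (F := F) hW (a := g) (b := v (ia g')) (Or.inl rfl)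
    (D.BU g hg) hgW (D.vU _ hian) hfarW (by
      intro u hu huU huW z hzU hzW hadj
      rcases D.cover z hzU with ⟨i, hi, hzi⟩ | hzB | hzO
      · refine hcyc z i hi hzi ?_ hzW
        rcases hu with hu | hu | ⟨l, hl, hu⟩ | ⟨l, hl, hu⟩
        · exact hX1 i hi (Or.inl (by rw [← hu, ← hzi]; exact hadj))
        · exact hX1 i hi (Or.inr ⟨u, hu, by rw [← hzi]; exact hadj⟩)
        · exact hX2 l hl i hi (Or.inl (by rw [← hu, ← hzi]; exact hadj))
        · exact hX2 l hl i hi (Or.inr ⟨u, hu, by rw [← hzi]; exact hadj⟩)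
      · by_cases hzg : z = g
        · exact Or.inl hzg
        · exact absurd (hBW z hzB hzg) hzW
      · rcases hu with hu | hu | ⟨l, hl, hu⟩ | ⟨l, hl, hu⟩
        · exact Or.inr (Or.inl ⟨z, by rw [← hu]; exact hadj, Rch.refl hzO⟩)
        · exact Or.inr (Or.inl (Att.adj hu hadj hzO))
        · exact Or.inr (Or.inr (Or.inr ⟨l, hl, ⟨z, by rw [← hu]; exact hadj, Rch.refl hzO⟩⟩))
        · exact Or.inr (Or.inr (Or.inr ⟨l, hl, Att.adj hu hadj hzO⟩)))
  rcases hfin with h | h | ⟨l, hl, h⟩ | ⟨l, hl, h⟩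
  · exact D.vB _ hian (h ▸ hg)
  · exact D.vO _ hian (Att.mem h)
  · have h1 := D.cyc.inj _ hian _ (hbtwn l hl) h
    obtain ⟨a, b, h2, h3, h4, h5, h6⟩ := hl
    have h7 := cc_mono (v := v) (L := L) h2.le
    have h8 := cc_mono (v := v) (L := L) h3.le
    exact hfarX a h4 (by rw [h1]; omega)
  · exact D.vO _ hian (Att.mem h)

end

end Pool.Agent.LWC
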