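import Pool.Agent.LWC.W4

set_option autoImplicit false

/-!
# In a `(2k-2)`-connected graph any `k` independent edges lie on a common cycle, `k ≥ 2`
-/

namespace Pool.Agent.LWC

open SimpleGraph Classical

universe w

variable {V : Type w} {G : SimpleGraph V}

theorem edges_getVert {u v : V} (q : G.Walk u v) {f : Sym2 V} (h : f ∈ q.edges) :
    ∃ l < q.length, f = s(q.getVert l, q.getVert (l + 1)) := by
  induction q with
  | nil => simp at h
  | @cons a b c hadj q ih =>
    rw [Walk.edges_cons, List.mem_cons] at h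
    rcases h with h | h
    · exact ⟨0, by simp, by simpa using h⟩
    · obtain ⟨l, hl, hf⟩ := ih h
      refine ⟨l + 1, by simpa using hl, ?_⟩
      simpa using hf

/-- a closed path of length at least two as a cyclic sequence -/
theorem cyc_of_path {a b : V} (q : G.Walk b a) (hq : q.IsPath) (hab : G.Adj a b)
    (hl : 2 ≤ q.length) {L : Finset (Sym2 V)} (he : s(a, b) ∈ L)
    (hL : ∀ f ∈ L, f = s(a, b) ∨ f ∈ q.edges) : Cyc G q.getVert q.length L := by
  constructor
  · intro i hi
    exact q.adj_getVert_succ hi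
  · intro i hi j hj hij
    exact hq.getVert_injOn hi hj hij
  · rw [Walk.getVert_length, Walk.getVert_zero]; exact hab
  · rw [Walk.getVert_length, Walk.getVert_zero]; exact he
  · intro f hf
    rw [Walk.getVert_length, Walk.getVert_zero]
    rcases hL f hf with h | h
    · exact Or.inl h
    · exact Or.inr (edges_getVert q h)
  · exact hl

/-- opening a cycle at one of its edges -/
theorem cycSplit2 {a b z : V} (c : G.Walk z z) (hc : c.IsCycle) (h : s(a, b) ∈ c.edges) :
    ∃ q : G.Walk b a, q.IsPath ∧ 2 ≤ q.length ∧ (∀ x ∈ q.support, x ∈ c.support) ∧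
      ∀ e ∈ c.edges, e ≠ s(a, b) → e ∈ q.edges := by
  have hu : a ∈ c.support := Walk.fst_mem_support_of_mem_edges _ h
  have hc1 : (c.rotate a hu).IsCycle := hc.rotate hu
  have hedges : ∀ e, e ∈ (c.rotate a hu).edges ↔ e ∈ c.edges :=
    fun e => (c.rotate_edges a hu).mem_iff
  have hsupp : ∀ x, x ∈ (c.rotate a hu).support → x ∈ c.support :=
    fun x hx => (Walk.mem_support_rotate_iff c a hu).1 hx
  generalize hc' : c.rotate a hu = c' at hc1 hedges hsupp
  have hab' : s(a, b) ∈ c'.edges := (hedges _).2 h
  have hab : a ≠ b := (Walk.adj_of_mem_edges _ hab').ne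
  have hv : b ∈ c'.support := Walk.snd_mem_support_of_mem_edges _ hab'
  have hsp := c'.take_spec hv
  have hlen := congrArg Walk.length hsp
  rw [Walk.length_append] at hlen
  have h3 := hc1.three_le_length
  have hn1 : ¬ (c'.takeUntil b hv).Nil := by
    rw [Walk.nil_takeUntil]; exact hab
  have hn2 : ¬ (c'.dropUntil b hv).Nil := by
    intro hn
    exact hab hn.eq.symm
  have hcyc : ((c'.takeUntil b hv).append (c'.dropUntil b hv)).IsCycle := by
    rw [hsp]; exact hc1
  have hp1 := hcyc.isPath_of_append_left hn2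
  have hp2 := hcyc.isPath_of_append_right hn1
  have hE' : ∀ e ∈ c.edges, e ∈ (c'.takeUntil b hv).edges ∨ e ∈ (c'.dropUntil b hv).edges := by
    intro e he
    have h1 := (hedges e).2 he
    rw [← hsp, Walk.edges_append] at h1
    simpa using h1
  rcases hE' _ h with h1 | h1
  · have hlen1 := hp1.length_eq_one_of_mem_edges h1
    refine ⟨c'.dropUntil b hv, hp2, by omega, ?_, ?_⟩
    · intro x hx
      exact hsupp x (Walk.support_dropUntil_subset_support _ _ hx)
    · intro e he hne
      rcases hE' e he with h2 | h2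
      · exfalso
        obtain ⟨x, hx⟩ := List.length_eq_one_iff.1 ((c'.takeUntil b hv).length_edges.trans hlen1)
        rw [hx] at h1 h2
        simp only [List.mem_singleton] at h1 h2
        exact hne (h2.trans h1.symm)
      · exact h2
  · have hlen1 := hp2.length_eq_one_of_mem_edges (by rwa [Sym2.eq_swap])
    refine ⟨(c'.takeUntil b hv).reverse, hp1.reverse, by rw [Walk.length_reverse]; omega, ?_, ?_⟩
    · intro x hx
      rw [Walk.support_reverse, List.mem_reverse] at hx
      exact hsupp x (Walk.support_takeUntil_subset_support _ _ hx)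
    · intro e he hne
      rw [Walk.edges_reverse, List.mem_reverse]
      rcases hE' e he with h2 | h2
      · exact h2
      · exfalso
        obtain ⟨x, hx⟩ := List.length_eq_one_iff.1 ((c'.dropUntil b hv).length_edges.trans hlen1)
        rw [hx] at h1 h2
        simp only [List.mem_singleton] at h1 h2
        exact hne (h2.trans h1.symm)

theorem cyc_of_cycIn {U : Set V} {L : Finset (Sym2 V)} (h : CycIn G U L) {e : Sym2 V}
    (he : e ∈ L) : ∃ (v : ℕ → V) (n : ℕ), Cyc G v n L ∧ ∀ l ≤ n, v l ∈ U := by
  obtain ⟨z, c, hc, hcU, hcL⟩ := h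
  induction e with
  | _ a b =>
    obtain ⟨q, h1, h2, h3, h4⟩ := cycSplit2 c hc (hcL _ he)
    refine ⟨q.getVert, q.length, cyc_of_path q h1
      (Walk.adj_of_mem_edges _ (hcL _ he)) h2 he ?_, ?_⟩
    · intro f hf
      by_cases hfe : f = s(a, b)
      · exact Or.inl hfe
      · exact Or.inr (h4 f (hcL f hf) hfe)
    · intro l _
      exact hcU _ (h3 _ (q.getVert_mem_support l))

theorem liftWalk {S : Set V} {a b : S} (p : (G.induce S).Walk a b) :
    ∃ q : G.Walk a.1 b.1, ∀ x ∈ q.support, x ∈ S := by
  induction p with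
  | @nil u => exact ⟨.nil, by intro x hx; simp at hx; rw [hx]; exact u.2⟩
  | @cons u v w h p ih =>
    obtain ⟨q, hq⟩ := ih
    have h' : G.Adj u.1 v.1 := h
    refine ⟨.cons h' q, ?_⟩
    intro x hx
    rw [Walk.support_cons, List.mem_cons] at hx
    rcases hx with hx | hx
    · rw [hx]; exact u.2
    · exact hq x hx

/-- a cycle through one edge in a 2-connected graph -/
theorem oneEdge {U : Set V} (hconn : ConnU G U 2) {a b z : V} (ha : a ∈ U) (hb : b ∈ U)
    (hz : z ∈ U) (hab : G.Adj a b) (haz : z ≠ a) (hbz : z ≠ b) :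
    ∃ (v : ℕ → V) (n : ℕ), Cyc G v n {s(a, b)} ∧ ∀ l ≤ n, v l ∈ U := by
  -- a walk from `b` to `z` avoiding `a`
  have hw : ∀ a b : V, a ∈ U → b ∈ U → G.Adj a b → z ≠ a → z ≠ b →
      ∃ p : G.Walk b z, ∀ x ∈ p.support, x ∈ U ∧ x ≠ a := by
    intro a b ha hb hab haz hbz
    obtain ⟨p⟩ := (hconn {a} (by simp)).preconnected ⟨b, hb, by simpa using hab.ne.symm⟩
      ⟨z, hz, by simpa using haz⟩
    obtain ⟨q, hq⟩ := liftWalk p
    refine ⟨q, fun x hx => ⟨(hq x hx).1, ?_⟩⟩
    have := (hq x hx).2
    simpa using this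
  obtain ⟨p1, hp1⟩ := hw a b ha hb hab haz hbz
  obtain ⟨p2, hp2⟩ := hw b a hb ha hab.symm hbz haz
  let q0 := p1.append p2.reverse
  have hq0 : s(a, b) ∉ q0.edges := by
    intro h
    rw [Walk.edges_append, List.mem_append, Walk.edges_reverse, List.mem_reverse] at h
    rcases h with h | h
    · exact (hp1 a (Walk.fst_mem_support_of_mem_edges _ h)).2 rfl
    · exact (hp2 b (Walk.snd_mem_support_of_mem_edges _ h)).2 rfl
  have hq0U : ∀ x ∈ q0.support, x ∈ U := by
    intro x hx
    rcases (Walk.mem_support_append_iff _ _).1 hx with h | h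
    · exact (hp1 x h).1
    · rw [Walk.support_reverse, List.mem_reverse] at h
      exact (hp2 x h).1
  have hq : q0.bypass.IsPath := q0.bypass_isPath
  have hqe : s(a, b) ∉ q0.bypass.edges := fun h => hq0 (q0.edges_bypass_subset_edges h)
  have hlen : 2 ≤ q0.bypass.length := by
    by_contra hlt
    have h0 : q0.bypass.length ≠ 0 := fun h => hab.ne (Walk.eq_of_length_eq_zero h).symm
    have h1 : q0.bypass.length = 1 := by omega
    apply hqe
    generalize q0.bypass = r at h1
    cases r with
    | nil => simp at h1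
    | cons h r' =>
      cases r' with
      | nil => simp [Sym2.eq_swap]
      | cons h' r'' => simp at h1
  refine ⟨q0.bypass.getVert, q0.bypass.length, cyc_of_path _ hq hab hlen (by simp) ?_, ?_⟩
  · intro f hf
    exact Or.inl (by simpa using hf)
  · intro l _
    exact hq0U _ (q0.support_bypass_subset_support (Walk.getVert_mem_support _ l))

theorem closeIn {U : Set V} {E : Finset (Sym2 V)} {a b : V} (d : G.Walk a b) (hd : d.IsPath)
    (hdU : ∀ x ∈ d.support, x ∈ U) (h : G.Adj b a) (hl : 2 ≤ d.length)
    (hE : ∀ f ∈ E, f = s(b, a) ∨ f ∈ d.edges) : CycIn G U E := by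
  refine ⟨b, _, close d hd h hl, ?_, ?_⟩
  · intro x hx
    rw [Walk.support_cons, List.mem_cons] at hx
    rcases hx with hx | hx
    · rw [hx]; exact hdU _ d.end_mem_support
    · exact hdU x hx
  · intro f hf
    rw [Walk.edges_cons]
    rcases hE f hf with h | h
    · rw [h]; exact List.mem_cons_self
    · exact List.mem_cons_of_mem _ h

/-- a path with an edge different from `s(b, a)` has length at least two -/
theorem two_le_of_edge {a b : V} (d : G.Walk a b) {f : Sym2 V} (hf : f ∈ d.edges)
    (hne : f ≠ s(b, a)) : 2 ≤ d.length := by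
  cases d with
  | nil => simp at hf
  | cons h d' =>
    cases d' with
    | nil =>
      exfalso
      apply hne
      rw [Walk.edges_cons, Walk.edges_nil, List.mem_singleton] at hf
      rw [hf, Sym2.eq_swap]
    | cons h' d'' => simp

/-- the case of two edges where the cycle through the first one meets the second one -/
theorem twoMeet {U : Set V} (hconn : ConnU G U 2) {v : ℕ → V} {n : ℕ} {e1 : Sym2 V}
    (C : Cyc G v n {e1}) (hvU : ∀ l ≤ n, v l ∈ U) {x : V} (hx : x ∈ U) {j : ℕ} (hj : j ≤ n)
    (hxy : G.Adj x (v j)) (hne : e1 ≠ s(x, v j)) : CycIn G U {e1, s(x, v j)} := by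
  have hcc : ∀ i ≤ n, cc v {e1} i = 0 := by
    intro i hi
    have := cc_lt C hi
    rw [Finset.card_singleton] at this
    omega
  have hEsub : ∀ {a b : V} (d : G.Walk a b), e1 ∈ d.edges → s(x, v j) = s(b, a) →
      ∀ f ∈ ({e1, s(x, v j)} : Finset (Sym2 V)), f = s(b, a) ∨ f ∈ d.edges := by
    intro a b d h1 h2 f hf
    rw [Finset.mem_insert, Finset.mem_singleton] at hf
    rcases hf with hf | hf
    · rw [hf]; exact Or.inr h1
    · rw [hf]; exact Or.inl h2
  by_cases hxC : ∃ i ≤ n, x = v i
  · obtain ⟨i, hi, rfl⟩ := hxC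
    have hij : i ≠ j := fun h => hxy.ne (by rw [h])
    obtain ⟨Φ, f1, f2, f3, -⟩ := C.around hij hi hj ((hcc i hi).trans (hcc j hj).symm)
    have he1 := f3 e1 (Finset.mem_singleton_self _)
    refine closeIn Φ f1 ?_ hxy.symm (two_le_of_edge Φ he1 ?_) (hEsub Φ he1 Sym2.eq_swap)
    · intro z hz
      obtain ⟨l, hl, h⟩ := f2 z hz
      rw [h]; exact hvU l hl
    · rw [Sym2.eq_swap]; exact hne
  · push Not at hxC
    -- another attachment
    let O : Set V := {u | u ∈ U ∧ (∀ l ≤ n, u ≠ v l) ∧ u ≠ x}
    have hex : ∃ i ≤ n, i ≠ j ∧ Con G O x (v i) := by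
      by_contra hcon
      push Not at hcon
      have h0 : ∃ l ≤ n, l ≠ j := by
        have := C.two
        by_cases h : j = 0
        · exact ⟨1, by omega, by omega⟩
        · exact ⟨0, by omega, Ne.symm h⟩
      obtain ⟨l, hl, hlj⟩ := h0
      have hlv : v l ≠ v j := fun h => hlj (C.inj l hl j hj h)
      have hfin := hconn.closed (S := {v j}) (F := {u | u = x ∨ u ∈ Att G O x}) (by simp)
        (a := x) (b := v l) (Or.inl rfl) hx (by simpa using hxC j hj) (hvU l hl)
        (by simpa using hlv) (by
          intro u hu huU huS z hzU hzS hadj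
          by_cases hzx : z = x
          · exact Or.inl hzx
          by_cases hzC : ∃ i ≤ n, z = v i
          · exfalso
            obtain ⟨i, hi, rfl⟩ := hzC
            have hij : i ≠ j := by
              intro h
              apply hzS
              rw [h]
              exact Finset.mem_singleton_self _
            apply hcon i hi hij
            rcases hu with hu | hu
            · exact Or.inl (hu ▸ hadj)
            · exact Or.inr ⟨u, hu, hadj⟩
          · push Not at hzC
            right
            have hzO : z ∈ O := ⟨hzU, hzC, hzx⟩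
            rcases hu with hu | hu
            · exact ⟨z, hu ▸ hadj, Rch.refl hzO⟩
            · exact Att.adj hu hadj hzO)
      rcases hfin with h | h
      · exact hxC l hl h.symm
      · exact (Att.mem h).2.1 l hl rfl
    obtain ⟨i, hi, hij, hcon⟩ := hex
    obtain ⟨Φ, f1, f2, f3, -⟩ := C.around hij hi hj ((hcc i hi).trans (hcc j hj).symm)
    have he1 := f3 e1 (Finset.mem_singleton_self _)
    obtain ⟨c, c1, c2⟩ := conPath hcon (hxC i hi) (fun h => h.2.2 rfl) (fun h => h.2.1 i hi rfl)
    have hd : (c.append Φ).IsPath := by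
      refine append_isPath c1 f1 ?_
      intro z hz hz'
      obtain ⟨l, hl, h⟩ := f2 z hz'
      rcases c2 z hz with h1 | h1 | ⟨h1, -, -⟩
      · exact absurd (h1.symm.trans h) (hxC l hl)
      · exact h1
      · exact absurd h (h1.2.1 l hl)
    have he1' : e1 ∈ (c.append Φ).edges := by
      rw [Walk.edges_append, List.mem_append]; exact Or.inr he1
    refine closeIn _ hd ?_ hxy.symm (two_le_of_edge _ he1' ?_) (hEsub _ he1' Sym2.eq_swap)
    · intro z hz
      rcases (Walk.mem_support_append_iff _ _).1 hz with h | h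
      · rcases c2 z h with h1 | h1 | ⟨h1, -, -⟩
        · rw [h1]; exact hx
        · rw [h1]; exact hvU i hi
        · exact h1.1
      · obtain ⟨l, hl, h⟩ := f2 z h
        rw [h]; exact hvU l hl
    · rw [Sym2.eq_swap]; exact hne

theorem woodall [Finite V] : ∀ (k : ℕ), 2 ≤ k → ∀ (U : Set V) (L : Finset (Sym2 V)),
    L.card = k → Ind L → (∀ f ∈ L, f ∈ G.edgeSet) → (∀ f ∈ L, ∀ z ∈ f, z ∈ U) →
    ConnU G U (2 * k - 2) → CycIn G U L := by
  intro k hk
  induction k, hk using Nat.le_induction with
  | base =>
    intro U L hL hind hLG hLU hconn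
    obtain ⟨e1, e, hne, rfl⟩ := Finset.card_eq_two.1 hL
    have he1 : e1 ∈ ({e1, e} : Finset (Sym2 V)) := by simp
    have he : e ∈ ({e1, e} : Finset (Sym2 V)) := by simp
    have hdis := hind e1 he1 e he hne
    have hG1 := hLG e1 he1
    have hG2 := hLG e he
    have hU1 := hLU e1 he1
    have hU2 := hLU e he
    induction e1 with
    | _ a b =>
    induction e with
    | _ x y =>
      have hxa : x ≠ a := fun h => hdis a (Sym2.mem_mk_left _ _) (h ▸ Sym2.mem_mk_left _ _)
      have hxb : x ≠ b := fun h => hdis b (Sym2.mem_mk_right _ _) (h ▸ Sym2.mem_mk_left _ _)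
      obtain ⟨v, n, C, hvU⟩ := oneEdge (z := x) hconn (hU1 a (Sym2.mem_mk_left _ _))
        (hU1 b (Sym2.mem_mk_right _ _)) (hU2 x (Sym2.mem_mk_left _ _)) hG1 hxa hxb
      have hx := hU2 x (Sym2.mem_mk_left _ _)
      have hy := hU2 y (Sym2.mem_mk_right _ _)
      have hxy : G.Adj x y := hG2
      by_cases hyC : ∃ j ≤ n, y = v j
      · obtain ⟨j, hj, rfl⟩ := hyC
        exact twoMeet hconn C hvU hx hj hxy hne
      · by_cases hxC : ∃ j ≤ n, x = v j
        · obtain ⟨j, hj, rfl⟩ := hxC
          have h := twoMeet hconn C hvU hy hj hxy.symm (fun h => hne (h.trans Sym2.eq_swap))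
          have h2 : s(y, v j) = s(v j, y) := Sym2.eq_swap
          rw [h2] at h
          exact h
        · push Not at hyC hxC
          obtain ⟨B, b1, b2, D⟩ := exists_dat C hvU hx hy hxy hxC hyC
          have h := caseA D (by
            intro f hf f' hf' hff
            rw [Finset.mem_singleton] at hf hf'
            exact absurd (hf.trans hf'.symm) hff) (by
            rw [Finset.card_singleton]; exact hconn) b1 b2 hxy.ne
          rw [Finset.pair_comm]
          exact h
  | succ k hk ih =>
    intro U L hL hind hLG hLU hconn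
    obtain ⟨e, he⟩ := Finset.card_pos.1 (by omega : 0 < L.card)
    have hG2 := hLG e he
    have hU2 := hLU e he
    have hdis := fun f (hf : f ∈ L) (hne : f ≠ e) => hind f hf e he hne
    have hins := Finset.insert_erase he
    have hcard := Finset.card_erase_of_mem he
    rw [hL] at hcard
    induction e with
    | _ x y =>
      have hx := hU2 x (Sym2.mem_mk_left _ _)
      have hy := hU2 y (Sym2.mem_mk_right _ _)
      have hxy : G.Adj x y := hG2
      have hcxy : ({x, y} : Finset V).card ≤ 2 := Finset.card_le_two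
      have hind' : Ind (L.erase s(x, y)) := hind.subset (Finset.erase_subset _ _)
      have h1 := ih (U \ (({x, y} : Finset V) : Set V)) (L.erase s(x, y)) (by omega) hind'
        (fun f hf => hLG f (Finset.mem_of_mem_erase hf)) (by
          intro f hf z hz
          refine ⟨hLU f (Finset.mem_of_mem_erase hf) z hz, ?_⟩
          intro hzxy
          rw [Finset.coe_insert, Finset.coe_singleton] at hzxy
          have h2 := hdis f (Finset.mem_of_mem_erase hf) (Finset.ne_of_mem_erase hf) z hz
          rcases hzxy with h | h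
          · exact h2 (h ▸ Sym2.mem_mk_left _ _)
          · exact h2 (h ▸ Sym2.mem_mk_right _ _)) (hconn.sub {x, y} (by omega))
      obtain ⟨f, hf⟩ := Finset.card_pos.1 (by omega : 0 < (L.erase s(x, y)).card)
      obtain ⟨v, n, C, hv⟩ := cyc_of_cycIn h1 hf
      have hxC : ∀ l ≤ n, x ≠ v l := by
        intro l hl h
        exact (hv l hl).2 (by rw [← h]; simp)
      have hyC : ∀ l ≤ n, y ≠ v l := by
        intro l hl h
        exact (hv l hl).2 (by rw [← h]; simp)
      obtain ⟨B, b1, b2, D⟩ := exists_dat C (fun l hl => (hv l hl).1) hx hy hxy hxC hyC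
      have h := caseA D hind' (hconn.le (by omega)) b1 b2 hxy.ne
      rw [hins] at h
      exact h

end Pool.Agent.LWC
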