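import Pool.Agent.LWC.W5
import Pool.Agent.LWC.H11

set_option autoImplicit false

/-!
# Completing a `(2k-2)`-connected part does not create new cycles through `k` prescribed edges
-/

namespace Pool.Agent.LWC

open SimpleGraph Classical

universe w

variable {V : Type w} {G : SimpleGraph V}

/-- a path piece -/
structure Pce (V : Type w) where
  t : V
  s : V
  X : Set V
  F : Set (Sym2 V)

/-- `G` with a virtual edge for each piece -/
def vg (G : SimpleGraph V) (Q : List (Pce V)) : SimpleGraph V :=
  G ⊔ fromEdgeSet {e | ∃ c ∈ Q, e = s(c.t, c.s)}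

theorem le_vg (Q : List (Pce V)) : G ≤ vg G Q := le_sup_left

theorem vg_cases {Q : List (Pce V)} {e : Sym2 V} (h : e ∈ (vg G Q).edgeSet) :
    e ∈ G.edgeSet ∨ ∃ c ∈ Q, e = s(c.t, c.s) := by
  rw [vg, edgeSet_sup] at h
  rcases h with h | h
  · exact Or.inl h
  · rw [edgeSet_fromEdgeSet] at h
    exact Or.inr h.1

theorem vg_adj {Q : List (Pce V)} {c : Pce V} (hc : c ∈ Q) (hne : c.t ≠ c.s) :
    (vg G Q).Adj c.t c.s := by
  rw [vg, sup_adj]
  right
  rw [fromEdgeSet_adj]
  exact ⟨⟨c, hc, rfl⟩, hne⟩

/-- substituting pieces for virtual edges -/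
theorem substL : ∀ (Q : List (Pce V)) {W : Set V} {u v : V} (p : (vg G Q).Walk u v), p.IsPath →
    (∀ x ∈ p.support, x ∈ W) →
    (∀ c ∈ Q, PT G c.t c.s c.X c.F) → (∀ c ∈ Q, c.t ≠ c.s) →
    (∀ c ∈ Q, ∀ x ∈ c.X, x ∈ W → x = c.t ∨ x = c.s) →
    Q.Pairwise (fun c d => ∀ x ∈ c.X, x ∉ d.X) →
    ∃ r : G.Walk u v, r.IsPath ∧ (∀ x ∈ r.support, x ∈ W ∨ ∃ c ∈ Q, x ∈ c.X) ∧
      (∀ c ∈ Q, s(c.t, c.s) ∈ p.edges → ∀ f ∈ c.F, f ∈ r.edges) ∧
      ∀ f ∈ p.edges, f ∈ G.edgeSet → (∀ c ∈ Q, f ≠ s(c.t, c.s)) → f ∈ r.edges := by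
  intro Q
  induction Q with
  | nil =>
    intro W u v p hp hW _ _ _ _
    have htr : ∀ e ∈ p.edges, e ∈ G.edgeSet := by
      intro e he
      rcases vg_cases (Walk.edges_subset_edgeSet _ he) with h | ⟨c, hc, -⟩
      · exact h
      · simp at hc
    refine ⟨p.transfer G htr, hp.transfer htr, ?_, by simp, ?_⟩
    · intro x hx
      rw [Walk.support_transfer] at hx
      exact Or.inl (hW x hx)
    · intro f hf _ _
      rw [Walk.edges_transfer]; exact hf
  | cons c Q ih =>
    intro W u v p hp hW hPT hne hX hdis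
    have hcne : c.t ≠ c.s := hne c List.mem_cons_self
    obtain ⟨ρ, hρ1, hρ2, hρ3⟩ := hPT c List.mem_cons_self
    have hXc := hX c List.mem_cons_self
    have hPT' : ∀ d ∈ Q, PT G d.t d.s d.X d.F := fun d hd => hPT d (List.mem_cons_of_mem _ hd)
    have hne' : ∀ d ∈ Q, d.t ≠ d.s := fun d hd => hne d (List.mem_cons_of_mem _ hd)
    have hX' : ∀ d ∈ Q, ∀ x ∈ d.X, x ∈ W → x = d.t ∨ x = d.s :=
      fun d hd => hX d (List.mem_cons_of_mem _ hd)
    rw [List.pairwise_cons] at hdis
    -- edges of the big graph other than the first virtual edge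
    have hsmall : ∀ e ∈ (vg G (c :: Q)).edgeSet, e ≠ s(c.t, c.s) → e ∈ (vg G Q).edgeSet := by
      intro e he hee
      rcases vg_cases he with h | ⟨d, hd, h⟩
      · exact edgeSet_mono (le_vg Q) h
      · rcases List.mem_cons.1 hd with h1 | h1
        · rw [h1] at h; exact absurd h hee
        · rw [h]; exact vg_adj h1 (hne' d h1)
    have hend : ∀ d ∈ c :: Q, d.t ∈ d.X ∧ d.s ∈ d.X := fun d hd =>
      ⟨(hPT d hd).left, (hPT d hd).right⟩
    have hcQ : ∀ d ∈ Q, s(c.t, c.s) ≠ s(d.t, d.s) := by
      intro d hd h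
      have h1 := (hend c List.mem_cons_self).1
      have h2 := hend d (List.mem_cons_of_mem _ hd)
      rw [Sym2.eq_iff] at h
      rcases h with ⟨h, -⟩ | ⟨h, -⟩
      · exact hdis.1 d hd _ h1 (h ▸ h2.1)
      · exact hdis.1 d hd _ h1 (h ▸ h2.2)
    by_cases hmem : s(c.t, c.s) ∈ p.edges
    · -- general splice
      have splice : ∀ (a b : V) (A : (vg G (c :: Q)).Walk u a) (B : (vg G (c :: Q)).Walk b v)
          (hab : (vg G (c :: Q)).Adj a b), p = A.append (.cons hab B) → s(a, b) = s(c.t, c.s) →
          ∀ (σ : G.Walk a b), σ.IsPath → (∀ x ∈ σ.support, x ∈ c.X) →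
          (∀ f ∈ c.F, f ∈ σ.edges) →
          ∃ r : G.Walk u v, r.IsPath ∧ (∀ x ∈ r.support, x ∈ W ∨ ∃ c' ∈ c :: Q, x ∈ c'.X) ∧
            (∀ c' ∈ c :: Q, s(c'.t, c'.s) ∈ p.edges → ∀ f ∈ c'.F, f ∈ r.edges) ∧
            ∀ f ∈ p.edges, f ∈ G.edgeSet → (∀ c' ∈ c :: Q, f ≠ s(c'.t, c'.s)) → f ∈ r.edges := by
        intro a b A B hab hdec hsab σ hσ1 hσ2 hσ3
        have hp0 := hp
        rw [hdec] at hp0
        have hnd := hp0.isTrail.edges_nodup
        rw [Walk.edges_append, Walk.edges_cons, List.nodup_append'] at hnd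
        have hAe : s(a, b) ∉ A.edges := fun h => hnd.2.2 h List.mem_cons_self
        have hBe : s(a, b) ∉ B.edges := (List.nodup_cons.1 hnd.2.1).1
        have hAtr : ∀ e ∈ A.edges, e ∈ (vg G Q).edgeSet := fun e he =>
          hsmall e (Walk.edges_subset_edgeSet _ he) (fun h => hAe (by rw [hsab, ← h]; exact he))
        have hBtr : ∀ e ∈ B.edges, e ∈ (vg G Q).edgeSet := fun e he =>
          hsmall e (Walk.edges_subset_edgeSet _ he) (fun h => hBe (by rw [hsab, ← h]; exact he))
        have hA := hp0.of_append_left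
        have hB0 := hp0.of_append_right
        rw [Walk.cons_isPath_iff] at hB0
        have hAsub : ∀ x ∈ A.support, x ∈ W := fun x hx => hW x (by
          rw [hdec]; exact (Walk.mem_support_append_iff _ _).2 (Or.inl hx))
        have hBsub : ∀ x ∈ B.support, x ∈ W := fun x hx => hW x (by
          rw [hdec]; refine (Walk.mem_support_append_iff _ _).2 (Or.inr ?_)
          rw [Walk.support_cons]; exact List.mem_cons_of_mem _ hx)
        have hAB : ∀ x ∈ A.support, x ∉ B.support := by
          intro x hx hx'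
          have h1 : x ∈ (Walk.cons hab B).support := by
            rw [Walk.support_cons]; exact List.mem_cons_of_mem _ hx'
          by_cases hxa : x = a
          · exact hB0.2 (hxa ▸ hx')
          · exact hp0.ne_of_mem_support_of_append hxa hx h1 rfl
        have hends : ∀ x, x = c.t ∨ x = c.s → x = a ∨ x = b := by
          intro x hx
          rw [Sym2.eq_iff] at hsab
          rcases hsab with ⟨h1, h2⟩ | ⟨h1, h2⟩
          · rw [h1, h2]; exact hx
          · rw [h1, h2]; exact hx.symm
        have hinA : ∀ x ∈ A.support, x ∈ c.X → x = a := by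
          intro x hx hxX
          rcases hends x (hXc x hxX (hAsub x hx)) with h | h
          · exact h
          · exact absurd (h ▸ B.start_mem_support) (hAB x hx)
        have hinB : ∀ x ∈ B.support, x ∈ c.X → x = b := by
          intro x hx hxX
          rcases hends x (hXc x hxX (hBsub x hx)) with h | h
          · exact absurd hx (hAB x (h ▸ A.end_mem_support))
          · exact h
        -- the spliced path in the smaller graph
        let σ' : (vg G Q).Walk a b := σ.mapLe (le_vg Q)
        have hσ's : ∀ x, x ∈ σ'.support ↔ x ∈ σ.support := fun x => by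
          show x ∈ (σ.mapLe (le_vg Q)).support ↔ _
          rw [Walk.support_mapLe_eq_support]
        have hσ'e : ∀ x, x ∈ σ'.edges ↔ x ∈ σ.edges := fun x => by
          show x ∈ (σ.mapLe (le_vg Q)).edges ↔ _
          rw [Walk.edges_mapLe_eq_edges]
        have hσ'p : σ'.IsPath := (Walk.isPath_mapLe (le_vg Q)).2 hσ1
        have hq1 : (σ'.append (B.transfer _ hBtr)).IsPath := by
          refine append_isPath hσ'p (hB0.1.transfer hBtr) ?_
          intro x hx hx'
          rw [Walk.support_transfer] at hx'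
          exact hinB x hx' (hσ2 x ((hσ's x).1 hx))
        have hq : ((A.transfer _ hAtr).append (σ'.append (B.transfer _ hBtr))).IsPath := by
          refine append_isPath (hA.transfer hAtr) hq1 ?_
          intro x hx hx'
          rw [Walk.support_transfer] at hx
          rcases (Walk.mem_support_append_iff _ _).1 hx' with h | h
          · exact hinA x hx (hσ2 x ((hσ's x).1 h))
          · rw [Walk.support_transfer] at h
            exact absurd h (hAB x hx)
        have hqe : ∀ f, f ∈ ((A.transfer _ hAtr).append (σ'.append (B.transfer _ hBtr))).edges ↔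
            f ∈ A.edges ∨ f ∈ σ.edges ∨ f ∈ B.edges := by
          intro f
          rw [Walk.edges_append, Walk.edges_append, List.mem_append, List.mem_append,
            Walk.edges_transfer, Walk.edges_transfer, hσ'e]
        have hpe : ∀ f, f ∈ p.edges ↔ f ∈ A.edges ∨ f = s(c.t, c.s) ∨ f ∈ B.edges := by
          intro f
          rw [hdec, Walk.edges_append, Walk.edges_cons, List.mem_append, List.mem_cons, hsab]
        have hσG : ∀ f ∈ σ.edges, f ∈ G.edgeSet := fun f hf => Walk.edges_subset_edgeSet _ hf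
        have hσQ : ∀ f ∈ σ.edges, ∀ d ∈ Q, f ≠ s(d.t, d.s) := by
          intro f hf d hd h
          have h1 : d.t ∈ σ.support := by
            rw [h] at hf; exact Walk.fst_mem_support_of_mem_edges _ hf
          exact hdis.1 d hd _ (hσ2 _ h1) (hend d (List.mem_cons_of_mem _ hd)).1
        obtain ⟨r, hr1, hr2, hr3, hr4⟩ := ih (W := W ∪ c.X) _ hq (by
            intro x hx
            rcases (Walk.mem_support_append_iff _ _).1 hx with h | h
            · rw [Walk.support_transfer] at h; exact Or.inl (hAsub x h)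
            · rcases (Walk.mem_support_append_iff _ _).1 h with h | h
              · exact Or.inr (hσ2 x ((hσ's x).1 h))
              · rw [Walk.support_transfer] at h; exact Or.inl (hBsub x h)) hPT' hne' (by
            rintro d hd x hx (h | h)
            · exact hX' d hd x hx h
            · exact absurd hx (hdis.1 d hd x h)) hdis.2
        refine ⟨r, hr1, ?_, ?_, ?_⟩
        · intro x hx
          rcases hr2 x hx with (h | h) | ⟨d, hd, h⟩
          · exact Or.inl h
          · exact Or.inr ⟨c, List.mem_cons_self, h⟩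
          · exact Or.inr ⟨d, List.mem_cons_of_mem _ hd, h⟩
        · intro d hd hde f hf
          rcases List.mem_cons.1 hd with h1 | h1
          · rw [h1] at hf
            have hfσ := hσ3 f hf
            exact hr4 f ((hqe f).2 (Or.inr (Or.inl hfσ))) (hσG f hfσ) (hσQ f hfσ)
          · refine hr3 d h1 ((hqe _).2 ?_) f hf
            rcases (hpe _).1 hde with h | h | h
            · exact Or.inl h
            · exact absurd h.symm (hcQ d h1)
            · exact Or.inr (Or.inr h)
        · intro f hf hfG hfQ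
          refine hr4 f ((hqe f).2 ?_) hfG (fun d hd => hfQ d (List.mem_cons_of_mem _ hd))
          rcases (hpe f).1 hf with h | h | h
          · exact Or.inl h
          · exact absurd h (hfQ c List.mem_cons_self)
          · exact Or.inr (Or.inr h)
      rcases edge_split p hmem (vg_adj List.mem_cons_self hcne) with ⟨A, B, hAB⟩ | ⟨A, B, hAB⟩
      · exact splice _ _ A B _ hAB rfl ρ hρ1 hρ2 hρ3
      · refine splice _ _ A B _ hAB Sym2.eq_swap ρ.reverse hρ1.reverse ?_ ?_
        · intro x hx; exact hρ2 x (by simpa using hx)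
        · intro f hf
          rw [Walk.edges_reverse, List.mem_reverse]; exact hρ3 f hf
    · -- the first virtual edge is not used
      have htr : ∀ e ∈ p.edges, e ∈ (vg G Q).edgeSet := fun e he =>
        hsmall e (Walk.edges_subset_edgeSet _ he) (fun h => hmem (h ▸ he))
      obtain ⟨r, hr1, hr2, hr3, hr4⟩ := ih (W := W) (p.transfer _ htr) (hp.transfer htr)
        (by intro x hx; rw [Walk.support_transfer] at hx; exact hW x hx) hPT' hne' hX' hdis.2
      rw [Walk.edges_transfer] at hr3 hr4
      refine ⟨r, hr1, ?_, ?_, ?_⟩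
      · intro x hx
        rcases hr2 x hx with h | ⟨d, hd, h⟩
        · exact Or.inl h
        · exact Or.inr ⟨d, List.mem_cons_of_mem _ hd, h⟩
      · intro d hd hde f hf
        rcases List.mem_cons.1 hd with h1 | h1
        · rw [h1] at hde; exact absurd hde hmem
        · exact hr3 d h1 hde f hf
      · intro f hf hfG hfQ
        exact hr4 f hf hfG (fun d hd => hfQ d (List.mem_cons_of_mem _ hd))

end Pool.Agent.LWC
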