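import Pool.Agent.LWC.W6

set_option autoImplicit false

/-!
# Completing a `(2k-2)`-connected part (continued)
-/

namespace Pool.Agent.LWC

open SimpleGraph Classical

universe w

variable {V : Type w} {G : SimpleGraph V}

theorem PT.joinE {a b c d : V} {X Y : Set V} {F F' : Set (Sym2 V)}
    (h : PT G a b X F) (hbc : G.Adj b c) (h' : PT G c d Y F') (hd : ∀ z ∈ X, z ∉ Y) :
    PT G a d (X ∪ Y) (insert s(b, c) (F ∪ F')) := by
  obtain ⟨p, h1, h2, h3⟩ := h
  obtain ⟨q, g1, g2, g3⟩ := h'
  refine ⟨p.append (Walk.cons hbc q), ?_, ?_, ?_⟩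
  · rw [Walk.isPath_def, Walk.support_append, Walk.support_cons, List.tail_cons,
      List.nodup_append']
    refine ⟨h1.support_nodup, g1.support_nodup, ?_⟩
    intro z hz hz'
    exact hd z (h2 z hz) (g2 z hz')
  · intro z hz
    rw [Walk.support_append, Walk.support_cons, List.tail_cons, List.mem_append] at hz
    rcases hz with hz | hz
    · exact Or.inl (h2 z hz)
    · exact Or.inr (g2 z hz)
  · intro e he
    rw [Walk.edges_append, Walk.edges_cons, List.mem_append, List.mem_cons]
    rcases he with he | he | he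
    · exact Or.inr (Or.inl he)
    · exact Or.inl (h3 e he)
    · exact Or.inr (Or.inr (g3 e he))

theorem PT.consE {u u' v : V} {X : Set V} {F : Set (Sym2 V)}
    (h : PT G u' v X F) (hadj : G.Adj u u') (hu : u ∉ X) :
    PT G u v (insert u X) (insert s(u, u') F) := by
  have h1 := (h.symm.attach hadj.symm hu).symm
  have h2 : s(u', u) = s(u, u') := Sym2.eq_swap
  rwa [h2] at h1

theorem PT.single (u : V) : PT G u u {u} ∅ :=
  ⟨.nil, Walk.IsPath.nil, by intro z hz; simpa using hz, by intro e he; exact absurd he (by simp)⟩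

theorem PT.edge_mem {a b : V} {X : Set V} {F : Set (Sym2 V)} (h : PT G a b X F) {f : Sym2 V}
    (hf : f ∈ F) {z : V} (hz : z ∈ f) : z ∈ X := by
  obtain ⟨p, -, h2, h3⟩ := h
  have h4 := h3 f hf
  induction f with
  | _ x y =>
    rw [Sym2.mem_iff] at hz
    rcases hz with rfl | rfl
    · exact h2 _ (Walk.fst_mem_support_of_mem_edges _ h4)
    · exact h2 _ (Walk.snd_mem_support_of_mem_edges _ h4)

theorem pair_mem {α : Type*} {R : α → α → Prop} : ∀ {l : List α}, l.Pairwise R →
    ∀ a ∈ l, ∀ b ∈ l, a = b ∨ R a b ∨ R b a := by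
  intro l
  induction l with
  | nil => intro _ a ha; simp at ha
  | cons c l ih =>
    intro h a ha b hb
    rw [List.pairwise_cons] at h
    rcases List.mem_cons.1 ha with h1 | h1
    · rcases List.mem_cons.1 hb with h2 | h2
      · exact Or.inl (h1.trans h2.symm)
      · exact Or.inr (Or.inl (h1 ▸ h.1 b h2))
    · rcases List.mem_cons.1 hb with h2 | h2
      · exact Or.inr (Or.inr (h2 ▸ h.1 a h1))
      · exact ih h.2 a h1 b h2

theorem cycPieces [Finite V] {U : Set V} {c0 : Pce V} {Q : List (Pce V)}
    (hc1 : ConnU G U 1) (hc2 : ConnU G U (2 * (Q.length + 1) - 2))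
    (hPT : ∀ c ∈ c0 :: Q, PT G c.t c.s c.X c.F)
    (hU : ∀ c ∈ c0 :: Q, c.t ∈ U ∧ c.s ∈ U) (hne : ∀ c ∈ c0 :: Q, c.t ≠ c.s)
    (hX : ∀ c ∈ c0 :: Q, ∀ x ∈ c.X, x ∈ U → x = c.t ∨ x = c.s)
    (hdis : (c0 :: Q).Pairwise (fun c d => ∀ x ∈ c.X, x ∉ d.X))
    {E : Finset (Sym2 V)} (hE2 : 2 ≤ E.card) (hE : ∀ f ∈ E, ∃ c ∈ c0 :: Q, f ∈ c.F) :
    HasCyc G E := by
  have h0 : c0 ∈ c0 :: Q := List.mem_cons_self
  have hend : ∀ d ∈ c0 :: Q, d.t ∈ d.X ∧ d.s ∈ d.X := fun d hd =>
    ⟨(hPT d hd).left, (hPT d hd).right⟩
  -- step 1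
  have step1 : ∃ p : (vg G Q).Walk c0.s c0.t, p.IsPath ∧ (∀ x ∈ p.support, x ∈ U) ∧
      ∀ c ∈ Q, s(c.t, c.s) ∈ p.edges := by
    by_cases hQ : Q = []
    · subst hQ
      obtain ⟨p⟩ := (hc1 ∅ (by simp)).preconnected ⟨c0.s, (hU c0 h0).2, by simp⟩
        ⟨c0.t, (hU c0 h0).1, by simp⟩
      obtain ⟨q, hq⟩ := liftWalk p
      refine ⟨(q.bypass).mapLe (le_vg []), (Walk.isPath_mapLe _).2 q.bypass_isPath, ?_, by simp⟩
      intro x hx
      rw [Walk.support_mapLe_eq_support] at hx
      exact (hq x (q.support_bypass_subset_support hx)).1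
    · have hlen : 1 ≤ Q.length := by
        rcases Q with _ | ⟨c, Q⟩
        · exact absurd rfl hQ
        · simp
      let L : Finset (Sym2 V) := ((c0 :: Q).map (fun c => s(c.t, c.s))).toFinset
      have hLmem : ∀ f, f ∈ L ↔ ∃ c ∈ c0 :: Q, s(c.t, c.s) = f := by
        intro f
        simp only [L, List.mem_toFinset, List.mem_map]
      -- two pieces sharing an end are equal
      have hshare : ∀ c ∈ c0 :: Q, ∀ d ∈ c0 :: Q, ∀ z, z ∈ s(c.t, c.s) → z ∈ s(d.t, d.s) →
          s(c.t, c.s) = s(d.t, d.s) := by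
        intro c hc d hd z hz hz'
        by_contra hcd
        have hcX : z ∈ c.X := by
          rcases Sym2.mem_iff.1 hz with h | h
          · rw [h]; exact (hend c hc).1
          · rw [h]; exact (hend c hc).2
        have hdX : z ∈ d.X := by
          rcases Sym2.mem_iff.1 hz' with h | h
          · rw [h]; exact (hend d hd).1
          · rw [h]; exact (hend d hd).2
        rcases pair_mem hdis c hc d hd with h | h | h
        · exact hcd (by rw [h])
        · exact h z hcX hdX
        · exact h z hdX hcX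
      have hcardL : L.card = Q.length + 1 := by
        have hnd : ((c0 :: Q).map (fun c => s(c.t, c.s))).Nodup := by
          rw [List.nodup_iff_pairwise_ne]
          rw [List.pairwise_map]
          refine hdis.imp_of_mem ?_
          intro c d hc hd h heq
          have h1 := (hend c hc).1
          have h2 := hend d hd
          rw [Sym2.eq_iff] at heq
          rcases heq with ⟨h3, -⟩ | ⟨h3, -⟩
          · exact h _ h1 (h3 ▸ h2.1)
          · exact h _ h1 (h3 ▸ h2.2)
        rw [List.toFinset_card_of_nodup hnd, List.length_map, List.length_cons]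
      have hcyc : CycIn (vg G (c0 :: Q)) U L := by
        refine woodall (Q.length + 1) (by omega) U L hcardL ?_ ?_ ?_
          (hc2.mono (le_vg _))
        · intro e he f hf hef z hz hz'
          obtain ⟨c, hc, rfl⟩ := (hLmem e).1 he
          obtain ⟨d, hd, rfl⟩ := (hLmem f).1 hf
          exact hef (hshare c hc d hd z hz hz')
        · intro f hf
          obtain ⟨c, hc, rfl⟩ := (hLmem f).1 hf
          exact vg_adj hc (hne c hc)
        · intro f hf z hz
          obtain ⟨c, hc, rfl⟩ := (hLmem f).1 hf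
          rcases Sym2.mem_iff.1 hz with h | h
          · rw [h]; exact (hU c hc).1
          · rw [h]; exact (hU c hc).2
      obtain ⟨z, c, hc, hcU, hcL⟩ := hcyc
      have hmem0 : s(c0.t, c0.s) ∈ L := (hLmem _).2 ⟨c0, h0, rfl⟩
      obtain ⟨q, q1, q2, q3, q4⟩ := cycSplit2 c hc (hcL _ hmem0)
      have hnot : s(c0.t, c0.s) ∉ q.edges := by
        intro h
        have := q1.length_eq_one_of_mem_edges (by rwa [Sym2.eq_swap] at h)
        omega
      have htr : ∀ e ∈ q.edges, e ∈ (vg G Q).edgeSet := by
        intro e he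
        rcases vg_cases (Walk.edges_subset_edgeSet _ he) with h | ⟨d, hd, h⟩
        · exact edgeSet_mono (le_vg Q) h
        · rcases List.mem_cons.1 hd with h1 | h1
          · rw [h1] at h
            exact absurd (h ▸ he) hnot
          · rw [h]; exact vg_adj h1 (hne d (List.mem_cons_of_mem _ h1))
      refine ⟨q.transfer _ htr, q1.transfer htr, ?_, ?_⟩
      · intro x hx
        rw [Walk.support_transfer] at hx
        exact hcU x (q3 x hx)
      · intro d hd
        rw [Walk.edges_transfer]
        refine q4 _ (hcL _ ((hLmem _).2 ⟨d, List.mem_cons_of_mem _ hd, rfl⟩)) ?_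
        intro h
        rw [List.pairwise_cons] at hdis
        have h1 := hend d (List.mem_cons_of_mem _ hd)
        have h2 := (hend c0 h0).1
        rw [Sym2.eq_iff] at h
        rcases h with ⟨h3, -⟩ | ⟨-, h3⟩
        · exact hdis.1 d hd _ h2 (h3 ▸ h1.1)
        · exact hdis.1 d hd _ h2 (h3 ▸ h1.2)
  obtain ⟨p, p1, p2, p3⟩ := step1
  rw [List.pairwise_cons] at hdis
  obtain ⟨r, r1, r2, r3, -⟩ := substL Q p p1 p2 (fun c hc => hPT c (List.mem_cons_of_mem _ hc))
    (fun c hc => hne c (List.mem_cons_of_mem _ hc))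
    (fun c hc => hX c (List.mem_cons_of_mem _ hc)) hdis.2
  obtain ⟨ρ, ρ1, ρ2, ρ3⟩ := hPT c0 h0
  have hr3 : ∀ c ∈ Q, ∀ f ∈ c.F, f ∈ r.edges := fun c hc f hf => r3 c hc (p3 c hc) f hf
  obtain ⟨x, hadj, r', hreq⟩ := Walk.exists_eq_cons_of_ne (hne c0 h0).symm r
  rw [hreq] at r1 r2 hr3
  have hr' := (Walk.cons_isPath_iff _ _).1 r1
  have hd : (r'.append ρ).IsPath := by
    refine append_isPath hr'.1 ρ1 ?_
    intro z hz hz'
    have hzX := ρ2 z hz'
    rcases r2 z (by rw [Walk.support_cons]; exact List.mem_cons_of_mem _ hz) with h | ⟨d, hd, h⟩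
    · rcases hX c0 h0 z hzX h with h | h
      · exact h
      · rw [h] at hz
        exact absurd hz hr'.2
    · exact absurd h (hdis.1 d hd z hzX)
  refine hasCyc_of_close _ hd hadj hE2 ?_
  intro f hf
  rw [Walk.edges_append, List.mem_append]
  obtain ⟨c, hc, hfc⟩ := hE f hf
  rcases List.mem_cons.1 hc with h | h
  · rw [h] at hfc
    exact Or.inr (ρ3 f hfc)
  · left
    have h1 := hr3 c h f hfc
    rw [Walk.edges_cons, List.mem_cons] at h1
    rcases h1 with h1 | h1
    · exfalso
      have h2 : c0.s ∈ c.X := (hPT c hc).edge_mem hfc (by rw [h1]; exact Sym2.mem_mk_left _ _)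
      exact hdis.1 c h _ (hend c0 h0).2 h2
    · exact h1

/-- cutting a path of the completed graph at the edges of `Mq` -/
theorem brk {A : Set V} {F : Finset (Sym2 V)} (hF : ∀ f ∈ F, f ∈ G.edgeSet) :
    ∀ {u v : V} (q : (compl G A).Walk u v), q.IsPath →
    (Mq A F q = [] ∧ PT G u v {z | z ∈ q.support} {f | f ∈ F ∧ f ∈ q.edges}) ∨
    ∃ (s t : V) (X0 X1 : Set V) (F0 F1 : Set (Sym2 V)) (mids : List (Pce V)),
      PT G u s X0 F0 ∧ PT G t v X1 F1 ∧ (∀ c ∈ mids, PT G c.t c.s c.X c.F) ∧
      (∀ z ∈ X0, z ∉ X1) ∧ (∀ c ∈ mids, ∀ z ∈ X0, z ∉ c.X) ∧ (∀ c ∈ mids, ∀ z ∈ X1, z ∉ c.X) ∧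
      mids.Pairwise (fun c d => ∀ x ∈ c.X, x ∉ d.X) ∧
      (∀ z, (z ∈ X0 ∨ z ∈ X1 ∨ ∃ c ∈ mids, z ∈ c.X) → z ∈ q.support) ∧
      (∀ f ∈ F, f ∈ q.edges → f ∈ F0 ∨ f ∈ F1 ∨ ∃ c ∈ mids, f ∈ c.F) ∧
      (s :: t :: mids.flatMap (fun c => [c.t, c.s])).Perm (fl (Mq A F q)) := by
  intro u v q
  induction q with
  | @nil u =>
    intro _
    left
    refine ⟨rfl, .nil, Walk.IsPath.nil, by intro z hz; exact hz, ?_⟩
    rintro f ⟨-, hf⟩
    simp at hf
  | @cons u u' v h q ih =>
    intro hq
    have hq' := (Walk.cons_isPath_iff _ _).1 hq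
    by_cases hc : s(u, u') ∉ F ∧ u ∈ A ∧ u' ∈ A
    · right
      have hM : Mq A F (Walk.cons h q) = (u, u') :: Mq A F q := by rw [Mq, if_pos hc]
      rw [hM, fl_cons]
      rcases ih hq'.1 with ⟨h1, h2⟩ | ⟨s, t, X0, X1, F0, F1, mids, a1, a2, a3, a4, a5, a6, a7,
        a8, a9, a10⟩
      · refine ⟨u, u', {u}, {z | z ∈ q.support}, ∅, {f | f ∈ F ∧ f ∈ q.edges}, [], PT.single u, h2,
          by simp, ?_, by simp, by simp, List.Pairwise.nil, ?_, ?_, ?_⟩
        · intro z hz hz'
          rw [Set.mem_singleton_iff] at hz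
          subst hz
          exact hq'.2 hz'
        · rintro z (hz | hz | ⟨c, hc, -⟩)
          · rw [Set.mem_singleton_iff] at hz
            subst hz
            exact Walk.start_mem_support _
          · rw [Walk.support_cons]; exact List.mem_cons_of_mem _ hz
          · simp at hc
        · intro f hf hfe
          rw [Walk.edges_cons, List.mem_cons] at hfe
          rcases hfe with hfe | hfe
          · exact absurd (hfe ▸ hf) hc.1
          · exact Or.inr (Or.inl ⟨hf, hfe⟩)
        · rw [h1]; simp [fl]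
      · have huq : ∀ z, (z ∈ X0 ∨ z ∈ X1 ∨ ∃ c ∈ mids, z ∈ c.X) → z ≠ u := by
          intro z hz hzu
          exact hq'.2 (hzu ▸ a8 z hz)
        refine ⟨u, t, {u}, X1, ∅, F1, ⟨u', s, X0, F0⟩ :: mids, PT.single u, a2, ?_, ?_, ?_, ?_, ?_,
          ?_, ?_, ?_⟩
        · intro c hc'
          rcases List.mem_cons.1 hc' with h1 | h1
          · subst h1; exact a1
          · exact a3 c h1
        · intro z hz hz'
          exact huq z (Or.inr (Or.inl hz')) hz
        · intro c hc' z hz hz'
          rcases List.mem_cons.1 hc' with h1 | h1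
          · subst h1; exact huq z (Or.inl hz') hz
          · exact huq z (Or.inr (Or.inr ⟨c, h1, hz'⟩)) hz
        · intro c hc' z hz hz'
          rcases List.mem_cons.1 hc' with h1 | h1
          · subst h1; exact a4 z hz' hz
          · exact a6 c h1 z hz hz'
        · rw [List.pairwise_cons]
          exact ⟨fun d hd x hx => a5 d hd x hx, a7⟩
        · rintro z (hz | hz | ⟨c, hc', hz⟩)
          · rw [Set.mem_singleton_iff] at hz
            subst hz
            exact Walk.start_mem_support _
          · rw [Walk.support_cons]; exact List.mem_cons_of_mem _ (a8 z (Or.inr (Or.inl hz)))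
          · rw [Walk.support_cons]
            apply List.mem_cons_of_mem
            rcases List.mem_cons.1 hc' with h1 | h1
            · subst h1; exact a8 z (Or.inl hz)
            · exact a8 z (Or.inr (Or.inr ⟨c, h1, hz⟩))
        · intro f hf hfe
          rw [Walk.edges_cons, List.mem_cons] at hfe
          rcases hfe with hfe | hfe
          · exact absurd (hfe ▸ hf) hc.1
          · rcases a9 f hf hfe with h1 | h1 | ⟨c, hc', h1⟩
            · exact Or.inr (Or.inr ⟨_, List.mem_cons_self, h1⟩)
            · exact Or.inr (Or.inl h1)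
            · exact Or.inr (Or.inr ⟨c, List.mem_cons_of_mem _ hc', h1⟩)
        · -- the ends
          rw [List.flatMap_cons]
          refine List.Perm.cons u ?_
          have h1 : (t :: ([u', s] ++ mids.flatMap (fun c => [c.t, c.s]))).Perm
              (u' :: (s :: t :: mids.flatMap (fun c => [c.t, c.s]))) := by
            show (t :: u' :: s :: mids.flatMap (fun c => [c.t, c.s])).Perm _
            refine (List.Perm.swap u' t _).trans (List.Perm.cons u' ?_)
            exact List.Perm.swap s t _
          exact h1.trans (List.Perm.cons u' a10)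
    · have hadj : G.Adj u u' := by
        by_cases he : s(u, u') ∈ F
        · exact hF _ he
        · rcases h with h1 | h1
          · exact h1
          · exact absurd ⟨he, h1.2⟩ hc
      have hM : Mq A F (Walk.cons h q) = Mq A F q := by rw [Mq, if_neg hc]
      rw [hM]
      rcases ih hq'.1 with ⟨h1, h2⟩ | ⟨s, t, X0, X1, F0, F1, mids, a1, a2, a3, a4, a5, a6, a7,
        a8, a9, a10⟩
      · left
        refine ⟨h1, (h2.consE hadj hq'.2).mono ?_ ?_⟩
        · rintro z (hz | hz)
          · rw [hz]; exact Walk.start_mem_support _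
          · show z ∈ (Walk.cons h q).support
            rw [Walk.support_cons]; exact List.mem_cons_of_mem _ hz
        · rintro f ⟨hf, hfe⟩
          rw [Walk.edges_cons, List.mem_cons] at hfe
          rcases hfe with hfe | hfe
          · exact Or.inl hfe
          · exact Or.inr ⟨hf, hfe⟩
      · right
        have huq : ∀ z, (z ∈ X0 ∨ z ∈ X1 ∨ ∃ c ∈ mids, z ∈ c.X) → z ≠ u := by
          intro z hz hzu
          exact hq'.2 (hzu ▸ a8 z hz)
        refine ⟨s, t, insert u X0, X1, insert s(u, u') F0, F1, mids,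
          a1.consE hadj (fun hh => huq u (Or.inl hh) rfl), a2, a3, ?_, ?_, a6, a7, ?_, ?_, a10⟩
        · rintro z (hz | hz) hz'
          · exact huq z (Or.inr (Or.inl hz')) hz
          · exact a4 z hz hz'
        · rintro c hc' z (hz | hz) hz'
          · exact huq z (Or.inr (Or.inr ⟨c, hc', hz'⟩)) hz
          · exact a5 c hc' z hz hz'
        · rintro z ((hz | hz) | hz | hz)
          · rw [hz]; exact Walk.start_mem_support _
          · rw [Walk.support_cons]; exact List.mem_cons_of_mem _ (a8 z (Or.inl hz))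
          · rw [Walk.support_cons]; exact List.mem_cons_of_mem _ (a8 z (Or.inr (Or.inl hz)))
          · rw [Walk.support_cons]; exact List.mem_cons_of_mem _ (a8 z (Or.inr (Or.inr hz)))
        · intro f hf hfe
          rw [Walk.edges_cons, List.mem_cons] at hfe
          rcases hfe with hfe | hfe
          · exact Or.inl (Or.inl hfe)
          · rcases a9 f hf hfe with h1 | h1
            · exact Or.inl (Or.inr h1)
            · exact Or.inr h1

/-- at most one vertex or one pair of each segment lies in `A` -/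
theorem nA_le2 {K : SimpleGraph V} {A : Set V} {E : Finset (Sym2 V)} :
    ∀ {u v : V} (q : K.Walk u v), Tight A E q →
      nA A q ≤ (Mq A E q).length + nE E q + min 1 (sg A E q) := by
  intro u v q
  induction q with
  | @nil u =>
    intro _
    rw [sg, nA, nE, Mq]
    by_cases hu : u ∈ A <;> simp [hu]
  | @cons u u' v h q ih =>
    intro ht
    have h1 := ih ht.tail
    have h3 : nA A (Walk.cons h q) = (if u ∈ A then 1 else 0) + nA A q := by
      rw [nA, nA, Walk.support_cons, List.filter_cons]
      by_cases hu : u ∈ A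
      · simp [hu]; ring
      · simp [hu]
    have h4 : nE E (Walk.cons h q) = (if s(u, u') ∈ E then 1 else 0) + nE E q := by
      rw [nE, nE, Walk.edges_cons, List.filter_cons]
      by_cases hu : s(u, u') ∈ E
      · simp [hu]; ring
      · simp [hu]
    have h5 : u ∈ A → u' ∉ A → s(u, u') ∉ E → sg A E q = 0 := by
      intro hu hu' he
      by_contra hne
      obtain ⟨y, r, q2, h6, h7, h8⟩ := sg_one (A := A) (E := E) q (by omega)
      have h9 := ht u y .nil (.cons h r) q2 (by rw [h6]; rfl) hu h7 (by
        intro e hee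
        rw [Walk.edges_cons] at hee
        rcases List.mem_cons.1 hee with h4 | h4
        · rw [h4]; exact he
        · exact h8 e h4)
      rw [Walk.length_cons] at h9
      have h10 : r.length = 0 := by omega
      have h11 := Walk.eq_of_length_eq_zero h10
      exact hu' (h11 ▸ h7)
    have h6 : (Mq A E (Walk.cons h q)).length =
        (if s(u, u') ∉ E ∧ u ∈ A ∧ u' ∈ A then 1 else 0) + (Mq A E q).length := by
      rw [Mq]
      split_ifs with hc
      · rw [List.length_cons]; ring
      · ring
    rw [h3, h4, sg, h6]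
    by_cases he : s(u, u') ∈ E
    · by_cases hu : u ∈ A
      · simp only [he, hu, not_true_eq_false, false_and, if_true, if_false]
        omega
      · simp only [he, hu, not_true_eq_false, false_and, if_true, if_false]
        omega
    · by_cases hu : u ∈ A
      · by_cases hu' : u' ∈ A
        · simp only [he, hu, hu', not_false_eq_true, and_self, if_true, if_false]
          omega
        · have h7 := h5 hu hu' he
          simp only [he, hu, hu', not_false_eq_true, and_false, if_true, if_false]
          omega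
      · simp only [he, hu, not_false_eq_true, false_and, and_false, if_false]
        omega

end Pool.Agent.LWC
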