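import Pool.Agent.LWC.W7
import Pool.Agent.LWC.E

set_option autoImplicit false

/-!
# The closure with completion of `(2k-2)`-connected parts
-/

namespace Pool.Agent.LWC

open SimpleGraph Classical

universe w

variable {V : Type w}

/-- Completing a `(2k-2)`-connected part. -/
theorem connStep [Finite V] {G H : SimpleGraph V} {A : Set V} {k : ℕ}
    (hA : ConnU G A (2 * k - 2))
    (hGH : ∀ a b, H.Adj a b → G.Adj a b ∨ (a ∈ A ∧ b ∈ A)) {E : Finset (Sym2 V)} (hk : 2 ≤ k)
    (hE : E.card = k) (hEG : ∀ e ∈ E, e ∈ G.edgeSet) (hc : HasCyc H E) : HasCyc G E := by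
  have hle : H ≤ compl G A := by
    intro a b h
    rcases hGH a b h with h1 | h1
    · exact Or.inl h1
    · exact Or.inr ⟨h.ne, h1.1, h1.2⟩
  obtain ⟨w, c, hcyc, hcE⟩ := hc.mono hle
  obtain ⟨e0, he0⟩ := Finset.card_pos.1 (by omega : 0 < E.card)
  obtain ⟨a, b, rfl⟩ : ∃ a b, e0 = s(a, b) := by
    induction e0 with | _ a b => exact ⟨a, b, rfl⟩
  obtain ⟨q0, hq0, hq0E⟩ := cycSplit c hcyc (hcE _ he0)
  have hab : G.Adj a b := hEG _ he0
  -- a shortest path
  let F := E.erase s(a, b)
  have hF : F.card + 1 = k := by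
    rw [← hE]; exact Finset.card_erase_add_one he0
  have hex : ∃ n : ℕ, ∃ q : (compl G A).Walk b a, q.IsPath ∧ (∀ e ∈ F, e ∈ q.edges) ∧
      q.length = n := ⟨_, q0, hq0, fun e he => hq0E e (hcE e (Finset.mem_of_mem_erase he))
        (Finset.ne_of_mem_erase he), rfl⟩
  obtain ⟨q, hq, hqF, hqn⟩ := Nat.find_spec hex
  have hmin : ∀ q' : (compl G A).Walk b a, q'.IsPath → (∀ e ∈ F, e ∈ q'.edges) →
      q.length ≤ q'.length := by
    intro q' h1 h2
    rw [hqn]
    exact Nat.find_min' hex ⟨q', h1, h2, rfl⟩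
  have ht := tight_of_min (A := A) (fun a b h1 h2 h3 => Or.inr ⟨h1, h2, h3⟩) q hq hqF hmin
  have hFG : ∀ e ∈ F, e ∈ G.edgeSet := fun e he => hEG e (Finset.mem_of_mem_erase he)
  -- counting
  have h1 := nA_le2 q ht
  have h3 : nE F q ≤ F.card := by
    rw [nE]
    have hnd := (hq.isTrail.edges_nodup).filter (fun x => decide (x ∈ F))
    rw [← List.toFinset_card_of_nodup hnd]
    apply Finset.card_le_card
    intro e he
    rw [List.mem_toFinset, List.mem_filter] at he
    simpa using he.2
  have hnd := nodup_Mq q hq ht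
  have hMm := mem_Mq (A := A) (E := F) q
  rcases brk (A := A) hFG q hq with ⟨-, h4⟩ | ⟨s, t, X0, X1, F0, F1, mids, a1, a2, a3, a4, a5, a6,
    a7, a8, a9, a10⟩
  · -- no virtual edge
    obtain ⟨p, p1, -, p3⟩ := h4
    obtain ⟨e1, he1⟩ := Finset.card_pos.1 (by omega : 0 < F.card)
    refine ⟨a, _, close p p1 hab (two_le_of_edge p (p3 e1 ⟨he1, hqF e1 he1⟩)
      (Finset.ne_of_mem_erase he1)), ?_⟩
    intro e he
    rw [Walk.edges_cons]
    by_cases h : e = s(a, b)
    · rw [h]; exact List.mem_cons_self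
    · have heF : e ∈ F := Finset.mem_erase.2 ⟨h, he⟩
      exact List.mem_cons_of_mem _ (p3 e ⟨heF, hqF e heF⟩)
  · -- the number of virtual edges
    have hlen : mids.length + 1 = (Mq A F q).length := by
      have h5 := a10.length_eq
      rw [length_fl, List.length_cons, List.length_cons, List.length_flatMap] at h5
      simp at h5
      omega
    -- the single vertices
    let S0 : Finset V := q.support.toFinset.filter (fun z => z ∈ A ∧ z ∉ fl (Mq A F q))
    have hS0 : S0.card + 2 * (Mq A F q).length = nA A q := by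
      have h5 : nA A q = (q.support.toFinset.filter (fun z => z ∈ A)).card := by
        rw [nA, ← List.toFinset_card_of_nodup (hq.support_nodup.filter _)]
        congr 1
        ext z
        simp
      have h6 : (fl (Mq A F q)).toFinset ⊆ q.support.toFinset.filter (fun z => z ∈ A) := by
        intro z hz
        rw [List.mem_toFinset] at hz
        rw [Finset.mem_filter, List.mem_toFinset]
        exact hMm z hz
      have h7 : S0 = (q.support.toFinset.filter (fun z => z ∈ A)) \ (fl (Mq A F q)).toFinset := by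
        ext z
        simp only [S0, Finset.mem_filter, Finset.mem_sdiff, List.mem_toFinset]
        tauto
      rw [h7, Finset.card_sdiff_of_subset h6, List.toFinset_card_of_nodup hnd, length_fl, h5]
      have h8 := Finset.card_le_card h6
      rw [List.toFinset_card_of_nodup hnd, length_fl] at h8
      omega
    have hcount : S0.card + (Mq A F q).length ≤ k := by omega
    let U : Set V := A \ (S0 : Set V)
    have hUmem : ∀ z, z ∈ U → z ∈ q.support → z ∈ s :: t :: mids.flatMap (fun c => [c.t, c.s]) := by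
      rintro z ⟨hzA, hzS⟩ hzq
      rw [a10.mem_iff]
      by_contra hz
      apply hzS
      exact Finset.mem_coe.2 (Finset.mem_filter.2 ⟨List.mem_toFinset.2 hzq, hzA, hz⟩)
    have hUin : ∀ z, z ∈ s :: t :: mids.flatMap (fun c => [c.t, c.s]) → z ∈ U := by
      intro z hz
      rw [a10.mem_iff] at hz
      refine ⟨(hMm z hz).2, ?_⟩
      intro h
      exact (Finset.mem_filter.1 (Finset.mem_coe.1 h)).2.2 hz
    have hnd' := a10.nodup_iff.2 hnd
    rw [List.nodup_cons, List.nodup_cons] at hnd'
    obtain ⟨n1, n2, n3⟩ := hnd'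
    -- the first piece
    have hc0 : PT G t s (X1 ∪ X0) (insert s(a, b) (F1 ∪ F0)) :=
      a2.joinE hab a1 (fun z hz hz' => a4 z hz' hz)
    let c0 : Pce V := ⟨t, s, X1 ∪ X0, insert s(a, b) (F1 ∪ F0)⟩
    have hmidmem : ∀ c ∈ mids, c.t ∈ mids.flatMap (fun c => [c.t, c.s]) ∧
        c.s ∈ mids.flatMap (fun c => [c.t, c.s]) := by
      intro c hc
      constructor <;> rw [List.mem_flatMap] <;> exact ⟨c, hc, by simp⟩
    have hdisj : (c0 :: mids).Pairwise (fun c d => ∀ x ∈ c.X, x ∉ d.X) := by
      rw [List.pairwise_cons]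
      refine ⟨?_, a7⟩
      rintro d hd x (hx | hx)
      · exact a6 d hd x hx
      · exact a5 d hd x hx
    have hPTall : ∀ c ∈ c0 :: mids, PT G c.t c.s c.X c.F := by
      intro c hc
      rcases List.mem_cons.1 hc with h | h
      · rw [h]; exact hc0
      · exact a3 c h
    have hsup : ∀ c ∈ c0 :: mids, ∀ x ∈ c.X, x ∈ q.support := by
      intro c hc x hx
      rcases List.mem_cons.1 hc with h | h
      · rw [h] at hx
        rcases hx with hx | hx
        · exact a8 x (Or.inr (Or.inl hx))
        · exact a8 x (Or.inl hx)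
      · exact a8 x (Or.inr (Or.inr ⟨c, h, hx⟩))
    refine cycPieces (c0 := c0) (Q := mids) (U := U) (hA.sub S0 (by omega))
      (hA.sub S0 (by omega)) hPTall ?_ ?_ ?_ hdisj (by omega : 2 ≤ E.card) ?_
    · intro c hc
      rcases List.mem_cons.1 hc with h | h
      · rw [h]
        exact ⟨hUin t (by simp), hUin s (by simp)⟩
      · obtain ⟨g1, g2⟩ := hmidmem c h
        exact ⟨hUin _ (List.mem_cons_of_mem _ (List.mem_cons_of_mem _ g1)),
          hUin _ (List.mem_cons_of_mem _ (List.mem_cons_of_mem _ g2))⟩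
    · intro c hc
      rcases List.mem_cons.1 hc with h | h
      · rw [h]
        intro hts
        exact n1 (by rw [List.mem_cons]; exact Or.inl hts.symm)
      · intro hts
        have h5 : ([c.t, c.s] : List V).Nodup := by
          rw [List.nodup_flatMap] at n3
          exact n3.1 c h
        simp at h5
        exact h5 hts
    · intro c hc x hx hxU
      have h5 := hUmem x hxU (hsup c hc x hx)
      -- `x` is an end of some piece
      have h6 : ∃ d ∈ c0 :: mids, x = d.t ∨ x = d.s := by
        rcases List.mem_cons.1 h5 with h | h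
        · exact ⟨c0, List.mem_cons_self, Or.inr h⟩
        · rcases List.mem_cons.1 h with h | h
          · exact ⟨c0, List.mem_cons_self, Or.inl h⟩
          · rw [List.mem_flatMap] at h
            obtain ⟨d, hd, h⟩ := h
            exact ⟨d, List.mem_cons_of_mem _ hd, by simpa using h⟩
      obtain ⟨d, hd, h7⟩ := h6
      have hxd : x ∈ d.X := by
        rcases h7 with h | h
        · rw [h]; exact (hPTall d hd).left
        · rw [h]; exact (hPTall d hd).right
      rcases pair_mem hdisj c hc d hd with h | h | h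
      · rw [h]; exact h7
      · exact absurd hxd (h x hx)
      · exact absurd hx (h x hxd)
    · intro f hf
      by_cases h : f = s(a, b)
      · exact ⟨c0, List.mem_cons_self, Or.inl h⟩
      · have hfF : f ∈ F := Finset.mem_erase.2 ⟨h, hf⟩
        rcases a9 f hfF (hqF f hfF) with h | h | ⟨c, hc, h⟩
        · exact ⟨c0, List.mem_cons_self, Or.inr (Or.inr h)⟩
        · exact ⟨c0, List.mem_cons_self, Or.inr (Or.inl h)⟩
        · exact ⟨c, List.mem_cons_of_mem _ hc, h⟩

/-- One step of the closure. -/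
def KStep (k : ℕ) (G H : SimpleGraph V) : Prop :=
  (∃ u v : V, k ≤ (G.commonNeighbors u v).ncard ∧ H = G ⊔ edge u v) ∨
    (∃ A : Set V, ConnU G A (2 * k - 2) ∧ G ≤ H ∧
      ∀ a b, H.Adj a b → G.Adj a b ∨ (a ∈ A ∧ b ∈ A))

theorem KStep.le {k : ℕ} {G H : SimpleGraph V} (h : KStep k G H) : G ≤ H := by
  rcases h with ⟨u, v, -, rfl⟩ | ⟨A, -, h, -⟩
  · exact le_sup_left
  · exact h

theorem le_of_ksteps {k : ℕ} {G H : SimpleGraph V} (h : Relation.ReflTransGen (KStep k) G H) :
    G ≤ H := by
  induction h with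
  | refl => exact le_rfl
  | tail _ h ih => exact ih.trans h.le

theorem KStep.hasCyc [Finite V] {k : ℕ} {G H : SimpleGraph V} (h : KStep k G H)
    {E : Finset (Sym2 V)} (hk : 2 ≤ k) (hE : E.card = k) (hEG : ∀ e ∈ E, e ∈ G.edgeSet)
    (hc : HasCyc H E) : HasCyc G E := by
  rcases h with h | ⟨A, hA, -, hGH⟩
  · exact Step.hasCyc h hk hE hEG hc
  · exact connStep hA hGH hk hE hEG hc

theorem hasCyc_iff_k [Finite V] {k : ℕ} {G H : SimpleGraph V}
    (h : Relation.ReflTransGen (KStep k) G H) {E : Finset (Sym2 V)} (hk : 2 ≤ k) (hE : E.card = k)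
    (hEG : ∀ e ∈ E, e ∈ G.edgeSet) : HasCyc G E ↔ HasCyc H E := by
  refine ⟨fun hh => hh.mono (le_of_ksteps h), ?_⟩
  intro hh
  induction h with
  | refl => exact hh
  | tail hs h ih =>
    exact ih (h.hasCyc hk hE (fun e he => edgeSet_mono (le_of_ksteps hs) (hEG e he)) hh)

/-- completing all classes of `σ` with index in `S` -/
def compS {m : ℕ} (H : SimpleGraph V) (σ : V → Fin m) (S : Finset (Fin m)) : SimpleGraph V where
  Adj a b := H.Adj a b ∨ (a ≠ b ∧ σ a = σ b ∧ σ a ∈ S)
  symm := ⟨fun a b h => by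
    rcases h with h | ⟨h1, h2, h3⟩
    · exact Or.inl h.symm
    · exact Or.inr ⟨h1.symm, h2.symm, h2 ▸ h3⟩⟩
  loopless := ⟨fun a h => by
    rcases h with h | ⟨h1, -⟩
    · exact h.ne rfl
    · exact h1 rfl⟩

theorem compSteps_k {m k : ℕ} {H : SimpleGraph V} {σ : V → Fin m}
    (hσ : ∀ i, ConnU H {v | σ v = i} (2 * k - 2) ∨ H.IsClique {v | σ v = i})
    (S : Finset (Fin m)) : Relation.ReflTransGen (KStep k) H (compS H σ S) := by
  induction S using Finset.induction_on with
  | empty =>
    have : compS H σ ∅ = H := by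
      ext a b
      constructor
      · rintro (h | ⟨-, -, h⟩)
        · exact h
        · exact absurd h (Finset.notMem_empty _)
      · exact fun h => Or.inl h
    rw [this]
  | @insert i S hi ih =>
    have hle : compS H σ S ≤ compS H σ (insert i S) := by
      rintro a b (h | ⟨h1, h2, h3⟩)
      · exact Or.inl h
      · exact Or.inr ⟨h1, h2, Finset.mem_insert_of_mem h3⟩
    rcases hσ i with h | h
    · refine ih.tail (Or.inr ⟨{v | σ v = i}, h.mono (fun a b h => Or.inl h), hle, ?_⟩)
      rintro a b (h | ⟨h1, h2, h3⟩)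
      · exact Or.inl (Or.inl h)
      · rcases Finset.mem_insert.1 h3 with h4 | h4
        · exact Or.inr ⟨h4, (show σ b = i from h2.symm.trans h4)⟩
        · exact Or.inl (Or.inr ⟨h1, h2, h4⟩)
    · have : compS H σ (insert i S) = compS H σ S := by
        apply le_antisymm _ hle
        rintro a b (h' | ⟨h1, h2, h3⟩)
        · exact Or.inl h'
        · rcases Finset.mem_insert.1 h3 with h4 | h4
          · exact Or.inl (h h4 (show σ b = i from h2.symm.trans h4) h1)
          · exact Or.inr ⟨h1, h2, h4⟩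
      rw [this]
      exact ih

theorem partsMain_k [Fintype V] {G H : SimpleGraph V} {m k : ℕ} {E : Finset (Sym2 V)}
    {σ : V → Fin m} (hk : 2 ≤ k)
    (hconn : ∀ S : Finset V, S.card < k → (G.induce ((S : Set V)ᶜ)).Connected)
    (hstep : Relation.ReflTransGen (KStep k) G H)
    (hσ : ∀ i, ConnU H {v | σ v = i} (2 * k - 2) ∨ H.IsClique {v | σ v = i})
    (hm : m ≤ 2 ∨ (12 * (m + 1) ^ 2 ≤ k ∧ ∀ v, k ≤ {u | σ u = σ v}.ncard))
    (hE : ∀ e ∈ E, e ∈ G.edgeSet) (hcard : E.card = k) (hind : Ind E) (hno : ¬ HasCyc G E) :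
    Odd k ∧ ¬ (G.deleteEdges (E : Set (Sym2 V))).Connected := by
  have hst : Relation.ReflTransGen (KStep k) G (compS H σ Finset.univ) :=
    hstep.trans (compSteps_k hσ Finset.univ)
  have hle := le_of_ksteps hst
  have hno' : ¬ HasCyc (compS H σ Finset.univ) E :=
    fun h => hno ((hasCyc_iff_k hst hk hcard hE).2 h)
  have hE' : ∀ e ∈ E, e ∈ (compS H σ Finset.univ).edgeSet := fun e he => edgeSet_mono hle (hE e he)
  have hadj : ∀ a b, a ≠ b → σ a = σ b → (compS H σ Finset.univ).Adj a b :=
    fun a b h1 h2 => Or.inr ⟨h1, h2, Finset.mem_univ _⟩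
  rcases hm with hm | ⟨hm, hbig⟩
  · have h2 : Two (compS H σ Finset.univ) (fun v => decide ((σ v).val = 0)) := by
      intro a b hab hs
      apply hadj a b hab
      have hs' : (σ a).val = 0 ↔ (σ b).val = 0 := by simpa using hs
      apply Fin.ext
      have ha := (σ a).isLt
      have hb := (σ b).isLt
      by_cases h0 : (σ a).val = 0
      · rw [h0, hs'.1 h0]
      · have h0' : (σ b).val ≠ 0 := fun h => h0 (hs'.2 h)
        omega
    obtain ⟨h3, h4⟩ := twoCliques ⟨h2, hk, conn_mono hle hconn, hE', hcard, hind⟩ hno'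
    exact ⟨h3, del_mono hle _ h4⟩
  · have hm1 : 1 ≤ m := by
      obtain ⟨e0, he0⟩ := Finset.card_pos.1 (by omega : 0 < E.card)
      induction e0 with | _ a b => exact Nat.lt_of_le_of_lt (Nat.zero_le _) (σ a).isLt
    obtain ⟨h3, h4⟩ := manyCliques (G := compS H σ Finset.univ) (σ := σ) hm1 hm hadj (by
        calc (Finset.univ.image σ).card ≤ (Finset.univ : Finset (Fin m)).card :=
              Finset.card_le_card (Finset.subset_univ _)
          _ = m := by simp) (conn_mono hle hconn) (by
        intro v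
        have h := hbig v
        rw [← Set.ncard_coe_finset]
        convert h using 2
        ext u
        simp) hE' hcard hind hno'
    exact ⟨h3, del_mono hle _ h4⟩

end Pool.Agent.LWC
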